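import Pool.Agent.X145.ML.CritN

/-!
Common zeros modulo `p` of an irreducible polynomial and a polynomial which it does not divide: their number is at
most `C p ^ (n - 2)`, uniformly in `p`.
-/

set_option autoImplicit false

namespace Pool.Agent.X145.S3

open Finset Pool.Agent.X145.ML

theorem det_deg {σ K : Type} [Field K] {N : ℕ} (M : Matrix (Fin N) (Fin N) (MvPolynomial σ K)) (D : ℕ)
    (h : ∀ i j, (M i j).totalDegree ≤ D) : M.det.totalDegree ≤ N * D := by
  classical
  rw [Matrix.det_apply]
  refine (MvPolynomial.totalDegree_finsetSum _ _).trans ?_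
  refine Finset.sup_le fun s _ => ?_
  have h1 : (∏ i, M (s i) i).totalDegree ≤ N * D := by
    refine (MvPolynomial.totalDegree_finsetProd _ _).trans ?_
    refine (Finset.sum_le_sum fun i _ => h _ _).trans ?_
    simp
  rcases Int.units_eq_one_or (Equiv.Perm.sign s) with hs | hs
  · rw [hs, one_smul]
    exact h1
  · rw [hs, Units.neg_smul, one_smul, MvPolynomial.totalDegree_neg]
    exact h1

section

variable {p : ℕ} [hp : Fact p.Prime]

theorem card_succ (n : ℕ) (S : (Fin (n + 1) → ZMod p) → Prop) [DecidablePred S] :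
    (univ.filter S).card = ∑ z : Fin n → ZMod p,
      (univ.filter (fun y : ZMod p => S (Fin.cons y z))).card := by
  classical
  rw [Finset.card_filter]
  have e1 : ∀ z : Fin n → ZMod p, (univ.filter (fun y : ZMod p => S (Fin.cons y z))).card =
      ∑ y : ZMod p, if S (Fin.cons y z) then 1 else 0 := fun z => Finset.card_filter _ _
  rw [Finset.sum_congr rfl fun z _ => e1 z, ← Finset.sum_product', Finset.univ_product_univ]
  refine (Fintype.sum_equiv ((Equiv.prodComm _ _).trans (Fin.consEquiv (fun _ => ZMod p))) _ _
    fun z => ?_).symm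
  rfl

theorem deg_pos {n : ℕ} (f : MvPolynomial (Fin n) (ZMod p)) (hf : Irreducible f) :
    1 ≤ f.totalDegree := by
  by_contra hcon
  have h0 : f.totalDegree = 0 := by omega
  rw [MvPolynomial.totalDegree_eq_zero_iff_eq_C] at h0
  have h1 : f.coeff 0 ≠ 0 := by
    intro h
    rw [h, map_zero] at h0
    exact hf.ne_zero h0
  apply hf.not_isUnit
  rw [h0]
  exact (isUnit_iff_ne_zero.mpr h1).map MvPolynomial.C

end

/-- the assertion in `n` variables -/
def CZ (n : ℕ) : Prop := ∀ D : ℕ, ∃ C : ℕ, ∀ (p : ℕ) (_ : Fact p.Prime)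
  (f g : MvPolynomial (Fin n) (ZMod p)), Irreducible f → ¬ f ∣ g → f.totalDegree ≤ D →
  g.totalDegree ≤ D →
  p * (p * (univ.filter (fun z : Fin n → ZMod p => MvPolynomial.eval z f = 0 ∧
    MvPolynomial.eval z g = 0)).card) ≤ C * p ^ n

open Classical in
theorem fam (n : ℕ) (h : CZ n) (D : ℕ) : ∃ C : ℕ, ∀ (p : ℕ) (_ : Fact p.Prime)
    (P : Polynomial (MvPolynomial (Fin n) (ZMod p))), P.IsPrimitive →
    (∀ i, (P.coeff i).totalDegree ≤ D) →
    p * (p * (univ.filter (fun z : Fin n → ZMod p => ∀ i,
      MvPolynomial.eval z (P.coeff i) = 0)).card) ≤ C * p ^ n := by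
  classical
  obtain ⟨C, hC⟩ := h D
  refine ⟨D * C, fun p hp P hP hD => ?_⟩
  obtain ⟨S, hS⟩ : ∃ S : Finset (Fin n → ZMod p), S = univ.filter (fun z : Fin n → ZMod p => ∀ i,
      MvPolynomial.eval z (P.coeff i) = 0) := ⟨_, rfl⟩
  have hlc : P.leadingCoeff ≠ 0 := by
    rw [Ne, Polynomial.leadingCoeff_eq_zero]
    exact hP.ne_zero
  have key : ∀ c : MvPolynomial (Fin n) (ZMod p), c ≠ 0 → c ∣ P.leadingCoeff →
      p * (p * (S.filter (fun z => MvPolynomial.eval z c = 0)).card) ≤
        c.totalDegree * C * p ^ n := by
    intro c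
    refine WfDvdMonoid.induction_on_irreducible (motive := fun c : MvPolynomial (Fin n) (ZMod p) =>
      c ≠ 0 → c ∣ P.leadingCoeff →
      p * (p * (S.filter (fun z => MvPolynomial.eval z c = 0)).card) ≤
        c.totalDegree * C * p ^ n) c ?_ ?_ ?_
    · intro h0
      exact absurd rfl h0
    · intro u hu _ _
      have h1 : (S.filter (fun z => MvPolynomial.eval z u = 0)) = ∅ := by
        rw [Finset.filter_eq_empty_iff]
        intro z _ h2
        exact (hu.map (MvPolynomial.eval z)).ne_zero h2
      rw [h1, card_empty]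
      simp
    · intro a i ha hi IH h0 hdv
      have h1 := IH ha ((dvd_mul_left a i).trans hdv)
      have hiD : i.totalDegree ≤ D := by
        obtain ⟨b, hb⟩ := (dvd_mul_right i a).trans hdv
        have hb0 : b ≠ 0 := by
          rintro rfl
          rw [mul_zero] at hb
          exact hlc hb
        have h2 : (i * b).totalDegree = i.totalDegree + b.totalDegree :=
          MvPolynomial.totalDegree_mul_of_isDomain hi.ne_zero hb0
        have h3 : (P.leadingCoeff).totalDegree ≤ D := hD _
        rw [hb, h2] at h3
        omega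
      obtain ⟨j, hj⟩ : ∃ j, ¬ i ∣ P.coeff j := by
        by_contra hcon
        push Not at hcon
        exact hi.not_isUnit (hP i (Polynomial.C_dvd_iff_dvd_coeff _ _ |>.mpr hcon))
      have h2 := hC p hp i (P.coeff j) hi hj hiD (hD j)
      have h3 : (S.filter (fun z => MvPolynomial.eval z (i * a) = 0)).card ≤
          (univ.filter (fun z : Fin n → ZMod p => MvPolynomial.eval z i = 0 ∧
            MvPolynomial.eval z (P.coeff j) = 0)).card +
          (S.filter (fun z => MvPolynomial.eval z a = 0)).card := by
        refine (card_le_card ?_).trans (card_union_le _ _)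
        intro z hz
        rw [mem_filter, map_mul, mul_eq_zero] at hz
        rw [mem_union, mem_filter, mem_filter]
        rcases hz.2 with h4 | h4
        · left
          refine ⟨mem_univ _, h4, ?_⟩
          have h5 := hz.1
          rw [hS, mem_filter] at h5
          exact h5.2 j
        · right
          exact ⟨hz.1, h4⟩
      have h4 : (i * a).totalDegree = i.totalDegree + a.totalDegree :=
        MvPolynomial.totalDegree_mul_of_isDomain hi.ne_zero ha
      have h5 := deg_pos i hi
      calc _ ≤ p * (p * ((univ.filter (fun z : Fin n → ZMod p => MvPolynomial.eval z i = 0 ∧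
            MvPolynomial.eval z (P.coeff j) = 0)).card +
          (S.filter (fun z => MvPolynomial.eval z a = 0)).card)) :=
            Nat.mul_le_mul_left _ (Nat.mul_le_mul_left _ h3)
        _ = p * (p * (univ.filter (fun z : Fin n → ZMod p => MvPolynomial.eval z i = 0 ∧
            MvPolynomial.eval z (P.coeff j) = 0)).card) +
            p * (p * (S.filter (fun z => MvPolynomial.eval z a = 0)).card) := by ring
        _ ≤ C * p ^ n + a.totalDegree * C * p ^ n := Nat.add_le_add h2 h1
        _ = (1 + a.totalDegree) * C * p ^ n := by ring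
        _ ≤ (i * a).totalDegree * C * p ^ n := by
            rw [h4]
            exact Nat.mul_le_mul_right _ (Nat.mul_le_mul_right _ (by omega))
  have h1 := key P.leadingCoeff hlc dvd_rfl
  have h2 : S.filter (fun z => MvPolynomial.eval z P.leadingCoeff = 0) = S := by
    rw [Finset.filter_eq_self]
    intro z hz
    rw [hS, mem_filter] at hz
    exact hz.2 _
  rw [h2] at h1
  rw [← hS]
  refine h1.trans ?_
  exact Nat.mul_le_mul_right _ (Nat.mul_le_mul_right _ (hD _))

theorem cz_zero : CZ 0 := by
  intro D
  refine ⟨0, fun p hp f g hf _ _ _ => ?_⟩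
  exfalso
  have h1 := deg_pos f hf
  rw [MvPolynomial.eq_C_of_isEmpty f, MvPolynomial.totalDegree_C] at h1
  omega

theorem cz_succ (n : ℕ) (h : CZ n) : CZ (n + 1) := by
  classical
  intro D
  obtain ⟨C1, hC1⟩ := h D
  obtain ⟨C2, hC2⟩ := fam n h D
  refine ⟨C1 + D * D + C2 + D * (2 * D * D), fun p hp f g hf hfg hfD hgD => ?_⟩
  obtain ⟨P, hP⟩ : ∃ P, P = MvPolynomial.finSuccEquiv (ZMod p) n f := ⟨_, rfl⟩
  obtain ⟨Q, hQ⟩ : ∃ Q, Q = MvPolynomial.finSuccEquiv (ZMod p) n g := ⟨_, rfl⟩
  have hPi : Irreducible P := by
    rw [hP]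
    exact (MulEquiv.irreducible_iff (MvPolynomial.finSuccEquiv (ZMod p) n)).2 hf
  have hPQ : ¬ P ∣ Q := by
    rw [hP, hQ]
    intro hd
    exact hfg ((map_dvd_iff (MvPolynomial.finSuccEquiv (ZMod p) n)).1 hd)
  have coeffD : ∀ (f : MvPolynomial (Fin (n + 1)) (ZMod p)), f.totalDegree ≤ D → ∀ i,
      ((MvPolynomial.finSuccEquiv (ZMod p) n f).coeff i).totalDegree ≤ D := by
    intro f hf i
    by_cases h0 : (MvPolynomial.finSuccEquiv (ZMod p) n f).coeff i = 0
    · rw [h0, MvPolynomial.totalDegree_zero]
      exact Nat.zero_le _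
    · have := MvPolynomial.totalDegree_coeff_finSuccEquiv_add_le f i h0
      omega
  have natD : ∀ (f : MvPolynomial (Fin (n + 1)) (ZMod p)), f.totalDegree ≤ D →
      (MvPolynomial.finSuccEquiv (ZMod p) n f).natDegree ≤ D := by
    intro f hf
    rw [MvPolynomial.natDegree_finSuccEquiv]
    exact (MvPolynomial.degreeOf_le_totalDegree f 0).trans hf
  have hPc : ∀ i, (P.coeff i).totalDegree ≤ D := by rw [hP]; exact coeffD f hfD
  have hQc : ∀ i, (Q.coeff i).totalDegree ≤ D := by rw [hQ]; exact coeffD g hgD
  have hPn : P.natDegree ≤ D := by rw [hP]; exact natD f hfD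
  have hQn : Q.natDegree ≤ D := by rw [hQ]; exact natD g hgD
  obtain ⟨N, hN⟩ : ∃ N : (Fin n → ZMod p) → ℕ, N = fun z => (univ.filter (fun y : ZMod p =>
    Polynomial.eval y (Polynomial.map (MvPolynomial.eval z) P) = 0 ∧
    Polynomial.eval y (Polynomial.map (MvPolynomial.eval z) Q) = 0)).card := ⟨_, rfl⟩
  have hsum : (univ.filter (fun z : Fin (n + 1) → ZMod p => MvPolynomial.eval z f = 0 ∧
      MvPolynomial.eval z g = 0)).card = ∑ z : Fin n → ZMod p, N z := by
    rw [card_succ]
    refine Finset.sum_congr rfl fun z _ => ?_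
    rw [hN, hP, hQ]
    simp only [MvPolynomial.eval_eq_eval_mv_eval']
  have hNp : ∀ z, N z ≤ p := by
    intro z
    rw [hN]
    exact (card_le_univ _).trans (by rw [ZMod.card])
  have roots : ∀ (T : Polynomial (ZMod p)), T ≠ 0 → T.natDegree ≤ D →
      (univ.filter (fun y : ZMod p => Polynomial.eval y T = 0)).card ≤ D := by
    intro T hT hTD
    have h1 : (univ.filter (fun y : ZMod p => Polynomial.eval y T = 0)) ⊆ T.roots.toFinset := by
      intro y hy
      rw [mem_filter] at hy
      rw [Multiset.mem_toFinset, Polynomial.mem_roots hT]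
      exact hy.2
    exact (card_le_card h1).trans ((Multiset.toFinset_card_le _).trans
      ((Polynomial.card_roots' T).trans hTD))
  have hND : ∀ z, (Polynomial.map (MvPolynomial.eval z) P ≠ 0 ∨
      Polynomial.map (MvPolynomial.eval z) Q ≠ 0) → N z ≤ D := by
    intro z hz
    rw [hN]
    rcases hz with hz | hz
    · refine (card_le_card fun y hy => ?_).trans (roots _ hz ((Polynomial.natDegree_map_le).trans hPn))
      rw [mem_filter] at hy ⊢
      exact ⟨hy.1, hy.2.1⟩
    · refine (card_le_card fun y hy => ?_).trans (roots _ hz ((Polynomial.natDegree_map_le).trans hQn))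
      rw [mem_filter] at hy ⊢
      exact ⟨hy.1, hy.2.2⟩
  have cardV : Fintype.card (Fin n → ZMod p) = p ^ n := by
    rw [Fintype.card_fun, ZMod.card, Fintype.card_fin]
  -- the general bound
  have gen : ∀ (R : MvPolynomial (Fin n) (ZMod p)) (B : (Fin n → ZMod p) → Prop) [DecidablePred B]
      (E Cb : ℕ),
      R ≠ 0 → R.totalDegree ≤ E →
      (∀ z, MvPolynomial.eval z R ≠ 0 → N z = 0) → (∀ z, ¬ B z → N z ≤ D) →
      p * (p * (univ.filter B).card) ≤ Cb * p ^ n →
      p * (p * ∑ z : Fin n → ZMod p, N z) ≤ (Cb + D * E) * p ^ (n + 1) := by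
    intro R B _ E Cb hR hRE h1 h2 h3
    have h4 : ∀ z, N z ≤ p * (if B z then 1 else 0) +
        D * (if MvPolynomial.eval z R = 0 then 1 else 0) := by
      intro z
      by_cases hz : MvPolynomial.eval z R = 0
      · by_cases hb : B z
        · simp only [hz, hb, if_true, mul_one]
          exact (hNp z).trans (Nat.le_add_right _ _)
        · simp only [hz, hb, if_true, if_false, mul_one, mul_zero, zero_add]
          exact h2 z hb
      · rw [h1 z hz]
        exact Nat.zero_le _
    have h5 : ∑ z : Fin n → ZMod p, N z ≤ p * (univ.filter B).card +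
        D * (univ.filter (fun z : Fin n → ZMod p => MvPolynomial.eval z R = 0)).card := by
      refine (Finset.sum_le_sum fun z _ => h4 z).trans ?_
      rw [Finset.sum_add_distrib, ← Finset.mul_sum, ← Finset.mul_sum, ← Finset.card_filter,
        ← Finset.card_filter]
    have h6 := sz R hR
    rw [cardV] at h6
    have h7 : p * (univ.filter (fun z : Fin n → ZMod p => MvPolynomial.eval z R = 0)).card ≤
        E * p ^ n := h6.trans (Nat.mul_le_mul_right _ hRE)
    calc _ ≤ p * (p * (p * (univ.filter B).card +
          D * (univ.filter (fun z : Fin n → ZMod p => MvPolynomial.eval z R = 0)).card)) :=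
          Nat.mul_le_mul_left _ (Nat.mul_le_mul_left _ h5)
      _ = p * (p * (p * (univ.filter B).card)) + D * p *
          (p * (univ.filter (fun z : Fin n → ZMod p => MvPolynomial.eval z R = 0)).card) := by ring
      _ ≤ p * (Cb * p ^ n) + D * p * (E * p ^ n) :=
          Nat.add_le_add (Nat.mul_le_mul_left _ h3) (Nat.mul_le_mul_left _ h7)
      _ = _ := by ring
  rw [hsum]
  by_cases hd : P.natDegree = 0
  · -- `f` does not contain the first variable
    obtain ⟨a, ha⟩ : ∃ a, P = Polynomial.C a := ⟨_, Polynomial.eq_C_of_natDegree_eq_zero hd⟩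
    have hai : Irreducible a := by
      rw [ha] at hPi
      refine ⟨fun hu => hPi.not_isUnit (hu.map Polynomial.C), fun b c hbc => ?_⟩
      have := hPi.isUnit_or_isUnit (a := Polynomial.C b) (b := Polynomial.C c) (by rw [hbc, map_mul])
      rwa [Polynomial.isUnit_C, Polynomial.isUnit_C] at this
    have haD : a.totalDegree ≤ D := by
      have := hPc 0
      rwa [ha, Polynomial.coeff_C_zero] at this
    obtain ⟨i, hi⟩ : ∃ i, ¬ a ∣ Q.coeff i := by
      by_contra hcon
      push Not at hcon
      apply hPQ
      rw [ha]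
      exact (Polynomial.C_dvd_iff_dvd_coeff _ _).mpr hcon
    have h1 := gen a (fun z => MvPolynomial.eval z a = 0 ∧ MvPolynomial.eval z (Q.coeff i) = 0)
      D C1 hai.ne_zero haD (by
        intro z hz
        rw [hN]
        rw [Finset.card_eq_zero, Finset.filter_eq_empty_iff]
        rintro y _ ⟨h1, -⟩
        rw [ha, Polynomial.map_C, Polynomial.eval_C] at h1
        exact hz h1) (by
        intro z hz
        by_cases hza : MvPolynomial.eval z a = 0
        · refine hND z (Or.inr fun h0 => hz ⟨hza, ?_⟩)
          rw [← Polynomial.coeff_map, h0, Polynomial.coeff_zero]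
        · refine hND z (Or.inl fun h0 => hza ?_)
          rw [ha, Polynomial.map_C] at h0
          exact Polynomial.C_eq_zero.mp h0)
      (hC1 p hp a (Q.coeff i) hai hi haD (hQc i))
    refine h1.trans (Nat.mul_le_mul_right _ (by omega))
  · -- the resultant
    have hprim : P.IsPrimitive := hPi.isPrimitive hd
    obtain ⟨R, hR⟩ : ∃ R, R = Polynomial.resultant P Q := ⟨_, rfl⟩
    have hR0 : R ≠ 0 := by
      let L := FractionRing (MvPolynomial (Fin n) (ZMod p))
      have hirr : Irreducible (P.map (algebraMap (MvPolynomial (Fin n) (ZMod p)) L)) :=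
        (hprim.irreducible_iff_irreducible_map_fraction_map (K := L)).1 hPi
      have hnd : ¬ P.map (algebraMap (MvPolynomial (Fin n) (ZMod p)) L) ∣
          Q.map (algebraMap (MvPolynomial (Fin n) (ZMod p)) L) := by
        intro hdv
        exact hPQ (hprim.dvd_of_fraction_map_dvd_fraction_map hdv)
      have hcop : IsCoprime (P.map (algebraMap (MvPolynomial (Fin n) (ZMod p)) L))
          (Q.map (algebraMap (MvPolynomial (Fin n) (ZMod p)) L)) :=
        (hirr.coprime_iff_not_dvd).2 hnd
      have h1 := Polynomial.resultant_ne_zero _ _ hcop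
      have hinj : Function.Injective (algebraMap (MvPolynomial (Fin n) (ZMod p)) L) :=
        IsFractionRing.injective _ _
      rw [Polynomial.natDegree_map_eq_of_injective hinj,
        Polynomial.natDegree_map_eq_of_injective hinj, Polynomial.resultant_map_map, ← hR] at h1
      intro h2
      rw [h2, map_zero] at h1
      exact h1 rfl
    have hRD : R.totalDegree ≤ 2 * D * D := by
      rw [hR]
      unfold Polynomial.resultant
      refine (det_deg _ D fun i j => ?_).trans (Nat.mul_le_mul_right _ (by omega))
      unfold Polynomial.sylvester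
      rw [Matrix.of_apply]
      induction j using Fin.addCases with
      | left j =>
        rw [Fin.addCases_left]
        split_ifs
        · exact hQc _
        · rw [MvPolynomial.totalDegree_zero]
          exact Nat.zero_le _
      | right j =>
        rw [Fin.addCases_right]
        split_ifs
        · exact hPc _
        · rw [MvPolynomial.totalDegree_zero]
          exact Nat.zero_le _
    obtain ⟨U, V, -, -, hUV⟩ := Polynomial.exists_mul_add_mul_eq_C_resultant P Q le_rfl le_rfl
      (Or.inl hd)
    rw [← hR] at hUV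
    have h1 := gen R (fun z => ∀ i, MvPolynomial.eval z (P.coeff i) = 0) (2 * D * D) C2 hR0 hRD
      (by
        intro z hz
        rw [hN]
        rw [Finset.card_eq_zero, Finset.filter_eq_empty_iff]
        rintro y _ ⟨h1, h2⟩
        apply hz
        have h3 := congrArg (fun T => Polynomial.eval y (Polynomial.map (MvPolynomial.eval z) T)) hUV
        simp only [Polynomial.map_add, Polynomial.map_mul, Polynomial.eval_add, Polynomial.eval_mul,
          h1, h2, zero_mul, add_zero, Polynomial.map_C, Polynomial.eval_C] at h3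
        exact h3.symm) (by
        intro z hz
        refine hND z (Or.inl fun h0 => hz fun i => ?_)
        rw [← Polynomial.coeff_map, h0, Polynomial.coeff_zero])
      (hC2 p hp P hprim hPc)
    refine h1.trans (Nat.mul_le_mul_right _ (by omega))

theorem cz (n : ℕ) : CZ n := by
  induction n with
  | zero => exact cz_zero
  | succ n ih => exact cz_succ n ih

end Pool.Agent.X145.S3
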