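import Pool.Agent.X145.S3.Crit
import Pool.Agent.X145.S3.CZ

/-!
Families of admissible polynomials.
-/

set_option autoImplicit false

namespace Pool.Agent.X145.S3

open Finset
open Pool.Agent.H256R2.SC (ff)
open Pool.Agent.Y837.SV (rp rp_eval rp_int rp_degree)

/-- For large primes `p` and all `r` modulo `p` which are not roots of a fixed polynomial, `F - r` is
irreducible modulo `p` and has about `p ^ (n - 1)` zeros. -/
def Good {n : ℕ} (F : MvPolynomial (Fin n) ℤ) : Prop :=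
  ∃ (E : Polynomial ℤ) (C δ : ℝ) (B : ℕ), E ≠ 0 ∧ 0 ≤ C ∧ 0 < δ ∧
    ∀ p : ℕ, ∀ _ : Fact p.Prime, B < p → ∀ r : ZMod p, ev p E r ≠ 0 →
      Irreducible (rp p F - MvPolynomial.C r) ∧
      |(p : ℝ) * ((univ.filter (fun x : Fin n → ZMod p =>
        MvPolynomial.eval x (rp p F) = r)).card : ℝ) - (p : ℝ) ^ n| ≤
        C * (p : ℝ) ^ n * (p : ℝ) ^ (-δ)

theorem pair_bound {n : ℕ} (F G : MvPolynomial (Fin n) ℤ) (E E' : Polynomial ℤ) (B B' : ℕ)
    (hF : ∀ p : ℕ, ∀ _ : Fact p.Prime, B < p → ∀ r : ZMod p, ev p E r ≠ 0 →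
      Irreducible (rp p F - MvPolynomial.C r))
    (hG : ∀ p : ℕ, ∀ _ : Fact p.Prime, B' < p → ∀ r : ZMod p, ev p E' r ≠ 0 →
      Irreducible (rp p G - MvPolynomial.C r))
    (e e' : Fin n →₀ ℕ) (he : e ≠ 0) (he' : e' ≠ 0)
    (hw : F.coeff e * G.coeff e' - F.coeff e' * G.coeff e ≠ 0) :
    ∃ C : ℝ, 0 ≤ C ∧ ∃ B₀ : ℕ, ∀ p : ℕ, ∀ _ : Fact p.Prime, B₀ < p →
      ∀ r s : ZMod p, ev p E r ≠ 0 → ev p E' s ≠ 0 →
      (p : ℝ) ^ 2 * ((univ.filter (fun x : Fin n → ZMod p => MvPolynomial.eval x (rp p F) = r ∧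
        MvPolynomial.eval x (rp p G) = s)).card : ℝ) ≤ C * (p : ℝ) ^ n := by
  classical
  obtain ⟨C, hC⟩ := cz n (F.totalDegree + G.totalDegree)
  refine ⟨C, Nat.cast_nonneg _, B + B' + (F.coeff e * G.coeff e' - F.coeff e' * G.coeff e).natAbs, ?_⟩
  intro p hp hBp r s hr hs
  have h1 := hF p hp (by omega) r hr
  have h2 := hG p hp (by omega) s hs
  have hcoe : ∀ (F : MvPolynomial (Fin n) ℤ) (r : ZMod p) (e : Fin n →₀ ℕ), e ≠ 0 →
      (rp p F - MvPolynomial.C r).coeff e = ((F.coeff e : ℤ) : ZMod p) := by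
    intro F r e he
    rw [MvPolynomial.coeff_sub, MvPolynomial.coeff_C, if_neg (Ne.symm he), sub_zero, rp,
      MvPolynomial.coeff_map]
    rfl
  have hdeg : ∀ (F : MvPolynomial (Fin n) ℤ) (r : ZMod p),
      (rp p F - MvPolynomial.C r).totalDegree ≤ F.totalDegree := by
    intro F r
    refine (MvPolynomial.totalDegree_sub _ _).trans ?_
    rw [MvPolynomial.totalDegree_C]
    exact max_le (rp_degree F) (Nat.zero_le _)
  have h3 : ¬ (rp p F - MvPolynomial.C r) ∣ (rp p G - MvPolynomial.C s) := by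
    rintro ⟨u, hu⟩
    have h4 : IsUnit u := by
      rcases h2.isUnit_or_isUnit hu with h5 | h5
      · exact absurd h5 h1.not_isUnit
      · exact h5
    obtain ⟨a, ha⟩ : ∃ a : ZMod p, u = MvPolynomial.C a := by
      have h5 := (MvPolynomial.isUnit_iff_totalDegree_of_isReduced.1 h4).2
      exact ⟨_, MvPolynomial.totalDegree_eq_zero_iff_eq_C.1 h5⟩
    have h6 : ∀ e : Fin n →₀ ℕ, e ≠ 0 → ((G.coeff e : ℤ) : ZMod p) = ((F.coeff e : ℤ) : ZMod p) * a := by
      intro e he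
      rw [← hcoe G s e he, ← hcoe F r e he, hu, ha, mul_comm (rp p F - _), MvPolynomial.coeff_C_mul,
        mul_comm]
    have h7 : ((F.coeff e * G.coeff e' - F.coeff e' * G.coeff e : ℤ) : ZMod p) = 0 := by
      push_cast
      rw [h6 e he, h6 e' he']
      ring
    rw [ZMod.intCast_zmod_eq_zero_iff_dvd] at h7
    have h8 := Nat.le_of_dvd (Int.natAbs_pos.2 hw) (Int.natCast_dvd.1 h7)
    omega
  have h4 := hC p hp _ _ h1 h3 ((hdeg F r).trans (Nat.le_add_right _ _))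
    ((hdeg G s).trans (Nat.le_add_left _ _))
  have h5 : (univ.filter (fun x : Fin n → ZMod p => MvPolynomial.eval x (rp p F) = r ∧
        MvPolynomial.eval x (rp p G) = s)).card =
      (univ.filter (fun z : Fin n → ZMod p => MvPolynomial.eval z (rp p F - MvPolynomial.C r) = 0 ∧
        MvPolynomial.eval z (rp p G - MvPolynomial.C s) = 0)).card := by
    congr 1
    ext x
    simp only [mem_filter, map_sub, MvPolynomial.eval_C, sub_eq_zero]
  rw [h5]
  obtain ⟨N, hN⟩ : ∃ N, N = (univ.filter (fun z : Fin n → ZMod p =>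
    MvPolynomial.eval z (rp p F - MvPolynomial.C r) = 0 ∧
        MvPolynomial.eval z (rp p G - MvPolynomial.C s) = 0)).card := ⟨_, rfl⟩
  have h6 : p * (p * N) ≤ C * p ^ n := by
    rw [hN]
    convert h4
  rw [← hN]
  have h7 : (p : ℝ) * ((p : ℝ) * (N : ℝ)) ≤ (C : ℝ) * (p : ℝ) ^ n := by exact_mod_cast h6
  rw [sq, mul_assoc]
  exact h7

/-- **Record neighbourhoods around the values of families of admissible polynomials.** -/
theorem family {ι : Type} [Fintype ι] (n : ℕ) (F : ι → MvPolynomial (Fin n) ℤ)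
    (hF : ∀ j, Good (F j)) (hnc : ∀ j, ∀ c : ℤ, F j ≠ MvPolynomial.C c) :
    ∃ c : ℝ, 0 < c ∧ ∃ Z₀ : ℝ, ∀ Z : ℕ, Z₀ ≤ Z → ∀ M : Fin n → ℤ, ∃ x : Fin n → ℤ,
      (∀ i, M i < x i ∧ x i ≤ M i + Z) ∧ ∀ j, ∀ n : ℤ, |(n : ℝ) - MvPolynomial.eval x (F j)| ≤ c * ff Z →
        ∃ p : ℕ, p.Prime ∧ (p : ℝ) ≤ (Z : ℝ) ^ (1 / 10 : ℝ) ∧ (p : ℤ) ∣ n := by
  classical
  choose E C δ B hE0 hC hδ h using hF
  have hFe : ∀ j, ∃ e : Fin n →₀ ℕ, e ≠ 0 ∧ (F j).coeff e ≠ 0 := by
    intro j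
    by_contra hcon
    push Not at hcon
    apply hnc j ((F j).coeff 0)
    ext e
    rw [MvPolynomial.coeff_C]
    by_cases he : 0 = e
    · rw [if_pos he, he]
    · rw [if_neg he]
      exact hcon e (Ne.symm he)
  refine critB n F hnc E hE0 ?_ ?_
  · intro j
    refine ⟨C j, δ j, hC j, hδ j, B j, fun p hp hBp r hr => ?_⟩
    have := (h j p hp hBp r hr).2
    convert this
  · intro i j hij
    obtain ⟨e, he, hce⟩ := hFe i
    obtain ⟨e', he', hw⟩ : ∃ e' : Fin n →₀ ℕ, e' ≠ 0 ∧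
        (F i).coeff e * (F j).coeff e' - (F i).coeff e' * (F j).coeff e ≠ 0 := by
      by_contra hcon
      push Not at hcon
      obtain ⟨e₂, he₂, hce₂⟩ := hFe j
      have hje : (F j).coeff e ≠ 0 := by
        intro h0
        have h1 := hcon e₂ he₂
        rw [h0, mul_zero, sub_zero] at h1
        exact mul_ne_zero hce hce₂ h1
      apply hij
      refine ⟨(F j).coeff e, (F i).coeff e,
        (F i).coeff 0 * (F j).coeff e - (F i).coeff e * (F j).coeff 0, hje, hce, ?_⟩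
      ext e'
      rw [MvPolynomial.coeff_add, MvPolynomial.coeff_C_mul, MvPolynomial.coeff_C_mul,
        MvPolynomial.coeff_C]
      by_cases h0 : 0 = e'
      · rw [if_pos h0, ← h0]
        ring
      · rw [if_neg h0, add_zero]
        have := hcon e' (Ne.symm h0)
        linarith
    obtain ⟨C₀, hC₀, B₀, hb⟩ := pair_bound (F i) (F j) (E i) (E j) (B i) (B j)
      (fun p hp hBp r hr => (h i p hp hBp r hr).1) (fun p hp hBp r hr => (h j p hp hBp r hr).1)
      e e' he he' hw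
    refine ⟨C₀, hC₀, B₀, fun p hp hBp r s hr hs => ?_⟩
    have := hb p hp hBp r s hr hs
    convert this

end Pool.Agent.X145.S3
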