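import Pool.Agent.X145.S3.Quad
import Pool.Agent.Y837.SW.Asm

/-!
Weighted homogeneous polynomials are admissible.
-/

set_option autoImplicit false
set_option linter.unusedSectionVars false

namespace Pool.Agent.X145.S3

open Finset Polynomial
open Pool.Agent.Y837.SV (rp rp_eval rp_int rp_degree)

/-- a prime factor of positive degree in `v` -/
theorem exists_factor {n : ℕ} {k : Type} [Field k] (v : Fin n) (F : MvPolynomial (Fin n) k)
    (hF : 0 < (ln v F).natDegree) : ∃ q, Prime q ∧ q ∣ F ∧ 0 < (ln v q).natDegree := by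
  induction F using UniqueFactorizationMonoid.induction_on_prime with
  | h₁ =>
    rw [map_zero, natDegree_zero] at hF
    exact absurd hF (lt_irrefl _)
  | h₂ x hx =>
    have h1 := natDegree_eq_zero_of_isUnit (hx.map (ln v))
    omega
  | h₃ a q ha hq ih =>
    rcases Nat.eq_zero_or_pos (ln v q).natDegree with h0 | h0
    · have h1 : 0 < (ln v a).natDegree := by
        rw [map_mul, natDegree_mul (ln_inj v q hq.ne_zero) (ln_inj v a ha), h0, zero_add] at hF
        exact hF
      obtain ⟨q', h2, h3, h4⟩ := ih h1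
      exact ⟨q', h2, h3.mul_left q, h4⟩
    · exact ⟨q, hq, Dvd.intro _ rfl, h0⟩

/-- the substitution of `m` for the variable `v` -/
noncomputable def th {n : ℕ} (v : Fin n) (m : ℤ) : MvPolynomial (Fin n) ℤ →+* MvPolynomial (Fin n) ℤ :=
  (evalRingHom (MvPolynomial.C m)).comp (ln v)

theorem th_free {n : ℕ} (v : Fin n) (m : ℤ) (a : MvPolynomial (Fin n) ℤ) (ha : v ∉ a.vars) :
    th v m a = a := by
  unfold th
  rw [RingHom.comp_apply, ln_of_free v a ha]
  simp

theorem th_vars {n : ℕ} (v : Fin n) (m : ℤ) (a : MvPolynomial (Fin n) ℤ) : v ∉ (th v m a).vars := by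
  classical
  have h : th v m = (MvPolynomial.bind₁ (R := ℤ) (fun i => if i = v then MvPolynomial.C m else
      MvPolynomial.X i)).toRingHom := by
    ext i
    · simp [th]
    · by_cases hi : i = v
      · rw [hi]
        simp [th, ln_X_self]
      · simp [th, ln_X_ne v i hi, hi]
  intro hv
  have h2 : th v m a = MvPolynomial.bind₁ (fun i => if i = v then MvPolynomial.C m else
      MvPolynomial.X i) a := DFunLike.congr_fun h a
  rw [h2] at hv
  have h3 := MvPolynomial.vars_bind₁ (fun i => if i = v then MvPolynomial.C m else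
      MvPolynomial.X i) a hv
  rw [mem_biUnion] at h3
  obtain ⟨i, -, hi⟩ := h3
  by_cases hiv : i = v
  · rw [if_pos hiv, MvPolynomial.vars_C] at hi
    exact absurd hi (notMem_empty _)
  · rw [if_neg hiv, MvPolynomial.vars_X, mem_singleton] at hi
    exact hiv hi.symm

theorem ln_eval_free {n : ℕ} (v : Fin n) (g : (MvPolynomial (Fin n) ℤ)[X])
    (hg : ∀ k, v ∉ (g.coeff k).vars) : ln v (g.eval (MvPolynomial.X v)) = g := by
  rw [eval_eq_sum_range, map_sum]
  conv_rhs => rw [g.as_sum_range]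
  refine Finset.sum_congr rfl fun k _ => ?_
  rw [map_mul, map_pow, ln_X_self, ln_of_free v _ (hg k), C_mul_X_pow_eq_monomial]

theorem sq_line {n : ℕ} (v : Fin n) (F : MvPolynomial (Fin n) ℤ)
    (hF : Squarefree (MvPolynomial.map (algebraMap ℤ ℚ) F)) (g h : (MvPolynomial (Fin n) ℤ)[X])
    (hgh : ln v F = g ^ 2 * h) : g.natDegree = 0 := by
  by_cases hg0 : g = 0
  · rw [hg0, natDegree_zero]
  obtain ⟨m, hm⟩ : ∃ m : ℤ, th v m g.leadingCoeff ≠ 0 := by
    by_contra hcon
    push Not at hcon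
    have h1 : ln v g.leadingCoeff = 0 := by
      apply Polynomial.eq_zero_of_infinite_isRoot
      refine Set.infinite_of_injective_forall_mem (f := fun m : ℤ => (MvPolynomial.C m : MvPolynomial (Fin n) ℤ))
        (MvPolynomial.C_injective _ _) fun m => ?_
      exact hcon m
    exact ln_inj v _ (leadingCoeff_ne_zero.mpr hg0) h1
  have hΦ : (ln v F).map (th v m) = ln v F := by
    ext1 k
    rw [coeff_map]
    exact th_free v m _ (ln_coeff_free v F k)
  have h1 : ln v F = (g.map (th v m)) ^ 2 * h.map (th v m) := by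
    rw [← Polynomial.map_pow, ← Polynomial.map_mul, ← hgh, hΦ]
  have h2 : F = ((g.map (th v m)).eval (MvPolynomial.X v)) ^ 2 *
      (h.map (th v m)).eval (MvPolynomial.X v) := by
    have h3 := ln_one v F
    rw [h1, eval_mul, eval_pow] at h3
    exact h3.symm
  obtain ⟨c, hc⟩ := Pool.Agent.Y837.SW.sqZ F hF _ _ h2
  have h3 : g.map (th v m) = C (MvPolynomial.C c) := by
    rw [← ln_eval_free v (g.map (th v m)) (fun k => by rw [coeff_map]; exact th_vars v m _), hc, ln_C]
  have h4 : (g.map (th v m)).natDegree = g.natDegree :=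
    natDegree_map_of_leadingCoeff_ne_zero _ hm
  rw [← h4, h3, natDegree_C]

/-- a simple prime factor modulo `p` -/
theorem exists_simple {n : ℕ} (F : MvPolynomial (Fin n) ℤ)
    (hF : Squarefree (MvPolynomial.map (algebraMap ℤ ℚ) F)) (hc : ∀ c, F ≠ MvPolynomial.C c) :
    ∃ B₀ : ℕ, ∀ p : ℕ, ∀ _ : Fact p.Prime, B₀ < p →
      ∃ q : MvPolynomial (Fin n) (ZMod p), Prime q ∧ q ∣ rp p F ∧ ¬ q ^ 2 ∣ rp p F := by
  classical
  obtain ⟨v, hv⟩ : ∃ v, 0 < (ln v F).natDegree := by
    by_contra hcon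
    push Not at hcon
    have hvars : F.vars = ∅ := Finset.eq_empty_iff_forall_notMem.mpr fun v =>
      ln_free v F (by have := hcon v; omega)
    rw [MvPolynomial.vars_eq_empty_iff_eq_C] at hvars
    exact hc _ hvars
  obtain ⟨A, B, ρ, hρ, hAB⟩ := Pool.Agent.Y837.SW.bezout_of_sq (ln v F) hv (fun g h => sq_line v F hF g h)
  have hlc : (ln v F).leadingCoeff ≠ 0 := by
    refine leadingCoeff_ne_zero.mpr fun h => ?_
    rw [h, natDegree_zero] at hv
    omega
  obtain ⟨B₁, hB₁⟩ := Pool.Agent.Y837.SW.rp_ne_zero ρ hρ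
  obtain ⟨B₂, hB₂⟩ := Pool.Agent.Y837.SW.rp_ne_zero (ln v F).leadingCoeff hlc
  refine ⟨B₁ + B₂, fun p hp hBp => ?_⟩
  have hρp : rp p ρ ≠ 0 := hB₁ p (by omega)
  have hlp : rp p (ln v F).leadingCoeff ≠ 0 := hB₂ p (by omega)
  have hmap : ln v (rp p F) = (ln v F).map (MvPolynomial.map (Int.castRingHom (ZMod p))) := by
    rw [← ln_map]
    rfl
  have hd : 0 < (ln v (rp p F)).natDegree := by
    rw [hmap, natDegree_map_of_leadingCoeff_ne_zero _ hlp]
    exact hv
  obtain ⟨q, hq, hqF, hqd⟩ := exists_factor v (rp p F) hd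
  refine ⟨q, hq, hqF, ?_⟩
  rintro ⟨g, hg⟩
  have h1 := congrArg (Polynomial.map (MvPolynomial.map (Int.castRingHom (ZMod p)))) hAB
  rw [Polynomial.map_add, Polynomial.map_mul, Polynomial.map_mul, map_C, ← derivative_map, ← hmap] at h1
  have h2 : ln v q ∣ ln v (rp p F) := map_dvd (ln v) hqF
  have h3 : ln v q ∣ derivative (ln v (rp p F)) := by
    rw [hg, map_mul, map_pow, derivative_mul, derivative_pow]
    refine dvd_add ?_ (Dvd.dvd.mul_right (dvd_pow_self _ (by norm_num)) _)
    refine Dvd.dvd.mul_right (Dvd.dvd.mul_right ?_ _) _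
    exact Dvd.dvd.mul_left (by simp) _
  have h4 : ln v q ∣ C (rp p ρ) := by
    have h5 : C (rp p ρ) = C (MvPolynomial.map (Int.castRingHom (ZMod p)) ρ) := rfl
    rw [h5, ← h1]
    exact dvd_add (h2.mul_left _) (h3.mul_left _)
  have h5 := natDegree_le_of_dvd h4 (C_ne_zero.mpr hρp)
  rw [natDegree_C] at h5
  omega

section laur

variable {n : ℕ} {k : Type} [Field k]

/-- the homogenisation with integer weights -/
noncomputable def Psi (w : Fin n → ℤ) :
    MvPolynomial (Fin n) k →+* LaurentPolynomial (MvPolynomial (Fin n) k) :=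
  MvPolynomial.eval₂Hom (LaurentPolynomial.C.comp MvPolynomial.C)
    (fun i => LaurentPolynomial.C (MvPolynomial.X i) * LaurentPolynomial.T (w i))

theorem Psi_monomial (w : Fin n → ℤ) (e : Fin n →₀ ℕ) (c : k) : Psi w (MvPolynomial.monomial e c) =
    LaurentPolynomial.C (MvPolynomial.monomial e c) * LaurentPolynomial.T (∑ i, w i * (e i : ℤ)) := by
  unfold Psi
  rw [MvPolynomial.eval₂Hom_monomial, MvPolynomial.monomial_eq, map_mul, mul_assoc]
  congr 1
  rw [Finsupp.prod_fintype _ _ (fun i => pow_zero _), Finsupp.prod_fintype _ _ (fun i => pow_zero _)]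
  have h1 : ∀ s : Finset (Fin n), ∏ i ∈ s, (LaurentPolynomial.C (MvPolynomial.X i) *
      LaurentPolynomial.T (w i)) ^ (e i) =
      LaurentPolynomial.C (∏ i ∈ s, (MvPolynomial.X i : MvPolynomial (Fin n) k) ^ (e i)) *
        LaurentPolynomial.T (∑ i ∈ s, w i * (e i : ℤ)) := by
    intro s
    induction s using Finset.induction_on with
    | empty => simp
    | insert a s ha ih =>
      rw [Finset.prod_insert ha, Finset.prod_insert ha, Finset.sum_insert ha, ih, mul_pow,
        LaurentPolynomial.T_pow, map_mul, map_pow, LaurentPolynomial.T_add, mul_comm (w a) (e a : ℤ)]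
      ring
  exact h1 univ

theorem Psi_hom (w : Fin n → ℤ) (D : ℤ) (F : MvPolynomial (Fin n) k)
    (hF : ∀ e ∈ F.support, ∑ i, w i * (e i : ℤ) = D) :
    Psi w F = LaurentPolynomial.C F * LaurentPolynomial.T D := by
  conv_lhs => rw [← MvPolynomial.support_sum_monomial_coeff F]
  conv_rhs => rw [← MvPolynomial.support_sum_monomial_coeff F]
  rw [map_sum, map_sum, Finset.sum_mul]
  refine Finset.sum_congr rfl fun e he => ?_
  rw [Psi_monomial, hF e he]

/-- the specialisation `T = 1` -/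
noncomputable def eps : LaurentPolynomial (MvPolynomial (Fin n) k) →+* MvPolynomial (Fin n) k :=
  LaurentPolynomial.eval₂ (RingHom.id _) 1

theorem eps_T (m : ℤ) : eps (LaurentPolynomial.T m : LaurentPolynomial (MvPolynomial (Fin n) k)) = 1 := by
  unfold eps
  rw [LaurentPolynomial.eval₂_T]
  simp

theorem eps_Psi (w : Fin n → ℤ) (F : MvPolynomial (Fin n) k) : eps (Psi w F) = F := by
  have h : (eps (n := n) (k := k)).comp (Psi w) = RingHom.id _ := by
    ext i
    · simp [eps, Psi]
    · rw [RingHom.comp_apply]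
      unfold Psi
      rw [MvPolynomial.eval₂Hom_X', map_mul, eps_T, mul_one]
      simp [eps]
  exact DFunLike.congr_fun h F

theorem eps_toLaurent (f : (MvPolynomial (Fin n) k)[X]) : eps (toLaurent f) = f.eval 1 := by
  unfold eps
  rw [LaurentPolynomial.eval₂_toLaurent]
  rfl

theorem laur_irr (w : Fin n → ℤ) (d : ℕ) (hd : d ≠ 0) (F : MvPolynomial (Fin n) k)
    (hF : ∀ e ∈ F.support, ∑ i, w i * (e i : ℤ) = d) (hnc : ∀ c, F ≠ MvPolynomial.C c) (r : k)
    (hirr : Irreducible (C (MvPolynomial.C (-r)) * X ^ d + C F : (MvPolynomial (Fin n) k)[X])) :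
    Irreducible (F - MvPolynomial.C r) := by
  obtain ⟨π, hπ⟩ : ∃ π : (MvPolynomial (Fin n) k)[X], π = C (MvPolynomial.C (-r)) * X ^ d + C F :=
    ⟨_, rfl⟩
  rw [← hπ] at hirr
  have hF0 : F ≠ 0 := fun h => hnc 0 (by rw [h, map_zero])
  have hP : Psi (fun i => -w i) (F - MvPolynomial.C r) = toLaurent π * LaurentPolynomial.T (-(d : ℤ)) := by
    have h1 : Psi (fun i => -w i) F = LaurentPolynomial.C F * LaurentPolynomial.T (-(d : ℤ)) := by
      apply Psi_hom
      intro e he
      rw [← hF e he, ← Finset.sum_neg_distrib]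
      exact Finset.sum_congr rfl fun i _ => by ring
    have h2 : Psi (fun i => -w i) (MvPolynomial.C r) = LaurentPolynomial.C (MvPolynomial.C r) := by
      simp [Psi]
    rw [map_sub, h1, h2, hπ, map_add, map_mul, toLaurent_X_pow, toLaurent_C, toLaurent_C, add_mul,
      mul_assoc, ← LaurentPolynomial.T_add, add_neg_cancel, LaurentPolynomial.T_zero, mul_one]
    simp only [map_neg]
    ring
  have hπX : ¬ π ∣ X := by
    intro h
    have h1 : Associated π X := hirr.associated_of_dvd irreducible_X h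
    have h2 : X ∣ π := h1.symm.dvd
    rw [X_dvd_iff, hπ, coeff_add, coeff_C_mul_X_pow, if_neg (Ne.symm hd), zero_add, coeff_C_zero] at h2
    exact hF0 h2
  refine ⟨?_, fun {S U} hSU => ?_⟩
  · intro hu
    have h3 := (MvPolynomial.isUnit_iff_totalDegree_of_isReduced.1 hu).2
    rw [MvPolynomial.totalDegree_eq_zero_iff_eq_C] at h3
    refine hnc ((F - MvPolynomial.C r).coeff 0 + r) ?_
    rw [map_add, ← h3]
    ring
  · obtain ⟨m₁, s, hs⟩ := LaurentPolynomial.exists_T_pow (Psi (fun i => -w i) S)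
    obtain ⟨m₂, u, hu⟩ := LaurentPolynomial.exists_T_pow (Psi (fun i => -w i) U)
    have key : s * u * X ^ d = π * X ^ (m₁ + m₂) := by
      apply Polynomial.toLaurent_injective
      rw [map_mul, map_mul, map_mul, hs, hu, toLaurent_X_pow, toLaurent_X_pow]
      rw [hSU, map_mul] at hP
      have e1 : Psi (fun i => -w i) S * LaurentPolynomial.T (m₁ : ℤ) *
          (Psi (fun i => -w i) U * LaurentPolynomial.T (m₂ : ℤ)) * LaurentPolynomial.T (d : ℤ) =
          (Psi (fun i => -w i) S * Psi (fun i => -w i) U) *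
            (LaurentPolynomial.T (m₁ : ℤ) * LaurentPolynomial.T (m₂ : ℤ)) * LaurentPolynomial.T (d : ℤ) := by
        ring
      rw [e1, hP]
      have e2 : toLaurent π * LaurentPolynomial.T (-(d : ℤ)) *
          (LaurentPolynomial.T (m₁ : ℤ) * LaurentPolynomial.T (m₂ : ℤ)) * LaurentPolynomial.T (d : ℤ) =
          toLaurent π * (LaurentPolynomial.T (m₁ : ℤ) * LaurentPolynomial.T (m₂ : ℤ)) *
            (LaurentPolynomial.T (-(d : ℤ)) * LaurentPolynomial.T (d : ℤ)) := by ring
      rw [e2, ← LaurentPolynomial.T_add (-(d : ℤ)) (d : ℤ), neg_add_cancel, LaurentPolynomial.T_zero,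
        mul_one, ← LaurentPolynomial.T_add]
      push_cast
      rfl
    have hS1 : s.eval 1 = S := by
      rw [← eps_toLaurent, hs, map_mul, eps_T, mul_one, eps_Psi]
    have hU1 : u.eval 1 = U := by
      rw [← eps_toLaurent, hu, map_mul, eps_T, mul_one, eps_Psi]
    have h1 : π ∣ s * u * X ^ d := by
      rw [key]
      exact Dvd.intro _ rfl
    rcases hirr.prime.dvd_or_dvd h1 with h2 | h2
    · rcases hirr.prime.dvd_or_dvd h2 with ⟨s', hs'⟩ | ⟨u', hu'⟩
      · right
        rw [hs'] at key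
        have h3 : s' * u * X ^ d = X ^ (m₁ + m₂) := by
          apply mul_left_cancel₀ hirr.ne_zero
          rw [← key]
          ring
        have h4 := congrArg (eval 1) h3
        rw [eval_mul, eval_mul, eval_pow, eval_X, one_pow, mul_one, eval_pow, eval_X, one_pow, hU1] at h4
        rw [mul_comm] at h4
        exact IsUnit.of_mul_eq_one _ h4
      · left
        rw [hu'] at key
        have h3 : s * u' * X ^ d = X ^ (m₁ + m₂) := by
          apply mul_left_cancel₀ hirr.ne_zero
          rw [← key]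
          ring
        have h4 := congrArg (eval 1) h3
        rw [eval_mul, eval_mul, eval_pow, eval_X, one_pow, mul_one, eval_pow, eval_X, one_pow, hS1] at h4
        exact IsUnit.of_mul_eq_one _ h4
    · exact absurd (hirr.prime.dvd_of_dvd_pow h2) hπX

end laur

/-- homogeneous of weight `D` -/
def Wgt {n : ℕ} (w : Fin n → ℤ) (D : ℤ) (F : MvPolynomial (Fin n) ℤ) : Prop :=
  ∀ e ∈ F.support, ∑ i, w i * (e i : ℤ) = D

theorem Wgt.neg {n : ℕ} {w : Fin n → ℤ} {D : ℤ} {F : MvPolynomial (Fin n) ℤ} (h : Wgt w D F) :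
    Wgt (fun i => -w i) (-D) F := by
  intro e he
  rw [← h e he, ← Finset.sum_neg_distrib]
  exact Finset.sum_congr rfl fun i _ => by ring

theorem ev_X (p : ℕ) (r : ZMod p) : ev p X r = r := by
  unfold ev
  rw [eval₂_X]

theorem sqrt_le_self {p : ℕ} (hp : p.Prime) : Real.sqrt p ≤ p := by
  have hp0 : (0 : ℝ) < p := by exact_mod_cast hp.pos
  have hsq : Real.sqrt p * Real.sqrt p = p := Real.mul_self_sqrt hp0.le
  have h1 : 1 ≤ Real.sqrt p := by
    rw [Real.one_le_sqrt]
    exact_mod_cast hp.one_lt.le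
  nlinarith

/-- **Weighted homogeneous polynomials which are squarefree or of weight one are admissible.** -/
theorem good_wt {n : ℕ} (F : MvPolynomial (Fin n) ℤ) (w : Fin n → ℤ) (D : ℤ) (hw : Wgt w D F)
    (hD : D ≠ 0) (hF0 : F ≠ 0)
    (h : D = 1 ∨ Squarefree (MvPolynomial.map (algebraMap ℤ ℚ) F)) : Good F := by
  classical
  -- positive weight
  wlog hpos : 0 < D generalizing w D
  · rcases h with h | h
    · rw [h] at hpos
      exact absurd one_pos hpos
    · exact this (fun i => -w i) (-D) hw.neg (neg_ne_zero.mpr hD) (Or.inr h) (by omega)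
  have hnc : ∀ c, F ≠ MvPolynomial.C c := by
    intro c hc
    have h1 := Pool.Agent.Y837.SW.const_zero F w D hD hw
    rw [hc, MvPolynomial.constantCoeff_C] at h1
    apply hF0
    rw [hc, h1, map_zero]
  obtain ⟨d, hd⟩ : ∃ d : ℕ, (d : ℤ) = D := ⟨D.toNat, by omega⟩
  have hd0 : d ≠ 0 := by omega
  -- the count
  obtain ⟨C₁, hC₁, B₁, hU⟩ : ∃ C : ℝ, 0 ≤ C ∧ ∃ B₀ : ℕ, ∀ p : ℕ, ∀ _ : Fact p.Prime, B₀ < p →
      ∀ r : ZMod p, r ≠ 0 →
      |(p : ℝ) * ((univ.filter (fun x : Fin n → ZMod p => MvPolynomial.aeval x F = r)).card : ℝ) -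
        (p : ℝ) ^ n| * Real.sqrt p ≤ C * (p : ℝ) ^ n := by
    rcases h with h | h
    · obtain ⟨u, hu⟩ : ∃ u : Fin n → ℤ, MvPolynomial.eval u F ≠ 0 := by
        by_contra hcon
        push Not at hcon
        exact hF0 (MvPolynomial.funext fun x => by rw [hcon x, map_zero])
      refine ⟨(F.totalDegree : ℝ) + 2, by positivity, (MvPolynomial.eval u F).natAbs, ?_⟩
      intro p hp hBp r hr
      have h1 := Pool.Agent.Y837.SV.weight_U2 (p := p) F w (by rw [h] at hw; exact hw) u (by
        intro hdvd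
        have := Nat.le_of_dvd (Int.natAbs_pos.2 hu) (Int.natCast_dvd.1 hdvd)
        omega) r hr
      refine le_trans ?_ h1
      refine le_trans (mul_le_mul_of_nonneg_left (sqrt_le_self hp.out) (abs_nonneg _)) ?_
      exact le_of_eq (by congr!)
    · obtain ⟨C, hC, B, h1⟩ := Pool.Agent.Y837.SW.sq_U F h hnc w D hD hw
      refine ⟨C, hC, B, fun p hp hBp r hr => ?_⟩
      refine le_trans ?_ (h1 p hBp r hr)
      exact le_of_eq (by congr!)
  -- the simple prime factor
  obtain ⟨B₂, hS⟩ : ∃ B₀ : ℕ, ∀ p : ℕ, ∀ _ : Fact p.Prime, B₀ < p →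
      D = 1 ∨ ∃ q : MvPolynomial (Fin n) (ZMod p), Prime q ∧ q ∣ rp p F ∧ ¬ q ^ 2 ∣ rp p F := by
    rcases h with h | h
    · exact ⟨0, fun _ _ _ => Or.inl h⟩
    · obtain ⟨B, hB⟩ := exists_simple F h hnc
      exact ⟨B, fun p hp hBp => Or.inr (hB p hp hBp)⟩
  obtain ⟨v, -, hv⟩ := Pool.Agent.Y837.SV.nonconst_B F hnc
  refine ⟨X, C₁, 1 / 2, B₁ + B₂ + (MvPolynomial.eval v F - MvPolynomial.eval 0 F).natAbs, X_ne_zero, hC₁,
    by norm_num, ?_⟩
  intro p hp hBp r hr
  rw [ev_X] at hr
  have hncp : ∀ c, rp p F ≠ MvPolynomial.C c := fun c =>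
    Pool.Agent.Y837.SV.rp_nonconst F v 0 (hv p (by omega)) c
  have hwp : ∀ e ∈ (rp p F).support, ∑ i, w i * (e i : ℤ) = d := by
    intro e he
    rw [hd]
    exact hw e (MvPolynomial.support_map_subset _ _ he)
  have hru : IsUnit (MvPolynomial.C (-r) : MvPolynomial (Fin n) (ZMod p)) :=
    (isUnit_iff_ne_zero.mpr (neg_ne_zero.mpr hr)).map MvPolynomial.C
  have hrel : IsRelPrime (MvPolynomial.C (-r)) (rp p F) := fun q hq1 _ => isUnit_of_dvd_unit hq1 hru
  constructor
  · refine laur_irr w d hd0 (rp p F) hwp hncp r ?_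
    rcases hS p hp (by omega) with h1 | ⟨q, hq, hq1, hq2⟩
    · have hd1 : d = 1 := by omega
      rw [hd1, pow_one]
      exact irreducible_C_mul_X_add_C hru.ne_zero hrel
    · exact eisenB _ _ q hq hq1 hq2 hrel d (by omega)
  · have h1 := hU p hp (by omega) r hr
    have h2 := sqrt_conv hp.out h1
    simp only [rp_eval]
    convert h2

end Pool.Agent.X145.S3
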