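import Pool.Agent.X145.S3.Three
import Pool.Agent.X145.S3.Wt

/-!
The theorem on families of admissible polynomials.
-/

set_option autoImplicit false

namespace Pool.Agent.X145.S3

open Finset
open Pool.Agent.H256R2.SC (ff)
open Pool.Agent.Y837.SV (rp rp_eval rp_int rp_degree)

/-- admissible polynomials are not constant -/
theorem Good.nonconst {n : ℕ} {F : MvPolynomial (Fin n) ℤ} (hF : Good F) (c : ℤ) :
    F ≠ MvPolynomial.C c := by
  rintro rfl
  obtain ⟨E, C, δ, B, hE, -, -, h⟩ := hF
  obtain ⟨p, hp1, hp⟩ := Nat.exists_infinite_primes (B + E.natDegree + E.leadingCoeff.natAbs + 1)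
  have hpf : Fact p.Prime := ⟨hp⟩
  obtain ⟨E', hE'⟩ : ∃ E' : Polynomial (ZMod p), E' = E.map (Int.castRingHom (ZMod p)) := ⟨_, rfl⟩
  have hE'0 : E' ≠ 0 := by
    intro h0
    have h1 : E'.coeff E.natDegree = 0 := by rw [h0, Polynomial.coeff_zero]
    rw [hE', Polynomial.coeff_map] at h1
    have h2 : ((E.leadingCoeff : ℤ) : ZMod p) = 0 := h1
    rw [ZMod.intCast_zmod_eq_zero_iff_dvd] at h2
    have h3 := Nat.le_of_dvd (Int.natAbs_pos.2 (Polynomial.leadingCoeff_ne_zero.mpr hE))
      (Int.natCast_dvd.1 h2)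
    omega
  obtain ⟨r, hr⟩ : ∃ r : ZMod p, E'.eval r ≠ 0 := by
    by_contra hcon
    push Not at hcon
    have h1 : (Finset.univ : Finset (ZMod p)) ⊆ E'.roots.toFinset := by
      intro r _
      rw [Multiset.mem_toFinset, Polynomial.mem_roots hE'0]
      exact hcon r
    have h2 := card_le_card h1
    rw [card_univ, ZMod.card] at h2
    have h3 := (Multiset.toFinset_card_le E'.roots).trans (Polynomial.card_roots' E')
    have h4 : E'.natDegree ≤ E.natDegree := by
      rw [hE']
      exact Polynomial.natDegree_map_le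
    omega
  have hr' : ev p E r ≠ 0 := by
    unfold ev
    rw [← Polynomial.eval_map, ← hE']
    exact hr
  have h1 := (h p hpf (by omega) r hr').1
  have h2 : rp p (MvPolynomial.C c : MvPolynomial (Fin n) ℤ) - MvPolynomial.C r =
      MvPolynomial.C ((c : ZMod p) - r) := by
    rw [map_sub, rp, MvPolynomial.map_C]
    rfl
  rw [h2] at h1
  by_cases h3 : (c : ZMod p) - r = 0
  · rw [h3, map_zero] at h1
    exact h1.ne_zero rfl
  · exact h1.not_isUnit ((isUnit_iff_ne_zero.mpr h3).map MvPolynomial.C)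

end Pool.Agent.X145.S3
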