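import Pool.Agent.X145.S3.Deg2Main
import Pool.Agent.X145.S3.Main
import Pool.Agent.X145.S3.Fam

/-!
The classes of admissible polynomials.
-/

set_option autoImplicit false

namespace Pool.Agent.X145.S3

open Finset

theorem Good.add_C {n : ℕ} {P : MvPolynomial (Fin n) ℤ} (hP : Good P) (c : ℤ) :
    Good (P + MvPolynomial.C c) := by
  refine good_change (P + MvPolynomial.C c) P MvPolynomial.X ?_ 1 (-c) one_ne_zero hP ?_
  · have h1 : (fun i : Fin n => MvPolynomial.map (Int.castRingHom ℚ) (MvPolynomial.X i)) =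
        (MvPolynomial.X : Fin n → MvPolynomial (Fin n) ℚ) := by
      funext i
      rw [MvPolynomial.map_X]
    rw [h1]
    exact MvPolynomial.adjoin_range_X
  · rw [map_one, one_mul, map_neg, MvPolynomial.aeval_X_left, AlgHom.id_apply]
    ring

/-- polynomials with two weights -/
theorem good_tw {n : ℕ} (w : Fin n → ℤ) (D : ℤ) (P Q : MvPolynomial (Fin n) ℤ) (hD : D ≠ 0)
    (hP0 : P ≠ 0) (hP : Wgt w D P) (hQ : Wgt w 0 Q)
    (h : |D| = 1 ∨ (∀ c, Q ≠ MvPolynomial.C c) ∨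
      Squarefree (MvPolynomial.map (Int.castRingHom ℚ) P)) : Good (P + Q) := by
  wlog hpos : 0 < D generalizing w D
  · refine this (fun i => -w i) (-D) (neg_ne_zero.mpr hD) hP.neg ?_ ?_ (by omega)
    · have := hQ.neg
      rwa [neg_zero] at this
    · rwa [abs_neg]
  by_cases hQc : ∀ c, Q ≠ MvPolynomial.C c
  · refine good_two w D.toNat (by omega) P Q ?_ hQ hP0 (Or.inr hQc)
    have h1 : ((D.toNat : ℕ) : ℤ) = D := by omega
    rw [h1]
    exact hP
  · rcases h with h | h | h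
    · refine good_two w 1 le_rfl P Q ?_ hQ hP0 (Or.inl rfl)
      have h1 : ((1 : ℕ) : ℤ) = D := by
        rw [abs_of_pos hpos] at h
        rw [h]
        rfl
      rw [h1]
      exact hP
    · exact absurd h hQc
    · push Not at hQc
      obtain ⟨c, rfl⟩ := hQc
      exact (good_wt P w D hP hD hP0 (Or.inr h)).add_C c

/-- polynomials with the weights 0, 1, 2 -/
theorem good_thw {n : ℕ} (w : Fin n → ℤ) (F₀ F₁ F₂ : MvPolynomial (Fin n) ℤ)
    (hw0 : Wgt w 0 F₀) (hw1 : Wgt w 1 F₁) (hw2 : Wgt w 2 F₂) (h : F₁ ≠ 0 ∨ F₂ ≠ 0)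
    (hsq : ∀ K K' : ℤ, ∀ l : MvPolynomial (Fin n) ℤ, K ≠ 0 →
      MvPolynomial.C K * (F₀ + F₁ + F₂) + MvPolynomial.C K' ≠ l ^ 2) : Good (F₀ + F₁ + F₂) := by
  have e : F₀ + F₁ + F₂ = F₂ + F₁ + F₀ := by ring
  rw [e] at hsq ⊢
  by_cases h2 : F₂ = 0
  · have h1 : F₁ ≠ 0 := h.resolve_right (not_not.mpr h2)
    rw [h2, zero_add]
    exact good_two w 1 le_rfl F₁ F₀ (by simpa using hw1) hw0 h1 (Or.inl rfl)
  · exact good_012 w F₂ F₁ F₀ hw2 hw1 hw0 h2 hsq

end Pool.Agent.X145.S3
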