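import Pool.Agent.Y837.SV.Three2
import Pool.Agent.X145.ML.CritN

/-!
The number of the solutions modulo `p` of `g 0 + g 1 + g 2 = r`, the three polynomials in disjoint
sets of variables.
-/

set_option autoImplicit false

namespace Pool.Agent.X145.S3

open Finset Pool.Agent.X145.PM

/-- the component `i` of a triple -/
def sel {V : Type} (z : V × V × V) (i : Fin 3) : V := ![z.1, z.2.1, z.2.2] i

/-- the rearrangement of triples -/
def shuffle {n : ℕ} {R : Type} (b : Fin n → Fin 3) :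
    ((Fin n → R) × (Fin n → R) × (Fin n → R)) ≃ ((Fin n → R) × (Fin n → R) × (Fin n → R)) where
  toFun z := (fun k => sel z (b k) k, fun k => sel z (b k + 1) k, fun k => sel z (b k + 2) k)
  invFun z := (fun k => sel z (0 - b k) k, fun k => sel z (1 - b k) k, fun k => sel z (2 - b k) k)
  left_inv := by
    intro z
    refine Prod.ext ?_ (Prod.ext ?_ ?_) <;> funext k <;>
      (obtain ⟨i, hi⟩ : ∃ i, i = b k := ⟨_, rfl⟩
       simp only [sel, ← hi]
       fin_cases i <;> simp [← hi])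
  right_inv := by
    intro z
    refine Prod.ext ?_ (Prod.ext ?_ ?_) <;> funext k <;>
      (obtain ⟨i, hi⟩ : ∃ i, i = b k := ⟨_, rfl⟩
       simp only [sel, ← hi]
       fin_cases i <;> simp [← hi])

section

variable {p : ℕ} [hp : Fact p.Prime] {n : ℕ}

theorem ev_congr (Q : MvPolynomial (Fin n) (ZMod p)) (x y : Fin n → ZMod p)
    (h : ∀ v ∈ Q.vars, x v = y v) : MvPolynomial.eval x Q = MvPolynomial.eval y Q := by
  refine MvPolynomial.eval₂Hom_congr' rfl (fun v hv _ => h v hv) rfl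

theorem split_U {D : ℕ} (hD : 1 ≤ D) (hDp : D < p) (b : Fin n → Fin 3)
    (g : Fin 3 → MvPolynomial (Fin n) (ZMod p)) (hv : ∀ i, ∀ v ∈ (g i).vars, b v = i)
    (hdeg : ∀ i, (g i).totalDegree ≤ D) (hnc : ∀ i c, g i ≠ MvPolynomial.C c) (r : ZMod p) :
    |(p : ℝ) * ((univ.filter (fun x : Fin n → ZMod p =>
        MvPolynomial.eval x (g 0 + g 1 + g 2) = r)).card : ℝ) - (p : ℝ) ^ n| ≤
      (2 * (D : ℝ) * (D + 2)) * (p : ℝ) ^ n * (p : ℝ) ^ (-(1 / 2 : ℝ) ^ D) := by
  classical
  have hp0 : (0 : ℝ) < p := by exact_mod_cast hp.out.pos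
  have hfib : ∀ i, ∀ r : ZMod p, ((univ.filter (fun x : Fin n → ZMod p =>
      MvPolynomial.eval x (g i) = r)).card : ℝ) * p ≤ D * Fintype.card (Fin n → ZMod p) := by
    intro i r
    have := Pool.Agent.Y837.SV.sz_count (g i) (hdeg i) (hnc i) r
    rw [Fintype.card_fun, ZMod.card, Fintype.card_fin]
    push_cast
    convert this
  have hEX : ∀ t : ZMod p, t ≠ 0 → ‖Pool.Agent.Y837.SV.EX (fun x : Fin n → ZMod p =>
      MvPolynomial.eval x (g 2)) t‖ ≤ ((D : ℝ) + 2) * (p : ℝ) ^ n * (p : ℝ) ^ (-(1 / 2 : ℝ) ^ D) := by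
    intro t ht
    have h1 := Pool.Agent.Y837.SV.weyl_several D hD hDp n (g 2 * MvPolynomial.C t) (by
        refine (MvPolynomial.totalDegree_mul _ _).trans ?_
        rw [MvPolynomial.totalDegree_C, add_zero]
        exact hdeg 2) (by
        intro c hc
        apply hnc 2 (c * t⁻¹)
        rw [map_mul, ← hc, mul_assoc, ← map_mul, mul_inv_cancel₀ ht, map_one, mul_one])
    unfold Pool.Agent.Y837.SV.EX
    simp_rw [map_mul, MvPolynomial.eval_C] at h1
    exact h1
  have h1 := Pool.Agent.Y837.SV.three_conv (p := p) (fun x : Fin n → ZMod p =>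
    MvPolynomial.eval x (g 0)) (fun x : Fin n → ZMod p => MvPolynomial.eval x (g 1))
    (fun x : Fin n → ZMod p => MvPolynomial.eval x (g 2))
    D D (((D : ℝ) + 2) * (p : ℝ) ^ n * (p : ℝ) ^ (-(1 / 2 : ℝ) ^ D)) (Nat.cast_nonneg _)
    (Nat.cast_nonneg _) (by positivity) (by convert hfib 0) (by convert hfib 1) hEX r
  have h2 : (univ.filter (fun z : (Fin n → ZMod p) × (Fin n → ZMod p) × (Fin n → ZMod p) =>
        MvPolynomial.eval z.1 (g 0) + MvPolynomial.eval z.2.1 (g 1) +
          MvPolynomial.eval z.2.2 (g 2) = r)).card =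
      (univ.filter (fun x : Fin n → ZMod p =>
        MvPolynomial.eval x (g 0 + g 1 + g 2) = r)).card * (p ^ n * p ^ n) := by
    rw [Finset.card_filter, ← Equiv.sum_comp (shuffle b).symm, Fintype.sum_prod_type]
    have h3 : ∀ x : Fin n → ZMod p, ∀ y : (Fin n → ZMod p) × (Fin n → ZMod p),
        MvPolynomial.eval ((shuffle b).symm (x, y)).1 (g 0) +
          MvPolynomial.eval ((shuffle b).symm (x, y)).2.1 (g 1) +
          MvPolynomial.eval ((shuffle b).symm (x, y)).2.2 (g 2) =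
        MvPolynomial.eval x (g 0 + g 1 + g 2) := by
      intro x y
      rw [map_add, map_add]
      congr 1
      · congr 1
        · refine ev_congr _ _ _ fun v hvv => ?_
          have h4 := hv 0 v hvv
          show sel (x, y) (0 - b v) v = x v
          rw [h4]
          simp [sel]
        · refine ev_congr _ _ _ fun v hvv => ?_
          have h4 := hv 1 v hvv
          show sel (x, y) (1 - b v) v = x v
          rw [h4]
          simp [sel]
      · refine ev_congr _ _ _ fun v hvv => ?_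
        have h4 := hv 2 v hvv
        show sel (x, y) (2 - b v) v = x v
        rw [h4]
        simp [sel]
    simp_rw [h3]
    simp only [sum_const, card_univ, smul_eq_mul, Fintype.card_prod, Fintype.card_fun, ZMod.card,
      Fintype.card_fin]
    rw [← Finset.mul_sum, ← Finset.card_filter, mul_comm]
  have h2' : ((univ.filter (fun z : (Fin n → ZMod p) × (Fin n → ZMod p) × (Fin n → ZMod p) =>
        MvPolynomial.eval z.1 (g 0) + MvPolynomial.eval z.2.1 (g 1) +
          MvPolynomial.eval z.2.2 (g 2) = r)).card : ℝ) =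
      ((univ.filter (fun x : Fin n → ZMod p =>
        MvPolynomial.eval x (g 0 + g 1 + g 2) = r)).card : ℝ) * ((p : ℝ) ^ n * (p : ℝ) ^ n) := by
    rw [h2]
    push_cast
    rfl
  have h5 : (Fintype.card (Fin n → ZMod p) : ℝ) = (p : ℝ) ^ n := by
    rw [Fintype.card_fun, ZMod.card, Fintype.card_fin]
    push_cast
    rfl
  obtain ⟨N, hN⟩ : ∃ N : ℝ, N = ((univ.filter (fun x : Fin n → ZMod p =>
        MvPolynomial.eval x (g 0 + g 1 + g 2) = r)).card : ℝ) := ⟨_, rfl⟩
  obtain ⟨P, hP⟩ : ∃ P : ℝ, P = (p : ℝ) ^ n := ⟨_, rfl⟩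
  obtain ⟨E, hE⟩ : ∃ E : ℝ, E = (p : ℝ) ^ (-(1 / 2 : ℝ) ^ D) := ⟨_, rfl⟩
  have hP0 : 0 < P := by rw [hP]; positivity
  rw [← hN, ← hP] at h2'
  rw [h5, ← hP, ← hE] at h1
  rw [← hN, ← hP, ← hE]
  have h6 : |(p : ℝ) * (N * (P * P)) - P * P * P| ≤
      ((D : ℝ) + D) * (((D : ℝ) + 2) * P * E) * P * P := by
    rw [← h2']
    convert h1
  have h7 : (p : ℝ) * (N * (P * P)) - P * P * P = ((p : ℝ) * N - P) * (P * P) := by ring
  rw [h7, abs_mul, abs_of_pos (mul_pos hP0 hP0)] at h6
  have h8 : ((D : ℝ) + D) * (((D : ℝ) + 2) * P * E) * P * P =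
      (2 * (D : ℝ) * (D + 2) * P * E) * (P * P) := by ring
  rw [h8] at h6
  exact le_of_mul_le_mul_right h6 (mul_pos hP0 hP0)

end

end Pool.Agent.X145.S3
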