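import Pool.Agent.X145.S3.BinCount
import Pool.Agent.X145.S3.Count

/-!
The polynomials `B X_v ^ a + G` are admissible.
-/

set_option autoImplicit false
set_option linter.unusedSectionVars false

namespace Pool.Agent.X145.S3

open Finset Polynomial
open Pool.Agent.Y837.SV (rp rp_eval rp_int rp_degree)

theorem sqrt_conv {p : ℕ} (hp : p.Prime) {X C P : ℝ} (h : X * Real.sqrt p ≤ C * P) :
    X ≤ C * P * (p : ℝ) ^ (-(1 / 2) : ℝ) := by
  have hp0 : (0 : ℝ) < p := by exact_mod_cast hp.pos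
  have hs0 : 0 < Real.sqrt p := Real.sqrt_pos.2 hp0
  have h3 : (p : ℝ) ^ (-(1 / 2) : ℝ) = (Real.sqrt p)⁻¹ := by
    rw [Real.rpow_neg hp0.le, ← Real.sqrt_eq_rpow]
  rw [h3, ← div_eq_mul_inv, le_div_iff₀ hs0]
  exact h

section

variable {n p : ℕ} [hp : Fact p.Prime]

open Classical in
/-- the number of the points on a line -/
theorem line_count (a : ℕ) (ha : 1 ≤ a) (b g r : ZMod p) :
    (∑ s : ZMod p, (if b * s ^ a + g = r then (1 : ℂ) else 0)) =
      (if b = 0 ∧ g = r then (p : ℂ) else 0) + (if b = 0 then 0 else 1) +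
        ∑ χ ∈ (univ.filter (fun χ : DirichletCharacter ℂ p => χ ^ a = 1)).erase 1,
          (if b = 0 then 0 else χ ((r - g) / b)) := by
  by_cases hb : b = 0
  · subst hb
    simp only [zero_mul, zero_add, true_and, if_true, Finset.sum_const_zero, add_zero]
    by_cases hg : g = r
    · simp [hg, ZMod.card]
    · simp [hg]
  · simp only [hb, false_and, if_false, zero_add]
    obtain ⟨u, hu⟩ : ∃ u, u = (r - g) / b := ⟨_, rfl⟩
    rw [← hu]
    have h1 : ∀ s : ZMod p, (b * s ^ a + g = r) ↔ s ^ a = u := by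
      intro s
      rw [hu, eq_div_iff hb]
      constructor
      · intro h
        rw [← h]
        ring
      · intro h
        rw [mul_comm, h]
        ring
    simp_rw [h1]
    rw [Finset.sum_boole]
    by_cases hu0 : u = 0
    · have h2 : (univ.filter (fun s : ZMod p => s ^ a = u)) = {0} := by
        ext s
        rw [mem_filter, mem_singleton, hu0]
        constructor
        · rintro ⟨-, h⟩
          exact pow_eq_zero_iff (by omega) |>.mp h
        · rintro rfl
          exact ⟨mem_univ _, zero_pow (by omega)⟩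
      rw [h2, card_singleton, Nat.cast_one, left_eq_add]
      refine Finset.sum_eq_zero fun χ _ => ?_
      rw [hu0]
      exact MulChar.map_nonunit χ not_isUnit_zero
    · rw [pow_count a ha u hu0]
      have h2 : (1 : DirichletCharacter ℂ p) ∈
          univ.filter (fun χ : DirichletCharacter ℂ p => χ ^ a = 1) := by
        rw [mem_filter]
        exact ⟨mem_univ _, one_pow a⟩
      rw [← Finset.add_sum_erase _ _ h2]
      congr 1
      exact MulChar.one_apply (isUnit_iff_ne_zero.2 hu0)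

/-- the number of the solutions of `B X_v ^ a + G = r` -/
theorem bin_count {v : Fin n} {a : ℕ} (ha : 1 ≤ a) (B G : MvPolynomial (Fin n) (ZMod p))
    (hvB : v ∉ B.vars) (hvG : v ∉ G.vars) (r : ZMod p) (K₀ K₁ K₂ : ℝ) (hK₂ : 0 ≤ K₂)
    (h0 : (p : ℝ) * ((univ.filter (fun x : Fin n → ZMod p => MvPolynomial.eval x B = 0)).card : ℝ) ≤
      K₀ * (p : ℝ) ^ n)
    (h1 : (p : ℝ) ^ 2 * ((univ.filter (fun x : Fin n → ZMod p => MvPolynomial.eval x B = 0 ∧
      MvPolynomial.eval x G = r)).card : ℝ) ≤ K₁ * (p : ℝ) ^ n)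
    (h2 : ∀ χ : DirichletCharacter ℂ p, χ ≠ 1 → χ ^ a = 1 →
      ‖∑ x : Fin n → ZMod p, (if MvPolynomial.eval x B = 0 then 0 else
        χ ((r - MvPolynomial.eval x G) / MvPolynomial.eval x B))‖ * Real.sqrt p ≤ K₂ * (p : ℝ) ^ n) :
    |(p : ℝ) * ((univ.filter (fun x : Fin n → ZMod p =>
      MvPolynomial.eval x (B * MvPolynomial.X v ^ a + G) = r)).card : ℝ) - (p : ℝ) ^ n| *
      Real.sqrt p ≤ (K₀ + K₁ + a * K₂) * (p : ℝ) ^ n := by
  classical
  have hpp := hp.out
  have hp0 : (0 : ℝ) < p := by exact_mod_cast hpp.pos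
  have hp1 : (1 : ℝ) ≤ p := by exact_mod_cast hpp.one_lt.le
  have hsq : Real.sqrt p * Real.sqrt p = p := Real.mul_self_sqrt hp0.le
  have hs0 : 0 ≤ Real.sqrt p := Real.sqrt_nonneg _
  have hs1 : Real.sqrt p ≤ p := by
    have : 1 ≤ Real.sqrt p := by rw [Real.one_le_sqrt]; exact hp1
    nlinarith
  obtain ⟨N, hN⟩ : ∃ N, N = (univ.filter (fun x : Fin n → ZMod p =>
      MvPolynomial.eval x (B * MvPolynomial.X v ^ a + G) = r)).card := ⟨_, rfl⟩
  obtain ⟨Z, hZ⟩ : ∃ Z, Z = (univ.filter (fun x : Fin n → ZMod p =>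
      MvPolynomial.eval x B = 0)).card := ⟨_, rfl⟩
  obtain ⟨Y, hY⟩ : ∃ Y, Y = (univ.filter (fun x : Fin n → ZMod p => MvPolynomial.eval x B = 0 ∧
      MvPolynomial.eval x G = r)).card := ⟨_, rfl⟩
  obtain ⟨S, hS⟩ : ∃ S : DirichletCharacter ℂ p → ℂ, ∀ χ, S χ = ∑ x : Fin n → ZMod p,
      (if MvPolynomial.eval x B = 0 then 0 else
        χ ((r - MvPolynomial.eval x G) / MvPolynomial.eval x B)) := ⟨_, fun _ => rfl⟩
  obtain ⟨Ξ, hΞ⟩ : ∃ Ξ : Finset (DirichletCharacter ℂ p), Ξ =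
      (univ.filter (fun χ : DirichletCharacter ℂ p => χ ^ a = 1)).erase 1 := ⟨_, rfl⟩
  rw [← hN, ]
  rw [← hZ] at h0
  rw [← hY] at h1
  have hcard : (Fintype.card (Fin n → ZMod p) : ℂ) = (p : ℂ) ^ n := by
    rw [Fintype.card_fun, ZMod.card, Fintype.card_fin]
    push_cast
    rfl
  -- the identity
  have hmain : (p : ℂ) * N = (p : ℂ) * Y + ((p : ℂ) ^ n - Z) + ∑ χ ∈ Ξ, S χ := by
    have e1 : (p : ℂ) * N = ∑ x : Fin n → ZMod p, ∑ s : ZMod p,
        (if MvPolynomial.eval x B * s ^ a + MvPolynomial.eval x G = r then (1 : ℂ) else 0) := by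
      have e2 : (N : ℂ) = ∑ x : Fin n → ZMod p,
          (if MvPolynomial.eval x (B * MvPolynomial.X v ^ a + G) = r then (1 : ℂ) else 0) := by
        rw [Finset.sum_boole, hN]
      rw [e2, ← sum_update v]
      refine Finset.sum_congr rfl fun x _ => Finset.sum_congr rfl fun s _ => ?_
      have e3 : ∀ Q : MvPolynomial (Fin n) (ZMod p), v ∉ Q.vars →
          MvPolynomial.eval (Function.update x v s) Q = MvPolynomial.eval x Q := by
        intro Q hQ
        refine ev_congr _ _ _ fun i hi => ?_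
        rw [Function.update_of_ne]
        rintro rfl
        exact hQ hi
      rw [map_add, map_mul, map_pow, MvPolynomial.eval_X, Function.update_self, e3 B hvB, e3 G hvG]
    rw [e1]
    simp_rw [line_count a ha]
    rw [Finset.sum_add_distrib, Finset.sum_add_distrib, ← hΞ, Finset.sum_comm (s := univ) (t := Ξ)]
    have e4 : ∑ x : Fin n → ZMod p, (if MvPolynomial.eval x B = 0 ∧ MvPolynomial.eval x G = r
        then (p : ℂ) else 0) = (p : ℂ) * Y := by
      rw [← Finset.sum_filter, Finset.sum_const, nsmul_eq_mul, ← hY, mul_comm]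
    have e5 : ∑ x : Fin n → ZMod p, (if MvPolynomial.eval x B = 0 then (0 : ℂ) else 1) =
        (p : ℂ) ^ n - Z := by
      have e6 : ∀ x : Fin n → ZMod p, (if MvPolynomial.eval x B = 0 then (0 : ℂ) else 1) =
          1 - (if MvPolynomial.eval x B = 0 then (1 : ℂ) else 0) := by
        intro x
        split_ifs <;> simp
      simp_rw [e6]
      rw [Finset.sum_sub_distrib, Finset.sum_const, card_univ, nsmul_eq_mul, mul_one, hcard,
        Finset.sum_boole, ← hZ]
    rw [e4, e5]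
    simp_rw [hS]
  -- the estimate
  have hSb : ∀ χ ∈ Ξ, ‖S χ‖ * Real.sqrt p ≤ K₂ * (p : ℝ) ^ n := by
    intro χ hχ
    rw [hΞ, mem_erase, mem_filter] at hχ
    rw [hS]
    exact h2 χ hχ.1 hχ.2.2
  have hΞc : (Ξ.card : ℝ) ≤ a := by
    have e1 : Ξ.card ≤ a := by
      rw [hΞ]
      exact (card_erase_le).trans (Pool.Agent.Y837.SW.char_card a (by omega))
    exact_mod_cast e1
  have hnorm : |(p : ℝ) * N - (p : ℝ) ^ n| ≤ (p : ℝ) * Y + Z + ∑ χ ∈ Ξ, ‖S χ‖ := by
    have e1 : ‖(((p : ℝ) * N - (p : ℝ) ^ n : ℝ) : ℂ)‖ ≤ (p : ℝ) * Y + Z + ∑ χ ∈ Ξ, ‖S χ‖ := by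
      have e2 : (((p : ℝ) * N - (p : ℝ) ^ n : ℝ) : ℂ) = (p : ℂ) * Y - Z + ∑ χ ∈ Ξ, S χ := by
        push_cast
        rw [hmain]
        ring
      rw [e2]
      refine (norm_add_le _ _).trans (add_le_add ?_ (norm_sum_le _ _))
      refine (norm_sub_le _ _).trans (add_le_add ?_ ?_)
      · rw [norm_mul, Complex.norm_natCast, Complex.norm_natCast]
      · rw [Complex.norm_natCast]
    rw [Complex.norm_real, Real.norm_eq_abs] at e1
    exact e1
  have hY0 : (0 : ℝ) ≤ Y := Nat.cast_nonneg _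
  have hZ0 : (0 : ℝ) ≤ Z := Nat.cast_nonneg _
  have f1 : (p : ℝ) * Y * Real.sqrt p ≤ K₁ * (p : ℝ) ^ n := by
    refine le_trans ?_ h1
    calc (p : ℝ) * Y * Real.sqrt p ≤ (p : ℝ) * Y * p :=
          mul_le_mul_of_nonneg_left hs1 (by positivity)
      _ = (p : ℝ) ^ 2 * Y := by ring
  have f2 : (Z : ℝ) * Real.sqrt p ≤ K₀ * (p : ℝ) ^ n := by
    refine le_trans ?_ h0
    calc (Z : ℝ) * Real.sqrt p ≤ Z * p := mul_le_mul_of_nonneg_left hs1 hZ0
      _ = (p : ℝ) * Z := by ring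
  have f3 : (∑ χ ∈ Ξ, ‖S χ‖) * Real.sqrt p ≤ a * K₂ * (p : ℝ) ^ n := by
    rw [Finset.sum_mul]
    refine (Finset.sum_le_sum hSb).trans ?_
    rw [Finset.sum_const, nsmul_eq_mul]
    have e : 0 ≤ K₂ * (p : ℝ) ^ n := by positivity
    calc (Ξ.card : ℝ) * (K₂ * (p : ℝ) ^ n) ≤ a * (K₂ * (p : ℝ) ^ n) :=
          mul_le_mul_of_nonneg_right hΞc e
      _ = _ := by ring
  calc |(p : ℝ) * N - (p : ℝ) ^ n| * Real.sqrt p
      ≤ ((p : ℝ) * Y + Z + ∑ χ ∈ Ξ, ‖S χ‖) * Real.sqrt p := mul_le_mul_of_nonneg_right hnorm hs0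
    _ = (p : ℝ) * Y * Real.sqrt p + Z * Real.sqrt p + (∑ χ ∈ Ξ, ‖S χ‖) * Real.sqrt p := by ring
    _ ≤ K₁ * (p : ℝ) ^ n + K₀ * (p : ℝ) ^ n + a * K₂ * (p : ℝ) ^ n := by linarith
    _ = _ := by ring

open Classical in
theorem char_div (t : ℕ) (ht : 2 ≤ t) (χ : DirichletCharacter ℂ p) (hχ : χ ^ t = 1) (u b : ZMod p) :
    (if b = 0 then 0 else χ (u / b)) = χ (u * b ^ (t - 1)) := by
  by_cases hb : b = 0
  · rw [if_pos hb, hb, zero_pow (by omega), mul_zero, MulChar.map_nonunit χ not_isUnit_zero]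
  · rw [if_neg hb]
    have h1 : χ (b ^ t) = 1 := by
      rw [map_pow, ← MulChar.pow_apply' _ (by omega), hχ]
      exact MulChar.one_apply (isUnit_iff_ne_zero.2 hb)
    have h2 : u * b ^ (t - 1) = (u / b) * b ^ t := by
      have h3 : b ^ t = b * b ^ (t - 1) := by
        rw [← pow_succ']
        congr 1
        omega
      rw [h3, ← mul_assoc, div_mul_cancel₀ _ hb]
    rw [h2, map_mul, h1, mul_one]

end

/-- the data for the binomials -/
theorem bin_data {n : ℕ} (v : Fin n) (a : ℕ) (B G : MvPolynomial (Fin n) ℤ) (hB : B ≠ 0)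
    (hG : a = 1 ∨ ∀ c, G ≠ MvPolynomial.C c) : ∃ E : ℤ[X], E ≠ 0 ∧ ∃ K : ℝ, 0 ≤ K ∧ ∃ B₀ : ℕ,
    ∀ p : ℕ, ∀ _ : Fact p.Prime, B₀ < p → ∀ r : ZMod p, ev p E r ≠ 0 →
      IsRelPrime (rp p B) (rp p G - MvPolynomial.C r) ∧
      (a = 1 ∨ ∃ q : MvPolynomial (Fin n) (ZMod p), Prime q ∧ q ∣ rp p G - MvPolynomial.C r ∧
        ¬ q ^ 2 ∣ rp p G - MvPolynomial.C r) ∧
      ∀ χ : DirichletCharacter ℂ p, χ ≠ 1 → χ ^ a = 1 →
        ∀ t : ℕ, t = Nat.gcd a (p - 1) → a ≠ 0 →
        ‖∑ x : Fin n → ZMod p, χ ((r - MvPolynomial.eval x (rp p G)) *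
          MvPolynomial.eval x (rp p B) ^ (t - 1))‖ * Real.sqrt p ≤ K * (p : ℝ) ^ n := by
  classical
  by_cases ha : a = 1
  · obtain ⟨E, hE0, h⟩ := coprime B G hB v
    refine ⟨E, hE0, 0, le_rfl, 0, ?_⟩
    intro p hp _ r hr
    refine ⟨h p hp r hr, Or.inl ha, ?_⟩
    intro χ hχ1 hχ
    rw [ha, pow_one] at hχ
    exact absurd hχ hχ1
  · have hGc : ∀ c, G ≠ MvPolynomial.C c := by
      rcases hG with h | h
      · exact absurd h ha
      · exact h
    obtain ⟨v₁, hv₁⟩ : ∃ v₁ : Fin n, MvPolynomial.pderiv v₁ G ≠ 0 := by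
      by_contra hcon
      push Not at hcon
      have hvars : G.vars = ∅ := by
        rw [Finset.eq_empty_iff_forall_notMem]
        intro w
        apply ln_free
        have h1 := ln_pderiv w G
        rw [hcon w, map_zero] at h1
        exact natDegree_eq_zero_of_derivative_eq_zero h1.symm
      rw [MvPolynomial.vars_eq_empty_iff_eq_C] at hvars
      exact hGc _ hvars
    obtain ⟨E₁, hE₁, h1⟩ := coprime (B * MvPolynomial.pderiv v₁ G) G (mul_ne_zero hB hv₁) v
    obtain ⟨E₂, hE₂, K, hK, B₂, h2⟩ := char_bin a B G v₁ hB hv₁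
    obtain ⟨w, -, hw⟩ := Pool.Agent.Y837.SV.nonconst_B G hGc
    refine ⟨E₁ * E₂, mul_ne_zero hE₁ hE₂, K, hK, B₂ +
      (MvPolynomial.eval w G - MvPolynomial.eval 0 G).natAbs, ?_⟩
    intro p hp hBp r hr
    rw [ev_mul] at hr
    have hr1 := left_ne_zero_of_mul hr
    have hr2 := right_ne_zero_of_mul hr
    have hncp : ∀ c, rp p G ≠ MvPolynomial.C c := fun c =>
      Pool.Agent.Y837.SV.rp_nonconst G w 0 (hw p (by omega)) c
    have hcop := h1 p hp r hr1
    have hPp : rp p (B * MvPolynomial.pderiv v₁ G) = rp p B * MvPolynomial.pderiv v₁ (rp p G) := by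
      unfold rp
      rw [map_mul, MvPolynomial.pderiv_map]
    rw [hPp] at hcop
    refine ⟨?_, Or.inr ?_, ?_⟩
    · intro q hq1 hq2
      exact hcop (Dvd.dvd.mul_right hq1 _) hq2
    · refine simple_of_coprime v₁ (rp p B) (rp p G - MvPolynomial.C r) ?_ ?_ ?_
      · intro h0
        exact hncp r (sub_eq_zero.mp h0)
      · intro hu
        have h3 := (MvPolynomial.isUnit_iff_totalDegree_of_isReduced.1 hu).2
        rw [MvPolynomial.totalDegree_eq_zero_iff_eq_C] at h3
        refine hncp ((rp p G - MvPolynomial.C r).coeff 0 + r) ?_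
        rw [map_add, ← h3]
        ring
      · have h3 : MvPolynomial.pderiv v₁ (rp p G - MvPolynomial.C r) =
            MvPolynomial.pderiv v₁ (rp p G) := by
          rw [map_sub, MvPolynomial.pderiv_C, sub_zero]
        rw [h3]
        exact hcop
    · intro χ hχ1 hχ t ht ha0
      have h5 : χ ^ (p - 1) = 1 := by
        have := χ.pow_card_eq_one
        rwa [ZMod.card_units] at this
      have h6 : χ ^ t = 1 := by
        rw [ht]
        exact pow_gcd_eq_one.2 ⟨hχ, h5⟩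
      have ht0 : 0 < t := by rw [ht]; exact Nat.gcd_pos_of_pos_left _ (Nat.pos_of_ne_zero ha0)
      have ht2 : 2 ≤ t := by
        by_contra h7
        have h8 : t = 1 := by omega
        rw [h8, pow_one] at h6
        exact hχ1 h6
      exact h2 p hp (by omega) r hr2 t ht2
        (by rw [ht]; exact Nat.gcd_le_left _ (Nat.pos_of_ne_zero ha0))
        (by rw [ht]; exact Nat.gcd_dvd_right _ _) χ hχ1 h6

/-- **`B X_v ^ a + G` is admissible.** -/
theorem good_bin {n : ℕ} (v : Fin n) (a : ℕ) (ha : 1 ≤ a) (B G : MvPolynomial (Fin n) ℤ)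
    (hvB : v ∉ B.vars) (hvG : v ∉ G.vars) (hB : B ≠ 0) (hG : a = 1 ∨ ∀ c, G ≠ MvPolynomial.C c) :
    Good (B * MvPolynomial.X v ^ a + G) := by
  classical
  obtain ⟨E, hE0, K, hK, B₀, h⟩ := bin_data v a B G hB hG
  obtain ⟨B₁, hB₁⟩ := Pool.Agent.Y837.SW.rp_ne_zero B hB
  obtain ⟨Cz, hCz⟩ := cz n ((B * MvPolynomial.X v ^ a + G).totalDegree + B.totalDegree)
  refine ⟨E, B.totalDegree + Cz + a * K, 1 / 2, B₀ + B₁, hE0, by positivity, by norm_num, ?_⟩
  intro p hp hBp r hr
  have hpp := hp.out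
  have hp0 : (0 : ℝ) < p := by exact_mod_cast hpp.pos
  obtain ⟨hrel, hq, hchi⟩ := h p hp (by omega) r hr
  have hBp0 : rp p B ≠ 0 := hB₁ p (by omega)
  have hvBp : v ∉ (rp p B).vars := fun hv => hvB (MvPolynomial.vars_map _ (Int.castRingHom (ZMod p)) hv)
  have hvGp : v ∉ (rp p G).vars := fun hv => hvG (MvPolynomial.vars_map _ (Int.castRingHom (ZMod p)) hv)
  have hvH : v ∉ (rp p G - MvPolynomial.C r).vars := by
    intro hv
    have h2 := MvPolynomial.vars_sub_subset (p := rp p G) (q := MvPolynomial.C r) hv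
    rw [MvPolynomial.vars_C, Finset.union_empty] at h2
    exact hvGp h2
  have hF : rp p (B * MvPolynomial.X v ^ a + G) = rp p B * MvPolynomial.X v ^ a + rp p G := by
    unfold rp
    rw [map_add, map_mul, map_pow, MvPolynomial.map_X]
  have hFr : rp p (B * MvPolynomial.X v ^ a + G) - MvPolynomial.C r =
      rp p B * MvPolynomial.X v ^ a + (rp p G - MvPolynomial.C r) := by
    rw [hF]
    ring
  have hirr : Irreducible (rp p (B * MvPolynomial.X v ^ a + G) - MvPolynomial.C r) := by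
    rw [hFr]
    exact bin_irr v _ _ hvBp hvH hBp0 a ha hrel hq
  refine ⟨hirr, ?_⟩
  have hcard : (Fintype.card (Fin n → ZMod p) : ℝ) = (p : ℝ) ^ n := by
    rw [Fintype.card_fun, ZMod.card, Fintype.card_fin]
    push_cast
    rfl
  have h0 : (p : ℝ) * ((univ.filter (fun x : Fin n → ZMod p =>
      MvPolynomial.eval x (rp p B) = 0)).card : ℝ) ≤ B.totalDegree * (p : ℝ) ^ n := by
    have h1 := Pool.Agent.X145.ML.sz (rp p B) hBp0
    have h2 : p * (univ.filter (fun x : Fin n → ZMod p => MvPolynomial.eval x (rp p B) = 0)).card ≤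
        B.totalDegree * Fintype.card (Fin n → ZMod p) :=
      h1.trans (Nat.mul_le_mul_right _ (rp_degree B))
    have h3 : (p : ℝ) * ((univ.filter (fun x : Fin n → ZMod p =>
        MvPolynomial.eval x (rp p B) = 0)).card : ℝ) ≤
        B.totalDegree * (Fintype.card (Fin n → ZMod p) : ℝ) := by exact_mod_cast h2
    rw [hcard] at h3
    exact h3
  have h1 : (p : ℝ) ^ 2 * ((univ.filter (fun x : Fin n → ZMod p =>
      MvPolynomial.eval x (rp p B) = 0 ∧ MvPolynomial.eval x (rp p G) = r)).card : ℝ) ≤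
      Cz * (p : ℝ) ^ n := by
    have hndvd : ¬ (rp p (B * MvPolynomial.X v ^ a + G) - MvPolynomial.C r) ∣ rp p B := by
      intro hd
      have h2 := map_dvd (ln v) hd
      rw [hFr, map_add, map_mul, map_pow, ln_X_self, ln_of_free v _ hvBp, ln_of_free v _ hvH] at h2
      have h3 := natDegree_le_of_dvd h2 (C_ne_zero.mpr hBp0)
      rw [natDegree_C, natDegree_add_C, natDegree_C_mul_X_pow a _ hBp0] at h3
      omega
    have h2 := hCz p hp _ _ hirr hndvd (by
      refine (MvPolynomial.totalDegree_sub _ _).trans ?_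
      rw [MvPolynomial.totalDegree_C]
      exact max_le ((rp_degree _).trans (Nat.le_add_right _ _)) (Nat.zero_le _))
      ((rp_degree B).trans (Nat.le_add_left _ _))
    have h3 : (univ.filter (fun x : Fin n → ZMod p =>
        MvPolynomial.eval x (rp p B) = 0 ∧ MvPolynomial.eval x (rp p G) = r)).card ≤
        (univ.filter (fun z : Fin n → ZMod p => MvPolynomial.eval z
          (rp p (B * MvPolynomial.X v ^ a + G) - MvPolynomial.C r) = 0 ∧
          MvPolynomial.eval z (rp p B) = 0)).card := by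
      refine card_le_card fun x hx => ?_
      rw [mem_filter] at hx ⊢
      refine ⟨mem_univ _, ?_, hx.2.1⟩
      rw [hFr, map_add, map_mul, map_sub, MvPolynomial.eval_C, hx.2.1, hx.2.2, zero_mul, sub_self,
        add_zero]
    obtain ⟨Y, hY⟩ : ∃ Y, Y = (univ.filter (fun x : Fin n → ZMod p =>
        MvPolynomial.eval x (rp p B) = 0 ∧ MvPolynomial.eval x (rp p G) = r)).card := ⟨_, rfl⟩
    have h4 : p * (p * Y) ≤ Cz * p ^ n := by
      refine le_trans ?_ h2
      rw [hY]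
      exact Nat.mul_le_mul_left _ (Nat.mul_le_mul_left _ (by convert h3))
    have h5 : (p : ℝ) * ((p : ℝ) * Y) ≤ Cz * (p : ℝ) ^ n := by exact_mod_cast h4
    rw [← hY, sq, mul_assoc]
    exact h5
  have h2 : ∀ χ : DirichletCharacter ℂ p, χ ≠ 1 → χ ^ a = 1 →
      ‖∑ x : Fin n → ZMod p, (if MvPolynomial.eval x (rp p B) = 0 then 0 else
        χ ((r - MvPolynomial.eval x (rp p G)) / MvPolynomial.eval x (rp p B)))‖ * Real.sqrt p ≤
        K * (p : ℝ) ^ n := by
    intro χ hχ1 hχ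
    have h3 := hchi χ hχ1 hχ _ rfl (by omega)
    have h5 : χ ^ (p - 1) = 1 := by
      have := χ.pow_card_eq_one
      rwa [ZMod.card_units] at this
    have h6 : χ ^ (Nat.gcd a (p - 1)) = 1 := pow_gcd_eq_one.2 ⟨hχ, h5⟩
    have ht0 : 0 < Nat.gcd a (p - 1) := Nat.gcd_pos_of_pos_left _ (by omega)
    have ht2 : 2 ≤ Nat.gcd a (p - 1) := by
      by_contra h7
      have h8 : Nat.gcd a (p - 1) = 1 := by omega
      rw [h8, pow_one] at h6
      exact hχ1 h6
    have h7 : ∑ x : Fin n → ZMod p, (if MvPolynomial.eval x (rp p B) = 0 then 0 else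
        χ ((r - MvPolynomial.eval x (rp p G)) / MvPolynomial.eval x (rp p B))) =
        ∑ x : Fin n → ZMod p, χ ((r - MvPolynomial.eval x (rp p G)) *
          MvPolynomial.eval x (rp p B) ^ (Nat.gcd a (p - 1) - 1)) := by
      refine Finset.sum_congr rfl fun x _ => ?_
      exact char_div _ ht2 χ h6 _ _
    rw [h7]
    exact h3
  have h3 := bin_count ha (rp p B) (rp p G) hvBp hvGp r B.totalDegree Cz K hK
    (by convert h0) (by convert h1) (by intro χ hχ1 hχ; convert h2 χ hχ1 hχ)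
  have h4 := sqrt_conv hpp h3
  rw [hF]
  convert h4

end Pool.Agent.X145.S3
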