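import Pool.Agent.X145.S3.BinIrr
import Pool.Agent.Y837.SW.Bound
import Pool.Agent.Y837.SW.Chr

/-!
The number of the solutions of `B X_v ^ a + G = r` modulo `p`.
-/

set_option autoImplicit false
set_option linter.unusedSectionVars false

namespace Pool.Agent.X145.S3

open Finset Polynomial
open Pool.Agent.Y837.SV (rp rp_eval rp_int rp_degree)

section

variable {n p : ℕ} [hp : Fact p.Prime]

theorem sum_update {R : Type} [CommSemiring R] (v : Fin n) (g : (Fin n → ZMod p) → R) :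
    ∑ x : Fin n → ZMod p, ∑ s : ZMod p, g (Function.update x v s) = (p : R) * ∑ x, g x := by
  classical
  obtain ⟨e, he⟩ : ∃ e : ((Fin n → ZMod p) × ZMod p) ≃ ((Fin n → ZMod p) × ZMod p),
      ∀ z, e z = (Function.update z.1 v z.2, z.1 v) := by
    refine ⟨{
      toFun := fun z => (Function.update z.1 v z.2, z.1 v)
      invFun := fun z => (Function.update z.1 v z.2, z.1 v)
      left_inv := ?_
      right_inv := ?_ }, fun z => rfl⟩
    · intro z
      simp
    · intro z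
      simp
  have h1 : ∑ x : Fin n → ZMod p, ∑ s : ZMod p, g (Function.update x v s) =
      ∑ z : (Fin n → ZMod p) × ZMod p, g (e z).1 := by
    rw [Fintype.sum_prod_type]
    refine Finset.sum_congr rfl fun x _ => Finset.sum_congr rfl fun s _ => ?_
    rw [he]
  rw [h1, Equiv.sum_comp e (fun z => g z.1), Fintype.sum_prod_type]
  simp only [sum_const, card_univ, ZMod.card, nsmul_eq_mul]
  rw [Finset.mul_sum]

open Classical in
/-- the number of the solutions of `y ^ a = u` -/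
theorem pow_count (a : ℕ) (ha : 1 ≤ a) (u : ZMod p) (hu : u ≠ 0) :
    ((univ.filter (fun y : ZMod p => y ^ a = u)).card : ℂ) =
      ∑ χ ∈ univ.filter (fun χ : DirichletCharacter ℂ p => χ ^ a = 1), χ u := by
  have hpp := hp.out
  have hp1 : ((p : ℂ) - 1) ≠ 0 := by
    have : (1 : ℝ) < p := by exact_mod_cast hpp.one_lt
    intro h
    have h2 : (p : ℂ) = 1 := sub_eq_zero.mp h
    have h3 : (p : ℝ) = 1 := by exact_mod_cast h2
    linarith
  have h4 : ((p.totient : ℕ) : ℂ) = (p : ℂ) - 1 := by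
    rw [Nat.totient_prime hpp, Nat.cast_sub hpp.one_lt.le, Nat.cast_one]
  have h1 : ∑ y : ZMod p, ∑ χ : DirichletCharacter ℂ p, χ (y ^ a)⁻¹ * χ u =
      ((p : ℂ) - 1) * ((univ.filter (fun y : ZMod p => y ^ a = u)).card : ℂ) := by
    have h2 : ∀ y : ZMod p, ∑ χ : DirichletCharacter ℂ p, χ (y ^ a)⁻¹ * χ u =
        if y ^ a = u then ((p : ℂ) - 1) else 0 := by
      intro y
      by_cases hy : y = 0
      · rw [hy, zero_pow (by omega), inv_zero, if_neg (Ne.symm hu)]
        refine Finset.sum_eq_zero fun χ _ => ?_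
        rw [MulChar.map_nonunit χ not_isUnit_zero, zero_mul]
      · rw [DirichletCharacter.sum_char_inv_mul_char_eq ℂ
          (isUnit_iff_ne_zero.2 (pow_ne_zero a hy)), h4]
    simp_rw [h2]
    rw [← Finset.sum_filter, Finset.sum_const, nsmul_eq_mul]
    ring
  have h5 : ∑ y : ZMod p, ∑ χ : DirichletCharacter ℂ p, χ (y ^ a)⁻¹ * χ u =
      ((p : ℂ) - 1) * ∑ χ ∈ univ.filter (fun χ : DirichletCharacter ℂ p => χ ^ a = 1), χ u := by
    rw [Finset.sum_comm, Finset.mul_sum, Finset.sum_filter]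
    refine Finset.sum_congr rfl fun χ _ => ?_
    rw [← Finset.sum_mul]
    have h6 : ∑ y : ZMod p, χ (y ^ a)⁻¹ = ∑ y : ZMod p, (χ⁻¹ ^ a) y := by
      refine Finset.sum_congr rfl fun y _ => ?_
      rw [MulChar.pow_apply' _ (by omega), ← map_pow, MulChar.inv_apply']
    rw [h6]
    split_ifs with h7
    · have h8 : (χ⁻¹ ^ a) = 1 := by rw [inv_pow, h7, inv_one]
      rw [h8]
      have h9 : ∑ y : ZMod p, (1 : MulChar (ZMod p) ℂ) y = ((p : ℂ) - 1) := by
        rw [MulChar.sum_one_eq_card_units, ZMod.card_units_eq_totient, h4]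
      have h10 : ∑ y : ZMod p, (1 : DirichletCharacter ℂ p) y = ((p : ℂ) - 1) := h9
      rw [h10]
    · have h8 : (χ⁻¹ ^ a) ≠ 1 := by
        intro h
        apply h7
        rw [inv_pow] at h
        exact inv_eq_one.mp h
      rw [MulChar.sum_eq_zero_of_ne_one h8, zero_mul]
  rw [h5] at h1
  exact (mul_left_cancel₀ hp1 h1).symm

end

open Pool.Agent.Y837.SW (NP wele)

/-- `f b ^ m` is not a constant times a power -/
theorem NP_mul {k : Type} [Field k] (t : ℕ) (f b : k[X]) (hf : Squarefree f) (hd : 0 < f.natDegree)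
    (hcop : IsCoprime f b) (m : ℕ) : NP t (f * b ^ m) := by
  intro s _ hs1 c w hw
  have hf0 : f ≠ 0 := by
    rintro rfl
    simp at hd
  have hfu : ¬ IsUnit f := by
    intro hu
    have := natDegree_eq_zero_of_isUnit hu
    omega
  obtain ⟨q, hq, hqf⟩ := WfDvdMonoid.exists_irreducible_factor hfu hf0
  have hqb : ¬ q ∣ b := fun h => hq.not_isUnit (hcop.isUnit_of_dvd' hqf h)
  have hb0 : b ≠ 0 := by
    rintro rfl
    exact hqb (dvd_zero _)
  have hc : c ≠ 0 := by
    rintro rfl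
    rw [C_0, zero_mul] at hw
    exact (mul_ne_zero hf0 (pow_ne_zero m hb0)) hw
  have hcu : IsUnit (C c : k[X]) := isUnit_C.mpr (isUnit_iff_ne_zero.mpr hc)
  have h1 : q ∣ w := by
    have h2 : q ∣ C c * w ^ s := by
      rw [← hw]
      exact Dvd.dvd.mul_right hqf _
    rcases hq.prime.dvd_or_dvd h2 with h3 | h3
    · exact absurd (isUnit_of_dvd_unit h3 hcu) hq.not_isUnit
    · exact hq.prime.dvd_of_dvd_pow h3
  have h2 : q ^ 2 ∣ f * b ^ m := by
    rw [hw]
    refine Dvd.dvd.mul_left ?_ _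
    exact (pow_dvd_pow q hs1).trans (pow_dvd_pow_of_dvd h1 s)
  have h3 : q ^ 2 ∣ f := by
    refine hq.prime.pow_dvd_of_dvd_mul_right 2 ?_ h2
    intro h
    exact hqb (hq.prime.dvd_of_dvd_pow h)
  rw [sq] at h3
  exact hq.not_isUnit (hf q h3)

/-- the character sums over the values of `(r - G) B ^ (t - 1)` -/
theorem char_bin {n : ℕ} (a : ℕ) (B G : MvPolynomial (Fin n) ℤ) (v : Fin n) (hB : B ≠ 0)
    (hG : MvPolynomial.pderiv v G ≠ 0) : ∃ E : ℤ[X], E ≠ 0 ∧ ∃ K : ℝ, 0 ≤ K ∧ ∃ B₀ : ℕ,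
    ∀ p : ℕ, ∀ _ : Fact p.Prime, B₀ < p → ∀ r : ZMod p, ev p E r ≠ 0 →
    ∀ t : ℕ, 2 ≤ t → t ≤ a → t ∣ p - 1 → ∀ χ : MulChar (ZMod p) ℂ, χ ≠ 1 → χ ^ t = 1 →
    ‖∑ x : Fin n → ZMod p, χ ((r - MvPolynomial.eval x (rp p G)) *
      MvPolynomial.eval x (rp p B) ^ (t - 1))‖ * Real.sqrt p ≤ K * (p : ℝ) ^ n := by
  classical
  obtain ⟨E, D, hE0, hbez⟩ := bez v (B * MvPolynomial.pderiv v G) G (mul_ne_zero hB hG)
  obtain ⟨d, hd⟩ : ∃ d, d = (ln v G).natDegree := ⟨_, rfl⟩
  have hd0 : 0 < d := by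
    rcases Nat.eq_zero_or_pos d with h | h
    · exfalso
      apply hG
      have h1 := ln_pderiv v G
      have hnd : (ln v G).natDegree = 0 := by omega
      rw [eq_C_of_natDegree_eq_zero hnd, derivative_C] at h1
      by_contra h2
      exact ln_inj v _ h2 h1
    · exact h
  obtain ⟨Λ, hΛ⟩ : ∃ Λ : MvPolynomial (Fin n) ℤ, Λ = (ln v G).leadingCoeff := ⟨_, rfl⟩
  have hΛ0 : Λ ≠ 0 := by
    rw [hΛ]
    refine leadingCoeff_ne_zero.mpr fun h => ?_
    rw [h, natDegree_zero] at hd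
    omega
  obtain ⟨B₁, hB₁⟩ := Pool.Agent.Y837.SW.rp_ne_zero Λ hΛ0
  obtain ⟨b, hb⟩ : ∃ b, b = (ln v B).natDegree := ⟨_, rfl⟩
  have hK : ∀ t : ℕ, ∃ K : ℝ, 0 ≤ K ∧ (2 ≤ t → ∀ (F : Type) [Field F] [Fintype F],
      t ∣ Fintype.card F - 1 → ∀ ψ : MulChar F ℂ, ψ ≠ 1 → ψ ^ t = 1 → ∀ f : F[X],
      f.natDegree ≤ d + a * b → f ≠ 0 → NP t f →
      ‖∑ x : F, ψ (f.eval x)‖ ≤ K * Real.sqrt (Fintype.card F)) := by
    intro t
    by_cases ht : 2 ≤ t
    · obtain ⟨K, hK0, hK⟩ := wele t (d + a * b) ht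
      exact ⟨K, hK0, fun _ => hK⟩
    · exact ⟨0, le_rfl, fun h => absurd h ht⟩
  choose K hK0 hK using hK
  obtain ⟨K₁, hK₁⟩ : ∃ K₁ : ℝ, K₁ = ∑ t ∈ range (a + 1), K t := ⟨_, rfl⟩
  have hK₁t : ∀ t ≤ a, K t ≤ K₁ := by
    intro t ht
    rw [hK₁]
    exact Finset.single_le_sum (f := K) (fun t _ => hK0 t) (mem_range.mpr (by omega))
  have hK₁0 : 0 ≤ K₁ := by
    rw [hK₁]
    exact Finset.sum_nonneg fun t _ => hK0 t
  refine ⟨E, hE0, K₁ + (D + Λ.totalDegree : ℕ), by positivity, B₁, ?_⟩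
  intro p hp hBp r hr t ht2 hta htp χ hχ1 hχt
  have hpp := hp.out
  have hp0 : (0 : ℝ) < p := by exact_mod_cast hpp.pos
  have hs0 : 0 < Real.sqrt p := Real.sqrt_pos.mpr hp0
  have hs1 : 1 ≤ Real.sqrt p := by
    rw [Real.one_le_sqrt]
    exact_mod_cast hpp.one_lt.le
  have hsq : Real.sqrt p * Real.sqrt p = p := Real.mul_self_sqrt hp0.le
  obtain ⟨γ, hγ0, hγD, k, h, hkh⟩ := hbez p hp r hr
  have hΛp : rp p Λ ≠ 0 := hB₁ p hBp
  obtain ⟨Γ, hΓ⟩ : ∃ Γ : MvPolynomial (Fin n) (ZMod p), Γ = γ * rp p Λ := ⟨_, rfl⟩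
  have hΓ0 : Γ ≠ 0 := by rw [hΓ]; exact mul_ne_zero hγ0 hΛp
  have hΓd : Γ.totalDegree ≤ D + Λ.totalDegree := by
    rw [hΓ]
    refine (MvPolynomial.totalDegree_mul _ _).trans (Nat.add_le_add hγD (rp_degree Λ))
  have hbad := Pool.Agent.X145.ML.sz Γ hΓ0
  -- the polynomials on the lines
  obtain ⟨f, hf⟩ : ∃ f : (Fin n → ZMod p) → (ZMod p)[X], ∀ x, f x = (C r - lnx v x (rp p G)) *
      (lnx v x (rp p B)) ^ (t - 1) := ⟨_, fun _ => rfl⟩
  have hfev : ∀ x s, (f x).eval s = (r - MvPolynomial.eval (Function.update x v s) (rp p G)) *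
      MvPolynomial.eval (Function.update x v s) (rp p B) ^ (t - 1) := by
    intro x s
    rw [hf, eval_mul, eval_sub, eval_C, eval_pow, lnx_eval, lnx_eval]
  have hsum : (p : ℂ) * ∑ x : Fin n → ZMod p, χ ((r - MvPolynomial.eval x (rp p G)) *
      MvPolynomial.eval x (rp p B) ^ (t - 1)) = ∑ x : Fin n → ZMod p, ∑ s : ZMod p, χ ((f x).eval s) := by
    rw [← sum_update v]
    refine Finset.sum_congr rfl fun x _ => Finset.sum_congr rfl fun s _ => ?_
    rw [hfev]
  have hline : ∀ x, ‖∑ s : ZMod p, χ ((f x).eval s)‖ ≤ K₁ * Real.sqrt p +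
      (if MvPolynomial.eval x Γ = 0 then (p : ℝ) else 0) := by
    intro x
    by_cases hx : MvPolynomial.eval x Γ = 0
    · rw [if_pos hx]
      have h1 : ‖∑ s : ZMod p, χ ((f x).eval s)‖ ≤ p := by
        refine (norm_sum_le _ _).trans ?_
        have h2 : ∀ s ∈ (univ : Finset (ZMod p)), ‖χ ((f x).eval s)‖ ≤ 1 := fun s _ =>
          Pool.Agent.H435R3.Weil.WELE.mc_norm_le_one χ _
        refine (Finset.sum_le_sum h2).trans ?_
        simp [ZMod.card]
      have h2 : 0 ≤ K₁ * Real.sqrt p := by positivity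
      linarith
    · rw [if_neg hx, add_zero]
      rw [hΓ, map_mul] at hx
      have hx1 : MvPolynomial.eval x γ ≠ 0 := left_ne_zero_of_mul hx
      have hx2 : MvPolynomial.eval x (rp p Λ) ≠ 0 := right_ne_zero_of_mul hx
      -- coprimality
      have h1 := congrArg (Polynomial.map (MvPolynomial.eval x)) hkh
      rw [Polynomial.map_add, Polynomial.map_mul, Polynomial.map_mul, Polynomial.map_sub, map_C, map_C,
        MvPolynomial.eval_C, ← lnx_def, ← lnx_def] at h1
      have hPp : rp p (B * MvPolynomial.pderiv v G) = rp p B * MvPolynomial.pderiv v (rp p G) := by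
        unfold rp
        rw [map_mul, MvPolynomial.pderiv_map]
      have hlP : lnx v x (rp p (B * MvPolynomial.pderiv v G)) =
          lnx v x (rp p B) * derivative (lnx v x (rp p G)) := by
        rw [hPp, map_mul]
        congr 1
        rw [lnx_def, ln_pderiv, ← derivative_map, lnx_def]
      have hcop : IsCoprime (C r - lnx v x (rp p G)) (lnx v x (rp p B) * derivative (lnx v x (rp p G))) := by
        refine ⟨C (MvPolynomial.eval x γ)⁻¹ * k.map (MvPolynomial.eval x),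
          C (MvPolynomial.eval x γ)⁻¹ * h.map (MvPolynomial.eval x), ?_⟩
        have h2 : C (MvPolynomial.eval x γ)⁻¹ * C (MvPolynomial.eval x γ) = (1 : (ZMod p)[X]) := by
          rw [← C_mul, inv_mul_cancel₀ hx1, C_1]
        rw [hlP] at h1
        rw [← h2, h1]
        ring
      have hcopB : IsCoprime (C r - lnx v x (rp p G)) (lnx v x (rp p B)) := hcop.of_mul_right_left
      have hsep : (C r - lnx v x (rp p G)).Separable := by
        unfold Separable
        rw [derivative_sub, derivative_C, zero_sub]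
        exact hcop.of_mul_right_right.neg_right
      have hlnG : ln v (rp p G) = (ln v G).map (MvPolynomial.map (Int.castRingHom (ZMod p))) := by
        rw [← ln_map]
        rfl
      have hdeg : (lnx v x (rp p G)).natDegree = d := by
        apply le_antisymm
        · rw [lnx_def, hlnG, hd]
          exact natDegree_map_le.trans natDegree_map_le
        · apply le_natDegree_of_ne_zero
          rw [lnx_def, hlnG, coeff_map, coeff_map]
          rw [hΛ, leadingCoeff, ← hd] at hx2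
          exact hx2
      have hdeg' : (C r - lnx v x (rp p G)).natDegree = d := by
        rw [← neg_sub, natDegree_neg, natDegree_sub_C, hdeg]
      have hdB : (lnx v x (rp p B)).natDegree ≤ b := by
        have hlnB : ln v (rp p B) = (ln v B).map (MvPolynomial.map (Int.castRingHom (ZMod p))) := by
          rw [← ln_map]
          rfl
        rw [lnx_def, hlnB, hb]
        exact natDegree_map_le.trans natDegree_map_le
      have hNP : NP t (f x) := by
        rw [hf]
        exact NP_mul t _ _ hsep.squarefree (by omega) hcopB (t - 1)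
      have hf0 : f x ≠ 0 := by
        intro h0
        refine hNP t dvd_rfl (by omega) 0 0 ?_
        rw [h0, C_0, zero_mul]
      have hfd : (f x).natDegree ≤ d + a * b := by
        rw [hf]
        refine natDegree_mul_le.trans (Nat.add_le_add hdeg'.le ?_)
        refine natDegree_pow_le.trans ?_
        exact Nat.mul_le_mul (by omega) hdB
      have h3 := hK t ht2 (ZMod p) (by rw [ZMod.card]; exact htp) χ hχ1 hχt (f x) hfd hf0 hNP
      rw [ZMod.card] at h3
      refine h3.trans ?_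
      exact mul_le_mul_of_nonneg_right (hK₁t t hta) hs0.le
  obtain ⟨S, hS⟩ : ∃ S : ℂ, S = ∑ x : Fin n → ZMod p, χ ((r - MvPolynomial.eval x (rp p G)) *
      MvPolynomial.eval x (rp p B) ^ (t - 1)) := ⟨_, rfl⟩
  rw [← hS] at hsum ⊢
  obtain ⟨W, hW⟩ : ∃ W : ℕ, W = (univ.filter (fun x : Fin n → ZMod p => MvPolynomial.eval x Γ = 0)).card :=
    ⟨_, rfl⟩
  have hcard : (Fintype.card (Fin n → ZMod p) : ℝ) = (p : ℝ) ^ n := by
    rw [Fintype.card_fun, ZMod.card, Fintype.card_fin]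
    push_cast
    rfl
  have hWb : (p : ℝ) * W ≤ (D + Λ.totalDegree : ℕ) * (p : ℝ) ^ n := by
    have h1 : p * W ≤ (D + Λ.totalDegree) * Fintype.card (Fin n → ZMod p) := by
      rw [hW]
      exact hbad.trans (Nat.mul_le_mul_right _ hΓd)
    have h2 : (p : ℝ) * W ≤ ((D + Λ.totalDegree : ℕ) : ℝ) * (Fintype.card (Fin n → ZMod p) : ℝ) := by
      exact_mod_cast h1
    rw [hcard] at h2
    exact h2
  have htot : (p : ℝ) * ‖S‖ ≤ K₁ * Real.sqrt p * (p : ℝ) ^ n + (D + Λ.totalDegree : ℕ) * (p : ℝ) ^ n := by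
    have h1 : (p : ℝ) * ‖S‖ = ‖(p : ℂ) * S‖ := by
      rw [norm_mul, Complex.norm_natCast]
    rw [h1, hsum]
    refine (norm_sum_le _ _).trans ((Finset.sum_le_sum fun x _ => hline x).trans ?_)
    rw [Finset.sum_add_distrib, Finset.sum_const, card_univ, nsmul_eq_mul, hcard, ← Finset.sum_filter,
      Finset.sum_const, nsmul_eq_mul, ← hW]
    have h2 : (W : ℝ) * p = p * W := mul_comm _ _
    rw [h2]
    have h3 : (p : ℝ) ^ n * (K₁ * Real.sqrt p) = K₁ * Real.sqrt p * (p : ℝ) ^ n := by ring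
    rw [h3]
    linarith
  have hDn : (0 : ℝ) ≤ ((D + Λ.totalDegree : ℕ) : ℝ) * (p : ℝ) ^ n := by positivity
  have hfin : Real.sqrt p * (‖S‖ * Real.sqrt p) ≤
      Real.sqrt p * ((K₁ + (D + Λ.totalDegree : ℕ)) * (p : ℝ) ^ n) := by
    calc Real.sqrt p * (‖S‖ * Real.sqrt p) = (Real.sqrt p * Real.sqrt p) * ‖S‖ := by ring
      _ = p * ‖S‖ := by rw [hsq]
      _ ≤ K₁ * Real.sqrt p * (p : ℝ) ^ n + (D + Λ.totalDegree : ℕ) * (p : ℝ) ^ n := htot
      _ ≤ K₁ * Real.sqrt p * (p : ℝ) ^ n + Real.sqrt p * ((D + Λ.totalDegree : ℕ) * (p : ℝ) ^ n) := by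
          have : 1 * (((D + Λ.totalDegree : ℕ) : ℝ) * (p : ℝ) ^ n) ≤
            Real.sqrt p * (((D + Λ.totalDegree : ℕ) : ℝ) * (p : ℝ) ^ n) :=
            mul_le_mul_of_nonneg_right hs1 hDn
          linarith
      _ = _ := by ring
  exact le_of_mul_le_mul_left hfin hs0

end Pool.Agent.X145.S3
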