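import Pool.Agent.X145.S3.Elim

/-!
Irreducibility of `B X_v ^ a + G - r`.
-/

set_option autoImplicit false
set_option linter.unusedSectionVars false

namespace Pool.Agent.X145.S3

open Finset Polynomial
open Pool.Agent.Y837.SV (rp rp_eval rp_int rp_degree)

theorem ev_prod (p : ℕ) {ι : Type} (s : Finset ι) (E : ι → ℤ[X]) (r : ZMod p) :
    ev p (∏ i ∈ s, E i) r = ∏ i ∈ s, ev p (E i) r := by
  have h := map_prod (eval₂RingHom (Int.castRingHom (ZMod p)) r) E s
  exact h

theorem ev_mul (p : ℕ) (E E' : ℤ[X]) (r : ZMod p) : ev p (E * E') r = ev p E r * ev p E' r :=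
  map_mul (eval₂RingHom (Int.castRingHom (ZMod p)) r) E E'

theorem coprime {n : ℕ} (P G : MvPolynomial (Fin n) ℤ) (hP : P ≠ 0) (v₀ : Fin n) :
    ∃ E : ℤ[X], E ≠ 0 ∧ ∀ p : ℕ, ∀ _ : Fact p.Prime, ∀ r : ZMod p, ev p E r ≠ 0 →
      IsRelPrime (rp p P) (rp p G - MvPolynomial.C r) := by
  classical
  choose E D hE0 h using fun v : Fin n => bez v P G hP
  refine ⟨∏ v, E v, Finset.prod_ne_zero_iff.mpr fun v _ => hE0 v, ?_⟩
  intro p hp r hr q hq1 hq2
  rw [ev_prod, Finset.prod_ne_zero_iff] at hr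
  have hdvd : ∀ v : Fin n, ∃ γ : MvPolynomial (Fin n) (ZMod p), γ ≠ 0 ∧ ln v q ∣ C γ := by
    intro v
    obtain ⟨γ, hγ, -, k, g, hkg⟩ := h v p hp r (hr v (mem_univ v))
    refine ⟨γ, hγ, ?_⟩
    rw [hkg]
    refine dvd_add (Dvd.dvd.mul_right ?_ _) (Dvd.dvd.mul_right (map_dvd (ln v) hq1) _)
    have h1 := map_dvd (ln v) hq2
    rw [map_sub, ln_C] at h1
    have h2 := (dvd_neg (a := ln v q)).mpr h1
    rwa [neg_sub] at h2
  have hq0 : q ≠ 0 := by
    rintro rfl
    obtain ⟨γ, hγ, h1⟩ := hdvd v₀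
    rw [map_zero, zero_dvd_iff, C_eq_zero] at h1
    exact hγ h1
  have hvars : q.vars = ∅ := by
    rw [Finset.eq_empty_iff_forall_notMem]
    intro v
    obtain ⟨γ, hγ, h1⟩ := hdvd v
    apply ln_free
    have h2 := natDegree_le_of_dvd h1 (C_ne_zero.mpr hγ)
    rw [natDegree_C] at h2
    omega
  rw [MvPolynomial.vars_eq_empty_iff_eq_C] at hvars
  rw [hvars]
  refine IsUnit.map _ (isUnit_iff_ne_zero.mpr ?_)
  intro h0
  rw [h0, map_zero] at hvars
  exact hq0 hvars

/-- Eisenstein -/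
theorem eisenB {R : Type} [CommRing R] [IsDomain R] (b h q : R) (hq : Prime q) (h1 : q ∣ h)
    (h2 : ¬ q ^ 2 ∣ h) (hb : IsRelPrime b h) (N : ℕ) (hN : 1 ≤ N) :
    Irreducible (C b * X ^ N + C h : R[X]) := by
  have h3 : ¬ q ∣ b := fun hqb => hq.not_isUnit (hb hqb h1)
  have hb0 : b ≠ 0 := by
    rintro rfl
    exact h3 (dvd_zero _)
  have hdeg : (C b * X ^ N + C h : R[X]).natDegree = N := by
    rw [Polynomial.natDegree_add_C, Polynomial.natDegree_C_mul_X_pow N b hb0]
  have hlc : (C b * X ^ N + C h : R[X]).leadingCoeff = b := by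
    unfold Polynomial.leadingCoeff
    rw [hdeg, Polynomial.coeff_add, Polynomial.coeff_C_mul_X_pow, if_pos rfl,
      Polynomial.coeff_C, if_neg (by omega), add_zero]
  refine Polynomial.irreducible_of_eisenstein_criterion (P := Ideal.span {q})
    ((Ideal.span_singleton_prime hq.ne_zero).2 hq) ?_ ?_ ?_ ?_ ?_
  · rw [hlc, Ideal.mem_span_singleton]
    exact h3
  · intro n hn
    have hn' : n < N := by
      have h4 : (n : WithBot ℕ) < ((C b * X ^ N + C h : R[X]).natDegree : WithBot ℕ) :=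
        lt_of_lt_of_le hn Polynomial.degree_le_natDegree
      rw [hdeg] at h4
      exact_mod_cast h4
    rw [Ideal.mem_span_singleton, Polynomial.coeff_add, Polynomial.coeff_C_mul_X_pow,
      if_neg (by omega), zero_add, Polynomial.coeff_C]
    split_ifs
    · exact h1
    · exact dvd_zero _
  · rw [← Polynomial.natDegree_pos_iff_degree_pos, hdeg]
    omega
  · rw [Polynomial.coeff_add, Polynomial.coeff_C_mul_X_pow, if_neg (by omega), zero_add,
      Polynomial.coeff_C_zero, Ideal.span_singleton_pow, Ideal.mem_span_singleton]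
    exact h2
  · intro r hr
    have h4 := (Polynomial.C_dvd_iff_dvd_coeff _ _).mp hr N
    have h5 := (Polynomial.C_dvd_iff_dvd_coeff _ _).mp hr 0
    rw [Polynomial.coeff_add, Polynomial.coeff_C_mul_X_pow, if_pos rfl,
      Polynomial.coeff_C, if_neg (by omega), add_zero] at h4
    rw [Polynomial.coeff_add, Polynomial.coeff_C_mul_X_pow, if_neg (by omega), zero_add,
      Polynomial.coeff_C_zero] at h5
    exact hb h4 h5

theorem irr_of_ln {n : ℕ} {k : Type} [Field k] (v : Fin n) (F : MvPolynomial (Fin n) k)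
    (h : Irreducible (ln v F)) : Irreducible F := by
  refine ⟨fun hu => h.not_isUnit (hu.map (ln v)), fun {S T} hST => ?_⟩
  have h1 : ∀ S : MvPolynomial (Fin n) k, IsUnit (ln v S) → IsUnit S := by
    intro S hS
    have h2 := hS.map (evalRingHom (MvPolynomial.X v : MvPolynomial (Fin n) k))
    have h3 : (evalRingHom (MvPolynomial.X v : MvPolynomial (Fin n) k)) (ln v S) = S := ln_one v S
    rwa [h3] at h2
  rcases h.isUnit_or_isUnit (by rw [hST, map_mul]) with h2 | h2
  · exact Or.inl (h1 S h2)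
  · exact Or.inr (h1 T h2)

/-- `ln` of a polynomial without the variable `v` -/
theorem ln_of_free {n : ℕ} {A : Type} [CommRing A] (v : Fin n) (P : MvPolynomial (Fin n) A)
    (hP : v ∉ P.vars) : ln v P = C P := by
  have h1 : ln v P = MvPolynomial.eval₂Hom (C.comp MvPolynomial.C)
      (fun i => C (MvPolynomial.X i)) P := by
    unfold ln
    refine MvPolynomial.eval₂Hom_congr' rfl (fun i hi _ => ?_) rfl
    rw [if_neg (by rintro rfl; exact hP hi)]
  rw [h1]
  have h : (MvPolynomial.eval₂Hom ((C : MvPolynomial (Fin n) A →+* _).comp MvPolynomial.C)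
      (fun i => C (MvPolynomial.X i))) = C := by
    ext i
    · simp
    · simp
  rw [h]

theorem bin_irr {n : ℕ} {k : Type} [Field k] (v : Fin n) (B H : MvPolynomial (Fin n) k)
    (hvB : v ∉ B.vars) (hvH : v ∉ H.vars) (hB : B ≠ 0) (a : ℕ) (ha : 1 ≤ a) (hBH : IsRelPrime B H)
    (h : a = 1 ∨ ∃ q : MvPolynomial (Fin n) k, Prime q ∧ q ∣ H ∧ ¬ q ^ 2 ∣ H) :
    Irreducible (B * MvPolynomial.X v ^ a + H) := by
  apply irr_of_ln v
  rw [map_add, map_mul, map_pow, ln_X_self, ln_of_free v B hvB, ln_of_free v H hvH]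
  rcases h with rfl | ⟨q, hq, h1, h2⟩
  · rw [pow_one]
    exact irreducible_C_mul_X_add_C hB hBH
  · exact eisenB B H q hq h1 h2 hBH a ha

/-- the simple prime factors of `G - r` -/
theorem simple_of_coprime {n : ℕ} {k : Type} [Field k] (v : Fin n) (B H : MvPolynomial (Fin n) k)
    (hH0 : H ≠ 0) (hHu : ¬ IsUnit H) (hcop : IsRelPrime (B * MvPolynomial.pderiv v H) H) :
    ∃ q : MvPolynomial (Fin n) k, Prime q ∧ q ∣ H ∧ ¬ q ^ 2 ∣ H := by
  obtain ⟨q, hq, hqH⟩ := WfDvdMonoid.exists_irreducible_factor hHu hH0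
  refine ⟨q, hq.prime, hqH, ?_⟩
  rintro ⟨g, hg⟩
  apply hq.not_isUnit
  refine hcop ?_ hqH
  apply Dvd.dvd.mul_left
  rw [hg, Derivation.leibniz, Derivation.leibniz_pow]
  simp only [smul_eq_mul, nsmul_eq_mul]
  refine dvd_add ?_ ?_
  · exact Dvd.dvd.mul_right (dvd_pow_self q (by norm_num)) _
  · refine Dvd.dvd.mul_left ?_ _
    refine Dvd.dvd.mul_left ?_ _
    exact Dvd.dvd.mul_right (by simp) _

end Pool.Agent.X145.S3
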