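import Pool.Agent.X145.S3.Fam

/-!
Admissible polynomials and polynomial changes of the variables.
-/

set_option autoImplicit false

namespace Pool.Agent.X145.S3

open Finset
open Pool.Agent.Y837.SV (rp rp_eval rp_int rp_degree)

/-- a surjective endomorphism of a Noetherian ring is injective -/
theorem noeth_inj {R : Type} [CommRing R] [IsNoetherianRing R] (f : R →+* R)
    (hf : Function.Surjective f) : Function.Injective f := by
  obtain ⟨K, hK⟩ : ∃ K : ℕ →o Ideal R, ∀ k, K k = RingHom.ker (f ^ k) := by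
    refine ⟨⟨fun k => RingHom.ker (f ^ k), monotone_nat_of_le_succ fun k x hx => ?_⟩, fun _ => rfl⟩
    rw [RingHom.mem_ker] at hx ⊢
    rw [pow_succ', RingHom.mul_def, RingHom.comp_apply, hx, map_zero]
  obtain ⟨m, hm⟩ := monotone_stabilizes_iff_noetherian.mpr ‹IsNoetherianRing R› K
  rw [injective_iff_map_eq_zero]
  intro x hx
  have hs : Function.Surjective (f ^ m : R →+* R) := by
    rw [RingHom.coe_pow]
    exact hf.iterate m
  obtain ⟨y, hy⟩ := hs x
  have h1 : y ∈ K (m + 1) := by
    rw [hK, RingHom.mem_ker, pow_succ', RingHom.mul_def, RingHom.comp_apply, hy, hx]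
  rw [← hm (m + 1) (Nat.le_succ m), hK, RingHom.mem_ker] at h1
  rw [← hy, h1]

section

variable {n : ℕ}

/-- the substitution modulo `p` -/
noncomputable def Sub (p : ℕ) [Fact p.Prime] (φ : Fin n → MvPolynomial (Fin n) ℤ) :
    MvPolynomial (Fin n) (ZMod p) →ₐ[ZMod p] MvPolynomial (Fin n) (ZMod p) :=
  MvPolynomial.aeval (fun i => rp p (φ i))

theorem Sub_rp (p : ℕ) [Fact p.Prime] (φ : Fin n → MvPolynomial (Fin n) ℤ)
    (A : MvPolynomial (Fin n) ℤ) : rp p (MvPolynomial.aeval φ A) = Sub p φ (rp p A) := by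
  have h : (MvPolynomial.map (Int.castRingHom (ZMod p))).comp
      (MvPolynomial.aeval (R := ℤ) φ).toRingHom =
      (Sub p φ).toRingHom.comp (MvPolynomial.map (Int.castRingHom (ZMod p))) := by
    ext i
    · simp
    · simp [Sub, rp]
  exact DFunLike.congr_fun h A

theorem Sub_eval (p : ℕ) [Fact p.Prime] (φ : Fin n → MvPolynomial (Fin n) ℤ)
    (A : MvPolynomial (Fin n) (ZMod p)) (x : Fin n → ZMod p) :
    MvPolynomial.eval x (Sub p φ A) =
      MvPolynomial.eval (fun i => MvPolynomial.eval x (rp p (φ i))) A := by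
  have h : (MvPolynomial.eval x).comp (Sub p φ).toRingHom =
      MvPolynomial.eval (fun i => MvPolynomial.eval x (rp p (φ i))) := by
    ext i
    · simp
    · simp [Sub]
  exact DFunLike.congr_fun h A

theorem good_change' (F G : MvPolynomial (Fin n) ℤ) (φ ψ : Fin n → MvPolynomial (Fin n) ℤ) (N : ℤ)
    (hN : N ≠ 0) (hψ : ∀ i, MvPolynomial.aeval φ (ψ i) = MvPolynomial.C N * MvPolynomial.X i)
    (K K' : ℤ) (hK : K ≠ 0) (hG : Good G)
    (h : MvPolynomial.C K * F + MvPolynomial.C K' = MvPolynomial.aeval φ G) : Good F := by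
  classical
  obtain ⟨E, C, δ, B, hE0, hC, hδ, hb⟩ := hG
  have hE'0 : E.comp (Polynomial.C K * Polynomial.X + Polynomial.C K') ≠ 0 := by
    intro h0
    rw [Polynomial.comp_eq_zero_iff] at h0
    rcases h0 with h0 | ⟨-, h0⟩
    · exact hE0 h0
    · have h1 := congrArg (Polynomial.coeff · 1) h0
      simp at h1
      exact hK h1
  refine ⟨E.comp (Polynomial.C K * Polynomial.X + Polynomial.C K'), C, δ, B + N.natAbs + K.natAbs,
    hE'0, hC, hδ, ?_⟩
  intro p hp hBp r hr
  have hNp : ((N : ℤ) : ZMod p) ≠ 0 := by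
    intro h0
    rw [ZMod.intCast_zmod_eq_zero_iff_dvd] at h0
    have := Nat.le_of_dvd (Int.natAbs_pos.2 hN) (Int.natCast_dvd.1 h0)
    omega
  have hKp : ((K : ℤ) : ZMod p) ≠ 0 := by
    intro h0
    rw [ZMod.intCast_zmod_eq_zero_iff_dvd] at h0
    have := Nat.le_of_dvd (Int.natAbs_pos.2 hK) (Int.natCast_dvd.1 h0)
    omega
  obtain ⟨s, hs⟩ : ∃ s : ZMod p, s = (K : ZMod p) * r + (K' : ZMod p) := ⟨_, rfl⟩
  have hr' : ev p E s ≠ 0 := by
    have h1 : ev p (E.comp (Polynomial.C K * Polynomial.X + Polynomial.C K')) r = ev p E s := by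
      unfold ev
      rw [Polynomial.eval₂_comp, Polynomial.eval₂_add, Polynomial.eval₂_mul, Polynomial.eval₂_C,
        Polynomial.eval₂_X, Polynomial.eval₂_C, hs]
      rfl
    rw [← h1]
    exact hr
  obtain ⟨hi, hc⟩ := hb p hp (by omega) s hr'
  have hψp : ∀ i, Sub p φ (rp p (ψ i)) = MvPolynomial.C ((N : ℤ) : ZMod p) * MvPolynomial.X i := by
    intro i
    rw [← Sub_rp, hψ]
    simp [rp]
  have hsurj : Function.Surjective (Sub p φ) := by
    rw [← AlgHom.range_eq_top, eq_top_iff, ← MvPolynomial.adjoin_range_X, Algebra.adjoin_le_iff]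
    rintro _ ⟨i, rfl⟩
    refine ⟨MvPolynomial.C ((N : ZMod p)⁻¹) * rp p (ψ i), ?_⟩
    show Sub p φ (MvPolynomial.C ((N : ZMod p)⁻¹) * rp p (ψ i)) = MvPolynomial.X i
    rw [map_mul, hψp, ← mul_assoc]
    have h1 : Sub p φ (MvPolynomial.C ((N : ZMod p)⁻¹)) = MvPolynomial.C ((N : ZMod p)⁻¹) :=
      (Sub p φ).commutes _
    rw [h1, ← map_mul, inv_mul_cancel₀ hNp, map_one, one_mul]
  have hinj : Function.Injective (Sub p φ) := noeth_inj (Sub p φ).toRingHom hsurj
  have hKF : Sub p φ (rp p G - MvPolynomial.C s) =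
      MvPolynomial.C ((K : ℤ) : ZMod p) * (rp p F - MvPolynomial.C r) := by
    have h1 : Sub p φ (MvPolynomial.C s) = MvPolynomial.C s := (Sub p φ).commutes _
    rw [map_sub, ← Sub_rp, ← h, h1, hs]
    simp only [rp, map_add, map_mul, MvPolynomial.map_C]
    have e1 : (Int.castRingHom (ZMod p)) K = (K : ZMod p) := rfl
    have e2 : (Int.castRingHom (ZMod p)) K' = (K' : ZMod p) := rfl
    rw [e1, e2]
    ring
  refine ⟨?_, ?_⟩
  · have e : Irreducible (Sub p φ (rp p G - MvPolynomial.C s)) := by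
      have h2 := (MulEquiv.irreducible_iff (AlgEquiv.ofBijective (Sub p φ) ⟨hinj, hsurj⟩)
        (x := rp p G - MvPolynomial.C s)).mpr hi
      exact h2
    rw [hKF] at e
    have hu : IsUnit (MvPolynomial.C ((K : ℤ) : ZMod p) : MvPolynomial (Fin n) (ZMod p)) :=
      (isUnit_iff_ne_zero.mpr hKp).map MvPolynomial.C
    exact (irreducible_isUnit_mul hu).mp e
  · obtain ⟨T, hT⟩ : ∃ T : (Fin n → ZMod p) → (Fin n → ZMod p),
        ∀ x, T x = fun i => MvPolynomial.eval x (rp p (φ i)) := ⟨_, fun _ => rfl⟩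
    have hTev : ∀ (x : Fin n → ZMod p) (A : MvPolynomial (Fin n) (ZMod p)),
        MvPolynomial.eval x (Sub p φ A) = MvPolynomial.eval (T x) A := by
      intro x A
      rw [Sub_eval, hT]
    have hTinj : Function.Injective T := by
      intro x y hxy
      funext i
      have h1 := hTev x (rp p (ψ i))
      have h2 := hTev y (rp p (ψ i))
      rw [hψp] at h1 h2
      rw [hxy, ← h2] at h1
      simp only [map_mul, MvPolynomial.eval_C, MvPolynomial.eval_X] at h1
      exact mul_left_cancel₀ hNp h1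
    have hTb : Function.Bijective T := Finite.injective_iff_bijective.mp hTinj
    have hcard : (univ.filter (fun x : Fin n → ZMod p => MvPolynomial.eval x (rp p F) = r)).card =
        (univ.filter (fun y : Fin n → ZMod p => MvPolynomial.eval y (rp p G) = s)).card := by
      refine Finset.card_bij (fun x _ => T x) ?_ (fun x _ y _ hxy => hTinj hxy) ?_
      · intro x hx
        rw [mem_filter] at hx ⊢
        refine ⟨mem_univ _, ?_⟩
        have h1 := congrArg (MvPolynomial.eval x) hKF
        rw [hTev] at h1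
        simp only [map_sub, map_mul, MvPolynomial.eval_C, hx.2, sub_self, mul_zero] at h1
        exact sub_eq_zero.mp h1
      · intro y hy
        obtain ⟨x, rfl⟩ := hTb.2 y
        rw [mem_filter] at hy
        refine ⟨x, ?_, rfl⟩
        rw [mem_filter]
        refine ⟨mem_univ _, ?_⟩
        have h1 := congrArg (MvPolynomial.eval x) hKF
        rw [hTev] at h1
        simp only [map_sub, map_mul, MvPolynomial.eval_C, hy.2, sub_self] at h1
        rcases mul_eq_zero.mp h1.symm with h2 | h2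
        · exact absurd h2 hKp
        · exact sub_eq_zero.mp h2
    have hc' : |(p : ℝ) * ((univ.filter (fun x : Fin n → ZMod p =>
        MvPolynomial.eval x (rp p G) = s)).card : ℝ) - (p : ℝ) ^ n| ≤
        C * (p : ℝ) ^ n * (p : ℝ) ^ (-δ) := by
      convert hc
    rw [← hcard] at hc'
    convert hc'

theorem clear_den {σ : Type} (χ : MvPolynomial σ ℚ) : ∃ N : ℤ, N ≠ 0 ∧ ∃ ψ : MvPolynomial σ ℤ,
    MvPolynomial.map (Int.castRingHom ℚ) ψ = MvPolynomial.C ((N : ℤ) : ℚ) * χ := by
  induction χ using MvPolynomial.induction_on with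
  | C a =>
    refine ⟨a.den, by exact_mod_cast a.den_ne_zero, MvPolynomial.C a.num, ?_⟩
    rw [MvPolynomial.map_C, ← map_mul]
    congr 1
    have := Rat.den_mul_eq_num a
    push_cast
    rw [this]
    rfl
  | add P Q hP hQ =>
    obtain ⟨N, hN, ψ, h⟩ := hP
    obtain ⟨N', hN', ψ', h'⟩ := hQ
    refine ⟨N * N', mul_ne_zero hN hN', MvPolynomial.C N' * ψ + MvPolynomial.C N * ψ', ?_⟩
    rw [map_add, map_mul, map_mul, h, h', MvPolynomial.map_C, MvPolynomial.map_C]
    push_cast
    rw [map_mul]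
    have e1 : (Int.castRingHom ℚ) N = (N : ℚ) := rfl
    have e2 : (Int.castRingHom ℚ) N' = (N' : ℚ) := rfl
    rw [e1, e2]
    ring
  | mul_X P i hP =>
    obtain ⟨N, hN, ψ, h⟩ := hP
    refine ⟨N, hN, ψ * MvPolynomial.X i, ?_⟩
    rw [map_mul, h, MvPolynomial.map_X, mul_assoc]

/-- **Admissibility does not depend on the coordinates.** -/
theorem good_change (F G : MvPolynomial (Fin n) ℤ) (φ : Fin n → MvPolynomial (Fin n) ℤ)
    (hφ : Algebra.adjoin ℚ (Set.range fun i => MvPolynomial.map (Int.castRingHom ℚ) (φ i)) = ⊤)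
    (K K' : ℤ) (hK : K ≠ 0) (hG : Good G)
    (h : MvPolynomial.C K * F + MvPolynomial.C K' = MvPolynomial.aeval φ G) : Good F := by
  classical
  have h1 : ∀ i, ∃ χ : MvPolynomial (Fin n) ℚ,
      MvPolynomial.aeval (fun i => MvPolynomial.map (Int.castRingHom ℚ) (φ i)) χ =
        MvPolynomial.X i := by
    intro i
    have h2 : (MvPolynomial.X i : MvPolynomial (Fin n) ℚ) ∈
        Algebra.adjoin ℚ (Set.range fun i => MvPolynomial.map (Int.castRingHom ℚ) (φ i)) := by
      rw [hφ]
      exact Algebra.mem_top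
    rw [Algebra.adjoin_range_eq_range_aeval] at h2
    exact h2
  choose χ hχ using h1
  choose N hN ψ hψ using fun i => clear_den (χ i)
  refine good_change' F G φ (fun i => MvPolynomial.C (∏ k ∈ univ.erase i, N k) * ψ i) (∏ k, N k)
    (Finset.prod_ne_zero_iff.mpr fun k _ => hN k) ?_ K K' hK hG h
  intro i
  apply MvPolynomial.map_injective (Int.castRingHom ℚ) Int.cast_injective
  have h2 : ∀ A : MvPolynomial (Fin n) ℤ, MvPolynomial.map (Int.castRingHom ℚ)
      (MvPolynomial.aeval φ A) = MvPolynomial.aeval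
        (fun i => MvPolynomial.map (Int.castRingHom ℚ) (φ i))
        (MvPolynomial.map (Int.castRingHom ℚ) A) := by
    intro A
    have h3 : (MvPolynomial.map (Int.castRingHom ℚ)).comp
        (MvPolynomial.aeval (R := ℤ) φ).toRingHom =
        (MvPolynomial.aeval (R := ℚ)
          (fun i => MvPolynomial.map (Int.castRingHom ℚ) (φ i))).toRingHom.comp
          (MvPolynomial.map (Int.castRingHom ℚ)) := by
      ext i
      · simp
      · simp
    exact DFunLike.congr_fun h3 A
  rw [h2, map_mul, hψ, MvPolynomial.map_C, map_mul, map_mul, hχ, ← MvPolynomial.algebraMap_eq,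
    AlgHom.commutes, AlgHom.commutes, MvPolynomial.algebraMap_eq, map_mul, MvPolynomial.map_C,
    MvPolynomial.map_X, ← mul_assoc, ← map_mul]
  congr 2
  have e : (Int.castRingHom ℚ) (∏ k ∈ univ.erase i, N k) * ((N i : ℤ) : ℚ) =
      (Int.castRingHom ℚ) (∏ k, N k) := by
    have e1 : ((N i : ℤ) : ℚ) = (Int.castRingHom ℚ) (N i) := rfl
    rw [e1, ← map_mul]
    congr 1
    rw [mul_comm]
    exact Finset.mul_prod_erase univ N (mem_univ i)
  exact e

end

end Pool.Agent.X145.S3
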