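import Pool.Agent.X145.S3.GenB
import Pool.Agent.Y837.SV.Three2
import Pool.Agent.Y837.SV.Fin1

/-!
The criterion for polynomials, with algebraic exceptional values.
-/

set_option autoImplicit false

namespace Pool.Agent.X145.S3

open Finset
open Pool.Agent.H256R2.SC (ff)
open Pool.Agent.Y837.SV (rp rp_eval rp_int rp_degree extras avoid red)

section schur

open Polynomial

theorem schur1 (g : ℤ[X]) (hg : g.natDegree ≠ 0) (B : ℕ) :
    ∃ p : ℕ, p.Prime ∧ B < p ∧ ∃ t : ℤ, (p : ℤ) ∣ g.eval t := by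
  obtain ⟨a, ha⟩ : ∃ a, a = g.eval 0 := ⟨_, rfl⟩
  by_cases ha0 : a = 0
  · obtain ⟨p, hp1, hp2⟩ := Nat.exists_infinite_primes (B + 1)
    refine ⟨p, hp2, by omega, 0, ?_⟩
    rw [← ha, ha0]
    exact dvd_zero _
  obtain ⟨m, hm⟩ : ∃ m : ℤ, m = a * (B.factorial : ℤ) := ⟨_, rfl⟩
  have hm0 : m ≠ 0 := by
    rw [hm]
    exact mul_ne_zero ha0 (by exact_mod_cast B.factorial_ne_zero)
  obtain ⟨q, hq⟩ : ∃ q : ℤ[X], q = g.comp (C m * X) := ⟨_, rfl⟩
  have hqd : q.natDegree ≠ 0 := by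
    rw [hq, natDegree_comp, natDegree_C_mul_X m hm0, mul_one]
    exact hg
  obtain ⟨s, hs⟩ : ∃ s : ℤ, (q.eval s) ^ 2 ≠ a ^ 2 := by
    by_contra hcon
    push Not at hcon
    have h1 : q ^ 2 = C (a ^ 2) := by
      refine Polynomial.funext fun s => ?_
      rw [eval_pow, eval_C, hcon s]
    have h2 := congrArg natDegree h1
    rw [natDegree_pow, natDegree_C] at h2
    omega
  have hqs : q.eval s = g.eval (m * s) := by
    rw [hq, eval_comp]
    simp
  have hdvd : m * s - 0 ∣ g.eval (m * s) - g.eval 0 := sub_dvd_eval_sub _ _ _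
  rw [sub_zero, ← ha] at hdvd
  obtain ⟨k, hk⟩ := hdvd
  have hval : g.eval (m * s) = a * (1 + (B.factorial : ℤ) * (s * k)) := by
    have : g.eval (m * s) = m * s * k + a := by linarith
    rw [this, hm]
    ring
  have hne : (1 + (B.factorial : ℤ) * (s * k)).natAbs ≠ 1 := by
    intro h
    apply hs
    rw [hqs, hval, mul_pow]
    have h1 : (1 + (B.factorial : ℤ) * (s * k)) ^ 2 = 1 := by
      rw [← Int.natAbs_sq, h]
      norm_num
    rw [h1, mul_one]
  obtain ⟨p, hp, hpd⟩ := Nat.exists_prime_and_dvd hne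
  refine ⟨p, hp, ?_, m * s, ?_⟩
  · by_contra hle
    have h1 : p ∣ B.factorial := hp.dvd_factorial.2 (by omega)
    have h2 : (p : ℤ) ∣ (B.factorial : ℤ) * (s * k) := Dvd.dvd.mul_right (by exact_mod_cast h1) _
    have h3 : (p : ℤ) ∣ 1 + (B.factorial : ℤ) * (s * k) := Int.natCast_dvd.2 hpd
    have h4 : (p : ℤ) ∣ 1 := by
      have := dvd_sub h3 h2
      rwa [add_sub_cancel_right] at this
    have h5 : p ∣ 1 := by exact_mod_cast h4
    exact hp.one_lt.ne' (Nat.dvd_one.1 h5)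
  · rw [hval]
    exact Dvd.dvd.mul_left (Int.natCast_dvd.2 hpd) _

end schur

theorem schur {d : ℕ} (F : MvPolynomial (Fin d) ℤ) (hF : ∀ c, F ≠ MvPolynomial.C c) (B : ℕ) :
    ∃ p : ℕ, p.Prime ∧ B < p ∧ ∃ x : Fin d → ℤ, (p : ℤ) ∣ MvPolynomial.eval x F := by
  obtain ⟨w, hw⟩ := avoid (ι := Unit) d (fun _ => F) (fun _ => MvPolynomial.eval 0 F) (fun _ => hF _)
  obtain ⟨g, hg⟩ : ∃ g : Polynomial ℤ, g = MvPolynomial.aeval
    (fun i => Polynomial.C (w i) * Polynomial.X) F := ⟨_, rfl⟩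
  have hev : ∀ t : ℤ, g.eval t = MvPolynomial.eval (fun i => w i * t) F := by
    intro t
    rw [hg, MvPolynomial.aeval_def, ← Polynomial.coe_evalRingHom, MvPolynomial.hom_eval₂]
    have h1 : (Polynomial.evalRingHom t).comp (algebraMap ℤ (Polynomial ℤ)) = RingHom.id ℤ :=
      RingHom.ext_int _ _
    rw [h1]
    have h2 : (⇑(Polynomial.evalRingHom t) ∘ fun i => Polynomial.C (w i) * Polynomial.X) =
        fun i => w i * t := by
      funext i
      simp
    have h3 : (fun i => (Polynomial.evalRingHom t) (Polynomial.C (w i) * Polynomial.X)) =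
        fun i => w i * t := h2
    rw [h3]
    rfl
  have hgd : g.natDegree ≠ 0 := by
    intro h
    rw [Polynomial.natDegree_eq_zero] at h
    obtain ⟨c, hc⟩ := h
    have h1 := hev 1
    have h0 := hev 0
    rw [← hc, Polynomial.eval_C] at h1 h0
    apply hw ()
    have e1 : (fun i => w i * 1) = w := by funext i; ring
    have e0 : (fun i => w i * 0) = (0 : Fin d → ℤ) := by funext i; simp
    rw [e1] at h1
    rw [e0] at h0
    rw [← h1, ← h0]
  obtain ⟨p, hp, hB, t, ht⟩ := schur1 g hgd B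
  rw [hev] at ht
  exact ⟨p, hp, hB, _, ht⟩

/-- the value of an integer polynomial at a residue -/
noncomputable def ev (p : ℕ) (E : Polynomial ℤ) (r : ZMod p) : ZMod p :=
  E.eval₂ (Int.castRingHom (ZMod p)) r

theorem ev_int (p : ℕ) (E : Polynomial ℤ) (r : ℤ) :
    ev p E (r : ZMod p) = ((E.eval r : ℤ) : ZMod p) :=
  Polynomial.eval₂_at_apply (Int.castRingHom (ZMod p)) r

/-- `F` and `G` are affinely related. -/
def Aff {d : ℕ} (F G : MvPolynomial (Fin d) ℤ) : Prop :=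
  ∃ μ ν κ : ℤ, μ ≠ 0 ∧ ν ≠ 0 ∧ MvPolynomial.C μ * F = MvPolynomial.C ν * G + MvPolynomial.C κ

/-- proportional polynomials -/
def Prp {d : ℕ} (F G : MvPolynomial (Fin d) ℤ) : Prop :=
  ∃ μ ν : ℤ, μ ≠ 0 ∧ ν ≠ 0 ∧ MvPolynomial.C μ * F = MvPolynomial.C ν * G

theorem Prp.refl {d : ℕ} (F : MvPolynomial (Fin d) ℤ) : Prp F F := ⟨1, 1, one_ne_zero, one_ne_zero, rfl⟩

theorem Prp.symm {d : ℕ} {F G : MvPolynomial (Fin d) ℤ} (h : Prp F G) : Prp G F := by
  obtain ⟨μ, ν, h1, h2, h3⟩ := h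
  exact ⟨ν, μ, h2, h1, h3.symm⟩

theorem Prp.trans {d : ℕ} {F G H : MvPolynomial (Fin d) ℤ} (h : Prp F G) (h' : Prp G H) :
    Prp F H := by
  obtain ⟨μ, ν, h1, h2, h3⟩ := h
  obtain ⟨μ', ν', h1', h2', h3'⟩ := h'
  refine ⟨μ' * μ, ν * ν', mul_ne_zero h1' h1, mul_ne_zero h2 h2', ?_⟩
  rw [map_mul, map_mul, mul_assoc, h3]
  calc MvPolynomial.C μ' * (MvPolynomial.C ν * G) = MvPolynomial.C ν * (MvPolynomial.C μ' * G) := by ring
    _ = _ := by rw [h3']; ring

/-- proportional polynomials have the same zeros modulo `p` -/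
theorem Prp.zero {d : ℕ} {F G : MvPolynomial (Fin d) ℤ} (h : Prp F G) (p : ℕ) [hp : Fact p.Prime]
    (hF : ∃ e, ((F.coeff e : ℤ) : ZMod p) ≠ 0) (x : Fin d → ZMod p)
    (hx : MvPolynomial.eval x (rp p F) = 0) : MvPolynomial.eval x (rp p G) = 0 := by
  obtain ⟨μ, ν, h1, h2, h3⟩ := h
  obtain ⟨g, μ', ν', hg, hcop, hμ, hν⟩ := Int.exists_gcd_one' (Int.gcd_pos_of_ne_zero_left ν h1)
  have hg0 : ((g : ℕ) : ℤ) ≠ 0 := by exact_mod_cast hg.ne'
  have h4 : MvPolynomial.C μ' * F = MvPolynomial.C ν' * G := by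
    have h5 : (MvPolynomial.C ((g : ℕ) : ℤ) : MvPolynomial (Fin d) ℤ) ≠ 0 := by
      intro h
      rw [← map_zero MvPolynomial.C] at h
      exact hg0 (MvPolynomial.C_injective _ _ h)
    apply mul_left_cancel₀ h5
    rw [← mul_assoc, ← mul_assoc, ← map_mul, ← map_mul]
    rw [hμ, hν] at h3
    rw [mul_comm ((g : ℕ) : ℤ) μ', mul_comm ((g : ℕ) : ℤ) ν']
    exact h3
  have h5 : ((ν' : ℤ) : ZMod p) ≠ 0 := by
    intro h0
    obtain ⟨e, he⟩ := hF
    have h6 : ((μ' : ℤ) : ZMod p) * ((F.coeff e : ℤ) : ZMod p) = 0 := by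
      have h7 := congrArg (MvPolynomial.coeff e) h4
      rw [MvPolynomial.coeff_C_mul, MvPolynomial.coeff_C_mul] at h7
      have h8 := congrArg (fun z : ℤ => (z : ZMod p)) h7
      push_cast at h8
      rw [h8, h0, zero_mul]
    have h7 : ((μ' : ℤ) : ZMod p) = 0 := by
      rcases mul_eq_zero.mp h6 with h8 | h8
      · exact h8
      · exact absurd h8 he
    rw [ZMod.intCast_zmod_eq_zero_iff_dvd] at h0 h7
    have h8 : (p : ℤ) ∣ 1 := by
      have := Int.dvd_coe_gcd h7 h0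
      rw [hcop] at this
      exact_mod_cast this
    have h9 : p ∣ 1 := by exact_mod_cast h8
    exact hp.out.one_lt.ne' (Nat.dvd_one.1 h9)
  have h6 := congrArg (fun Q => MvPolynomial.eval x (rp p Q)) h4
  simp only [rp, map_mul, MvPolynomial.map_C, MvPolynomial.eval_C] at h6
  have h7 : MvPolynomial.eval x (MvPolynomial.map (Int.castRingHom (ZMod p)) F) = 0 := hx
  rw [h7, mul_zero] at h6
  rcases mul_eq_zero.mp h6.symm with h8 | h8
  · exact absurd h8 h5
  · exact h8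

theorem ev_sq (A : ℝ) (hA : 0 ≤ A) : ∃ L₀ : ℝ, ∀ L : ℝ, L₀ ≤ L →
    A * L ^ (11 / 10 : ℝ) + A < L ^ 2 := by
  have h1 : Filter.Tendsto (fun L : ℝ => L ^ (9 / 10 : ℝ)) Filter.atTop Filter.atTop :=
    tendsto_rpow_atTop (by norm_num)
  obtain ⟨L₀, hL₀⟩ := Filter.eventually_atTop.1 ((h1.eventually_ge_atTop (2 * A + 1)).and
    (Filter.eventually_ge_atTop (1 : ℝ)))
  refine ⟨L₀, fun L hL => ?_⟩
  obtain ⟨h2, h3⟩ := hL₀ L hL
  have h4 : L ^ 2 = L ^ (9 / 10 : ℝ) * L ^ (11 / 10 : ℝ) := by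
    rw [← Real.rpow_add (by linarith), ← Real.rpow_natCast]
    norm_num
  have h5 : 1 ≤ L ^ (11 / 10 : ℝ) := Real.one_le_rpow h3 (by norm_num)
  rw [h4]
  nlinarith

open Classical in
/-- **The criterion with algebraic exceptional values.** -/
theorem critB {ι : Type} [Fintype ι] (d : ℕ) (F : ι → MvPolynomial (Fin d) ℤ)
    (hF : ∀ j, ∀ c : ℤ, F j ≠ MvPolynomial.C c) (E : ι → Polynomial ℤ) (hE0 : ∀ j, E j ≠ 0)
    (hU : ∀ j, ∃ C δ : ℝ, 0 ≤ C ∧ 0 < δ ∧ ∃ B₀ : ℕ, ∀ p : ℕ, ∀ _ : Fact p.Prime, B₀ < p →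
      ∀ r : ZMod p, ev p (E j) r ≠ 0 →
      |(p : ℝ) * ((univ.filter (fun x : Fin d → ZMod p =>
        MvPolynomial.eval x (rp p (F j)) = r)).card : ℝ) - (p : ℝ) ^ d| ≤
        C * (p : ℝ) ^ d * (p : ℝ) ^ (-δ))
    (hP : ∀ i j, ¬ Aff (F i) (F j) → ∃ C : ℝ, 0 ≤ C ∧ ∃ B₀ : ℕ, ∀ p : ℕ, ∀ _ : Fact p.Prime, B₀ < p →
      ∀ r s : ZMod p, ev p (E i) r ≠ 0 → ev p (E j) s ≠ 0 →
      (p : ℝ) ^ 2 * ((univ.filter (fun x : Fin d → ZMod p => MvPolynomial.eval x (rp p (F i)) = r ∧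
        MvPolynomial.eval x (rp p (F j)) = s)).card : ℝ) ≤ C * (p : ℝ) ^ d) :
    ∃ c : ℝ, 0 < c ∧ ∃ Z₀ : ℝ, ∀ Z : ℕ, Z₀ ≤ Z → ∀ M : Fin d → ℤ, ∃ x : Fin d → ℤ,
      (∀ i, M i < x i ∧ x i ≤ M i + Z) ∧ ∀ j, ∀ n : ℤ, |(n : ℝ) - MvPolynomial.eval x (F j)| ≤ c * ff Z →
        ∃ p : ℕ, p.Prime ∧ (p : ℝ) ≤ (Z : ℝ) ^ (1 / 10 : ℝ) ∧ (p : ℤ) ∣ n := by
  obtain ⟨w, hw⟩ := avoid d F (fun j => MvPolynomial.eval 0 (F j)) (fun j => hF j _)
  choose C₁ δ₁ hC₁ hδ₁ B₁ hB₁ using hU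
  have hP' : ∀ i j, ∃ C : ℝ, 0 ≤ C ∧ ∃ B₀ : ℕ, ¬ Aff (F i) (F j) → ∀ p : ℕ, ∀ _ : Fact p.Prime, B₀ < p →
      ∀ r s : ZMod p, ev p (E i) r ≠ 0 → ev p (E j) s ≠ 0 →
      (p : ℝ) ^ 2 * ((univ.filter (fun x : Fin d → ZMod p => MvPolynomial.eval x (rp p (F i)) = r ∧
        MvPolynomial.eval x (rp p (F j)) = s)).card : ℝ) ≤ C * (p : ℝ) ^ d := by
    intro i j
    by_cases h : Aff (F i) (F j)
    · exact ⟨0, le_rfl, 0, fun h' => absurd h h'⟩
    · obtain ⟨C, hC, B, hB⟩ := hP i j h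
      exact ⟨C, hC, B, fun _ => hB⟩
  choose C₂ hC₂ B₂ hB₂ using hP'
  have hFe : ∀ j, ∃ e : Fin d →₀ ℕ, e ≠ 0 ∧ (F j).coeff e ≠ 0 := by
    intro j
    by_contra hcon
    push Not at hcon
    apply hF j ((F j).coeff 0)
    ext e
    rw [MvPolynomial.coeff_C]
    by_cases he : 0 = e
    · rw [if_pos he, he]
    · rw [if_neg he]
      exact hcon e (Ne.symm he)
  choose ee hee0 hee using hFe
  obtain ⟨K, hK⟩ : ∃ K : ℝ, K = ∑ j : ι, C₁ j + ∑ i : ι, ∑ j : ι, C₂ i j := ⟨_, rfl⟩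
  obtain ⟨B₀, hB₀⟩ : ∃ B₀ : ℕ, B₀ = ∑ j : ι, B₁ j + ∑ i : ι, ∑ j : ι, B₂ i j + ∑ j : ι,
      (MvPolynomial.eval w (F j) - MvPolynomial.eval 0 (F j)).natAbs +
      ∑ j : ι, ((F j).coeff (ee j)).natAbs := ⟨_, rfl⟩
  have hs1 : 0 ≤ ∑ j : ι, C₁ j := Finset.sum_nonneg fun j _ => hC₁ j
  have hs2 : 0 ≤ ∑ i : ι, ∑ j : ι, C₂ i j :=
    Finset.sum_nonneg fun i _ => Finset.sum_nonneg fun j _ => hC₂ i j
  have hK0 : 0 ≤ K := by rw [hK]; linarith
  have hK1 : ∀ j, C₁ j ≤ K := by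
    intro j
    have := Finset.single_le_sum (f := C₁) (fun j _ => hC₁ j) (mem_univ j)
    rw [hK]
    linarith
  have hK2 : ∀ i j, C₂ i j ≤ K := by
    intro i j
    have a4 := Finset.single_le_sum (f := fun j : ι => C₂ i j) (fun j _ => hC₂ i j) (mem_univ j)
    have a5 := Finset.single_le_sum (f := fun i : ι => ∑ j : ι, C₂ i j)
      (fun i _ => Finset.sum_nonneg fun j _ => hC₂ i j) (mem_univ i)
    rw [hK]
    linarith
  have hb1 : ∀ j, B₁ j ≤ B₀ := by
    intro j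
    have := Finset.single_le_sum (f := B₁) (fun j _ => Nat.zero_le _) (mem_univ j)
    rw [hB₀]
    omega
  have hb2 : ∀ i j, B₂ i j ≤ B₀ := by
    intro i j
    have a4 := Finset.single_le_sum (f := fun j : ι => B₂ i j) (fun j _ => Nat.zero_le _) (mem_univ j)
    have a5 := Finset.single_le_sum (f := fun i : ι => ∑ j : ι, B₂ i j)
      (fun i _ => Nat.zero_le _) (mem_univ i)
    rw [hB₀]
    omega
  have hb3 : ∀ j, (MvPolynomial.eval w (F j) - MvPolynomial.eval 0 (F j)).natAbs ≤ B₀ := by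
    intro j
    have := Finset.single_le_sum (f := fun j : ι =>
      (MvPolynomial.eval w (F j) - MvPolynomial.eval 0 (F j)).natAbs) (fun j _ => Nat.zero_le _)
      (mem_univ j)
    rw [hB₀]
    omega
  have hb4 : ∀ j, ((F j).coeff (ee j)).natAbs ≤ B₀ := by
    intro j
    have := Finset.single_le_sum (f := fun j : ι => ((F j).coeff (ee j)).natAbs)
      (fun j _ => Nat.zero_le _) (mem_univ j)
    rw [hB₀]
    omega
  obtain ⟨δ, hδ⟩ : ∃ δ : ℝ, δ = (∑ j : ι, (δ₁ j)⁻¹ + 2)⁻¹ := ⟨_, rfl⟩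
  have hsd : 0 ≤ ∑ j : ι, (δ₁ j)⁻¹ := Finset.sum_nonneg fun j _ => (inv_pos.2 (hδ₁ j)).le
  have hδ0 : 0 < δ := by rw [hδ]; positivity
  have hδ2 : δ ≤ 1 / 2 := by
    rw [hδ, one_div]
    exact inv_anti₀ (by norm_num) (by linarith)
  have hδj : ∀ j, δ ≤ δ₁ j := by
    intro j
    have h1 := Finset.single_le_sum (f := fun j : ι => (δ₁ j)⁻¹) (fun j _ => (inv_pos.2 (hδ₁ j)).le)
      (mem_univ j)
    rw [hδ, ← inv_inv (δ₁ j)]
    refine inv_anti₀ (inv_pos.2 (hδ₁ j)) ?_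
    have h2 : (δ₁ j)⁻¹ ≤ ∑ j : ι, (δ₁ j)⁻¹ := h1
    linarith
  obtain ⟨EE, hEE⟩ : ∃ EE : Finset (ι × ℤ), EE = univ.biUnion (fun j =>
      ((E j).roots.toFinset).image (fun r => (j, r))) := ⟨_, rfl⟩
  have hEmem : ∀ j, ∀ r, (E j).eval r = 0 → (j, r) ∈ EE := by
    intro j r hr
    rw [hEE, mem_biUnion]
    refine ⟨j, mem_univ _, mem_image.2 ⟨r, ?_, rfl⟩⟩
    rw [Multiset.mem_toFinset, Polynomial.mem_roots (hE0 j)]
    exact hr
  obtain ⟨B, hB, u, hu1, hu2⟩ := extras d (fun j x => MvPolynomial.eval x (F j)) B₀ w EE (by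
    intro k hk B
    have hne : ∀ c : ℤ, F k.1 - MvPolynomial.C k.2 ≠ MvPolynomial.C c := by
      intro c hc
      apply hF k.1 (c + k.2)
      rw [map_add, ← hc]
      ring
    obtain ⟨p, hp, hBp, x, hx⟩ := schur (F k.1 - MvPolynomial.C k.2) hne B
    rw [map_sub, MvPolynomial.eval_C] at hx
    exact ⟨p, hp, hBp, x, hx⟩)
  obtain ⟨t, ht⟩ : ∃ t : ι → ℤ, ∀ j, t j = MvPolynomial.eval 0 (F j) := ⟨_, fun _ => rfl⟩
  obtain ⟨E', hE'⟩ : ∃ E' : ι → Polynomial ℤ, ∀ j, E' j = (E j).comp (Polynomial.X + Polynomial.C (t j)) :=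
    ⟨_, fun _ => rfl⟩
  have hE'ev : ∀ (j : ι) (p : ℕ) (r : ZMod p), (E' j).eval₂ (Int.castRingHom (ZMod p)) r =
      ev p (E j) (r + (t j : ZMod p)) := by
    intro j p r
    rw [hE', Polynomial.eval₂_comp, Polynomial.eval₂_add, Polynomial.eval₂_X, Polynomial.eval₂_C]
    rfl
  have hE'0 : ∀ j, E' j ≠ 0 := by
    intro j h
    apply hE0 j
    have h1 : (E' j).comp (Polynomial.X - Polynomial.C (t j)) = E j := by
      rw [hE', Polynomial.comp_assoc]
      simp
    rw [← h1, h, Polynomial.zero_comp]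
  have hred : ∀ (j : ι) (p : ℕ) (x : Fin d → ℤ), ((MvPolynomial.eval x (F j) : ℤ) : ZMod p) =
      MvPolynomial.aeval (red d p x) (F j) := by
    intro j p x
    have h1 : (Int.castRingHom (ZMod p)) (MvPolynomial.eval x (F j)) =
        MvPolynomial.aeval (red d p x) (F j) := by
      rw [MvPolynomial.aeval_def, MvPolynomial.eval, MvPolynomial.coe_eval₂Hom,
        MvPolynomial.hom_eval₂]
      congr 1
    exact h1
  obtain ⟨c, hc, Z₀, h⟩ := gen3B d
    (fun j p x => MvPolynomial.aeval x (F j) - (t j : ZMod p))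
    (fun j x => MvPolynomial.eval x (F j) - t j)
    (by
      intro j p x
      push_cast
      rw [hred])
    B (fun _ => 0) u
    (by
      intro p hp hBp j
      show (p : ℤ) ∣ MvPolynomial.eval 0 (F j) - t j
      rw [ht, sub_self]
      exact dvd_zero _)
    (by
      intro p hp hBp j hdvd
      rw [hu1 p hBp] at hdvd
      have hdvd' : (p : ℤ) ∣ MvPolynomial.eval w (F j) - MvPolynomial.eval 0 (F j) := by
        rw [← ht]
        exact hdvd
      have h2 : 0 < (MvPolynomial.eval w (F j) - MvPolynomial.eval 0 (F j)).natAbs :=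
        Int.natAbs_pos.2 (sub_ne_zero.2 (hw j))
      have h3 := Nat.le_of_dvd h2 (Int.natCast_dvd.1 hdvd')
      have h4 := hb3 j
      omega)
    E' hE'0
    (by
      intro j r hr
      have h1 : (E j).eval (r + t j) = 0 := by
        rw [hE', Polynomial.eval_comp] at hr
        simpa using hr
      obtain ⟨p, hp, hpB, hd⟩ := hu2 (j, r + t j) (hEmem j _ h1)
      refine ⟨p, hp, hpB, ?_⟩
      have e : MvPolynomial.eval (u p) (F j) - t j - r = MvPolynomial.eval (u p) (F j) - (r + t j) := by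
        ring
      rw [e]
      exact hd)
    K δ hK0 hδ0 hδ2
    (by
      intro p hp hBp j r hr
      have hpf : Fact p.Prime := ⟨hp⟩
      have hp1 : (1 : ℝ) ≤ p := by exact_mod_cast hp.one_lt.le
      have hb := hb1 j
      have h1 := hB₁ j p hpf (by omega) (r + (t j : ZMod p)) (by rw [← hE'ev]; exact hr)
      have h2 : (Nat.card {x : Fin d → ZMod p // MvPolynomial.aeval x (F j) - (t j : ZMod p) = r} : ℝ) =
          ((univ.filter (fun x : Fin d → ZMod p =>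
            MvPolynomial.eval x (rp p (F j)) = r + (t j : ZMod p))).card : ℝ) := by
        rw [Nat.card_eq_fintype_card, Fintype.card_subtype]
        congr 2
        ext x
        rw [mem_filter, mem_filter, sub_eq_iff_eq_add, rp_eval]
      rw [h2]
      refine h1.trans ?_
      have h3 : (p : ℝ) ^ (-δ₁ j) ≤ (p : ℝ) ^ (-δ) :=
        Real.rpow_le_rpow_of_exponent_le hp1 (neg_le_neg (hδj j))
      have h4 : (0 : ℝ) ≤ (p : ℝ) ^ (-δ₁ j) := by positivity
      calc C₁ j * (p : ℝ) ^ d * (p : ℝ) ^ (-δ₁ j) ≤ K * (p : ℝ) ^ d * (p : ℝ) ^ (-δ₁ j) := by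
            apply mul_le_mul_of_nonneg_right _ h4
            exact mul_le_mul_of_nonneg_right (hK1 j) (by positivity)
        _ ≤ K * (p : ℝ) ^ d * (p : ℝ) ^ (-δ) := mul_le_mul_of_nonneg_left h3 (by positivity))
    (fun k k' => Prp (F k.1 - MvPolynomial.C (t k.1) + MvPolynomial.C k.2)
      (F k'.1 - MvPolynomial.C (t k'.1) + MvPolynomial.C k'.2))
    ⟨fun _ => Prp.refl _, fun h => h.symm, fun h h' => h.trans h'⟩
    (by
      intro k k' hkk p hp hBp x hx
      have hpf : Fact p.Prime := ⟨hp⟩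
      have hev : ∀ k : ι × ℤ, MvPolynomial.eval x (rp p (F k.1 - MvPolynomial.C (t k.1) +
          MvPolynomial.C k.2)) = MvPolynomial.aeval x (F k.1) - (t k.1 : ZMod p) + (k.2 : ZMod p) := by
        intro k
        rw [rp_eval]
        simp
      have h1 := hkk.zero p ⟨ee k.1, by
        rw [MvPolynomial.coeff_add, MvPolynomial.coeff_sub, MvPolynomial.coeff_C, MvPolynomial.coeff_C,
          if_neg (Ne.symm (hee0 k.1)), if_neg (Ne.symm (hee0 k.1)), sub_zero, add_zero]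
        intro h0
        rw [ZMod.intCast_zmod_eq_zero_iff_dvd] at h0
        have h2 := Nat.le_of_dvd (Int.natAbs_pos.2 (hee k.1)) (Int.natCast_dvd.1 h0)
        have h3 := hb4 k.1
        omega⟩ x (by
          rw [hev, hx]
          simp)
      rw [hev] at h1
      exact eq_neg_of_add_eq_zero_left h1)
    (by
      -- affinely related polynomials
      have hA : ∀ i j, ∃ L₀ : ℝ, Aff (F i) (F j) → ∀ L : ℝ, L₀ ≤ L → ∀ h h' : ℤ,
          |(h : ℝ)| ≤ L ^ (11 / 10 : ℝ) → |(h' : ℝ)| ≤ L ^ (11 / 10 : ℝ) →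
          ¬ Prp (F i - MvPolynomial.C (t i) + MvPolynomial.C h)
            (F j - MvPolynomial.C (t j) + MvPolynomial.C h') →
          ∀ p : ℕ, p.Prime → L ^ 2 < (p : ℝ) → ∀ x : Fin d → ZMod p,
          ¬ (MvPolynomial.aeval x (F i) - (t i : ZMod p) = -(h : ZMod p) ∧
            MvPolynomial.aeval x (F j) - (t j : ZMod p) = -(h' : ZMod p)) := by
        intro i j
        by_cases haff : Aff (F i) (F j)
        · obtain ⟨μ, ν, κ, hμ, hν, hμν⟩ := haff
          obtain ⟨L₀, hL₀⟩ := ev_sq (|(μ : ℝ)| + |(ν : ℝ)| + |(μ : ℝ) * t i| + |(ν : ℝ) * t j| + |(κ : ℝ)|)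
            (by positivity)
          refine ⟨L₀, fun _ L hL h h' hh hh' hnp p hp hpL x hx => ?_⟩
          obtain ⟨hx1, hx2⟩ := hx
          obtain ⟨Δ, hΔ⟩ : ∃ Δ : ℤ, Δ = μ * (t i - h) - ν * (t j - h') - κ := ⟨_, rfl⟩
          have hΔ0 : Δ ≠ 0 := by
            intro h0
            apply hnp
            refine ⟨μ, ν, hμ, hν, ?_⟩
            have h1 : κ = μ * (t i - h) - ν * (t j - h') := by linarith
            rw [h1] at hμν
            calc MvPolynomial.C μ * (F i - MvPolynomial.C (t i) + MvPolynomial.C h) =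
                MvPolynomial.C μ * F i - MvPolynomial.C (μ * (t i - h)) := by
                  rw [map_mul, map_sub]
                  ring
              _ = MvPolynomial.C ν * (F j - MvPolynomial.C (t j) + MvPolynomial.C h') := by
                  rw [hμν]
                  simp only [map_mul, map_sub]
                  ring
          have h2 : ((Δ : ℤ) : ZMod p) = 0 := by
            have h3 := congrArg (MvPolynomial.aeval x) hμν
            simp only [map_mul, map_add, MvPolynomial.aeval_C] at h3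
            have h4 : MvPolynomial.aeval x (F i) = (t i : ZMod p) - (h : ZMod p) := by
              rw [sub_eq_iff_eq_add] at hx1
              rw [hx1]
              ring
            have h5 : MvPolynomial.aeval x (F j) = (t j : ZMod p) - (h' : ZMod p) := by
              rw [sub_eq_iff_eq_add] at hx2
              rw [hx2]
              ring
            rw [h4, h5] at h3
            have h6 : (μ : ZMod p) * ((t i : ZMod p) - (h : ZMod p)) =
                (ν : ZMod p) * ((t j : ZMod p) - (h' : ZMod p)) + (κ : ZMod p) := h3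
            rw [hΔ]
            push_cast
            rw [h6]
            ring
          rw [ZMod.intCast_zmod_eq_zero_iff_dvd] at h2
          have h3 := Int.le_of_dvd (abs_pos.mpr hΔ0) ((dvd_abs _ _).mpr h2)
          have h4 : (p : ℝ) ≤ |(Δ : ℝ)| := by exact_mod_cast h3
          have h5 : |(Δ : ℝ)| ≤ |(μ : ℝ)| * |(h : ℝ)| + |(ν : ℝ)| * |(h' : ℝ)| + |(μ : ℝ) * t i| +
              |(ν : ℝ) * t j| + |(κ : ℝ)| := by
            have e1 : (Δ : ℝ) = (μ : ℝ) * t i - μ * h - (ν * t j) + ν * h' - κ := by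
              rw [hΔ]
              push_cast
              ring
            rw [e1, ← abs_mul, ← abs_mul]
            have a1 := abs_sub ((μ : ℝ) * t i - μ * h - (ν * t j) + ν * h') (κ : ℝ)
            have a2 := abs_add_le ((μ : ℝ) * t i - μ * h - (ν * t j)) ((ν : ℝ) * h')
            have a3 := abs_sub ((μ : ℝ) * t i - μ * h) ((ν : ℝ) * t j)
            have a4 := abs_sub ((μ : ℝ) * t i) ((μ : ℝ) * h)
            linarith
          have h6 := hL₀ L hL
          have h7 : |(μ : ℝ)| * |(h : ℝ)| ≤ |(μ : ℝ)| * L ^ (11 / 10 : ℝ) :=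
            mul_le_mul_of_nonneg_left hh (abs_nonneg _)
          have h8 : |(ν : ℝ)| * |(h' : ℝ)| ≤ |(ν : ℝ)| * L ^ (11 / 10 : ℝ) :=
            mul_le_mul_of_nonneg_left hh' (abs_nonneg _)
          have hL0 : 0 ≤ L ^ (11 / 10 : ℝ) := (abs_nonneg _).trans hh
          have h9 : 0 ≤ (|(μ : ℝ) * t i| + |(ν : ℝ) * t j| + |(κ : ℝ)|) * L ^ (11 / 10 : ℝ) := by
            positivity
          have h10 : 0 ≤ |(μ : ℝ)| := abs_nonneg _
          have h11 : 0 ≤ |(ν : ℝ)| := abs_nonneg _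
          nlinarith
        · exact ⟨0, fun h => absurd h haff⟩
      choose L₀ hL₀ using hA
      refine ⟨∑ i : ι, ∑ j : ι, |L₀ i j|, fun L hL k k' hnr hne hk hk' p hp hBp hpL he he' => ?_⟩
      have hpf : Fact p.Prime := ⟨hp⟩
      by_cases haff : Aff (F k.1) (F k'.1)
      · have hLk : L₀ k.1 k'.1 ≤ L := by
          have a4 := Finset.single_le_sum (f := fun j : ι => |L₀ k.1 j|) (fun j _ => abs_nonneg _)
            (mem_univ k'.1)
          have a5 := Finset.single_le_sum (f := fun i : ι => ∑ j : ι, |L₀ i j|)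
            (fun i _ => Finset.sum_nonneg fun j _ => abs_nonneg _) (mem_univ k.1)
          exact (le_abs_self _).trans ((a4.trans a5).trans hL)
        have h1 : (Nat.card {x : Fin d → ZMod p //
            MvPolynomial.aeval x (F k.1) - (t k.1 : ZMod p) = -(k.2 : ZMod p) ∧
            MvPolynomial.aeval x (F k'.1) - (t k'.1 : ZMod p) = -(k'.2 : ZMod p)}) = 0 := by
          rw [Nat.card_eq_zero]
          left
          refine ⟨fun z => ?_⟩
          exact hL₀ k.1 k'.1 haff L hLk k.2 k'.2 hk hk' hnr p hp hpL z.1 z.2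
        rw [h1, Nat.cast_zero, mul_zero]
        positivity
      · have hb := hb2 k.1 k'.1
        have h1 := hB₂ k.1 k'.1 haff p hpf (by omega) (-(k.2 : ZMod p) + (t k.1 : ZMod p))
          (-(k'.2 : ZMod p) + (t k'.1 : ZMod p))
          (by rw [← hE'ev]; exact he) (by rw [← hE'ev]; exact he')
        have h2 : (Nat.card {x : Fin d → ZMod p //
            MvPolynomial.aeval x (F k.1) - (t k.1 : ZMod p) = -(k.2 : ZMod p) ∧
            MvPolynomial.aeval x (F k'.1) - (t k'.1 : ZMod p) = -(k'.2 : ZMod p)} : ℝ) =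
            ((univ.filter (fun x : Fin d → ZMod p =>
              MvPolynomial.eval x (rp p (F k.1)) = -(k.2 : ZMod p) + (t k.1 : ZMod p) ∧
              MvPolynomial.eval x (rp p (F k'.1)) = -(k'.2 : ZMod p) + (t k'.1 : ZMod p))).card : ℝ) := by
          rw [Nat.card_eq_fintype_card, Fintype.card_subtype]
          congr 2
          ext x
          rw [mem_filter, mem_filter, sub_eq_iff_eq_add, sub_eq_iff_eq_add, rp_eval, rp_eval]
        rw [h2]
        refine h1.trans ?_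
        exact mul_le_mul_of_nonneg_right (hK2 k.1 k'.1) (by positivity))
  obtain ⟨V, hV⟩ : ∃ V : ℝ, V = ∑ j : ι, |(t j : ℝ)| := ⟨_, rfl⟩
  have hVb : ∀ j, |(t j : ℝ)| ≤ V := by
    intro j
    rw [hV]
    exact Finset.single_le_sum (f := fun j : ι => |(t j : ℝ)|) (fun _ _ => abs_nonneg _) (mem_univ j)
  obtain ⟨X₂, hX₂⟩ := Pool.Agent.Y837.SV.ff_large (2 * V / c)
  refine ⟨c / 2, by positivity, max Z₀ X₂, fun Z hZ M => ?_⟩
  obtain ⟨q1, q2⟩ := max_le_iff.1 hZ
  obtain ⟨x, hx1, hx2⟩ := h Z q1 M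
  refine ⟨x, hx1, fun j n hn => ?_⟩
  have h1 := hX₂ Z q2
  rw [div_le_iff₀ hc] at h1
  obtain ⟨p, hp, hpZ, hd⟩ := hx2 j (n - MvPolynomial.eval x (F j) + t j) (by
    push_cast
    refine (abs_add_le _ _).trans ?_
    have h2 := hVb j
    linarith)
  refine ⟨p, hp, hpZ, ?_⟩
  have e : MvPolynomial.eval x (F j) - t j + (n - MvPolynomial.eval x (F j) + t j) = n := by ring
  rwa [e] at hd

end Pool.Agent.X145.S3
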