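import Pool.Agent.X145.S3.SqData

/-!
Polynomials `F₀ + F₁ + F₂` with `F_i` of weight `i` for some integer weights.
-/

set_option autoImplicit false
set_option linter.unusedSectionVars false

namespace Pool.Agent.X145.S3

open Finset Polynomial
open Pool.Agent.Y837.SV (rp rp_eval rp_int rp_degree)

theorem quad_irr {R : Type} [CommRing R] [IsDomain R] (a b c : R) (ha : a ≠ 0)
    (hprim : IsRelPrime a c) (hns : ∀ z, b ^ 2 - 4 * a * c ≠ z ^ 2) :
    Irreducible (C a * X ^ 2 + C b * X + C c : R[X]) := by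
  obtain ⟨f, hf⟩ : ∃ f : R[X], f = C a * X ^ 2 + C b * X + C c := ⟨_, rfl⟩
  rw [← hf]
  have hd : f.natDegree = 2 := by
    rw [hf]
    exact natDegree_quadratic ha
  have h0 : f.coeff 0 = c := by rw [hf]; simp
  have h1 : f.coeff 1 = b := by
    rw [hf, coeff_add, coeff_add, coeff_C_mul_X_pow, coeff_C_mul_X, coeff_C]
    simp
  have h2 : f.coeff 2 = a := by
    rw [hf, coeff_add, coeff_add, coeff_C_mul_X_pow, coeff_C_mul_X, coeff_C]
    simp
  have hf0 : f ≠ 0 := by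
    rintro h
    rw [h, coeff_zero] at h2
    exact ha h2.symm
  have key : ∀ S T : R[X], f = S * T → S.natDegree = 0 → IsUnit S := by
    intro S T hST hS
    rw [eq_C_of_natDegree_eq_zero hS] at hST ⊢
    refine isUnit_C.mpr (hprim ?_ ?_)
    · rw [← h2, hST, coeff_C_mul]
      exact Dvd.intro _ rfl
    · rw [← h0, hST, coeff_C_mul]
      exact Dvd.intro _ rfl
  refine ⟨fun hu => ?_, fun {S T} hST => ?_⟩
  · have := natDegree_eq_zero_of_isUnit hu
    omega
  · have hS0 : S ≠ 0 := by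
      rintro rfl
      rw [zero_mul] at hST
      exact hf0 hST
    have hT0 : T ≠ 0 := by
      rintro rfl
      rw [mul_zero] at hST
      exact hf0 hST
    have hdeg : S.natDegree + T.natDegree = 2 := by
      rw [← natDegree_mul hS0 hT0, ← hST, hd]
    rcases Nat.eq_zero_or_pos S.natDegree with hs | hs
    · exact Or.inl (key S T hST hs)
    rcases Nat.eq_zero_or_pos T.natDegree with ht | ht
    · exact Or.inr (key T S (by rw [hST, mul_comm]) ht)
    exfalso
    have hs1 : S.natDegree ≤ 1 := by omega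
    have ht1 : T.natDegree ≤ 1 := by omega
    rw [eq_X_add_C_of_natDegree_le_one hs1, eq_X_add_C_of_natDegree_le_one ht1] at hST
    obtain ⟨s1, hs1'⟩ : ∃ z, z = S.coeff 1 := ⟨_, rfl⟩
    obtain ⟨s0, hs0'⟩ : ∃ z, z = S.coeff 0 := ⟨_, rfl⟩
    obtain ⟨t1, ht1'⟩ : ∃ z, z = T.coeff 1 := ⟨_, rfl⟩
    obtain ⟨t0, ht0'⟩ : ∃ z, z = T.coeff 0 := ⟨_, rfl⟩
    rw [← hs1', ← hs0', ← ht1', ← ht0'] at hST
    have hST' : f = C (s1 * t1) * X ^ 2 + C (s1 * t0 + s0 * t1) * X + C (s0 * t0) := by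
      rw [hST]
      simp only [map_add, map_mul]
      ring
    have e0 : c = s0 * t0 := by rw [← h0, hST']; simp
    have e1 : b = s1 * t0 + s0 * t1 := by
      rw [← h1, hST', coeff_add, coeff_add, coeff_C_mul_X_pow, coeff_C_mul_X, coeff_C]
      simp
    have e2 : a = s1 * t1 := by
      rw [← h2, hST', coeff_add, coeff_add, coeff_C_mul_X_pow, coeff_C_mul_X, coeff_C]
      simp
    apply hns (s1 * t0 - s0 * t1)
    rw [e0, e1, e2]
    ring

section

variable {n p : ℕ} [hp : Fact p.Prime]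

/-- the quadratic character with complex values -/
noncomputable def qc (p : ℕ) [Fact p.Prime] : MulChar (ZMod p) ℂ :=
  (quadraticChar (ZMod p)).ringHomComp (Int.castRingHom ℂ)

theorem qc_apply (u : ZMod p) : qc p u = ((quadraticChar (ZMod p) u : ℤ) : ℂ) := rfl

theorem qc_sq : (qc p) ^ 2 = 1 := by
  refine MulChar.ext fun a => ?_
  rw [MulChar.pow_apply_coe, qc_apply, MulChar.one_apply_coe]
  have h1 : (quadraticChar (ZMod p) (a : ZMod p)) ^ 2 = 1 := quadraticChar_sq_one a.ne_zero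
  exact_mod_cast h1

theorem qc_ne_one (hp2 : p ≠ 2) : qc p ≠ 1 := by
  intro h
  apply quadraticChar_ne_one (F := ZMod p) (by rwa [ZMod.ringChar_zmod_n])
  refine MulChar.ext fun a => ?_
  have h1 := congrArg (fun χ : MulChar (ZMod p) ℂ => χ a) h
  simp only [qc_apply, MulChar.one_apply_coe] at h1
  rw [MulChar.one_apply_coe]
  exact_mod_cast h1

theorem count2 (hp2 : p ≠ 2) (a b c : ZMod p) :
    (∑ s : ZMod p, (if a * s ^ 2 + b * s + c = 0 then (1 : ℂ) else 0)) =
      (if a = 0 ∧ b = 0 ∧ c = 0 then (p : ℂ) else 0) + (if a = 0 then 0 else 1) +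
        qc p (b ^ 2 - 4 * a * c) := by
  classical
  have h2 : (2 : ZMod p) ≠ 0 := by
    intro h
    have h3 : ((2 : ℕ) : ZMod p) = 0 := by exact_mod_cast h
    rw [ZMod.natCast_eq_zero_iff] at h3
    have := (Nat.prime_dvd_prime_iff_eq hp.out Nat.prime_two).mp h3
    exact hp2 this
  by_cases ha : a = 0
  · subst ha
    by_cases hb : b = 0
    · subst hb
      by_cases hc : c = 0
      · subst hc
        simp [qc_apply, ZMod.card]
      · simp [hc, qc_apply]
    · have h1 : ∀ s : ZMod p, (0 * s ^ 2 + b * s + c = 0) ↔ s = -c / b := by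
        intro s
        rw [eq_div_iff hb, zero_mul, zero_add, add_eq_zero_iff_eq_neg, mul_comm]
      simp_rw [h1]
      have h3 : (quadraticChar (ZMod p) (b ^ 2 - 4 * 0 * c)) = 1 := by
        rw [mul_zero, zero_mul, sub_zero]
        exact quadraticChar_sq_one' hb
      rw [Finset.sum_ite_eq' univ, if_pos (mem_univ _), if_neg (by simp [hb]), qc_apply, h3]
      simp
  · rw [if_neg (by simp [ha]), if_neg ha, zero_add, qc_apply]
    have h1 := quadraticChar_card_sqrts (F := ZMod p) (by rwa [ZMod.ringChar_zmod_n])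
      (b ^ 2 - 4 * a * c)
    have h4 : (univ.filter (fun s : ZMod p => a * s ^ 2 + b * s + c = 0)).card =
        {x : ZMod p | x ^ 2 = b ^ 2 - 4 * a * c}.toFinset.card := by
      have h2a : 2 * a ≠ 0 := mul_ne_zero h2 ha
      refine Finset.card_bij' (fun s _ => 2 * a * s + b) (fun y _ => (y - b) / (2 * a)) ?_ ?_ ?_ ?_
      · intro s hs
        rw [mem_filter] at hs
        rw [Set.mem_toFinset]
        show (2 * a * s + b) ^ 2 = b ^ 2 - 4 * a * c
        have := hs.2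
        linear_combination 4 * a * this
      · intro y hy
        rw [Set.mem_toFinset] at hy
        have hy' : y ^ 2 = b ^ 2 - 4 * a * c := hy
        rw [mem_filter]
        refine ⟨mem_univ _, ?_⟩
        have h5 : (4 * a) * (a * ((y - b) / (2 * a)) ^ 2 + b * ((y - b) / (2 * a)) + c) = 0 := by
          field_simp
          linear_combination 4 * hy'
        rcases mul_eq_zero.mp h5 with h6 | h6
        · exfalso
          have h7 : (4 : ZMod p) * a = 2 * (2 * a) := by ring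
          rw [h7] at h6
          exact (mul_ne_zero h2 h2a) h6
        · exact h6
      · intro s _
        simp only [add_sub_cancel_right]
        rw [mul_div_assoc, mul_comm, div_mul_cancel₀ _ h2a]
      · intro y _
        have h8 : 2 * a * ((y - b) / (2 * a)) = y - b := by field_simp
        rw [h8]
        ring
    rw [Finset.sum_boole, h4]
    have h5 : (({x : ZMod p | x ^ 2 = b ^ 2 - 4 * a * c}.toFinset.card : ℤ) : ℂ) =
        ((quadraticChar (ZMod p) (b ^ 2 - 4 * a * c) + 1 : ℤ) : ℂ) := by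
      rw [h1]
    push_cast at h5
    rw [h5, add_comm]

/-- the number of the solutions of `F₀ + F₁ + F₂ = r` -/
theorem deg2_count (hp2 : p ≠ 2) (w : Fin n → ℤ) (F F₂ F₁ F₀ : MvPolynomial (Fin n) (ZMod p))
    (hsc : ∀ x, ∀ l : ZMod p, l ≠ 0 → MvPolynomial.eval (fun i => x i * l ^ (w i)) F =
      MvPolynomial.eval x F₂ * l ^ 2 + MvPolynomial.eval x F₁ * l + MvPolynomial.eval x F₀)
    (r : ZMod p) (K₀ K₁ K₂ K₃ K₄ : ℝ)
    (h0 : (p : ℝ) * ((univ.filter (fun x : Fin n → ZMod p => MvPolynomial.eval x F₂ = 0)).card : ℝ) ≤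
      K₀ * (p : ℝ) ^ n)
    (h1 : (p : ℝ) ^ 2 * ((univ.filter (fun x : Fin n → ZMod p => MvPolynomial.eval x F₂ = 0 ∧
      MvPolynomial.eval x F₁ = 0 ∧ MvPolynomial.eval x F₀ - r = 0)).card : ℝ) ≤ K₁ * (p : ℝ) ^ n)
    (h3 : (p : ℝ) * ((univ.filter (fun x : Fin n → ZMod p => MvPolynomial.eval x F = r)).card : ℝ) ≤
      K₃ * (p : ℝ) ^ n)
    (h4 : (p : ℝ) * ((univ.filter (fun x : Fin n → ZMod p => MvPolynomial.eval x F₀ = r)).card : ℝ) ≤
      K₄ * (p : ℝ) ^ n)
    (h2 : ‖∑ x : Fin n → ZMod p, qc p (MvPolynomial.eval x F₁ ^ 2 - 4 * MvPolynomial.eval x F₂ *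
      (MvPolynomial.eval x F₀ - r))‖ * Real.sqrt p ≤ K₂ * (p : ℝ) ^ n) :
    |(p : ℝ) * ((univ.filter (fun x : Fin n → ZMod p =>
      MvPolynomial.eval x F = r)).card : ℝ) - (p : ℝ) ^ n| *
      Real.sqrt p ≤ (K₀ + K₁ + K₂ + K₃ + K₄) * (p : ℝ) ^ n := by
  classical
  have hpp := hp.out
  have hp0 : (0 : ℝ) < p := by exact_mod_cast hpp.pos
  have hp1 : (1 : ℝ) ≤ p := by exact_mod_cast hpp.one_lt.le
  have hsq : Real.sqrt p * Real.sqrt p = p := Real.mul_self_sqrt hp0.le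
  have hs0 : 0 ≤ Real.sqrt p := Real.sqrt_nonneg _
  have hs1 : Real.sqrt p ≤ p := by
    have : 1 ≤ Real.sqrt p := by rw [Real.one_le_sqrt]; exact hp1
    nlinarith
  obtain ⟨N, hN⟩ : ∃ N, N = (univ.filter (fun x : Fin n → ZMod p =>
      MvPolynomial.eval x F = r)).card := ⟨_, rfl⟩
  obtain ⟨M, hM⟩ : ∃ M, M = (univ.filter (fun x : Fin n → ZMod p =>
      MvPolynomial.eval x F₀ = r)).card := ⟨_, rfl⟩
  obtain ⟨Z, hZ⟩ : ∃ Z, Z = (univ.filter (fun x : Fin n → ZMod p =>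
      MvPolynomial.eval x F₂ = 0)).card := ⟨_, rfl⟩
  obtain ⟨Y, hY⟩ : ∃ Y, Y = (univ.filter (fun x : Fin n → ZMod p => MvPolynomial.eval x F₂ = 0 ∧
      MvPolynomial.eval x F₁ = 0 ∧ MvPolynomial.eval x F₀ - r = 0)).card := ⟨_, rfl⟩
  obtain ⟨S, hS⟩ : ∃ S : ℂ, S = ∑ x : Fin n → ZMod p, qc p (MvPolynomial.eval x F₁ ^ 2 -
      4 * MvPolynomial.eval x F₂ * (MvPolynomial.eval x F₀ - r)) := ⟨_, rfl⟩
  rw [← hN] at h3 ⊢
  rw [← hZ] at h0
  rw [← hY] at h1
  rw [← hM] at h4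
  rw [← hS] at h2
  have hcard : (Fintype.card (Fin n → ZMod p) : ℂ) = (p : ℂ) ^ n := by
    rw [Fintype.card_fun, ZMod.card, Fintype.card_fin]
    push_cast
    rfl
  -- the identity
  have hmain : (p : ℂ) * N = N - M + (p : ℂ) * Y + ((p : ℂ) ^ n - Z) + S := by
    have e0 := scale_sum w (fun x => MvPolynomial.eval x F)
      (fun x s => MvPolynomial.eval x F₂ * s ^ 2 + MvPolynomial.eval x F₁ * s +
        MvPolynomial.eval x F₀) hsc r
    have e1 : (∑ x : Fin n → ZMod p, (if MvPolynomial.eval x F = r then (1 : ℂ) else 0)) = N := by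
      rw [Finset.sum_boole, hN]
    have e2 : (∑ x : Fin n → ZMod p, (if MvPolynomial.eval x F₂ * 0 ^ 2 +
        MvPolynomial.eval x F₁ * 0 + MvPolynomial.eval x F₀ = r then (1 : ℂ) else 0)) = M := by
      rw [hM, ← Finset.sum_boole]
      refine Finset.sum_congr rfl fun x _ => ?_
      rw [zero_pow (by omega), mul_zero, mul_zero, zero_add, zero_add]
    rw [e1, e2] at e0
    have e3 : ∀ x s : _, (MvPolynomial.eval x F₂ * s ^ 2 + MvPolynomial.eval x F₁ * s +
        MvPolynomial.eval x F₀ = r) ↔ (MvPolynomial.eval x F₂ * s ^ 2 + MvPolynomial.eval x F₁ * s +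
        (MvPolynomial.eval x F₀ - r) = 0) := by
      intro x s
      constructor
      · intro h
        linear_combination h
      · intro h
        linear_combination h
    simp_rw [e3, count2 hp2] at e0
    rw [Finset.sum_add_distrib, Finset.sum_add_distrib, ← hS] at e0
    have e4 : ∑ x : Fin n → ZMod p, (if MvPolynomial.eval x F₂ = 0 ∧ MvPolynomial.eval x F₁ = 0 ∧
        MvPolynomial.eval x F₀ - r = 0 then (p : ℂ) else 0) = (p : ℂ) * Y := by
      rw [← Finset.sum_filter, Finset.sum_const, nsmul_eq_mul, ← hY, mul_comm]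
    have e5 : ∑ x : Fin n → ZMod p, (if MvPolynomial.eval x F₂ = 0 then (0 : ℂ) else 1) =
        (p : ℂ) ^ n - Z := by
      have e6 : ∀ x : Fin n → ZMod p, (if MvPolynomial.eval x F₂ = 0 then (0 : ℂ) else 1) =
          1 - (if MvPolynomial.eval x F₂ = 0 then (1 : ℂ) else 0) := by
        intro x
        split_ifs <;> simp
      simp_rw [e6]
      rw [Finset.sum_sub_distrib, Finset.sum_const, card_univ, nsmul_eq_mul, mul_one, hcard,
        Finset.sum_boole, ← hZ]
    rw [e4, e5] at e0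
    linear_combination -e0
  -- the estimate
  have hnorm : |(p : ℝ) * N - (p : ℝ) ^ n| ≤ N + M + (p : ℝ) * Y + Z + ‖S‖ := by
    have e1 : ‖(((p : ℝ) * N - (p : ℝ) ^ n : ℝ) : ℂ)‖ ≤ N + M + (p : ℝ) * Y + Z + ‖S‖ := by
      have e2 : (((p : ℝ) * N - (p : ℝ) ^ n : ℝ) : ℂ) = N - M + (p : ℂ) * Y - Z + S := by
        push_cast
        rw [hmain]
        ring
      rw [e2]
      refine (norm_add_le _ _).trans (add_le_add ?_ le_rfl)
      refine (norm_sub_le _ _).trans (add_le_add ?_ ?_)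
      · refine (norm_add_le _ _).trans (add_le_add ?_ ?_)
        · refine (norm_sub_le _ _).trans (add_le_add ?_ ?_)
          · rw [Complex.norm_natCast]
          · rw [Complex.norm_natCast]
        · rw [norm_mul, Complex.norm_natCast, Complex.norm_natCast]
      · rw [Complex.norm_natCast]
    rw [Complex.norm_real, Real.norm_eq_abs] at e1
    exact e1
  have hY0 : (0 : ℝ) ≤ Y := Nat.cast_nonneg _
  have hZ0 : (0 : ℝ) ≤ Z := Nat.cast_nonneg _
  have hN0 : (0 : ℝ) ≤ N := Nat.cast_nonneg _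
  have hM0 : (0 : ℝ) ≤ M := Nat.cast_nonneg _
  have f1 : (p : ℝ) * Y * Real.sqrt p ≤ K₁ * (p : ℝ) ^ n := by
    refine le_trans ?_ h1
    calc (p : ℝ) * Y * Real.sqrt p ≤ (p : ℝ) * Y * p :=
          mul_le_mul_of_nonneg_left hs1 (by positivity)
      _ = (p : ℝ) ^ 2 * Y := by ring
  have f0 : ∀ W K : ℝ, 0 ≤ W → (p : ℝ) * W ≤ K * (p : ℝ) ^ n → W * Real.sqrt p ≤ K * (p : ℝ) ^ n := by
    intro W K hW hK
    refine le_trans ?_ hK
    calc W * Real.sqrt p ≤ W * p := mul_le_mul_of_nonneg_left hs1 hW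
      _ = (p : ℝ) * W := by ring
  have f2 := f0 Z K₀ hZ0 h0
  have f4 := f0 N K₃ hN0 h3
  have f5 := f0 M K₄ hM0 h4
  calc |(p : ℝ) * N - (p : ℝ) ^ n| * Real.sqrt p
      ≤ (N + M + (p : ℝ) * Y + Z + ‖S‖) * Real.sqrt p :=
        mul_le_mul_of_nonneg_right hnorm hs0
    _ = N * Real.sqrt p + M * Real.sqrt p + (p : ℝ) * Y * Real.sqrt p + Z * Real.sqrt p +
        ‖S‖ * Real.sqrt p := by ring
    _ ≤ K₃ * (p : ℝ) ^ n + K₄ * (p : ℝ) ^ n + K₁ * (p : ℝ) ^ n + K₀ * (p : ℝ) ^ n +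
        K₂ * (p : ℝ) ^ n := by linarith
    _ = _ := by ring

end

/-- the discriminant modulo `p` -/
theorem good_disc {n : ℕ} (w : Fin n → ℤ) (F₂ F₁ F₀ : MvPolynomial (Fin n) ℤ)
    (hw2 : Wgt w 2 F₂) (hw1 : Wgt w 1 F₁) (hw0 : Wgt w 0 F₀) (h20 : F₂ ≠ 0)
    (hdata : ∃ E : ℤ[X], E ≠ 0 ∧ ∃ K : ℝ, 0 ≤ K ∧ ∃ B₀ : ℕ, ∀ p : ℕ, ∀ _ : Fact p.Prime, B₀ < p →
      ∀ r : ZMod p, ev p E r ≠ 0 →
        (∀ z : MvPolynomial (Fin n) (ZMod p), rp p F₁ ^ 2 - 4 * rp p F₂ *
          (rp p F₀ - MvPolynomial.C r) ≠ z ^ 2) ∧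
        ∀ χ : MulChar (ZMod p) ℂ, χ ≠ 1 → χ ^ 2 = 1 → ‖∑ x : Fin n → ZMod p, χ (MvPolynomial.eval x
          (rp p F₁ ^ 2 - 4 * rp p F₂ * (rp p F₀ - MvPolynomial.C r)))‖ * Real.sqrt p ≤ K * (p : ℝ) ^ n) :
    Good (F₂ + F₁ + F₀) := by
  classical
  obtain ⟨E, hE0, K, hK, B₀, h⟩ := hdata
  obtain ⟨v⟩ : Nonempty (Fin n) := by
    obtain ⟨e, he⟩ := MvPolynomial.exists_coeff_ne_zero h20
    have h1 := hw2 e (MvPolynomial.mem_support_iff.mpr he)
    by_contra hcon
    rw [not_nonempty_iff] at hcon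
    rw [univ_eq_empty, sum_empty] at h1
    omega
  obtain ⟨E', hE'0, hcopr⟩ := coprime F₂ F₀ h20 v
  obtain ⟨B₁, hB₁⟩ := Pool.Agent.Y837.SW.rp_ne_zero F₂ h20
  obtain ⟨Cz, hCz⟩ := cz n ((F₂ + F₁ + F₀).totalDegree + F₂.totalDegree)
  refine ⟨E * E', F₂.totalDegree + Cz + K + (F₂ + F₁ + F₀).totalDegree + F₀.totalDegree, 1 / 2,
    B₀ + B₁ + 2, mul_ne_zero hE0 hE'0, by positivity, by norm_num, ?_⟩
  intro p hp hBp r hr
  have hpp := hp.out
  rw [ev_mul] at hr
  have hr1 := left_ne_zero_of_mul hr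
  have hr2 := right_ne_zero_of_mul hr
  obtain ⟨hns, hchi⟩ := h p hp (by omega) r hr1
  have hrel := hcopr p hp r hr2
  have h2p0 : rp p F₂ ≠ 0 := hB₁ p (by omega)
  have hw2p : ∀ e ∈ (rp p F₂).support, ∑ i, w i * (e i : ℤ) = (2 : ℤ) := wgt_rp hw2 p
  have hw1p : ∀ e ∈ (rp p F₁).support, ∑ i, w i * (e i : ℤ) = (1 : ℤ) := wgt_rp hw1 p
  have hw0p : ∀ e ∈ (rp p F₀ - MvPolynomial.C r).support, ∑ i, w i * (e i : ℤ) = 0 := by
    intro e he
    have h1 := MvPolynomial.support_sub _ _ _ he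
    rw [mem_union] at h1
    rcases h1 with h1 | h1
    · exact wgt_rp hw0 p e h1
    · rw [MvPolynomial.mem_support_iff, MvPolynomial.coeff_C] at h1
      have h2 : 0 = e := by
        by_contra h2
        rw [if_neg h2] at h1
        exact h1 rfl
      rw [← h2]
      simp
  have hF : rp p (F₂ + F₁ + F₀) = rp p F₂ + rp p F₁ + rp p F₀ := by
    unfold Pool.Agent.Y837.SV.rp
    rw [map_add, map_add]
  have hFr : rp p (F₂ + F₁ + F₀) - MvPolynomial.C r =
      rp p F₂ + (rp p F₁ + (rp p F₀ - MvPolynomial.C r)) := by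
    rw [hF]
    ring
  obtain ⟨π, hπ⟩ : ∃ π : (MvPolynomial (Fin n) (ZMod p))[X], π =
      C (rp p F₂) * X ^ 2 + C (rp p F₁) * X + C (rp p F₀ - MvPolynomial.C r) := ⟨_, rfl⟩
  have hπirr : Irreducible π := by
    rw [hπ]
    exact quad_irr _ _ _ h2p0 hrel hns
  have hPsi : Psi w (rp p (F₂ + F₁ + F₀) - MvPolynomial.C r) = toLaurent π := by
    rw [hFr, map_add, map_add, Psi_hom w 2 _ hw2p, Psi_hom w 1 _ hw1p, Psi_hom w 0 _ hw0p,
      LaurentPolynomial.T_zero, mul_one, hπ, map_add, map_add, map_mul, map_mul, toLaurent_X_pow,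
      toLaurent_X, toLaurent_C, toLaurent_C, toLaurent_C]
    push_cast
    ring
  have hnu : ¬ IsUnit (rp p (F₂ + F₁ + F₀) - MvPolynomial.C r) := by
    intro hu
    have h3 := (MvPolynomial.isUnit_iff_totalDegree_of_isReduced.1 hu).2
    rw [MvPolynomial.totalDegree_eq_zero_iff_eq_C] at h3
    obtain ⟨e, he⟩ := MvPolynomial.exists_coeff_ne_zero h2p0
    have he' : e ∈ (rp p F₂).support := MvPolynomial.mem_support_iff.mpr he
    have h5 := hw2p e he'
    have h6 : (rp p F₁).coeff e = 0 := by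
      by_contra h7
      have := hw1p e (MvPolynomial.mem_support_iff.mpr h7)
      omega
    have h8 : (rp p F₀ - MvPolynomial.C r).coeff e = 0 := by
      by_contra h7
      have := hw0p e (MvPolynomial.mem_support_iff.mpr h7)
      omega
    have h9 := congrArg (MvPolynomial.coeff e) h3
    rw [hFr, MvPolynomial.coeff_add, MvPolynomial.coeff_add, h6, h8, add_zero, add_zero,
      MvPolynomial.coeff_C] at h9
    split_ifs at h9 with h10
    · subst h10
      simp at h5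
    · exact he h9
  have hirr : Irreducible (rp p (F₂ + F₁ + F₀) - MvPolynomial.C r) :=
    laur_irr3 w _ π hPsi hπirr hnu
  refine ⟨hirr, ?_⟩
  have hπd : π.natDegree = 2 := by
    rw [hπ]
    exact natDegree_quadratic h2p0
  have hndvd : ¬ (rp p (F₂ + F₁ + F₀) - MvPolynomial.C r) ∣ rp p F₂ := by
    rintro ⟨G, hG⟩
    have h1 := congrArg (Psi w) hG
    rw [map_mul, hPsi, Psi_hom w 2 _ hw2p] at h1
    obtain ⟨m, g, hg⟩ := LaurentPolynomial.exists_T_pow (Psi w G)
    have h2 : C (rp p F₂) * X ^ (2 + m) = π * g := by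
      apply Polynomial.toLaurent_injective
      rw [map_mul, map_mul, hg, toLaurent_C, toLaurent_X_pow, ← mul_assoc, ← h1, mul_assoc,
        ← LaurentPolynomial.T_add]
      push_cast
      rfl
    have h3 : π ∣ C (rp p F₂) * X ^ (2 + m) := by
      rw [h2]
      exact Dvd.intro _ rfl
    rcases hπirr.prime.dvd_or_dvd h3 with h4 | h4
    · have h5 := natDegree_le_of_dvd h4 (C_ne_zero.mpr h2p0)
      rw [natDegree_C] at h5
      omega
    · have h5 := natDegree_le_of_dvd (hπirr.prime.dvd_of_dvd_pow h4) X_ne_zero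
      rw [natDegree_X] at h5
      omega
  have h2nu : ¬ IsUnit (rp p F₂) := by
    have h1 := not_unit_add w 2 (by omega) (rp p F₂) 0 hw2p (by simp) h2p0
    rwa [add_zero] at h1
  have h0r0 : rp p F₀ - MvPolynomial.C r ≠ 0 := by
    intro h0
    rw [h0] at hrel
    exact h2nu (hrel dvd_rfl (dvd_zero _))
  have h0 := zeros_le (rp p F₂) h2p0 F₂.totalDegree (rp_degree F₂)
  have h1 : (p : ℝ) ^ 2 * ((univ.filter (fun x : Fin n → ZMod p =>
      MvPolynomial.eval x (rp p F₂) = 0 ∧ MvPolynomial.eval x (rp p F₁) = 0 ∧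
      MvPolynomial.eval x (rp p F₀) - r = 0)).card : ℝ) ≤ Cz * (p : ℝ) ^ n := by
    have h2 := hCz p hp _ _ hirr hndvd (by
      refine (MvPolynomial.totalDegree_sub _ _).trans ?_
      rw [MvPolynomial.totalDegree_C]
      exact max_le ((rp_degree _).trans (Nat.le_add_right _ _)) (Nat.zero_le _))
      ((rp_degree F₂).trans (Nat.le_add_left _ _))
    have h3 : (univ.filter (fun x : Fin n → ZMod p =>
        MvPolynomial.eval x (rp p F₂) = 0 ∧ MvPolynomial.eval x (rp p F₁) = 0 ∧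
        MvPolynomial.eval x (rp p F₀) - r = 0)).card ≤
        (univ.filter (fun z : Fin n → ZMod p => MvPolynomial.eval z
          (rp p (F₂ + F₁ + F₀) - MvPolynomial.C r) = 0 ∧
          MvPolynomial.eval z (rp p F₂) = 0)).card := by
      refine card_le_card fun x hx => ?_
      rw [mem_filter] at hx ⊢
      refine ⟨mem_univ _, ?_, hx.2.1⟩
      rw [hFr, map_add, map_add, map_sub, MvPolynomial.eval_C, hx.2.1, hx.2.2.1, hx.2.2.2, add_zero,
        add_zero]
    obtain ⟨Y, hY⟩ : ∃ Y, Y = (univ.filter (fun x : Fin n → ZMod p =>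
        MvPolynomial.eval x (rp p F₂) = 0 ∧ MvPolynomial.eval x (rp p F₁) = 0 ∧
        MvPolynomial.eval x (rp p F₀) - r = 0)).card := ⟨_, rfl⟩
    have h4 : p * (p * Y) ≤ Cz * p ^ n := by
      refine le_trans ?_ h2
      rw [hY]
      exact Nat.mul_le_mul_left _ (Nat.mul_le_mul_left _ (by convert h3))
    have h5 : (p : ℝ) * ((p : ℝ) * Y) ≤ Cz * (p : ℝ) ^ n := by exact_mod_cast h4
    rw [← hY, sq, mul_assoc]
    exact h5
  have hsc : ∀ x : Fin n → ZMod p, ∀ l : ZMod p, l ≠ 0 →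
      MvPolynomial.eval (fun i => x i * l ^ (w i)) (rp p (F₂ + F₁ + F₀)) =
        MvPolynomial.eval x (rp p F₂) * l ^ 2 + MvPolynomial.eval x (rp p F₁) * l +
          MvPolynomial.eval x (rp p F₀) := by
    intro x l hl
    rw [hF, map_add, map_add, rp_eval, rp_eval, rp_eval, rp_eval, rp_eval, rp_eval,
      Pool.Agent.Y837.SV.scale_aeval F₂ w 2 hw2 x l hl,
      Pool.Agent.Y837.SV.scale_aeval F₁ w 1 hw1 x l hl,
      Pool.Agent.Y837.SV.scale_aeval F₀ w 0 hw0 x l hl,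
      zpow_zero, one_mul, zpow_one]
    have e : l ^ (2 : ℤ) = l ^ 2 := by
      exact_mod_cast zpow_natCast l 2
    rw [e]
    ring
  have h2 : ‖∑ x : Fin n → ZMod p, qc p (MvPolynomial.eval x (rp p F₁) ^ 2 -
      4 * MvPolynomial.eval x (rp p F₂) * (MvPolynomial.eval x (rp p F₀) - r))‖ * Real.sqrt p ≤
      K * (p : ℝ) ^ n := by
    have h3 := hchi (qc p) (qc_ne_one (by omega)) qc_sq
    have e : ∀ x : Fin n → ZMod p, MvPolynomial.eval x (rp p F₁ ^ 2 - 4 * rp p F₂ *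
        (rp p F₀ - MvPolynomial.C r)) = MvPolynomial.eval x (rp p F₁) ^ 2 -
        4 * MvPolynomial.eval x (rp p F₂) * (MvPolynomial.eval x (rp p F₀) - r) := by
      intro x
      rw [map_sub, map_pow, map_mul, map_mul, map_sub, MvPolynomial.eval_C, map_ofNat]
    simp_rw [e] at h3
    exact h3
  have h3 := deg2_count (by omega) w (rp p (F₂ + F₁ + F₀)) (rp p F₂) (rp p F₁) (rp p F₀) hsc r
    F₂.totalDegree Cz K (F₂ + F₁ + F₀).totalDegree F₀.totalDegree h0 (by convert h1)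
    (fibre_le _ r hirr.ne_zero _ (rp_degree _)) (fibre_le _ r h0r0 _ (rp_degree _)) h2
  have h4 := sqrt_conv hpp h3
  convert h4

end Pool.Agent.X145.S3
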