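import Pool.Agent.X145.S3.Deg2

/-!
Polynomials `F₀ + F₁ + F₂` with `F_i` of weight `i` which are not squares up to constants.
-/

set_option autoImplicit false
set_option linter.unusedSectionVars false

namespace Pool.Agent.X145.S3

open Finset Polynomial
open Pool.Agent.Y837.SV (rp rp_eval rp_int rp_degree)

theorem const_of_pderiv {n : ℕ} (Q : MvPolynomial (Fin n) ℤ) (h : ∀ v, MvPolynomial.pderiv v Q = 0) :
    ∃ c, Q = MvPolynomial.C c := by
  classical
  have hvars : Q.vars = ∅ := by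
    rw [Finset.eq_empty_iff_forall_notMem]
    intro v
    apply ln_free
    have h1 := ln_pderiv v Q
    rw [h v, map_zero] at h1
    exact (derivative_eq_zero.mp h1.symm)
  rw [MvPolynomial.vars_eq_empty_iff_eq_C] at hvars
  exact ⟨_, hvars⟩

theorem const_of_wronskian {n : ℕ} (U V : MvPolynomial (Fin n) ℤ) (hU : U ≠ 0) (hUV : IsRelPrime U V)
    (h : ∀ v, V * MvPolynomial.pderiv v U - U * MvPolynomial.pderiv v V = 0) :
    ∃ u v : ℤ, U = MvPolynomial.C u ∧ V = MvPolynomial.C v := by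
  have hU1 : ∀ v, MvPolynomial.pderiv v U = 0 := by
    intro v
    by_contra hne
    have h1 : U ∣ MvPolynomial.pderiv v U * V := by
      refine ⟨MvPolynomial.pderiv v V, ?_⟩
      linear_combination h v
    have h2 : U ∣ MvPolynomial.pderiv v U := hUV.dvd_of_dvd_mul_right h1
    have h3 := map_dvd (ln v) h2
    rw [ln_pderiv] at h3
    have h4 : derivative (ln v U) ≠ 0 := by
      rw [← ln_pderiv]
      exact ln_inj v _ hne
    have h5 := natDegree_le_of_dvd h3 h4
    have h6 : (ln v U).natDegree ≠ 0 := by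
      intro h7
      apply h4
      rw [eq_C_of_natDegree_eq_zero h7, derivative_C]
    have h7 := natDegree_derivative_lt h6
    omega
  have hV1 : ∀ v, MvPolynomial.pderiv v V = 0 := by
    intro v
    have h1 := h v
    rw [hU1 v, mul_zero, zero_sub, neg_eq_zero] at h1
    exact (mul_eq_zero.mp h1).resolve_left hU
  obtain ⟨u, hu⟩ := const_of_pderiv U hU1
  obtain ⟨v, hv⟩ := const_of_pderiv V hV1
  exact ⟨u, v, hu, hv⟩

/-- squares up to constants -/
theorem not_sq_top {n : ℕ} (F₂ F₁ F₀ : MvPolynomial (Fin n) ℤ) (h20 : F₂ ≠ 0) (u v : ℤ) (hu : u ≠ 0)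
    (huv : MvPolynomial.C u * (F₁ ^ 2 - 4 * F₂ * F₀) = MvPolynomial.C v * (4 * F₂))
    (hsq : ∀ K K' : ℤ, ∀ l : MvPolynomial (Fin n) ℤ, K ≠ 0 →
      MvPolynomial.C K * (F₂ + F₁ + F₀) + MvPolynomial.C K' ≠ l ^ 2)
    (K : ℤ) (m : MvPolynomial (Fin n) ℤ) (hK : K ≠ 0) : MvPolynomial.C K * F₂ ≠ m ^ 2 := by
  intro hm
  have hm0 : m ≠ 0 := by
    rintro rfl
    rw [zero_pow two_ne_zero, mul_eq_zero, MvPolynomial.C_eq_zero] at hm
    rcases hm with h | h
    · exact hK h
    · exact h20 h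
  have h2m : (2 * m) ≠ 0 := mul_ne_zero two_ne_zero hm0
  have e1 : (MvPolynomial.C (u * K) * F₁) ^ 2 = (2 * m) ^ 2 * (MvPolynomial.C (u * K) *
      (MvPolynomial.C u * F₀ + MvPolynomial.C v)) := by
    rw [mul_pow 2 m, ← hm, map_mul]
    linear_combination MvPolynomial.C u * MvPolynomial.C K ^ 2 * huv
  have h1 : (2 * m) ^ 2 ∣ (MvPolynomial.C (u * K) * F₁) ^ 2 := by
    rw [e1]
    exact Dvd.intro _ rfl
  obtain ⟨b, hb⟩ := (IsIntegrallyClosed.pow_dvd_pow_iff (two_ne_zero)).mp h1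
  have hb2 : b ^ 2 = MvPolynomial.C (u * K) * (MvPolynomial.C u * F₀ + MvPolynomial.C v) := by
    rw [hb, mul_pow] at e1
    exact mul_left_cancel₀ (pow_ne_zero 2 h2m) e1
  refine hsq (u ^ 2 * K) (u * K * v) (MvPolynomial.C u * m + b)
    (mul_ne_zero (pow_ne_zero 2 hu) hK) ?_
  have hb' := hb
  rw [map_mul] at hb' hb2
  simp only [map_mul, map_pow]
  linear_combination MvPolynomial.C u ^ 2 * hm + MvPolynomial.C u * hb' - hb2

/-- **`F₀ + F₁ + F₂` with `F_i` of weight `i` is admissible unless it is a square up to constants.** -/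
theorem good_012 {n : ℕ} (w : Fin n → ℤ) (F₂ F₁ F₀ : MvPolynomial (Fin n) ℤ)
    (hw2 : Wgt w 2 F₂) (hw1 : Wgt w 1 F₁) (hw0 : Wgt w 0 F₀) (h20 : F₂ ≠ 0)
    (hsq : ∀ K K' : ℤ, ∀ l : MvPolynomial (Fin n) ℤ, K ≠ 0 →
      MvPolynomial.C K * (F₂ + F₁ + F₀) + MvPolynomial.C K' ≠ l ^ 2) : Good (F₂ + F₁ + F₀) := by
  classical
  apply good_disc w F₂ F₁ F₀ hw2 hw1 hw0 h20
  have hU0 : 4 * F₂ ≠ 0 := mul_ne_zero (by norm_num) h20
  obtain ⟨U, V, g, hrel, hgU, hgV⟩ := UniqueFactorizationMonoid.exists_reduced_factors (4 * F₂) hU0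
    (F₁ ^ 2 - 4 * F₂ * F₀)
  have hg0 : g ≠ 0 := by
    rintro rfl
    rw [zero_mul] at hgU
    exact hU0 hgU.symm
  have hU1 : U ≠ 0 := by
    rintro rfl
    rw [mul_zero] at hgU
    exact hU0 hgU.symm
  have hmap : ∀ p : ℕ, ∀ _ : Fact p.Prime, rp p g * rp p U = 4 * rp p F₂ ∧
      rp p g * rp p V = rp p F₁ ^ 2 - 4 * rp p F₂ * rp p F₀ := by
    intro p hp
    constructor
    · have h1 := congrArg (MvPolynomial.map (Int.castRingHom (ZMod p))) hgU
      rw [map_mul, map_mul, map_ofNat] at h1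
      exact h1
    · have h1 := congrArg (MvPolynomial.map (Int.castRingHom (ZMod p))) hgV
      rw [map_mul, map_sub, map_mul, map_mul, map_pow, map_ofNat] at h1
      exact h1
  by_cases hW : ∃ v, V * MvPolynomial.pderiv v U - U * MvPolynomial.pderiv v V ≠ 0
  · obtain ⟨v, hv⟩ := hW
    obtain ⟨E, hE, K, hK, h⟩ := pencil_data v g U V hg0 hU1 hrel hv
    refine ⟨E, hE, K, hK, 2, ?_⟩
    intro p hp hp2 r hr
    obtain ⟨⟨q, hq, hq1, hq2⟩, hchi⟩ := h p hp hp2 r hr
    have hΔ : rp p F₁ ^ 2 - 4 * rp p F₂ * (rp p F₀ - MvPolynomial.C r) =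
        rp p g * (rp p V + MvPolynomial.C r * rp p U) := by
      obtain ⟨e1, e2⟩ := hmap p hp
      linear_combination -e2 - MvPolynomial.C r * e1
    rw [hΔ]
    refine ⟨?_, hchi⟩
    intro z hz
    apply hq2
    rw [hz]
    refine pow_dvd_pow_of_dvd (hq.dvd_of_dvd_pow (n := 2) ?_) 2
    rw [← hz]
    exact Dvd.dvd.mul_left hq1 _
  · push Not at hW
    obtain ⟨u, v, rfl, rfl⟩ := const_of_wronskian U V hU1 hrel hW
    have hu : u ≠ 0 := by
      rintro rfl
      exact hU1 (map_zero _)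
    have huv : MvPolynomial.C u * (F₁ ^ 2 - 4 * F₂ * F₀) = MvPolynomial.C v * (4 * F₂) := by
      linear_combination MvPolynomial.C v * hgU - MvPolynomial.C u * hgV
    obtain ⟨K, hK, B₀, h⟩ := sq_data F₂ h20 (not_sq_top F₂ F₁ F₀ h20 u v hu huv hsq)
    refine ⟨C u * X + C v, ?_, K, hK, B₀ + u.natAbs + 2, ?_⟩
    · intro h0
      have h1 : (C u * X + C v : ℤ[X]).coeff 1 = u := by
        rw [coeff_add, coeff_C_mul, coeff_X_one, coeff_C, if_neg one_ne_zero, mul_one, add_zero]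
      rw [h0, coeff_zero] at h1
      exact hu h1.symm
    intro p hp hBp r hr
    have hpp := hp.out
    obtain ⟨hns, hchi⟩ := h p hp (by omega)
    have hr' : (u : ZMod p) * r + v ≠ 0 := by
      have h1 : ev p (C u * X + C v) r = (u : ZMod p) * r + v := by
        unfold ev
        rw [eval₂_add, eval₂_mul, eval₂_C, eval₂_C, eval₂_X]
        rfl
      rw [← h1]
      exact hr
    have hup : ((u : ℤ) : ZMod p) ≠ 0 := by
      intro h0
      rw [ZMod.intCast_zmod_eq_zero_iff_dvd] at h0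
      have := Nat.le_of_dvd (Int.natAbs_pos.2 hu) (Int.natCast_dvd.1 h0)
      omega
    have h4 : (4 : ZMod p) ≠ 0 := by
      intro h0
      have h2 : (2 : ZMod p) * 2 = 0 := by
        rw [← h0]
        norm_num
      have h3 : ((2 : ℕ) : ZMod p) = 0 := by
        have := mul_self_eq_zero.mp h2
        exact_mod_cast this
      rw [ZMod.natCast_eq_zero_iff] at h3
      have := (Nat.prime_dvd_prime_iff_eq hpp Nat.prime_two).mp h3
      omega
    obtain ⟨c, hc⟩ : ∃ c : ZMod p, c * u = 4 * ((u : ZMod p) * r + v) :=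
      ⟨4 * ((u : ZMod p) * r + v) * (u : ZMod p)⁻¹, by
        rw [mul_assoc, inv_mul_cancel₀ hup, mul_one]⟩
    have hc0 : c ≠ 0 := by
      rintro rfl
      rw [zero_mul] at hc
      exact (mul_ne_zero h4 hr') hc.symm
    have hrpC : ∀ z : ℤ, rp p (MvPolynomial.C z : MvPolynomial (Fin n) ℤ) =
        MvPolynomial.C (z : ZMod p) := by
      intro z
      unfold Pool.Agent.Y837.SV.rp
      rw [MvPolynomial.map_C]
      rfl
    have hΔ : rp p F₁ ^ 2 - 4 * rp p F₂ * (rp p F₀ - MvPolynomial.C r) =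
        MvPolynomial.C c * rp p F₂ := by
      obtain ⟨e1, e2⟩ := hmap p hp
      rw [hrpC] at e1 e2
      have hCu : (MvPolynomial.C ((u : ℤ) : ZMod p) : MvPolynomial (Fin n) (ZMod p)) ≠ 0 := by
        rw [Ne, MvPolynomial.C_eq_zero]
        exact hup
      apply mul_left_cancel₀ hCu
      have hc' : (MvPolynomial.C c : MvPolynomial (Fin n) (ZMod p)) * MvPolynomial.C (u : ZMod p) =
          4 * (MvPolynomial.C (u : ZMod p) * MvPolynomial.C r + MvPolynomial.C (v : ZMod p)) := by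
        rw [← map_mul, hc, map_mul, map_add, map_mul, map_ofNat]
      linear_combination -MvPolynomial.C (u : ZMod p) * e2 + MvPolynomial.C (v : ZMod p) * e1 -
        rp p F₂ * hc'
    rw [hΔ]
    refine ⟨fun z => hns c z hc0, ?_⟩
    intro χ hχ1 hχ2
    have h5 := hchi χ hχ1 hχ2
    have h6 : ∑ x : Fin n → ZMod p, χ (MvPolynomial.eval x (MvPolynomial.C c * rp p F₂)) =
        χ c * ∑ x : Fin n → ZMod p, χ (MvPolynomial.eval x (rp p F₂)) := by
      rw [Finset.mul_sum]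
      refine Finset.sum_congr rfl fun x _ => ?_
      rw [map_mul, MvPolynomial.eval_C, map_mul]
    rw [h6, norm_mul]
    refine le_trans ?_ h5
    refine mul_le_mul_of_nonneg_right ?_ (Real.sqrt_nonneg _)
    have h7 : ‖χ c‖ ≤ 1 := Pool.Agent.H435R3.Weil.WELE.mc_norm_le_one χ _
    calc ‖χ c‖ * ‖∑ x : Fin n → ZMod p, χ (MvPolynomial.eval x (rp p F₂))‖
        ≤ 1 * ‖∑ x : Fin n → ZMod p, χ (MvPolynomial.eval x (rp p F₂))‖ :=
          mul_le_mul_of_nonneg_right h7 (norm_nonneg _)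
      _ = _ := one_mul _

end Pool.Agent.X145.S3
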