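import Pool.Agent.X145.S3.Fam

/-!
Elimination: for `P ≠ 0` and `G` there is a nonzero polynomial `c` such that `P` divides `c(G)`; the values
`r` modulo `p` for which `P` and `G - r` have a common factor are roots of a fixed polynomial.
-/

set_option autoImplicit false

namespace Pool.Agent.X145.S3

open Finset Polynomial
open Pool.Agent.Y837.SV (rp rp_eval rp_int rp_degree)

/-- elimination over a domain -/
theorem elim {R : Type} [CommRing R] [IsDomain R] (P G : R[X]) (hP : P ≠ 0) :
    ∃ c : R[X], c ≠ 0 ∧ ∃ h : R[X], c.comp G = P * h := by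
  classical
  obtain ⟨K, i1, i2, i3⟩ : ∃ (K : Type) (_ : Field K) (_ : Algebra R K), IsFractionRing R K :=
    ⟨FractionRing R, inferInstance, inferInstance, inferInstance⟩
  have hinj : Function.Injective (algebraMap R K) := IsFractionRing.injective R K
  have hP' : P.map (algebraMap R K) ≠ 0 := (Polynomial.map_ne_zero_iff hinj).2 hP
  have hfin : Module.Finite K (AdjoinRoot (P.map (algebraMap R K))) :=
    (AdjoinRoot.powerBasis hP').finite
  obtain ⟨c, hc1, hc2⟩ := Algebra.IsIntegral.isIntegral (R := K)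
    (AdjoinRoot.mk (P.map (algebraMap R K)) (G.map (algebraMap R K)))
  have hdvd : P.map (algebraMap R K) ∣ c.comp (G.map (algebraMap R K)) := by
    rw [← AdjoinRoot.mk_eq_zero, ← hc2, Polynomial.comp, Polynomial.hom_eval₂]
    rfl
  obtain ⟨h, hh⟩ := hdvd
  obtain ⟨a, ha, hA⟩ := IsLocalization.integerNormalization_spec (nonZeroDivisors R) c
  obtain ⟨b, hb, hB⟩ := IsLocalization.integerNormalization_spec (nonZeroDivisors R) h
  obtain ⟨c1, hc1'⟩ : ∃ g1, g1 = IsLocalization.integerNormalization (nonZeroDivisors R) c := ⟨_, rfl⟩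
  obtain ⟨h1, hh1⟩ : ∃ g1, g1 = IsLocalization.integerNormalization (nonZeroDivisors R) h := ⟨_, rfl⟩
  rw [← hc1'] at hA
  rw [← hh1] at hB
  rw [Algebra.smul_def, Polynomial.algebraMap_apply] at hA hB
  have ha0 : algebraMap R K a ≠ 0 := by
    rw [map_ne_zero_iff _ hinj]
    exact nonZeroDivisors.ne_zero ha
  have hc10 : c1 ≠ 0 := by
    rintro rfl
    rw [Polynomial.map_zero] at hA
    exact (mul_ne_zero (C_ne_zero.2 ha0) hc1.ne_zero) hA.symm
  refine ⟨C b * c1, mul_ne_zero (C_ne_zero.2 (nonZeroDivisors.ne_zero hb)) hc10, C a * h1, ?_⟩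
  apply Polynomial.map_injective _ hinj
  rw [Polynomial.map_comp, Polynomial.map_mul, Polynomial.map_mul, Polynomial.map_mul, map_C, map_C,
    hA, hB, mul_comp, mul_comp, C_comp, C_comp, hh]
  ring

section ln

variable {n : ℕ} {A A' : Type} [CommRing A] [CommRing A']

/-- the polynomial as a polynomial in the variable `v` (the coefficients do not involve `v`) -/
noncomputable def ln (v : Fin n) : MvPolynomial (Fin n) A →+* (MvPolynomial (Fin n) A)[X] :=
  MvPolynomial.eval₂Hom (C.comp MvPolynomial.C) (fun i => if i = v then X else C (MvPolynomial.X i))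

theorem ln_C (v : Fin n) (a : A) : ln v (MvPolynomial.C a) = C (MvPolynomial.C a) := by
  simp [ln]

theorem ln_X_self (v : Fin n) : ln v (MvPolynomial.X v : MvPolynomial (Fin n) A) = X := by
  simp [ln]

theorem ln_X_ne (v i : Fin n) (h : i ≠ v) :
    ln v (MvPolynomial.X i : MvPolynomial (Fin n) A) = C (MvPolynomial.X i) := by
  simp [ln, h]

theorem ln_one (v : Fin n) (P : MvPolynomial (Fin n) A) :
    (ln v P).eval (MvPolynomial.X v) = P := by
  have h : (evalRingHom (MvPolynomial.X v : MvPolynomial (Fin n) A)).comp (ln v) = RingHom.id _ := by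
    ext i
    · simp [ln_C]
    · by_cases hi : i = v
      · rw [hi]
        simp [ln_X_self]
      · simp [ln_X_ne v i hi]
  exact DFunLike.congr_fun h P

theorem ln_inj (v : Fin n) (P : MvPolynomial (Fin n) A) (hP : P ≠ 0) : ln v P ≠ 0 := by
  intro h
  have h1 := ln_one v P
  rw [h, eval_zero] at h1
  exact hP h1.symm

theorem ln_map (v : Fin n) (f : A →+* A') (P : MvPolynomial (Fin n) A) :
    ln v (MvPolynomial.map f P) = (ln v P).map (MvPolynomial.map f) := by
  have h : (ln v).comp (MvPolynomial.map f) = (mapRingHom (MvPolynomial.map (σ := Fin n) f)).comp (ln v) := by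
    ext i
    · simp [ln_C]
    · by_cases hi : i = v
      · rw [hi]
        simp [ln_X_self]
      · simp [ln_X_ne v i hi]
  exact DFunLike.congr_fun h P

theorem ln_pderiv (v : Fin n) (P : MvPolynomial (Fin n) A) :
    ln v (MvPolynomial.pderiv v P) = derivative (ln v P) := by
  induction P using MvPolynomial.induction_on with
  | C a => simp [ln_C]
  | add P Q hP hQ => rw [map_add, map_add, hP, hQ, map_add, derivative_add]
  | mul_X P i hP =>
    rw [Derivation.leibniz, map_add, smul_eq_mul, smul_eq_mul, map_mul, map_mul, map_mul, hP, derivative_mul]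
    by_cases hi : i = v
    · rw [hi, MvPolynomial.pderiv_X_self, map_one, ln_X_self, derivative_X]
      ring
    · rw [MvPolynomial.pderiv_X_of_ne (by exact fun h => hi h), map_zero, ln_X_ne v i hi, derivative_C]
      ring

/-- a polynomial of degree zero in `v` does not involve `v` -/
theorem ln_free [Nontrivial A] (v : Fin n) (P : MvPolynomial (Fin n) A) (hP : (ln v P).natDegree = 0) :
    v ∉ P.vars := by
  classical
  have h0 : (ln v P).eval 0 = P := by
    have h1 := ln_one v P
    rw [eq_C_of_natDegree_eq_zero hP, eval_C] at h1 ⊢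
    exact h1
  have h2 : (ln v P).eval 0 = MvPolynomial.bind₁ (fun i => if i = v then 0 else MvPolynomial.X i) P := by
    have h : (evalRingHom (0 : MvPolynomial (Fin n) A)).comp (ln v) =
        (MvPolynomial.bind₁ (R := A) (fun i => if i = v then (0 : MvPolynomial (Fin n) A) else MvPolynomial.X i)).toRingHom := by
      ext i
      · simp [ln_C]
      · by_cases hi : i = v
        · rw [hi]
          simp [ln_X_self]
        · simp [ln_X_ne v i hi, hi]
    exact DFunLike.congr_fun h P
  intro hv
  rw [h2] at h0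
  rw [← h0] at hv
  have h3 := MvPolynomial.vars_bind₁ (fun i => if i = v then (0 : MvPolynomial (Fin n) A) else MvPolynomial.X i) P hv
  rw [mem_biUnion] at h3
  obtain ⟨i, -, hi⟩ := h3
  by_cases hiv : i = v
  · rw [if_pos hiv, MvPolynomial.vars_0] at hi
    exact absurd hi (notMem_empty _)
  · rw [if_neg hiv, MvPolynomial.vars_X, mem_singleton] at hi
    exact hiv hi.symm

end ln

/-- the polynomial on the line through `x` in the direction `v` -/
noncomputable def lnx {n : ℕ} {k : Type} [CommRing k] (v : Fin n) (x : Fin n → k) :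
    MvPolynomial (Fin n) k →+* k[X] :=
  (mapRingHom (MvPolynomial.eval x)).comp (ln v)

theorem lnx_def {n : ℕ} {k : Type} [CommRing k] (v : Fin n) (x : Fin n → k)
    (P : MvPolynomial (Fin n) k) : lnx v x P = (ln v P).map (MvPolynomial.eval x) := rfl

theorem lnx_eval {n : ℕ} {k : Type} [CommRing k] (v : Fin n) (x : Fin n → k)
    (P : MvPolynomial (Fin n) k) (s : k) :
    (lnx v x P).eval s = MvPolynomial.eval (Function.update x v s) P := by
  have h : (evalRingHom s).comp (lnx v x) = MvPolynomial.eval (Function.update x v s) := by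
    ext i
    · simp [lnx, ln_C]
    · by_cases hi : i = v
      · rw [hi]
        simp [lnx, ln_X_self]
      · simp [lnx, ln_X_ne v i hi, hi]
  exact DFunLike.congr_fun h P

/-- the elimination modulo `p` -/
theorem bez {n : ℕ} (v : Fin n) (P G : MvPolynomial (Fin n) ℤ) (hP : P ≠ 0) :
    ∃ (E : ℤ[X]) (D : ℕ), E ≠ 0 ∧ ∀ p : ℕ, ∀ _ : Fact p.Prime, ∀ r : ZMod p, ev p E r ≠ 0 →
      ∃ γ : MvPolynomial (Fin n) (ZMod p), γ ≠ 0 ∧ γ.totalDegree ≤ D ∧
        ∃ k h : (MvPolynomial (Fin n) (ZMod p))[X],
          C γ = (C (MvPolynomial.C r) - ln v (rp p G)) * k + ln v (rp p P) * h := by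
  classical
  obtain ⟨c, hc, h, hch⟩ := elim (ln v P) (ln v G) (ln_inj v P hP)
  obtain ⟨m, hm⟩ : ∃ m, c.coeff m ≠ 0 := by
    by_contra hcon
    push Not at hcon
    exact hc (Polynomial.ext fun m => by rw [hcon m, coeff_zero])
  obtain ⟨e, he⟩ := MvPolynomial.ne_zero_iff.mp hm
  obtain ⟨E, hE⟩ : ∃ E : ℤ[X], E = ∑ k ∈ range (c.natDegree + 1),
      C ((c.coeff k).coeff e) * X ^ k := ⟨_, rfl⟩
  have hEc : ∀ k, E.coeff k = (c.coeff k).coeff e := by
    intro k
    rw [hE, finsetSum_coeff]
    simp only [coeff_C_mul, coeff_X_pow, mul_ite, mul_one, mul_zero]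
    rw [Finset.sum_ite_eq]
    split_ifs with h1
    · rfl
    · rw [mem_range] at h1
      rw [coeff_eq_zero_of_natDegree_lt (by omega), MvPolynomial.coeff_zero]
  refine ⟨E, ∑ k ∈ range (c.natDegree + 1), (c.coeff k).totalDegree, ?_, ?_⟩
  · intro h0
    apply he
    rw [← hEc, h0, coeff_zero]
  intro p hp r hr
  obtain ⟨γ, hγ⟩ : ∃ γ : MvPolynomial (Fin n) (ZMod p), γ = ∑ k ∈ range (c.natDegree + 1),
      rp p (c.coeff k) * MvPolynomial.C (r ^ k) := ⟨_, rfl⟩
  have hγe : γ.coeff e = ev p E r := by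
    rw [hγ, hE, MvPolynomial.coeff_sum]
    unfold ev
    rw [eval₂_finsetSum]
    refine Finset.sum_congr rfl fun k _ => ?_
    rw [mul_comm, MvPolynomial.coeff_C_mul, eval₂_mul, eval₂_C, eval₂_X_pow, rp,
      MvPolynomial.coeff_map, mul_comm]
  have hγ2 : γ = (c.map (MvPolynomial.map (Int.castRingHom (ZMod p)))).eval (MvPolynomial.C r) := by
    rw [eval_map, eval₂_eq_sum_range, hγ]
    refine Finset.sum_congr rfl fun k _ => ?_
    rw [map_pow]
    rfl
  refine ⟨γ, ?_, ?_, ?_⟩
  · intro h0
    apply hr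
    rw [← hγe, h0, MvPolynomial.coeff_zero]
  · rw [hγ]
    refine MvPolynomial.totalDegree_finsetSum_le fun k hk => ?_
    refine (MvPolynomial.totalDegree_mul _ _).trans ?_
    rw [MvPolynomial.totalDegree_C, add_zero]
    refine (rp_degree _).trans ?_
    exact Finset.single_le_sum (f := fun k => (c.coeff k).totalDegree) (fun _ _ => Nat.zero_le _) hk
  · obtain ⟨c', hc'⟩ : ∃ c', c' = c.map (MvPolynomial.map (Int.castRingHom (ZMod p))) := ⟨_, rfl⟩
    have h1 : c'.comp (ln v (rp p G)) = ln v (rp p P) *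
        h.map (MvPolynomial.map (Int.castRingHom (ZMod p))) := by
      have h2 := congrArg (Polynomial.map (MvPolynomial.map (Int.castRingHom (ZMod p)))) hch
      rw [Polynomial.map_comp, Polynomial.map_mul, ← ln_map, ← ln_map, ← hc'] at h2
      exact h2
    have h3 : C (MvPolynomial.C r) - ln v (rp p G) ∣
        (c'.map C).eval (C (MvPolynomial.C r)) - (c'.map C).eval (ln v (rp p G)) :=
      sub_dvd_eval_sub _ _ _
    obtain ⟨k, hk⟩ := h3
    refine ⟨k, h.map (MvPolynomial.map (Int.castRingHom (ZMod p))), ?_⟩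
    rw [← hk, ← h1]
    have h4 : (c'.map C).eval (C (MvPolynomial.C r)) = C γ := by
      rw [hγ2, ← hc', eval_map, Polynomial.eval₂_at_apply]
    have h5 : (c'.map C).eval (ln v (rp p G)) = c'.comp (ln v (rp p G)) := by
      rw [eval_map]
      rfl
    rw [h4, h5]
    ring

end Pool.Agent.X145.S3
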