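import Pool.Agent.Y837.SV.Gen3
import Pool.Agent.Y837.SV.Crit3
import Pool.Agent.X145.S3.CovB

set_option autoImplicit false
set_option linter.unusedSectionVars false
set_option linter.unusedVariables false

/-!
The sieve criterion of the starting library (`Pool.Agent.Y837.SV.gen3`, helper837), with algebraic
exceptional values. The proof of `gen3B` is the one of the library with the changes for the
exceptional primes.
-/

namespace Pool.Agent.X145.S3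

open Finset Filter
open Pool.Agent.H256R2.SC (ff crt_int)
open Pool.Agent.H256R2.SC.LG (ana)
open Pool.Agent.H378R2.QG (w0 ev_pow ev_more inj_of_small)
open Pool.Agent.Y837.SV

open scoped Classical

/-- the number of the prime factors of the values of a polynomial -/
theorem ev_pf (P : Polynomial ℤ) : ∃ V : ℝ, ∀ L : ℝ, V ≤ L → ∀ h : ℤ, |(h : ℝ)| ≤ L ^ (11 / 10 : ℝ) →
    (((P.eval h).natAbs.primeFactors.card : ℕ) : ℝ) ≤ L := by
  obtain ⟨A, hA⟩ : ∃ A : ℝ, A = ∑ k ∈ range (P.natDegree + 1), |((P.coeff k : ℤ) : ℝ)| := ⟨_, rfl⟩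
  have hA0 : 0 ≤ A := by rw [hA]; exact Finset.sum_nonneg fun _ _ => abs_nonneg _
  have h1 := (isLittleO_pow_exp_pos_mul_atTop (k := 2 * P.natDegree) (b := (1 / 2 : ℝ))
    (by norm_num)).def (show (0 : ℝ) < 1 / (A + 1) by positivity)
  obtain ⟨V, hV⟩ := eventually_atTop.1 (h1.and (eventually_ge_atTop (1 : ℝ)))
  refine ⟨V, fun L hL h hh => ?_⟩
  obtain ⟨h2, h3⟩ := hV L hL
  rw [Real.norm_eq_abs, Real.norm_eq_abs, abs_of_nonneg (by positivity : (0:ℝ) ≤ L ^ (2 * P.natDegree)),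
    abs_of_nonneg (Real.exp_pos _).le] at h2
  by_cases hz : P.eval h = 0
  · rw [hz]
    simp
    linarith
  have hhL : |(h : ℝ)| ≤ L ^ 2 := by
    refine hh.trans ?_
    rw [← Real.rpow_natCast]
    exact Real.rpow_le_rpow_of_exponent_le h3 (by norm_num)
  have h4 : |((P.eval h : ℤ) : ℝ)| ≤ A * L ^ (2 * P.natDegree) := by
    rw [Polynomial.eval_eq_sum_range]
    push_cast
    refine (Finset.abs_sum_le_sum_abs _ _).trans ?_
    rw [hA, Finset.sum_mul]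
    refine Finset.sum_le_sum fun k hk => ?_
    rw [abs_mul, abs_pow]
    apply mul_le_mul_of_nonneg_left _ (abs_nonneg _)
    have hk' : k ≤ P.natDegree := by rw [mem_range] at hk; omega
    have hL2 : 1 ≤ L ^ 2 := one_le_pow₀ h3
    calc |(h : ℝ)| ^ k ≤ (L ^ 2) ^ k := pow_le_pow_left₀ (abs_nonneg _) hhL k
      _ ≤ (L ^ 2) ^ P.natDegree := pow_le_pow_right₀ hL2 hk'
      _ = L ^ (2 * P.natDegree) := by rw [pow_mul]
  have h5 : A * L ^ (2 * P.natDegree) ≤ Real.exp (1 / 2 * L) := by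
    calc A * L ^ (2 * P.natDegree) ≤ A * (1 / (A + 1) * Real.exp (1 / 2 * L)) :=
          mul_le_mul_of_nonneg_left h2 hA0
      _ = (A / (A + 1)) * Real.exp (1 / 2 * L) := by ring
      _ ≤ 1 * Real.exp (1 / 2 * L) := by
          apply mul_le_mul_of_nonneg_right _ (Real.exp_pos _).le
          rw [div_le_one (by positivity)]
          linarith
      _ = _ := one_mul _
  obtain ⟨m, hm⟩ : ∃ m, m = (P.eval h).natAbs := ⟨_, rfl⟩
  have hm0 : m ≠ 0 := by rw [hm]; exact Int.natAbs_ne_zero.2 hz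
  rw [← hm]
  have h6 : (m : ℝ) ≤ Real.exp (1 / 2 * L) := by
    refine le_trans ?_ (h4.trans h5)
    rw [hm, Nat.cast_natAbs]
    push_cast
    exact le_rfl
  have h7 : 2 ^ m.primeFactors.card ≤ m := by
    calc 2 ^ m.primeFactors.card = ∏ p ∈ m.primeFactors, 2 := by rw [Finset.prod_const]
      _ ≤ ∏ p ∈ m.primeFactors, p :=
          Finset.prod_le_prod' fun p hp => (Nat.prime_of_mem_primeFactors hp).two_le
      _ ≤ m := Nat.le_of_dvd (Nat.pos_of_ne_zero hm0) (Nat.prod_primeFactors_dvd m)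
  have h8 : (2 : ℝ) ^ m.primeFactors.card ≤ Real.exp (1 / 2 * L) := by
    refine le_trans ?_ h6
    exact_mod_cast h7
  have h9 := Real.log_le_log (by positivity) h8
  rw [Real.log_pow, Real.log_exp] at h9
  have h10 := Real.log_two_gt_d9
  have h11 : (0 : ℝ) ≤ (m.primeFactors.card : ℝ) := Nat.cast_nonneg _
  nlinarith

/-- representatives of an equivalence relation on a finite set -/
theorem exists_reps {α : Type} (rel : α → α → Prop) (hrel : Equivalence rel) (T : Finset α) :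
    ∃ T' : Finset α, T' ⊆ T ∧ (∀ k ∈ T, ∃ k' ∈ T', rel k' k) ∧
      ∀ k ∈ T', ∀ k' ∈ T', k ≠ k' → ¬ rel k k' := by
  induction T using Finset.induction_on with
  | empty => exact ⟨∅, le_rfl, by simp, by simp⟩
  | insert a T _ ih =>
    obtain ⟨T', h1, h2, h3⟩ := ih
    by_cases ha : ∃ k' ∈ T', rel k' a
    · refine ⟨T', h1.trans (subset_insert _ _), fun k hk => ?_, h3⟩
      rcases mem_insert.1 hk with rfl | hk'
      · exact ha
      · exact h2 k hk'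
    · refine ⟨insert a T', insert_subset_insert _ h1, fun k hk => ?_, fun k hk k' hk' hne => ?_⟩
      · rcases mem_insert.1 hk with rfl | hk'
        · exact ⟨k, mem_insert_self _ _, hrel.refl k⟩
        · obtain ⟨k', hk1, hk2⟩ := h2 k hk'
          exact ⟨k', mem_insert_of_mem hk1, hk2⟩
      · rcases mem_insert.1 hk with rfl | hk1 <;> rcases mem_insert.1 hk' with rfl | hk2
        · exact absurd rfl hne
        · intro h
          exact ha ⟨k', hk2, hrel.symm h⟩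
        · intro h
          exact ha ⟨k, hk1, h⟩
        · exact h3 k hk1 k' hk2 hne

theorem gen3B {ι : Type} [Fintype ι] (d : ℕ) (φ : ι → ∀ p : ℕ, (Fin d → ZMod p) → ZMod p)
    (f : ι → (Fin d → ℤ) → ℤ) (hf : ∀ j (p : ℕ) x, ((f j x : ℤ) : ZMod p) = φ j p (red d p x))
    (B : ℕ) (v u : ℕ → Fin d → ℤ)
    (hv : ∀ p : ℕ, p.Prime → B < p → ∀ j, (p : ℤ) ∣ f j (v p))
    (hu : ∀ p : ℕ, p.Prime → B < p → ∀ j, ¬ (p : ℤ) ∣ f j (u p))
    (E : ι → Polynomial ℤ) (hE0 : ∀ j, E j ≠ 0)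
    (hEx : ∀ j, ∀ r : ℤ, (E j).eval r = 0 → ∃ p : ℕ, p.Prime ∧ p ≤ B ∧ (p : ℤ) ∣ f j (u p) - r)
    (C δ : ℝ) (hC : 0 ≤ C) (hδ : 0 < δ) (hδ2 : δ ≤ 1 / 2)
    (hU : ∀ p : ℕ, p.Prime → B < p → ∀ j, ∀ r : ZMod p, (E j).eval₂ (Int.castRingHom (ZMod p)) r ≠ 0 →
      |(p : ℝ) * (Nat.card {x : Fin d → ZMod p // φ j p x = r} : ℝ) - (p : ℝ) ^ d| ≤
        C * (p : ℝ) ^ d * (p : ℝ) ^ (-δ))
    (rel : ι × ℤ → ι × ℤ → Prop) (hrel : Equivalence rel)
    (hkill : ∀ k k', rel k k' → ∀ p : ℕ, p.Prime → B < p → ∀ x : Fin d → ZMod p,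
      φ k.1 p x = -((k.2 : ℤ) : ZMod p) → φ k'.1 p x = -((k'.2 : ℤ) : ZMod p))
    (hP : ∃ L₀ : ℝ, ∀ L : ℝ, L₀ ≤ L → ∀ k k', ¬ rel k k' → k.1 ≠ k'.1 →
      |(k.2 : ℝ)| ≤ L ^ (11 / 10 : ℝ) → |(k'.2 : ℝ)| ≤ L ^ (11 / 10 : ℝ) →
      ∀ p : ℕ, p.Prime → B < p → L ^ 2 < (p : ℝ) →
      (E k.1).eval₂ (Int.castRingHom (ZMod p)) (-((k.2 : ℤ) : ZMod p)) ≠ 0 →
      (E k'.1).eval₂ (Int.castRingHom (ZMod p)) (-((k'.2 : ℤ) : ZMod p)) ≠ 0 →
      (p : ℝ) ^ 2 * (Nat.card {x : Fin d → ZMod p // φ k.1 p x = -((k.2 : ℤ) : ZMod p) ∧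
        φ k'.1 p x = -((k'.2 : ℤ) : ZMod p)} : ℝ) ≤ C * (p : ℝ) ^ d) :
    ∃ c : ℝ, 0 < c ∧ ∃ Z₀ : ℝ, ∀ Z : ℕ, Z₀ ≤ Z → ∀ M : Fin d → ℤ, ∃ x : Fin d → ℤ,
      (∀ i, M i < x i ∧ x i ≤ M i + Z) ∧ ∀ j, ∀ h : ℤ, |(h : ℝ)| ≤ c * ff Z →
        ∃ p : ℕ, p.Prime ∧ (p : ℝ) ≤ (Z : ℝ) ^ (1 / 10 : ℝ) ∧ (p : ℤ) ∣ f j x + h := by
  obtain ⟨c₀, hc₀, X₁, hcov⟩ := mcovB d (2 * C) δ (by positivity) hδ
  obtain ⟨Cs, hCs, y₀, hsur⟩ := survivors2 B
  obtain ⟨y₁, hw⟩ := ev_w0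
  obtain ⟨y₂, hw2⟩ := ev_w0_large B
  obtain ⟨c₁, hc₁def⟩ : ∃ c₁ : ℝ, c₁ = min c₀ 1 / ((Fintype.card ι : ℝ) + 1) := ⟨_, rfl⟩
  have hm0 : 0 < min c₀ 1 := lt_min hc₀ one_pos
  have hι0 : (0 : ℝ) < (Fintype.card ι : ℝ) + 1 := by positivity
  have hc₁ : 0 < c₁ := by rw [hc₁def]; positivity
  obtain ⟨c, hc, X₂, hana⟩ := ana (y₀ := max y₀ (max (max y₁ y₂) 10)) hc₁ hCs
  obtain ⟨X₃, hev⟩ := ev_pow
  obtain ⟨L₁, hmore⟩ := ev_more 1 one_pos
  obtain ⟨V, hVb⟩ : ∃ V : ℝ, ∀ L : ℝ, V ≤ L → ∀ j, ∀ h : ℤ, |(h : ℝ)| ≤ L ^ (11 / 10 : ℝ) →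
      ((((E j).eval h).natAbs.primeFactors.card : ℕ) : ℝ) ≤ L := by
    have h1 : ∀ j, ∃ V : ℝ, ∀ L : ℝ, V ≤ L → ∀ h : ℤ, |(h : ℝ)| ≤ L ^ (11 / 10 : ℝ) →
      ((((E j).eval h).natAbs.primeFactors.card : ℕ) : ℝ) ≤ L := fun j => ev_pf (E j)
    choose W hW using h1
    refine ⟨∑ j : ι, |W j|, fun L hL j => hW j L (le_trans ?_ hL)⟩
    exact (le_abs_self _).trans (Finset.single_le_sum (f := fun j : ι => |W j|)
      (fun _ _ => abs_nonneg _) (mem_univ j))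
  obtain ⟨V₀, hP⟩ := hP
  refine ⟨c, hc, max (max (max X₁ X₂) X₃) (Real.exp (max L₁ (max (max V V₀) 1))), fun Z hZ' M => ?_⟩
  obtain ⟨hZ1, hZ4⟩ := max_le_iff.1 hZ'
  obtain ⟨hZ2, hZ3⟩ := max_le_iff.1 hZ1
  obtain ⟨hZa, hZb⟩ := max_le_iff.1 hZ2
  obtain ⟨R, hR⟩ : ∃ R : ℕ, R = ⌊c * ff Z⌋₊ := ⟨_, rfl⟩
  obtain ⟨L, hL⟩ : ∃ L : ℝ, L = Real.log Z := ⟨_, rfl⟩
  obtain ⟨y, hy⟩ : ∃ y : ℝ, y = Real.log Z / 10 := ⟨_, rfl⟩
  obtain ⟨a1, a2, a3, a4, a5, a6, a7, a8, a9, a10, a11, a12, a13, a14, a15, a16, a17⟩ :=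
    hana Z hZb y _ hy rfl R hR
  obtain ⟨b1, b2, b3, b4⟩ := hev Z hZ3
  obtain ⟨a3a, a3b⟩ := max_le_iff.1 a3
  obtain ⟨a3b, a3c⟩ := max_le_iff.1 a3b
  obtain ⟨a3b, a3d⟩ := max_le_iff.1 a3b
  have hBw : (B : ℝ) ≤ w0 y := hw2 y a3d
  have hs := hsur y a3a R a5 a7
  rw [← hL] at b1 b3
  have hZ0 : (0 : ℝ) < Z := by linarith
  have hLL' : max L₁ (max (max V V₀) 1) ≤ L := by
    rw [hL, ← Real.log_exp (max L₁ (max (max V V₀) 1))]
    exact Real.log_le_log (Real.exp_pos _) hZ4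
  have hLL : L₁ ≤ L := (le_max_left _ _).trans hLL'
  have hVL : V ≤ L := (((le_max_left _ _).trans (le_max_left _ _)).trans (le_max_right _ _)).trans hLL'
  have hVL₀ : V₀ ≤ L := (((le_max_right _ _).trans (le_max_left _ _)).trans (le_max_right _ _)).trans hLL'
  have hL1 : 1 ≤ L := ((le_max_right _ _).trans (le_max_right _ _)).trans hLL'
  obtain ⟨-, -, k3⟩ := hmore L hLL
  have hwy : w0 y ≤ y := by
    have := hw y a3b
    linarith
  have hBp : ∀ p : ℕ, (Real.log Z) ^ 2 < p → B < p := by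
    intro p hp
    have h1 : (B : ℝ) < p := by linarith
    exact_mod_cast h1
  -- the local classes
  obtain ⟨uc, huc⟩ : ∃ uc : ℕ → Fin d → ℤ, uc = fun p : ℕ => if (p : ℝ) ≤ w0 y then u p else v p := ⟨_, rfl⟩
  have huc1 : ∀ p : ℕ, (p : ℝ) ≤ w0 y → uc p = u p := by
    intro p hp; rw [huc]; simp only; rw [if_pos hp]
  have huc2 : ∀ p : ℕ, w0 y < (p : ℝ) → uc p = v p := by
    intro p hp; rw [huc]; simp only; rw [if_neg (not_le.2 hp)]
  -- the small primes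
  obtain ⟨P, hP'⟩ : ∃ P : ℕ, P = primorial ⌊y⌋₊ := ⟨_, rfl⟩
  have hP0 : 0 < P := by rw [hP']; exact primorial_pos _
  have hPdvd : ∀ p : ℕ, p.Prime → (p : ℝ) ≤ y → (p : ℤ) ∣ (P : ℤ) := by
    intro p hp hpy
    have hpy' : p ≤ ⌊y⌋₊ := Nat.le_floor hpy
    rw [hP', primorial]
    have : p ∈ (Finset.range (⌊y⌋₊ + 1)).filter Nat.Prime := by
      rw [Finset.mem_filter, Finset.mem_range]
      exact ⟨by omega, hp⟩
    exact_mod_cast Finset.dvd_prod_of_mem _ this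
  have hcrt : ∀ i : Fin d, ∃ r : ℤ, ∀ p ∈ (Finset.range (⌊y⌋₊ + 1)).filter Nat.Prime,
      ((p : ℕ) : ℤ) ∣ r - uc p i := by
    intro i
    refine crt_int ((Finset.range (⌊y⌋₊ + 1)).filter Nat.Prime) (fun p : ℕ => (p : ℤ)) ?_ (fun p => uc p i)
    intro p hp q hq hpq
    exact Nat.isCoprime_iff_coprime.2
      ((Nat.coprime_primes (mem_filter.1 hp).2 (mem_filter.1 hq).2).2 hpq)
  choose b0 hb0 using hcrt
  -- the survivors
  obtain ⟨S₀, hS₀⟩ : ∃ S₀ : ι → Finset ℤ, S₀ = fun j => (Finset.Icc (-(R : ℤ)) R).filter (fun h => h ≠ 0 ∧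
      (∀ p : ℕ, p.Prime → B < p → (p : ℝ) ≤ w0 y → ¬ ((p : ℤ) ∣ f j (u p) + h)) ∧
      ∀ p : ℕ, p.Prime → w0 y < p → (p : ℝ) ≤ y → ¬ (p : ℤ) ∣ h) := ⟨_, rfl⟩
  have hS₀card : ∀ j, ((S₀ j).card : ℝ) ≤ c₁ * Real.log Z := by
    intro j
    refine le_trans ?_ ((hs (fun p => f j (u p)) (fun p hp h1 _ => hu p hp h1 j)).trans a8)
    rw [hS₀]
  have hS₀b : ∀ j, ∀ h ∈ S₀ j, h ≠ 0 ∧ |(h : ℝ)| ≤ L ^ (11 / 10 : ℝ) := by
    intro j h hh
    rw [hS₀] at hh
    simp only at hh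
    rw [Finset.mem_filter, Finset.mem_Icc] at hh
    refine ⟨hh.2.1, ?_⟩
    have h1 : |h| ≤ (R : ℤ) := abs_le.mpr hh.1
    have h2 : |(h : ℝ)| ≤ (R : ℝ) := by exact_mod_cast h1
    refine h2.trans (a7.trans ?_)
    rw [hy, hL]
    exact b2
  obtain ⟨T, hT⟩ : ∃ T : Finset (ι × ℤ), T = (univ.biUnion (fun j => (S₀ j).image (fun h => (j, h)))).filter
      (fun k => (E k.1).eval (-k.2) ≠ 0) := ⟨_, rfl⟩
  have hTmem : ∀ k : ι × ℤ, k ∈ T ↔ k.2 ∈ S₀ k.1 ∧ (E k.1).eval (-k.2) ≠ 0 := by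
    intro k
    rw [hT, mem_filter, mem_biUnion]
    constructor
    · rintro ⟨⟨j, -, hj⟩, h0⟩
      rw [mem_image] at hj
      obtain ⟨h, hh, rfl⟩ := hj
      exact ⟨hh, h0⟩
    · rintro ⟨h, h0⟩
      exact ⟨⟨k.1, mem_univ _, mem_image.2 ⟨k.2, h, rfl⟩⟩, h0⟩
  have hTb : ∀ k ∈ T, k.2 ≠ 0 ∧ |(k.2 : ℝ)| ≤ L ^ (11 / 10 : ℝ) := by
    intro k hk
    exact hS₀b _ _ ((hTmem k).1 hk).1
  have hTcard : (T.card : ℝ) ≤ min c₀ 1 * Real.log Z := by
    have h1 : T.card ≤ ∑ j : ι, (S₀ j).card := by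
      rw [hT]
      refine (card_filter_le _ _).trans ?_
      refine card_biUnion_le.trans ?_
      exact Finset.sum_le_sum fun j _ => card_image_le
    have h2 : (T.card : ℝ) ≤ ∑ j : ι, ((S₀ j).card : ℝ) := by exact_mod_cast h1
    calc (T.card : ℝ) ≤ ∑ j : ι, ((S₀ j).card : ℝ) := h2
      _ ≤ ∑ j : ι, (c₁ * Real.log Z) := Finset.sum_le_sum fun j _ => hS₀card j
      _ = Fintype.card ι * (c₁ * Real.log Z) := by
          rw [Finset.sum_const, card_univ, nsmul_eq_mul]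
      _ ≤ ((Fintype.card ι : ℝ) + 1) * (c₁ * Real.log Z) := by
          apply mul_le_mul_of_nonneg_right (by linarith)
          have : 0 ≤ Real.log Z := a2
          positivity
      _ = min c₀ 1 * Real.log Z := by
          rw [hc₁def]
          field_simp
  have hTL : (T.card : ℝ) ≤ L := by
    refine hTcard.trans ?_
    rw [← hL]
    calc min c₀ 1 * L ≤ 1 * L := mul_le_mul_of_nonneg_right (min_le_right _ _) (by linarith)
      _ = L := one_mul L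
  have hL110 : 0 ≤ L ^ (11 / 10 : ℝ) := Real.rpow_nonneg (by linarith) _
  -- representatives
  obtain ⟨T', hT'T, hT'1, hT'2⟩ := exists_reps rel hrel T
  -- the admissible pairs modulo `p`
  obtain ⟨Tp, hTp⟩ : ∃ Tp : ℕ → Finset (ι × ℤ), Tp = fun p => T'.filter (fun k =>
      (E k.1).eval₂ (Int.castRingHom (ZMod p)) (-((k.2 : ℤ) : ZMod p)) ≠ 0) := ⟨_, rfl⟩
  have hTpmem : ∀ p k, k ∈ Tp p ↔ k ∈ T' ∧
      (E k.1).eval₂ (Int.castRingHom (ZMod p)) (-((k.2 : ℤ) : ZMod p)) ≠ 0 := by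
    intro p k
    rw [hTp]
    simp only [mem_filter]
  have hTpT : ∀ p, Tp p ⊆ T' := fun p k hk => ((hTpmem p k).1 hk).1
  obtain ⟨x, hx1, hx2, hx3⟩ := hcov Z hZa {k // k ∈ T'} (by
      rw [Fintype.card_coe]
      have h0 : ((T'.card : ℕ) : ℝ) ≤ T.card := by exact_mod_cast card_le_card hT'T
      refine (h0.trans hTcard).trans ?_
      exact mul_le_mul_of_nonneg_right (min_le_left _ _) a2)
    (fun p x => (colF φ (Tp p) p x).map (fun k => ⟨k.1, hTpT p k.2⟩))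
    (fun k => ((E k.1.1).eval (-k.1.2)).natAbs.primeFactors)
    (by
      intro k
      have h1 := hVb L hVL k.1.1 (-k.1.2) (by
        push_cast
        rw [abs_neg]
        exact (hTb k.1 (hT'T k.2)).2)
      rw [← hL]
      exact h1)
    (by
      intro p hp hp1 hp2 k
      have hBp' := hBp p hp1
      rw [← hL] at hp1
      by_cases hk : k.1 ∈ Tp p
      · left
        have hd : dens d (fun p x => (colF φ (Tp p) p x).map (fun k => (⟨k.1, hTpT p k.2⟩ : {k // k ∈ T'})))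
            p k = dens d (fun p' => colF φ (Tp p) p') p ⟨k.1, hk⟩ := by
          unfold Pool.Agent.Y837.SV.dens
          congr 3
          apply congrArg
          funext x
          apply propext
          simp only [Option.map_eq_some_iff]
          constructor
          · rintro ⟨a, h1, h2⟩
            have h3 : a = ⟨k.1, hk⟩ := Subtype.ext (congrArg (fun z : {k // k ∈ T'} => z.1) h2)
            rw [← h3]
            exact h1
          · intro h1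
            exact ⟨_, h1, rfl⟩
        rw [hd]
        refine dens_bound2 φ C δ hC hδ2 p hp (Tp p) ?_ ?_ ?_ ?_ ⟨k.1, hk⟩
        · intro k hk
          exact hU p hp hBp' k.1 _ ((hTpmem p k).1 hk).2
        · intro k hk k' hk' hkk
          refine hP L hVL₀ k k' ?_ hkk (hTb k (hT'T (hTpT p hk))).2 (hTb k' (hT'T (hTpT p hk'))).2
            p hp hBp' hp1 ((hTpmem p k).1 hk).2 ((hTpmem p k').1 hk').2
          exact hT'2 k (hTpT p hk) k' (hTpT p hk') (fun h => hkk (by rw [h]))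
        · intro k hk k' hk' hkk hne
          refine inj_of_small k3 (hTb k (hT'T (hTpT p hk))).2 (hTb k' (hT'T (hTpT p hk'))).2
            (fun h => hne (Prod.ext hkk h)) hp1
        · have h0 : ((Tp p).card : ℝ) ≤ T.card := by
            exact_mod_cast card_le_card ((hTpT p).trans hT'T)
          have : ((Tp p).card : ℝ) ^ 2 ≤ L ^ 2 :=
            pow_le_pow_left₀ (Nat.cast_nonneg _) (h0.trans hTL) 2
          linarith
      · right
        have h1 : (E k.1.1).eval₂ (Int.castRingHom (ZMod p)) (-((k.1.2 : ℤ) : ZMod p)) = 0 := by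
          by_contra h
          exact hk ((hTpmem p k.1).2 ⟨k.2, h⟩)
        have h2 : (((E k.1.1).eval (-k.1.2) : ℤ) : ZMod p) = 0 := by
          rw [← h1]
          have h3 := Polynomial.eval₂_at_apply (p := E k.1.1) (Int.castRingHom (ZMod p)) (-k.1.2)
          rw [map_neg] at h3
          exact h3.symm
        refine ⟨?_, ?_⟩
        · rw [Nat.mem_primeFactors]
          refine ⟨hp, ?_, Int.natAbs_ne_zero.2 ((hTmem k.1).1 (hT'T k.2)).2⟩
          exact Int.natCast_dvd.1 ((ZMod.intCast_zmod_eq_zero_iff_dvd _ p).1 h2)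
        · unfold Pool.Agent.Y837.SV.dens
          rw [div_eq_zero_iff]
          left
          rw [Nat.cast_eq_zero, Finset.card_eq_zero, Finset.eq_empty_iff_forall_notMem]
          intro b hb
          rw [mem_BB] at hb
          have h3 := hb.2
          simp only [Option.map_eq_some_iff] at h3
          obtain ⟨a, -, h5⟩ := h3
          apply hk
          have h6 : a.1 = k.1 := congrArg (fun z : {k // k ∈ T'} => z.1) h5
          rw [← h6]
          exact a.2)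
    P hP0 (by rw [hP']; exact a11)
    (by
      intro p hp hpP
      rw [hP', primorial, Prime.dvd_finsetProd_iff hp.prime] at hpP
      obtain ⟨p', hp', hpp'⟩ := hpP
      rw [Finset.mem_filter, Finset.mem_range] at hp'
      have h4 : p = p' := (Nat.prime_dvd_prime_iff_eq hp hp'.2).1 hpp'
      have h5 : (p : ℝ) ≤ y := by
        have : p ≤ ⌊y⌋₊ := by omega
        calc (p : ℝ) ≤ (⌊y⌋₊ : ℝ) := by exact_mod_cast this
          _ ≤ y := Nat.floor_le a4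
      linarith)
    b0 M
  refine ⟨x, hx1, fun j h hh => ?_⟩
  have hyZ : y ≤ (Z : ℝ) ^ (1 / 10 : ℝ) := by
    have h1 := Real.log_le_rpow_div hZ0.le (show (0 : ℝ) < 1 / 10 by norm_num)
    rw [hy]
    linarith
  have hhR : |h| ≤ (R : ℤ) := by
    have h1 : (h.natAbs : ℝ) ≤ c * ff Z := by
      rw [Nat.cast_natAbs]
      push_cast
      exact hh
    have h2 : h.natAbs ≤ R := by rw [hR]; exact Nat.le_floor h1
    rw [Int.abs_eq_natAbs]
    exact_mod_cast h2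
  -- the value modulo a small prime
  have hval : ∀ p : ℕ, p.Prime → (p : ℝ) ≤ y → (p : ℤ) ∣ f j x - f j (uc p) := by
    intro p hp hpy
    have h1 : red d p x = red d p (uc p) := by
      funext i
      have h2 : (p : ℤ) ∣ x i - b0 i := (hPdvd p hp hpy).trans (hx2 i)
      have h3 : (p : ℤ) ∣ b0 i - uc p i := hb0 i p (by
        have hpy' : p ≤ ⌊y⌋₊ := Nat.le_floor hpy
        rw [Finset.mem_filter, Finset.mem_range]
        exact ⟨by omega, hp⟩)
      have h4 : (p : ℤ) ∣ x i - uc p i := by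
        have := dvd_add h2 h3
        have e : x i - b0 i + (b0 i - uc p i) = x i - uc p i := by ring
        rwa [e] at this
      have h5 := (ZMod.intCast_zmod_eq_zero_iff_dvd _ p).2 h4
      push_cast at h5
      exact sub_eq_zero.1 h5
    rw [← ZMod.intCast_zmod_eq_zero_iff_dvd]
    push_cast
    rw [hf, hf, h1, sub_self]
  have hmed : ∀ p : ℕ, p.Prime → w0 y < (p : ℝ) → (p : ℝ) ≤ y → (p : ℤ) ∣ f j x := by
    intro p hp h1 h2
    have h3 := hval p hp h2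
    rw [huc2 p h1] at h3
    have h4 : B < p := by
      have : (B : ℝ) < p := lt_of_le_of_lt hBw h1
      exact_mod_cast this
    have h5 := dvd_add h3 (hv p hp h4 j)
    rwa [sub_add_cancel] at h5
  have hsml : ∀ p : ℕ, p.Prime → (p : ℝ) ≤ w0 y → (p : ℤ) ∣ f j x - f j (u p) := by
    intro p hp h1
    have h3 := hval p hp (h1.trans hwy)
    rwa [huc1 p h1] at h3
  by_cases h0 : h = 0
  · -- a medium prime
    obtain ⟨p, hp, hp1, hp2⟩ := exists_medium a3c (hw y a3b)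
    refine ⟨p, hp, hp2.trans hyZ, ?_⟩
    rw [h0, add_zero]
    exact hmed p hp hp1 hp2
  by_cases hex : (E j).eval (-h) = 0
  · obtain ⟨p, hp, hp1, hp2⟩ := hEx j _ hex
    have hpw : (p : ℝ) ≤ w0 y := by
      have : (p : ℝ) ≤ B := by exact_mod_cast hp1
      linarith
    refine ⟨p, hp, (hpw.trans hwy).trans hyZ, ?_⟩
    have h1 := dvd_add (hsml p hp hpw) hp2
    have e : f j x - f j (u p) + (f j (u p) - -h) = f j x + h := by ring
    rwa [e] at h1
  by_cases hmem' : h ∈ S₀ j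
  · have hmem : ((j, h) : ι × ℤ) ∈ T := by
      rw [hTmem]
      exact ⟨hmem', hex⟩
    obtain ⟨k', hk', hkk'⟩ := hT'1 (j, h) hmem
    obtain ⟨p, hp1, hp2, hp3, hp4⟩ := hx3 ⟨k', hk'⟩
    refine ⟨p, hp1, hp3, ?_⟩
    simp only [Option.map_eq_some_iff] at hp4
    obtain ⟨a, ha1, ha2⟩ := hp4
    have h1 := colF_kill ha1
    have h1' : a.1 = k' := congrArg (fun z : {k // k ∈ T'} => z.1) ha2
    unfold kill at h1
    rw [h1'] at h1
    have h2 := hkill k' (j, h) hkk' p hp1 (hBp p hp2) (red d p x) (eq_neg_of_add_eq_zero_left h1)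
    have h1 : φ j p (red d p x) + ((h : ℤ) : ZMod p) = 0 := by
      rw [h2]
      simp
    rw [← ZMod.intCast_zmod_eq_zero_iff_dvd]
    push_cast
    rw [hf]
    exact h1
  · rw [hS₀] at hmem'
    simp only at hmem'
    rw [Finset.mem_filter, Finset.mem_Icc] at hmem'
    by_cases hc1 : ∃ p : ℕ, p.Prime ∧ (p : ℝ) ≤ w0 y ∧ (p : ℤ) ∣ f j (u p) + h
    · obtain ⟨p, hp, hp1, hp2⟩ := hc1
      refine ⟨p, hp, (hp1.trans hwy).trans hyZ, ?_⟩
      have h1 := dvd_add (hsml p hp hp1) hp2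
      have e : f j x - f j (u p) + (f j (u p) + h) = f j x + h := by ring
      rwa [e] at h1
    by_cases hc2 : ∃ p : ℕ, p.Prime ∧ w0 y < (p : ℝ) ∧ (p : ℝ) ≤ y ∧ (p : ℤ) ∣ h
    · obtain ⟨p, hp, hp1, hp2, hp3⟩ := hc2
      refine ⟨p, hp, hp2.trans hyZ, ?_⟩
      exact dvd_add (hmed p hp hp1 hp2) hp3
    exfalso
    apply hmem'
    push Not at hc1 hc2
    exact ⟨abs_le.1 hhR, h0, fun p hp _ hp2 => hc1 p hp hp2, fun p hp hp1 hp2 => hc2 p hp hp1 hp2⟩

end Pool.Agent.X145.S3
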