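import Mathlib

/-!
A sum of three nonconstant polynomials in disjoint sets of variables is irreducible (the characteristic does not
divide the degrees).
-/

set_option autoImplicit false
set_option linter.unusedSectionVars false

namespace Pool.Agent.X145.S3

open Polynomial

section eis

variable {B : Type} [CommRing B] [IsDomain B] [UniqueFactorizationMonoid B]

/-- a simple prime factor of `u T ^ N + w` -/
theorem simple_factor (u w : B) (hu : IsUnit u) (hw : w ≠ 0) (N : ℕ) (hN : 1 ≤ N)
    (hNu : IsUnit (N : B)) : ∃ q : B[X], Prime q ∧ q ∣ C u * X ^ N + C w ∧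
      ¬ q ^ 2 ∣ C u * X ^ N + C w := by
  have hu0 : u ≠ 0 := hu.ne_zero
  have hdeg : (C u * X ^ N + C w : B[X]).natDegree = N := by
    rw [Polynomial.natDegree_add_C, Polynomial.natDegree_C_mul_X_pow N u hu0]
  have hne : (C u * X ^ N + C w : B[X]) ≠ 0 := by
    intro h
    rw [h, Polynomial.natDegree_zero] at hdeg
    omega
  have hnu : ¬ IsUnit (C u * X ^ N + C w : B[X]) := by
    intro h
    have := Polynomial.natDegree_eq_zero_of_isUnit h
    omega
  obtain ⟨q, hq, hqd⟩ := WfDvdMonoid.exists_irreducible_factor hnu hne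
  have hqp : Prime q := hq.prime
  refine ⟨q, hqp, hqd, ?_⟩
  rintro ⟨v, hv⟩
  -- the derivative
  have h1 : q ∣ Polynomial.derivative (C u * X ^ N + C w : B[X]) := by
    rw [hv]
    refine ⟨2 * Polynomial.derivative q * v + q * Polynomial.derivative v, ?_⟩
    rw [Polynomial.derivative_mul, Polynomial.derivative_pow]
    push_cast
    simp only [map_ofNat]
    ring
  rw [Polynomial.derivative_add, Polynomial.derivative_C, add_zero, Polynomial.derivative_C_mul_X_pow]
    at h1
  have h2 : q ∣ X ^ (N - 1) := by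
    have h3 : IsUnit (C (u * N) : B[X]) := (hu.mul hNu).map Polynomial.C
    exact (h3.dvd_mul_left).1 h1
  have h3 : q ∣ X := hqp.dvd_of_dvd_pow h2
  have h4 : q ∣ C w := by
    have h5 : q ∣ C u * X ^ N := (h3.trans (dvd_pow_self X (by omega))).mul_left _
    exact (dvd_add_right h5).1 hqd
  have h5 : q.natDegree = 0 := by
    obtain ⟨s, hs⟩ := h4
    have h6 : (C w : B[X]) ≠ 0 := Polynomial.C_ne_zero.mpr hw
    rw [hs] at h6
    have h7 := Polynomial.natDegree_mul (left_ne_zero_of_mul h6) (right_ne_zero_of_mul h6)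
    rw [← hs, Polynomial.natDegree_C] at h7
    omega
  rw [Polynomial.eq_C_of_natDegree_eq_zero h5] at h3
  have h6 := (Polynomial.C_dvd_iff_dvd_coeff _ _).mp h3 1
  rw [Polynomial.coeff_X_one] at h6
  apply hqp.not_isUnit
  rw [Polynomial.eq_C_of_natDegree_eq_zero h5]
  exact (isUnit_of_dvd_one h6).map Polynomial.C

/-- Eisenstein -/
theorem eisen (u h q : B) (hu : IsUnit u) (hq : Prime q) (h1 : q ∣ h) (h2 : ¬ q ^ 2 ∣ h) (N : ℕ)
    (hN : 1 ≤ N) : Irreducible (C u * X ^ N + C h : B[X]) := by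
  have hu0 : u ≠ 0 := hu.ne_zero
  have hdeg : (C u * X ^ N + C h : B[X]).natDegree = N := by
    rw [Polynomial.natDegree_add_C, Polynomial.natDegree_C_mul_X_pow N u hu0]
  have hlc : (C u * X ^ N + C h : B[X]).leadingCoeff = u := by
    unfold Polynomial.leadingCoeff
    rw [hdeg, Polynomial.coeff_add, Polynomial.coeff_C_mul_X_pow, if_pos rfl,
      Polynomial.coeff_C, if_neg (by omega), add_zero]
  refine Polynomial.irreducible_of_eisenstein_criterion (P := Ideal.span {q})
    ((Ideal.span_singleton_prime hq.ne_zero).2 hq) ?_ ?_ ?_ ?_ ?_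
  · rw [hlc, Ideal.mem_span_singleton]
    intro hd
    exact hq.not_isUnit (isUnit_of_dvd_unit hd hu)
  · intro n hn
    have hn' : n < N := by
      have h4 : (n : WithBot ℕ) < ((C u * X ^ N + C h : B[X]).natDegree : WithBot ℕ) :=
        lt_of_lt_of_le hn Polynomial.degree_le_natDegree
      rw [hdeg] at h4
      exact_mod_cast h4
    rw [Ideal.mem_span_singleton, Polynomial.coeff_add, Polynomial.coeff_C_mul_X_pow,
      if_neg (by omega), zero_add, Polynomial.coeff_C]
    split_ifs
    · exact h1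
    · exact dvd_zero _
  · rw [← Polynomial.natDegree_pos_iff_degree_pos, hdeg]
    omega
  · rw [Polynomial.coeff_add, Polynomial.coeff_C_mul_X_pow, if_neg (by omega), zero_add,
      Polynomial.coeff_C_zero, Ideal.span_singleton_pow, Ideal.mem_span_singleton]
    exact h2
  · intro r hr
    have h3 := (Polynomial.C_dvd_iff_dvd_coeff _ _).mp hr N
    rw [Polynomial.coeff_add, Polynomial.coeff_C_mul_X_pow, if_pos rfl,
      Polynomial.coeff_C, if_neg (by omega), add_zero] at h3
    exact isUnit_of_dvd_unit h3 hu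

end eis

section fermat

variable {K : Type} [Field K]

/-- `a x ^ N + b y ^ N + c z ^ N` is irreducible. -/
theorem fermat (a b c : K) (ha : a ≠ 0) (hb : b ≠ 0) (hc : c ≠ 0) (N : ℕ) (hN : 1 ≤ N)
    (hNK : (N : K) ≠ 0) :
    Irreducible (MvPolynomial.C a * MvPolynomial.X 0 ^ N + MvPolynomial.C b * MvPolynomial.X 1 ^ N +
      MvPolynomial.C c * MvPolynomial.X 2 ^ N : MvPolynomial (Fin 3) K) := by
  have unitC : ∀ {n : ℕ} {a : K}, a ≠ 0 → IsUnit (MvPolynomial.C a : MvPolynomial (Fin n) K) :=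
    fun h => (isUnit_iff_ne_zero.mpr h).map MvPolynomial.C
  -- in one variable
  obtain ⟨q1, hq1, hd1, hn1⟩ := simple_factor (B := MvPolynomial (Fin 1) K)
    (MvPolynomial.C b) (MvPolynomial.C c * MvPolynomial.X 0 ^ N) (unitC hb)
    (mul_ne_zero (by simpa using hc) (pow_ne_zero _ (MvPolynomial.X_ne_zero 0))) N hN
    (by
      have h : ((N : ℕ) : MvPolynomial (Fin 1) K) = MvPolynomial.C (N : K) := by simp
      rw [h]
      exact unitC hNK)
  obtain ⟨q, hq⟩ : ∃ q : MvPolynomial (Fin 2) K, MvPolynomial.finSuccEquiv K 1 q = q1 :=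
    (MvPolynomial.finSuccEquiv K 1).surjective q1
  have e1 : MvPolynomial.finSuccEquiv K 1 (MvPolynomial.C b * MvPolynomial.X 0 ^ N +
      MvPolynomial.C c * MvPolynomial.X 1 ^ N) =
      C (MvPolynomial.C b) * X ^ N + C (MvPolynomial.C c * MvPolynomial.X 0 ^ N) := by
    have h1 : MvPolynomial.finSuccEquiv K 1 (MvPolynomial.X 0) = X := MvPolynomial.finSuccEquiv_X_zero
    have h2 : MvPolynomial.finSuccEquiv K 1 (MvPolynomial.X 1) = C (MvPolynomial.X 0) :=
      MvPolynomial.finSuccEquiv_X_succ (j := (0 : Fin 1))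
    have h3 : ∀ a : K, MvPolynomial.finSuccEquiv K 1 (MvPolynomial.C a) = C (MvPolynomial.C a) := by
      intro a
      rw [MvPolynomial.finSuccEquiv_apply, MvPolynomial.eval₂Hom_C]
      rfl
    simp only [map_add, map_mul, map_pow, h1, h2, h3]
  have hqp : Prime q := by
    have := hq1
    rw [← hq] at this
    exact (MulEquiv.prime_iff (MvPolynomial.finSuccEquiv K 1)).1 this
  have hqd : q ∣ (MvPolynomial.C b * MvPolynomial.X 0 ^ N + MvPolynomial.C c * MvPolynomial.X 1 ^ N :
      MvPolynomial (Fin 2) K) := by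
    rw [← map_dvd_iff (MvPolynomial.finSuccEquiv K 1), hq, e1]
    exact hd1
  have hqn : ¬ q ^ 2 ∣ (MvPolynomial.C b * MvPolynomial.X 0 ^ N + MvPolynomial.C c * MvPolynomial.X 1 ^ N :
      MvPolynomial (Fin 2) K) := by
    rw [← map_dvd_iff (MvPolynomial.finSuccEquiv K 1), map_pow, hq, e1]
    exact hn1
  have h := eisen (MvPolynomial.C a : MvPolynomial (Fin 2) K) _ q (unitC ha) hqp hqd hqn N hN
  rw [← MulEquiv.irreducible_iff (MvPolynomial.finSuccEquiv K 2)]
  have e2 : MvPolynomial.finSuccEquiv K 2 (MvPolynomial.C a * MvPolynomial.X 0 ^ N +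
      MvPolynomial.C b * MvPolynomial.X 1 ^ N + MvPolynomial.C c * MvPolynomial.X 2 ^ N) =
      C (MvPolynomial.C a) * X ^ N + C (MvPolynomial.C b * MvPolynomial.X 0 ^ N +
        MvPolynomial.C c * MvPolynomial.X 1 ^ N) := by
    have h1 : MvPolynomial.finSuccEquiv K 2 (MvPolynomial.X 0) = X := MvPolynomial.finSuccEquiv_X_zero
    have h2 : MvPolynomial.finSuccEquiv K 2 (MvPolynomial.X 1) = C (MvPolynomial.X 0) :=
      MvPolynomial.finSuccEquiv_X_succ (j := (0 : Fin 2))
    have h2' : MvPolynomial.finSuccEquiv K 2 (MvPolynomial.X 2) = C (MvPolynomial.X 1) :=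
      MvPolynomial.finSuccEquiv_X_succ (j := (1 : Fin 2))
    have h3 : ∀ a : K, MvPolynomial.finSuccEquiv K 2 (MvPolynomial.C a) = C (MvPolynomial.C a) := by
      intro a
      rw [MvPolynomial.finSuccEquiv_apply, MvPolynomial.eval₂Hom_C]
      rfl
    simp only [map_add, map_mul, map_pow, h1, h2, h2', h3]
    ring
  rw [e2]
  exact h

end fermat

section psi

variable {σ K : Type} [Fintype σ] [DecidableEq σ] [Field K]

/-- homogenisation with the weights `e` -/
noncomputable def Phi (e : σ → ℕ) : MvPolynomial σ K →ₐ[K] (MvPolynomial σ K)[X] :=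
  MvPolynomial.aeval (fun v => C (MvPolynomial.X v) * X ^ e v)

theorem Phi_one (e : σ → ℕ) (A : MvPolynomial σ K) : (Phi e A).eval 1 = A := by
  have h : (Polynomial.evalRingHom (1 : MvPolynomial σ K)).comp (Phi (K := K) e).toRingHom =
      RingHom.id _ := by
    ext v
    · simp [Phi]
    · simp [Phi]
  exact DFunLike.congr_fun h A

theorem Phi_zero (e : σ → ℕ) (he : ∀ v, 1 ≤ e v) (A : MvPolynomial σ K) :
    (Phi e A).eval 0 = MvPolynomial.C (MvPolynomial.constantCoeff A) := by
  have h : (Polynomial.evalRingHom (0 : MvPolynomial σ K)).comp (Phi (K := K) e).toRingHom =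
      (MvPolynomial.C).comp (MvPolynomial.constantCoeff) := by
    ext v
    · simp [Phi]
    · have h1 : e v ≠ 0 := by have := he v; omega
      simp [Phi, h1]
  exact DFunLike.congr_fun h A

theorem Phi_const (e : σ → ℕ) (he : ∀ v, 1 ≤ e v) (A : MvPolynomial σ K)
    (hA : (Phi e A).natDegree = 0) : A = MvPolynomial.C (MvPolynomial.constantCoeff A) := by
  have h1 := Phi_one e A
  have h2 := Phi_zero e he A
  rw [Polynomial.eq_C_of_natDegree_eq_zero hA, Polynomial.eval_C] at h1 h2
  rw [← h2, h1]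

theorem Phi_coeff (e : σ → ℕ) (A : MvPolynomial σ K) (k : ℕ) (hk : k ≠ 0) :
    MvPolynomial.constantCoeff ((Phi e A).coeff k) = 0 := by
  have h : (Polynomial.mapRingHom (MvPolynomial.constantCoeff (σ := σ) (R := K))).comp
      (Phi (K := K) e).toRingHom = (Polynomial.C).comp (MvPolynomial.constantCoeff) := by
    ext v
    · simp [Phi]
    · simp [Phi]
  have h1 := DFunLike.congr_fun h A
  have h2 := congrArg (fun P => Polynomial.coeff P k) h1
  simp only [RingHom.comp_apply, Polynomial.coe_mapRingHom, Polynomial.coeff_map,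
    Polynomial.coeff_C, if_neg hk] at h2
  exact h2

/-- the ordinary homogenisation -/
theorem Phi_hom (A : MvPolynomial σ K) (k : ℕ) :
    (Phi (fun _ => 1) A).coeff k = MvPolynomial.homogeneousComponent k A := by
  unfold Phi
  rw [MvPolynomial.aeval_def, MvPolynomial.eval₂_eq', Polynomial.finsetSum_coeff,
    MvPolynomial.homogeneousComponent_apply, Finset.sum_filter]
  refine Finset.sum_congr rfl fun d _ => ?_
  have h1 : (algebraMap K (MvPolynomial σ K)[X]) (MvPolynomial.coeff d A) *
      ∏ i, (C (MvPolynomial.X i) * X ^ 1) ^ d i =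
      C (MvPolynomial.monomial d (MvPolynomial.coeff d A)) * X ^ d.degree := by
    simp only [pow_one, mul_pow]
    rw [Finset.prod_mul_distrib, Finset.prod_pow_eq_pow_sum, ← Finsupp.degree_eq_sum]
    have h2 : (algebraMap K (MvPolynomial σ K)[X]) (MvPolynomial.coeff d A) =
        C (MvPolynomial.C (MvPolynomial.coeff d A)) := rfl
    rw [h2, ← mul_assoc]
    congr 1
    rw [MvPolynomial.monomial_eq, Finsupp.prod_fintype _ _ (by simp)]
    simp only [map_mul, map_prod, map_pow]
  rw [h1, Polynomial.coeff_C_mul_X_pow]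
  by_cases hd : d.degree = k
  · rw [if_pos hd.symm, if_pos hd]
  · rw [if_neg (Ne.symm hd), if_neg hd]

theorem Phi_nat (A : MvPolynomial σ K) : (Phi (fun _ => 1) A).natDegree ≤ A.totalDegree := by
  rw [Polynomial.natDegree_le_iff_coeff_eq_zero]
  intro k hk
  rw [Phi_hom, MvPolynomial.homogeneousComponent_eq_zero _ _ hk]

theorem Phi_inj (e : σ → ℕ) (A : MvPolynomial σ K) (hA : A ≠ 0) : Phi e A ≠ 0 := by
  intro h
  have := Phi_one e A
  rw [h, Polynomial.eval_zero] at this
  exact hA this.symm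

/-- all variables of `A` have the weight `k` -/
theorem Phi_expand (e : σ → ℕ) (k : ℕ) (A : MvPolynomial σ K) (hA : ∀ v ∈ A.vars, e v = k) :
    Phi e A = Polynomial.expand _ k (Phi (fun _ => 1) A) := by
  have h1 : Phi e A = MvPolynomial.aeval (fun v => C (MvPolynomial.X v) * X ^ k) A := by
    unfold Phi
    rw [MvPolynomial.aeval_eq_eval₂Hom, MvPolynomial.aeval_eq_eval₂Hom]
    refine MvPolynomial.eval₂Hom_congr' rfl (fun v hv _ => ?_) rfl
    rw [hA v hv]
  rw [h1]
  have h2 : (Polynomial.expand (MvPolynomial σ K) k).toRingHom.comp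
      (Phi (σ := σ) (K := K) (fun _ => 1)).toRingHom =
      (MvPolynomial.aeval (fun v => C (MvPolynomial.X v) * X ^ k) :
        MvPolynomial σ K →ₐ[K] (MvPolynomial σ K)[X]).toRingHom := by
    ext v
    · simp [Phi]
    · simp [Phi]
  exact (DFunLike.congr_fun h2 A).symm

/-- the substitution `X_v = w_v x_i ^ e_v`, `i` the block of `v` -/
noncomputable def chi (b : σ → Fin 3) (e : σ → ℕ) (w : σ → K) :
    MvPolynomial σ K →ₐ[K] MvPolynomial (Fin 3) K :=
  MvPolynomial.aeval (fun v => MvPolynomial.C (w v) * MvPolynomial.X (b v) ^ e v)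

theorem chi_const (b : σ → Fin 3) (e : σ → ℕ) (he : ∀ v, 1 ≤ e v) (w : σ → K)
    (A : MvPolynomial σ K) : MvPolynomial.constantCoeff (chi b e w A) =
      MvPolynomial.constantCoeff A := by
  have h : (MvPolynomial.constantCoeff (σ := Fin 3) (R := K)).comp (chi b e w).toRingHom =
      (MvPolynomial.constantCoeff (σ := σ) (R := K)) := by
    ext v
    · simp [chi]
    · have h1 : e v ≠ 0 := by have := he v; omega
      simp [chi, h1]
  exact DFunLike.congr_fun h A

theorem chi_top (b : σ → Fin 3) (e : σ → ℕ) (w : σ → K) (i : Fin 3) (k d : ℕ)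
    (A : MvPolynomial σ K) (hA : A.IsHomogeneous d) (hb : ∀ v ∈ A.vars, b v = i ∧ e v = k) :
    chi b e w A = MvPolynomial.C (MvPolynomial.eval w A) * MvPolynomial.X i ^ (k * d) := by
  unfold chi
  rw [MvPolynomial.aeval_def, MvPolynomial.eval₂_eq', MvPolynomial.eval_eq', map_sum,
    Finset.sum_mul]
  refine Finset.sum_congr rfl fun m hm => ?_
  have hm' := hA (MvPolynomial.mem_support_iff.mp hm)
  have h1 : ∀ v, (MvPolynomial.C (w v) * MvPolynomial.X (b v) ^ e v : MvPolynomial (Fin 3) K) ^ m v =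
      MvPolynomial.C (w v ^ m v) * (MvPolynomial.X i ^ k) ^ m v := by
    intro v
    by_cases hv : m v = 0
    · rw [hv, pow_zero, pow_zero, pow_zero, map_one, mul_one]
    · have h2 : v ∈ A.vars := by
        rw [MvPolynomial.mem_vars]
        exact ⟨m, hm, Finsupp.mem_support_iff.mpr hv⟩
      rw [(hb v h2).1, (hb v h2).2, mul_pow, map_pow]
  rw [Finset.prod_congr rfl fun v _ => h1 v, Finset.prod_mul_distrib, Finset.prod_pow_eq_pow_sum,
    ← Finsupp.degree_eq_sum]
  have h3 : m.degree = d := by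
    rw [Finsupp.degree_eq_weight_one]
    exact hm'
  rw [h3, ← pow_mul, map_mul, map_prod]
  rw [mul_assoc]
  rfl

theorem irr3 (b : σ → Fin 3) (g : Fin 3 → MvPolynomial σ K) (hv : ∀ i, ∀ v ∈ (g i).vars, b v = i)
    (hnc : ∀ i c, g i ≠ MvPolynomial.C c) (w : σ → K)
    (hw : ∀ i, MvPolynomial.eval w ((Phi (fun _ => 1) (g i)).leadingCoeff) ≠ 0)
    (hd : ∀ i, (((Phi (fun _ => 1) (g i)).natDegree : ℕ) : K) ≠ 0) :
    Irreducible (g 0 + g 1 + g 2) := by
  classical
  obtain ⟨d, hdd⟩ : ∃ d : Fin 3 → ℕ, ∀ i, d i = (Phi (fun _ => 1) (g i)).natDegree := ⟨_, fun _ => rfl⟩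
  have hd1 : ∀ i, 1 ≤ d i := by
    intro i
    by_contra hcon
    have h0 : d i = 0 := by omega
    rw [hdd] at h0
    exact hnc i _ (Phi_const _ (fun _ => le_rfl) (g i) h0)
  obtain ⟨N, hN⟩ : ∃ N, N = d 0 * d 1 * d 2 := ⟨_, rfl⟩
  obtain ⟨e, he⟩ : ∃ e : Fin 3 → ℕ, ∀ i, e i * d i = N := by
    refine ⟨![d 1 * d 2, d 0 * d 2, d 0 * d 1], fun i => ?_⟩
    fin_cases i <;> simp [hN] <;> ring
  have hN1 : 1 ≤ N := by
    rw [hN]
    exact Nat.mul_pos (Nat.mul_pos (hd1 0) (hd1 1)) (hd1 2)
  have he1 : ∀ i, 1 ≤ e i := by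
    intro i
    by_contra hcon
    have h0 : e i = 0 := by omega
    have := he i
    rw [h0, zero_mul] at this
    omega
  have hNK : (N : K) ≠ 0 := by
    rw [hN]
    push_cast
    exact mul_ne_zero (mul_ne_zero (by rw [hdd]; exact hd 0) (by rw [hdd]; exact hd 1))
      (by rw [hdd]; exact hd 2)
  obtain ⟨t, ht⟩ : ∃ t : Fin 3 → MvPolynomial σ K, ∀ i, t i = (Phi (fun _ => 1) (g i)).coeff (d i) :=
    ⟨_, fun _ => rfl⟩
  have hex : ∀ i, Phi (fun v => e (b v)) (g i) = Polynomial.expand _ (e i) (Phi (fun _ => 1) (g i)) :=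
    fun i => Phi_expand _ _ _ fun v hv' => by rw [hv i v hv']
  have hnat : ∀ i, (Phi (fun v => e (b v)) (g i)).natDegree = N := by
    intro i
    rw [hex, Polynomial.natDegree_expand, ← hdd, mul_comm, he]
  have hcoe : ∀ i, (Phi (fun v => e (b v)) (g i)).coeff N = t i := by
    intro i
    rw [hex, ht, ← he i, mul_comm (e i) (d i), Polynomial.coeff_expand_mul (he1 i)]
  have hthom : ∀ i, t i = MvPolynomial.homogeneousComponent (d i) (g i) := by
    intro i
    rw [ht, Phi_hom]
  have htv : ∀ i, ∀ v ∈ (t i).vars, v ∈ (g i).vars := by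
    intro i v hv'
    rw [hthom, MvPolynomial.mem_vars] at hv'
    obtain ⟨m, hm, hmv⟩ := hv'
    rw [MvPolynomial.mem_support_iff, MvPolynomial.coeff_homogeneousComponent] at hm
    rw [MvPolynomial.mem_vars]
    refine ⟨m, ?_, hmv⟩
    rw [MvPolynomial.mem_support_iff]
    intro h0
    rw [h0] at hm
    simp at hm
  obtain ⟨a, ha⟩ : ∃ a : Fin 3 → K, ∀ i, a i = MvPolynomial.eval w (t i) := ⟨_, fun _ => rfl⟩
  have ha0 : ∀ i, a i ≠ 0 := by
    intro i
    rw [ha, ht, hdd]
    exact hw i
  have hchi : ∀ i, chi b (fun v => e (b v)) w (t i) =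
      MvPolynomial.C (a i) * MvPolynomial.X i ^ N := by
    intro i
    rw [chi_top b (fun v => e (b v)) w i (e i) (d i) (t i)
      (by rw [hthom]; exact MvPolynomial.homogeneousComponent_isHomogeneous _ _)
      (fun v hv' => by
        have h1 := hv i v (htv i v hv')
        exact ⟨h1, by rw [h1]⟩), ← ha, he]
  have hsum : (Phi (fun v => e (b v)) (g 0 + g 1 + g 2)).coeff N = t 0 + t 1 + t 2 := by
    rw [map_add, map_add, Polynomial.coeff_add, Polynomial.coeff_add, hcoe, hcoe, hcoe]
  have hirr : Irreducible (chi b (fun v => e (b v)) w (t 0 + t 1 + t 2)) := by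
    rw [map_add, map_add, hchi, hchi, hchi]
    exact fermat _ _ _ (ha0 0) (ha0 1) (ha0 2) N hN1 hNK
  have ht0 : t 0 + t 1 + t 2 ≠ 0 := by
    intro h
    rw [h, map_zero] at hirr
    exact hirr.ne_zero rfl
  have hFN : (Phi (fun v => e (b v)) (g 0 + g 1 + g 2)).natDegree = N := by
    refine le_antisymm ?_ ?_
    · rw [map_add, map_add]
      refine (Polynomial.natDegree_add_le _ _).trans (max_le ((Polynomial.natDegree_add_le _ _).trans
        (max_le ?_ ?_)) ?_)
      · exact (hnat 0).le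
      · exact (hnat 1).le
      · exact (hnat 2).le
    · refine Polynomial.le_natDegree_of_ne_zero ?_
      rw [hsum]
      exact ht0
  have hlc : (Phi (fun v => e (b v)) (g 0 + g 1 + g 2)).leadingCoeff = t 0 + t 1 + t 2 := by
    unfold Polynomial.leadingCoeff
    rw [hFN, hsum]
  have key : ∀ A : MvPolynomial σ K, A ≠ 0 →
      IsUnit (chi b (fun v => e (b v)) w (Phi (fun v => e (b v)) A).leadingCoeff) → IsUnit A := by
    intro A hA hu
    by_cases h0 : (Phi (fun v => e (b v)) A).natDegree = 0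
    · have h1 := Phi_const _ (fun v => he1 (b v)) A h0
      have h2 : MvPolynomial.constantCoeff A ≠ 0 := by
        intro h
        rw [h, map_zero] at h1
        exact hA h1
      rw [h1]
      exact (isUnit_iff_ne_zero.mpr h2).map MvPolynomial.C
    · exfalso
      have h1 := Phi_coeff (fun v => e (b v)) A _ h0
      have h2 := chi_const b (fun v => e (b v)) (fun v => he1 (b v)) w
        (Phi (fun v => e (b v)) A).leadingCoeff
      have h3 : MvPolynomial.constantCoeff (Phi (fun v => e (b v)) A).leadingCoeff = 0 := h1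
      rw [h3] at h2
      exact (hu.map MvPolynomial.constantCoeff).ne_zero h2
  refine ⟨fun hu => ?_, fun U V hUV => ?_⟩
  · have h1 := Polynomial.natDegree_eq_zero_of_isUnit (hu.map (Phi (fun v => e (b v))))
    rw [hFN] at h1
    omega
  · have hF0 : g 0 + g 1 + g 2 ≠ 0 := by
      intro h
      rw [h, map_zero, Polynomial.natDegree_zero] at hFN
      omega
    rw [hUV] at hF0
    have h1 : t 0 + t 1 + t 2 = (Phi (fun v => e (b v)) U).leadingCoeff *
        (Phi (fun v => e (b v)) V).leadingCoeff := by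
      rw [← hlc, hUV, map_mul, Polynomial.leadingCoeff_mul]
    rw [h1, map_mul] at hirr
    rcases hirr.isUnit_or_isUnit rfl with h2 | h2
    · exact Or.inl (key U (left_ne_zero_of_mul hF0) h2)
    · exact Or.inr (key V (right_ne_zero_of_mul hF0) h2)

end psi

end Pool.Agent.X145.S3
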