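import Pool.Agent.X145.S3.Wt

/-!
Elimination for pencils `V + r U`.
-/

set_option autoImplicit false
set_option linter.unusedSectionVars false

namespace Pool.Agent.X145.S3

open Finset Polynomial
open Pool.Agent.Y837.SV (rp rp_eval rp_int rp_degree)

/-- a primitive polynomial for an irreducible polynomial over the field of fractions -/
theorem prim_of {R K : Type} [CommRing R] [IsDomain R] [UniqueFactorizationMonoid R] [Field K]
    [Algebra R K] [IsFractionRing R K] (z : K[X]) (hz : Irreducible z) :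
    ∃ π : R[X], 0 < π.natDegree ∧ ∀ Φ : R[X], z ∣ Φ.map (algebraMap R K) → π ∣ Φ := by
  classical
  let _ : NormalizedGCDMonoid R := Classical.choice inferInstance
  have hinj : Function.Injective (algebraMap R K) := IsFractionRing.injective R K
  have hz0 : z ≠ 0 := hz.ne_zero
  obtain ⟨b, hb, hg1⟩ := IsLocalization.integerNormalization_spec (nonZeroDivisors R) z
  obtain ⟨g1, hg1'⟩ : ∃ g1, g1 = IsLocalization.integerNormalization (nonZeroDivisors R) z := ⟨_, rfl⟩
  rw [← hg1'] at hg1
  have hb0 : algebraMap R K b ≠ 0 := by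
    rw [map_ne_zero_iff _ hinj]
    exact nonZeroDivisors.ne_zero hb
  have hg1b : g1.map (algebraMap R K) = C (algebraMap R K b) * z := by
    rw [hg1, Algebra.smul_def, Polynomial.algebraMap_apply]
  have hg10 : g1 ≠ 0 := by
    rintro rfl
    rw [Polynomial.map_zero] at hg1b
    exact (mul_ne_zero (C_ne_zero.2 hb0) hz0) hg1b.symm
  have hct : algebraMap R K g1.content ≠ 0 := by
    rw [map_ne_zero_iff _ hinj, Ne, content_eq_zero_iff]
    exact hg10
  have hprim : g1.map (algebraMap R K) = C (algebraMap R K g1.content) * g1.primPart.map (algebraMap R K) := by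
    conv_lhs => rw [g1.eq_C_content_mul_primPart]
    rw [Polynomial.map_mul, map_C]
  have hassoc : g1.primPart.map (algebraMap R K) =
      C ((algebraMap R K g1.content)⁻¹ * algebraMap R K b) * z := by
    have h1 : C (algebraMap R K g1.content) * g1.primPart.map (algebraMap R K) =
        C (algebraMap R K g1.content) * (C ((algebraMap R K g1.content)⁻¹ * algebraMap R K b) * z) := by
      rw [← hprim, hg1b, ← mul_assoc, ← C_mul, mul_inv_cancel_left₀ hct]
    exact mul_left_cancel₀ (C_ne_zero.2 hct) h1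
  have hu : IsUnit (C ((algebraMap R K g1.content)⁻¹ * algebraMap R K b) : K[X]) :=
    isUnit_C.2 (isUnit_iff_ne_zero.2 (mul_ne_zero (inv_ne_zero hct) hb0))
  refine ⟨g1.primPart, ?_, fun Φ hΦ => ?_⟩
  · rw [natDegree_primPart]
    have h2 : (g1.map (algebraMap R K)).natDegree = g1.natDegree := natDegree_map_eq_of_injective hinj _
    rw [hg1b, natDegree_C_mul hb0] at h2
    rw [← h2]
    exact hz.natDegree_pos
  · apply g1.isPrimitive_primPart.dvd_of_fraction_map_dvd_fraction_map (K := K)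
    rw [hassoc]
    exact hu.mul_left_dvd.2 hΦ

/-- relatively prime polynomials are coprime on the generic line -/
theorem line_coprime {n : ℕ} (v : Fin n) (U V : MvPolynomial (Fin n) ℤ) (hU : U ≠ 0)
    (h : IsRelPrime U V) {L : Type} [Field L] [Algebra (MvPolynomial (Fin n) ℤ) L]
    [IsFractionRing (MvPolynomial (Fin n) ℤ) L] :
    IsCoprime ((ln v U).map (algebraMap (MvPolynomial (Fin n) ℤ) L))
      ((ln v V).map (algebraMap (MvPolynomial (Fin n) ℤ) L)) := by
  have hinj : Function.Injective (algebraMap (MvPolynomial (Fin n) ℤ) L) := IsFractionRing.injective _ L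
  apply isCoprime_of_irreducible_dvd
  · rintro ⟨h0, -⟩
    rw [Polynomial.map_eq_zero_iff hinj] at h0
    exact ln_inj v U hU h0
  · intro z hz hzU hzV
    obtain ⟨π, hπ, hdvd⟩ := prim_of (R := MvPolynomial (Fin n) ℤ) z hz
    have h1 := hdvd _ hzU
    have h2 := hdvd _ hzV
    have hπ0 : π ≠ 0 := by
      rintro rfl
      rw [natDegree_zero] at hπ
      exact lt_irrefl _ hπ
    obtain ⟨m, hm⟩ : ∃ m : ℤ, th v m π.leadingCoeff ≠ 0 := by
      by_contra hcon
      push Not at hcon
      have h1 : ln v π.leadingCoeff = 0 := by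
        apply Polynomial.eq_zero_of_infinite_isRoot
        refine Set.infinite_of_injective_forall_mem
          (f := fun m : ℤ => (MvPolynomial.C m : MvPolynomial (Fin n) ℤ))
          (MvPolynomial.C_injective _ _) fun m => ?_
        exact hcon m
      exact ln_inj v _ (leadingCoeff_ne_zero.mpr hπ0) h1
    have hfix : ∀ Q : MvPolynomial (Fin n) ℤ, (ln v Q).map (th v m) = ln v Q := by
      intro Q
      ext1 k
      rw [coeff_map]
      exact th_free v m _ (ln_coeff_free v Q k)
    obtain ⟨Q, hQ⟩ : ∃ Q, Q = (π.map (th v m)).eval (MvPolynomial.X v) := ⟨_, rfl⟩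
    have hdQ : ∀ W : MvPolynomial (Fin n) ℤ, π ∣ ln v W → Q ∣ W := by
      intro W hW
      have h3 := Polynomial.map_dvd (th v m) hW
      rw [hfix] at h3
      have h4 := map_dvd (evalRingHom (MvPolynomial.X v : MvPolynomial (Fin n) ℤ)) h3
      have h5 : (evalRingHom (MvPolynomial.X v : MvPolynomial (Fin n) ℤ)) (ln v W) = W := ln_one v W
      rw [h5] at h4
      rw [hQ]
      exact h4
    have hQu := h (hdQ U h1) (hdQ V h2)
    have h6 : ln v Q = π.map (th v m) := by
      rw [hQ]
      exact ln_eval_free v _ (fun k => by rw [coeff_map]; exact th_vars v m _)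
    have h7 := natDegree_eq_zero_of_isUnit (hQu.map (ln v))
    rw [h6, natDegree_map_of_leadingCoeff_ne_zero _ hm] at h7
    omega

/-- all but finitely many members of a pencil are coprime to a given polynomial -/
theorem bad_finite {L : Type} [Field L] [CharZero L] (U V P : L[X]) (hUV : IsCoprime U V) (hP : P ≠ 0) :
    {t : ℤ | ¬ IsCoprime (V + C ((t : ℤ) : L) * U) P}.Finite := by
  classical
  have h1 : ∀ t : ℤ, ∃ z : L[X], ¬ IsCoprime (V + C ((t : ℤ) : L) * U) P →
      z ∈ (UniqueFactorizationMonoid.normalizedFactors P).toFinset ∧ Irreducible z ∧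
        z ∣ V + C ((t : ℤ) : L) * U := by
    intro t
    by_cases ht : IsCoprime (V + C ((t : ℤ) : L) * U) P
    · exact ⟨0, fun h => absurd ht h⟩
    · by_contra hcon
      push Not at hcon
      apply ht
      apply isCoprime_of_irreducible_dvd
      · rintro ⟨-, h⟩
        exact hP h
      · intro z hz hz1 hz2
        obtain ⟨q, hq, hqz⟩ := UniqueFactorizationMonoid.exists_mem_normalizedFactors_of_dvd hP hz hz2
        have h2 := (hcon q).2 (Multiset.mem_toFinset.mpr hq)
          (UniqueFactorizationMonoid.irreducible_of_normalized_factor q hq)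
        exact h2 (hqz.symm.dvd.trans hz1)
  choose z hz using h1
  refine Set.Finite.of_injOn (f := z) (t := ((UniqueFactorizationMonoid.normalizedFactors P).toFinset :
    Set L[X])) ?_ ?_ (Finset.finite_toSet _)
  · intro t ht
    exact (hz t ht).1
  · intro t ht t' ht' htt
    by_contra hne
    obtain ⟨-, h2, h3⟩ := hz t ht
    obtain ⟨-, -, h5⟩ := hz t' ht'
    rw [← htt] at h5
    have h6 : z t ∣ C ((t : ℤ) : L) * U - C ((t' : ℤ) : L) * U := by
      have := dvd_sub h3 h5
      rwa [add_sub_add_left_eq_sub] at this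
    rw [← sub_mul, ← C_sub] at h6
    have h7 : ((t : ℤ) : L) - ((t' : ℤ) : L) ≠ 0 := by
      rw [sub_ne_zero]
      exact_mod_cast hne
    have h8 : z t ∣ U := by
      rcases h2.prime.dvd_or_dvd h6 with h9 | h9
      · exact absurd (isUnit_of_dvd_unit h9 (isUnit_C.mpr (isUnit_iff_ne_zero.mpr h7))) h2.not_isUnit
      · exact h9
    have h9 : z t ∣ V := by
      have := dvd_sub h3 (h8.mul_left (C ((t : ℤ) : L)))
      rwa [add_sub_cancel_right] at this
    exact h2.not_isUnit (hUV.isUnit_of_dvd' h8 h9)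

/-- the specialisation `T = r` modulo `p` -/
noncomputable def Th {n : ℕ} (p : ℕ) (r : ZMod p) :
    (MvPolynomial (Fin n) ℤ)[X] →+* MvPolynomial (Fin n) (ZMod p) :=
  eval₂RingHom (MvPolynomial.map (Int.castRingHom (ZMod p))) (MvPolynomial.C r)

theorem Th_C {n : ℕ} (p : ℕ) [Fact p.Prime] (r : ZMod p) (a : MvPolynomial (Fin n) ℤ) :
    Th p r (C a) = rp p a := by
  unfold Th
  rw [coe_eval₂RingHom, eval₂_C]
  rfl

theorem Th_X {n : ℕ} (p : ℕ) (r : ZMod p) :
    Th p r (X : (MvPolynomial (Fin n) ℤ)[X]) = MvPolynomial.C r := by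
  unfold Th
  rw [coe_eval₂RingHom, eval₂_X]

/-- specialisations are not zero, up to the zeros of a fixed polynomial -/
theorem theta {n : ℕ} (ρ : (MvPolynomial (Fin n) ℤ)[X]) (hρ : ρ ≠ 0) :
    ∃ (E : ℤ[X]) (D : ℕ), E ≠ 0 ∧ ∀ p : ℕ, ∀ _ : Fact p.Prime, ∀ r : ZMod p, ev p E r ≠ 0 →
      Th p r ρ ≠ 0 ∧ (Th p r ρ).totalDegree ≤ D := by
  classical
  obtain ⟨m, hm⟩ : ∃ m, ρ.coeff m ≠ 0 := by
    by_contra hcon
    push Not at hcon
    exact hρ (Polynomial.ext fun m => by rw [hcon m, coeff_zero])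
  obtain ⟨e, he⟩ := MvPolynomial.ne_zero_iff.mp hm
  obtain ⟨E, hE⟩ : ∃ E : ℤ[X], E = ∑ k ∈ range (ρ.natDegree + 1),
      C ((ρ.coeff k).coeff e) * X ^ k := ⟨_, rfl⟩
  have hEc : ∀ k, E.coeff k = (ρ.coeff k).coeff e := by
    intro k
    rw [hE, finsetSum_coeff]
    simp only [coeff_C_mul, coeff_X_pow, mul_ite, mul_one, mul_zero]
    rw [Finset.sum_ite_eq]
    split_ifs with h1
    · rfl
    · rw [mem_range] at h1
      rw [coeff_eq_zero_of_natDegree_lt (by omega), MvPolynomial.coeff_zero]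
  refine ⟨E, ∑ k ∈ range (ρ.natDegree + 1), (ρ.coeff k).totalDegree, ?_, ?_⟩
  · intro h0
    apply he
    rw [← hEc, h0, coeff_zero]
  intro p hp r hr
  have hγ : Th p r ρ = ∑ k ∈ range (ρ.natDegree + 1), rp p (ρ.coeff k) * MvPolynomial.C (r ^ k) := by
    unfold Th
    rw [coe_eval₂RingHom, eval₂_eq_sum_range]
    refine Finset.sum_congr rfl fun k _ => ?_
    rw [map_pow]
    rfl
  have hγe : (Th p r ρ).coeff e = ev p E r := by
    rw [hγ, hE, MvPolynomial.coeff_sum]
    unfold ev
    rw [eval₂_finsetSum]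
    refine Finset.sum_congr rfl fun k _ => ?_
    rw [mul_comm, MvPolynomial.coeff_C_mul, eval₂_mul, eval₂_C, eval₂_X_pow, rp,
      MvPolynomial.coeff_map, mul_comm]
  constructor
  · intro h0
    apply hr
    rw [← hγe, h0, MvPolynomial.coeff_zero]
  · rw [hγ]
    refine MvPolynomial.totalDegree_finsetSum_le fun k hk => ?_
    refine (MvPolynomial.totalDegree_mul _ _).trans ?_
    rw [MvPolynomial.totalDegree_C, add_zero]
    refine (rp_degree _).trans ?_
    exact Finset.single_le_sum (f := fun k => (ρ.coeff k).totalDegree) (fun _ _ => Nat.zero_le _) hk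

/-- **Elimination for pencils** -/
theorem pencil {n : ℕ} (v : Fin n) (U V P : MvPolynomial (Fin n) ℤ) (hU : U ≠ 0)
    (hUV : IsRelPrime U V) (hP : P ≠ 0) :
    ∃ (E : ℤ[X]) (D : ℕ), E ≠ 0 ∧ ∀ p : ℕ, ∀ _ : Fact p.Prime, ∀ r : ZMod p, ev p E r ≠ 0 →
      ∃ γ : MvPolynomial (Fin n) (ZMod p), γ ≠ 0 ∧ γ.totalDegree ≤ D ∧
        ∃ k h : (MvPolynomial (Fin n) (ZMod p))[X],
          C γ = (ln v (rp p V) + C (MvPolynomial.C r) * ln v (rp p U)) * k + ln v (rp p P) * h := by
  classical
  obtain ⟨f, hf⟩ : ∃ f : ((MvPolynomial (Fin n) ℤ)[X])[X], f = (ln v V).map C + C X * (ln v U).map C :=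
    ⟨_, rfl⟩
  obtain ⟨P', hP'⟩ : ∃ P' : ((MvPolynomial (Fin n) ℤ)[X])[X], P' = (ln v P).map C := ⟨_, rfl⟩
  have hmapC : ∀ (p : ℕ) [Fact p.Prime] (r : ZMod p) (Q : MvPolynomial (Fin n) ℤ),
      ((ln v Q).map C).map (Th p r) = ln v (rp p Q) := by
    intro p _ r Q
    rw [Polynomial.map_map]
    have h1 : (Th (n := n) p r).comp C = MvPolynomial.map (Int.castRingHom (ZMod p)) :=
      RingHom.ext fun a => Th_C p r a
    rw [h1, ← ln_map]
    rfl
  have hPn : P'.natDegree = (ln v P).natDegree := by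
    rw [hP']
    exact natDegree_map_eq_of_injective C_injective _
  -- it is enough to find an element of the ideal
  suffices hρ : ∃ ρ : (MvPolynomial (Fin n) ℤ)[X], ρ ≠ 0 ∧ ∃ k h, f * k + P' * h = C ρ by
    obtain ⟨ρ, hρ0, k, h, hkh⟩ := hρ
    obtain ⟨E, D, hE0, hED⟩ := theta ρ hρ0
    refine ⟨E, D, hE0, fun p hp r hr => ?_⟩
    obtain ⟨h1, h2⟩ := hED p hp r hr
    refine ⟨Th p r ρ, h1, h2, k.map (Th p r), h.map (Th p r), ?_⟩
    have h3 := congrArg (Polynomial.map (Th p r)) hkh
    rw [Polynomial.map_add, Polynomial.map_mul, Polynomial.map_mul, map_C, hf, hP', Polynomial.map_add,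
      Polynomial.map_mul, map_C, Th_X, hmapC, hmapC, hmapC] at h3
    exact h3.symm
  by_cases hn : (ln v P).natDegree = 0
  · refine ⟨C ((ln v P).coeff 0), ?_, 0, 1, ?_⟩
    · intro h0
      rw [C_eq_zero] at h0
      apply ln_inj v P hP
      rw [eq_C_of_natDegree_eq_zero hn, h0, C_0]
    · rw [mul_zero, zero_add, mul_one, hP']
      conv_lhs => rw [eq_C_of_natDegree_eq_zero hn]
      rw [map_C]
  · obtain ⟨k, h, -, -, hkh⟩ := exists_mul_add_mul_eq_C_resultant (m := f.natDegree) (n := P'.natDegree)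
      f P' le_rfl le_rfl (Or.inr (by rw [hPn]; exact hn))
    refine ⟨_, ?_, k, h, hkh⟩
    -- the resultant is not zero
    intro hres
    obtain ⟨L, i1, i2, i3⟩ : ∃ (L : Type) (_ : Field L) (_ : Algebra (MvPolynomial (Fin n) ℤ) L),
        IsFractionRing (MvPolynomial (Fin n) ℤ) L :=
      ⟨FractionRing (MvPolynomial (Fin n) ℤ), inferInstance, inferInstance, inferInstance⟩
    have hinj : Function.Injective (algebraMap (MvPolynomial (Fin n) ℤ) L) := IsFractionRing.injective _ L
    have hchar : CharZero L := charZero_of_injective_algebraMap hinj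
    have hPL : (ln v P).map (algebraMap (MvPolynomial (Fin n) ℤ) L) ≠ 0 :=
      (Polynomial.map_ne_zero_iff hinj).2 (ln_inj v P hP)
    have hfin := bad_finite ((ln v U).map (algebraMap (MvPolynomial (Fin n) ℤ) L))
      ((ln v V).map (algebraMap (MvPolynomial (Fin n) ℤ) L)) _ (line_coprime v U V hU hUV) hPL
    have hf0 : f ≠ 0 := by
      intro h0
      have h1 : (f.coeff (ln v U).natDegree).coeff 1 = (ln v U).leadingCoeff := by
        rw [hf, coeff_add, coeff_map, coeff_C_mul, coeff_map, coeff_add, coeff_C, if_neg one_ne_zero,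
          zero_add, coeff_X_mul, coeff_C_zero]
        rfl
      rw [h0, coeff_zero, coeff_zero] at h1
      exact ln_inj v U hU (leadingCoeff_eq_zero.mp h1.symm)
    obtain ⟨Λ, hΛ⟩ : ∃ Λ, Λ = f.leadingCoeff := ⟨_, rfl⟩
    have hΛ0 : Λ ≠ 0 := by rw [hΛ]; exact leadingCoeff_ne_zero.mpr hf0
    have hfin2 : {t : ℤ | Λ.eval (MvPolynomial.C t) = 0}.Finite := by
      refine Set.Finite.of_injOn (f := fun t : ℤ => (MvPolynomial.C t : MvPolynomial (Fin n) ℤ))
        (t := (Λ.roots.toFinset : Set (MvPolynomial (Fin n) ℤ))) ?_ ?_ (Finset.finite_toSet _)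
      · intro t ht
        refine Finset.mem_coe.mpr ?_
        rw [Multiset.mem_toFinset, mem_roots hΛ0]
        exact ht
      · exact (MvPolynomial.C_injective _ _).injOn
    obtain ⟨t, ht⟩ : ∃ t : ℤ, t ∉ {t : ℤ | ¬ IsCoprime
        ((ln v V).map (algebraMap (MvPolynomial (Fin n) ℤ) L) + C ((t : ℤ) : L) *
          (ln v U).map (algebraMap (MvPolynomial (Fin n) ℤ) L))
        ((ln v P).map (algebraMap (MvPolynomial (Fin n) ℤ) L))} ∪
        {t : ℤ | Λ.eval (MvPolynomial.C t) = 0} := (hfin.union hfin2).exists_notMem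
    simp only [Set.mem_union, not_or, Set.mem_setOf_eq, not_not] at ht
    obtain ⟨ht1, ht2⟩ := ht
    obtain ⟨φ, hφ⟩ : ∃ φ : (MvPolynomial (Fin n) ℤ)[X] →+* L,
      φ = (algebraMap (MvPolynomial (Fin n) ℤ) L).comp (evalRingHom (MvPolynomial.C t)) := ⟨_, rfl⟩
    have hφC : φ.comp C = algebraMap (MvPolynomial (Fin n) ℤ) L := by
      rw [hφ]
      refine RingHom.ext fun a => ?_
      simp
    have hφX : φ X = ((t : ℤ) : L) := by
      rw [hφ, RingHom.comp_apply, coe_evalRingHom, eval_X]
      simp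
    have hfφ : f.map φ = (ln v V).map (algebraMap (MvPolynomial (Fin n) ℤ) L) + C ((t : ℤ) : L) *
          (ln v U).map (algebraMap (MvPolynomial (Fin n) ℤ) L) := by
      rw [hf, Polynomial.map_add, Polynomial.map_mul, map_C, Polynomial.map_map, Polynomial.map_map,
        hφC, hφX]
    have hPφ : P'.map φ = (ln v P).map (algebraMap (MvPolynomial (Fin n) ℤ) L) := by
      rw [hP', Polynomial.map_map, hφC]
    have hfd : (f.map φ).natDegree = f.natDegree := by
      apply natDegree_map_of_leadingCoeff_ne_zero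
      rw [← hΛ, hφ, RingHom.comp_apply, coe_evalRingHom]
      exact (map_ne_zero_iff _ hinj).2 ht2
    have hPd : (P'.map φ).natDegree = P'.natDegree := by
      rw [hPφ, hPn]
      exact natDegree_map_eq_of_injective hinj _
    have h1 := resultant_map_map f P' f.natDegree P'.natDegree φ
    rw [hres, map_zero] at h1
    have h2 : resultant (f.map φ) (P'.map φ) = 0 := by
      rw [← h1, hfd, hPd]
    rw [resultant_eq_zero_iff] at h2
    apply h2.2
    rw [hfφ, hPφ]
    exact ht1

end Pool.Agent.X145.S3
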