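import Pool.Agent.X145.S3.Pencil
import Pool.Agent.X145.S3.BinCount

/-!
Simple prime factors and character sums for pencils `g (V + r U)`.
-/

set_option autoImplicit false
set_option linter.unusedSectionVars false

namespace Pool.Agent.X145.S3

open Finset Polynomial
open Pool.Agent.Y837.SV (rp rp_eval rp_int rp_degree)
open Pool.Agent.Y837.SW (NP wele)

/-- character sums by lines -/
theorem line_sum {n p : ℕ} [hp : Fact p.Prime] (v : Fin n) (χ : MulChar (ZMod p) ℂ)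
    (H Γ : MvPolynomial (Fin n) (ZMod p)) (hΓ : Γ ≠ 0) (D : ℕ) (hΓd : Γ.totalDegree ≤ D) (K : ℝ)
    (hK : 0 ≤ K) (h : ∀ x : Fin n → ZMod p, MvPolynomial.eval x Γ ≠ 0 →
      ‖∑ s : ZMod p, χ ((lnx v x H).eval s)‖ ≤ K * Real.sqrt p) :
    ‖∑ x : Fin n → ZMod p, χ (MvPolynomial.eval x H)‖ * Real.sqrt p ≤ (K + D) * (p : ℝ) ^ n := by
  classical
  have hpp := hp.out
  have hp0 : (0 : ℝ) < p := by exact_mod_cast hpp.pos
  have hs0 : 0 < Real.sqrt p := Real.sqrt_pos.mpr hp0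
  have hs1 : 1 ≤ Real.sqrt p := by
    rw [Real.one_le_sqrt]
    exact_mod_cast hpp.one_lt.le
  have hsq : Real.sqrt p * Real.sqrt p = p := Real.mul_self_sqrt hp0.le
  have hbad := Pool.Agent.X145.ML.sz Γ hΓ
  have hsum : (p : ℂ) * ∑ x : Fin n → ZMod p, χ (MvPolynomial.eval x H) =
      ∑ x : Fin n → ZMod p, ∑ s : ZMod p, χ ((lnx v x H).eval s) := by
    rw [← sum_update v]
    refine Finset.sum_congr rfl fun x _ => Finset.sum_congr rfl fun s _ => ?_
    rw [lnx_eval]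
  have hline : ∀ x, ‖∑ s : ZMod p, χ ((lnx v x H).eval s)‖ ≤ K * Real.sqrt p +
      (if MvPolynomial.eval x Γ = 0 then (p : ℝ) else 0) := by
    intro x
    by_cases hx : MvPolynomial.eval x Γ = 0
    · rw [if_pos hx]
      have h1 : ‖∑ s : ZMod p, χ ((lnx v x H).eval s)‖ ≤ p := by
        refine (norm_sum_le _ _).trans ?_
        have h2 : ∀ s ∈ (univ : Finset (ZMod p)), ‖χ ((lnx v x H).eval s)‖ ≤ 1 := fun s _ =>
          Pool.Agent.H435R3.Weil.WELE.mc_norm_le_one χ _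
        refine (Finset.sum_le_sum h2).trans ?_
        simp [ZMod.card]
      have h2 : 0 ≤ K * Real.sqrt p := by positivity
      linarith
    · rw [if_neg hx, add_zero]
      exact h x hx
  obtain ⟨S, hS⟩ : ∃ S : ℂ, S = ∑ x : Fin n → ZMod p, χ (MvPolynomial.eval x H) := ⟨_, rfl⟩
  rw [← hS] at hsum ⊢
  obtain ⟨W, hW⟩ : ∃ W : ℕ, W = (univ.filter (fun x : Fin n → ZMod p => MvPolynomial.eval x Γ = 0)).card :=
    ⟨_, rfl⟩
  have hcard : (Fintype.card (Fin n → ZMod p) : ℝ) = (p : ℝ) ^ n := by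
    rw [Fintype.card_fun, ZMod.card, Fintype.card_fin]
    push_cast
    rfl
  have hWb : (p : ℝ) * W ≤ D * (p : ℝ) ^ n := by
    have h1 : p * W ≤ D * Fintype.card (Fin n → ZMod p) := by
      rw [hW]
      exact hbad.trans (Nat.mul_le_mul_right _ hΓd)
    have h2 : (p : ℝ) * W ≤ D * (Fintype.card (Fin n → ZMod p) : ℝ) := by
      exact_mod_cast h1
    rw [hcard] at h2
    exact h2
  have htot : (p : ℝ) * ‖S‖ ≤ K * Real.sqrt p * (p : ℝ) ^ n + D * (p : ℝ) ^ n := by
    have h1 : (p : ℝ) * ‖S‖ = ‖(p : ℂ) * S‖ := by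
      rw [norm_mul, Complex.norm_natCast]
    rw [h1, hsum]
    refine (norm_sum_le _ _).trans ((Finset.sum_le_sum fun x _ => hline x).trans ?_)
    rw [Finset.sum_add_distrib, Finset.sum_const, card_univ, nsmul_eq_mul, hcard, ← Finset.sum_filter,
      Finset.sum_const, nsmul_eq_mul, ← hW]
    have h2 : (W : ℝ) * p = p * W := mul_comm _ _
    rw [h2]
    have h3 : (p : ℝ) ^ n * (K * Real.sqrt p) = K * Real.sqrt p * (p : ℝ) ^ n := by ring
    rw [h3]
    linarith
  have hDn : (0 : ℝ) ≤ (D : ℝ) * (p : ℝ) ^ n := by positivity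
  have hfin : Real.sqrt p * (‖S‖ * Real.sqrt p) ≤ Real.sqrt p * ((K + D) * (p : ℝ) ^ n) := by
    calc Real.sqrt p * (‖S‖ * Real.sqrt p) = (Real.sqrt p * Real.sqrt p) * ‖S‖ := by ring
      _ = p * ‖S‖ := by rw [hsq]
      _ ≤ K * Real.sqrt p * (p : ℝ) ^ n + D * (p : ℝ) ^ n := htot
      _ ≤ K * Real.sqrt p * (p : ℝ) ^ n + Real.sqrt p * (D * (p : ℝ) ^ n) := by
          have : 1 * ((D : ℝ) * (p : ℝ) ^ n) ≤ Real.sqrt p * ((D : ℝ) * (p : ℝ) ^ n) :=
            mul_le_mul_of_nonneg_right hs1 hDn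
          linarith
      _ = _ := by ring
  exact le_of_mul_le_mul_left hfin hs0

/-- **nonconstant pencils** -/
theorem pencil_data {n : ℕ} (v : Fin n) (g U V : MvPolynomial (Fin n) ℤ) (hg : g ≠ 0) (hU : U ≠ 0)
    (hUV : IsRelPrime U V)
    (hW : V * MvPolynomial.pderiv v U - U * MvPolynomial.pderiv v V ≠ 0) :
    ∃ E : ℤ[X], E ≠ 0 ∧ ∃ K : ℝ, 0 ≤ K ∧ ∀ p : ℕ, ∀ _ : Fact p.Prime, 2 < p → ∀ r : ZMod p,
      ev p E r ≠ 0 →
      (∃ q : MvPolynomial (Fin n) (ZMod p), Prime q ∧ q ∣ rp p V + MvPolynomial.C r * rp p U ∧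
        ¬ q ^ 2 ∣ rp p g * (rp p V + MvPolynomial.C r * rp p U)) ∧
      ∀ χ : MulChar (ZMod p) ℂ, χ ≠ 1 → χ ^ 2 = 1 →
        ‖∑ x : Fin n → ZMod p, χ (MvPolynomial.eval x
          (rp p g * (rp p V + MvPolynomial.C r * rp p U)))‖ * Real.sqrt p ≤ K * (p : ℝ) ^ n := by
  classical
  obtain ⟨W, hWd⟩ : ∃ W, W = V * MvPolynomial.pderiv v U - U * MvPolynomial.pderiv v V := ⟨_, rfl⟩
  rw [← hWd] at hW
  obtain ⟨E₁, D₁, hE₁, hb⟩ := pencil v U V (g * W) hU hUV (mul_ne_zero hg hW)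
  obtain ⟨f, hf⟩ : ∃ f : ((MvPolynomial (Fin n) ℤ)[X])[X], f = (ln v V).map C + C X * (ln v U).map C :=
    ⟨_, rfl⟩
  have hfc : ∀ m, f.coeff m = C ((ln v V).coeff m) + X * C ((ln v U).coeff m) := by
    intro m
    rw [hf, coeff_add, coeff_map, coeff_C_mul, coeff_map]
  have hd0 : 0 < f.natDegree := by
    rcases Nat.eq_zero_or_pos f.natDegree with h0 | h0
    · exfalso
      have h1 : ∀ m, 0 < m → (ln v V).coeff m = 0 ∧ (ln v U).coeff m = 0 := by
        intro m hm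
        have h2 := hfc m
        rw [coeff_eq_zero_of_natDegree_lt (by omega)] at h2
        have h3 := congrArg (fun z => coeff z 0) h2
        have h4 := congrArg (fun z => coeff z 1) h2
        simp only [coeff_zero, coeff_add, coeff_C_zero, coeff_X_mul_zero, add_zero] at h3
        simp only [coeff_zero, coeff_add, coeff_C_succ, zero_add, coeff_X_mul, coeff_C_zero] at h4
        exact ⟨h3.symm, h4.symm⟩
      have h2 : ∀ Q : MvPolynomial (Fin n) ℤ, (∀ m, 0 < m → (ln v Q).coeff m = 0) →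
          MvPolynomial.pderiv v Q = 0 := by
        intro Q hQ
        by_contra hne
        apply ln_inj v _ hne
        rw [ln_pderiv]
        ext1 m
        rw [coeff_derivative, hQ (m + 1) (by omega), zero_mul, coeff_zero]
      apply hW
      rw [hWd, h2 U (fun m hm => (h1 m hm).2), h2 V (fun m hm => (h1 m hm).1), mul_zero, mul_zero,
        sub_zero]
    · exact h0
  have hf0 : f ≠ 0 := by
    rintro rfl
    rw [natDegree_zero] at hd0
    exact lt_irrefl _ hd0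
  obtain ⟨Λ, hΛ⟩ : ∃ Λ, Λ = f.leadingCoeff := ⟨_, rfl⟩
  have hΛ0 : Λ ≠ 0 := by rw [hΛ]; exact leadingCoeff_ne_zero.mpr hf0
  obtain ⟨E₂, D₂, hE₂, hΛb⟩ := theta Λ hΛ0
  obtain ⟨d, hd⟩ : ∃ d, d = f.natDegree := ⟨_, rfl⟩
  obtain ⟨b, hbd⟩ : ∃ b, b = (ln v g).natDegree := ⟨_, rfl⟩
  obtain ⟨K, hK0, hK⟩ := wele 2 (d + b) le_rfl
  refine ⟨E₁ * E₂, mul_ne_zero hE₁ hE₂, K + (D₁ + D₂ : ℕ), by positivity, ?_⟩
  intro p hp hp2 r hr
  have hpp := hp.out
  rw [ev_mul] at hr
  have hr1 := left_ne_zero_of_mul hr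
  have hr2 := right_ne_zero_of_mul hr
  obtain ⟨γ, hγ0, hγD, k, h, hkh⟩ := hb p hp r hr1
  obtain ⟨hL0, hLD⟩ := hΛb p hp r hr2
  obtain ⟨Ψ, hΨ⟩ : ∃ Ψ, Ψ = rp p V + MvPolynomial.C r * rp p U := ⟨_, rfl⟩
  rw [← hΨ]
  have hmapC : ∀ Q : MvPolynomial (Fin n) ℤ, ((ln v Q).map C).map (Th p r) = ln v (rp p Q) := by
    intro Q
    rw [Polynomial.map_map]
    have h1 : (Th (n := n) p r).comp C = MvPolynomial.map (Int.castRingHom (ZMod p)) :=
      RingHom.ext fun a => Th_C p r a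
    rw [h1, ← ln_map]
    rfl
  have hlΨ : ln v Ψ = ln v (rp p V) + C (MvPolynomial.C r) * ln v (rp p U) := by
    rw [hΨ, map_add, map_mul, ln_C]
  have hfΨ : f.map (Th p r) = ln v Ψ := by
    rw [hlΨ, hf, Polynomial.map_add, Polynomial.map_mul, map_C, Th_X, hmapC, hmapC]
  have hΨd : (ln v Ψ).natDegree = d := by
    rw [← hfΨ, hd]
    apply natDegree_map_of_leadingCoeff_ne_zero
    rw [← hΛ]
    exact hL0
  rw [← hlΨ] at hkh
  -- the Wronskian
  have hWp : rp p (g * W) = rp p g * (Ψ * MvPolynomial.pderiv v (rp p U) -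
      rp p U * MvPolynomial.pderiv v Ψ) := by
    have h1 : MvPolynomial.pderiv v Ψ = MvPolynomial.pderiv v (rp p V) +
        MvPolynomial.C r * MvPolynomial.pderiv v (rp p U) := by
      rw [hΨ, map_add, MvPolynomial.pderiv_C_mul]
    have h2 : rp p (g * W) = rp p g * (rp p V * MvPolynomial.pderiv v (rp p U) -
        rp p U * MvPolynomial.pderiv v (rp p V)) := by
      rw [hWd]
      unfold rp
      rw [map_mul, map_sub, map_mul, map_mul, MvPolynomial.pderiv_map, MvPolynomial.pderiv_map]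
    rw [h2, h1, hΨ]
    ring
  constructor
  · obtain ⟨q, hq, hqΨ, hqd⟩ := exists_factor v Ψ (by rw [hΨd, hd]; exact hd0)
    refine ⟨q, hq, hqΨ, fun hq2 => ?_⟩
    have hnot : ¬ q ∣ rp p (g * W) := by
      intro hqW
      have h1 : ln v q ∣ C γ := by
        rw [hkh]
        exact dvd_add (Dvd.dvd.mul_right (map_dvd (ln v) hqΨ) _) (Dvd.dvd.mul_right (map_dvd (ln v) hqW) _)
      have h2 := natDegree_le_of_dvd h1 (C_ne_zero.mpr hγ0)
      rw [natDegree_C] at h2
      omega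
    apply hnot
    rw [hWp]
    by_cases hqg : q ∣ rp p g
    · exact Dvd.dvd.mul_right hqg _
    · obtain ⟨z, hz⟩ := hq.pow_dvd_of_dvd_mul_left 2 hqg hq2
      refine Dvd.dvd.mul_left (dvd_sub (Dvd.dvd.mul_right hqΨ _) (Dvd.dvd.mul_left ?_ _)) _
      rw [hz, Derivation.leibniz, Derivation.leibniz_pow]
      simp only [smul_eq_mul, nsmul_eq_mul]
      refine dvd_add ?_ ?_
      · exact Dvd.dvd.mul_right (dvd_pow_self _ (by norm_num)) _
      · refine Dvd.dvd.mul_left (Dvd.dvd.mul_left ?_ _) _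
        refine Dvd.dvd.mul_right ?_ _
        simp
  · intro χ hχ1 hχ2
    have hL : (γ * Th p r Λ) ≠ 0 := mul_ne_zero hγ0 hL0
    refine line_sum v χ _ (γ * Th p r Λ) hL (D₁ + D₂)
      ((MvPolynomial.totalDegree_mul _ _).trans (Nat.add_le_add hγD hLD)) K hK0 ?_
    intro x hx
    rw [map_mul] at hx
    have hx1 : MvPolynomial.eval x γ ≠ 0 := left_ne_zero_of_mul hx
    have hx2 : MvPolynomial.eval x (Th p r Λ) ≠ 0 := right_ne_zero_of_mul hx
    have h1 := congrArg (Polynomial.map (MvPolynomial.eval x)) hkh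
    rw [Polynomial.map_add, Polynomial.map_mul, Polynomial.map_mul, map_C, ← lnx_def, ← lnx_def] at h1
    have hlW : lnx v x (rp p (g * W)) = lnx v x (rp p g) * (lnx v x Ψ * derivative (lnx v x (rp p U)) -
        lnx v x (rp p U) * derivative (lnx v x Ψ)) := by
      have e : ∀ Q : MvPolynomial (Fin n) (ZMod p), lnx v x (MvPolynomial.pderiv v Q) =
          derivative (lnx v x Q) := by
        intro Q
        rw [lnx_def, ln_pderiv, ← derivative_map, lnx_def]
      rw [hWp, map_mul, map_sub, map_mul, map_mul, e, e]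
    have hcop : IsCoprime (lnx v x Ψ) (lnx v x (rp p g) *
        (lnx v x Ψ * derivative (lnx v x (rp p U)) - lnx v x (rp p U) * derivative (lnx v x Ψ))) := by
      refine ⟨C (MvPolynomial.eval x γ)⁻¹ * k.map (MvPolynomial.eval x),
        C (MvPolynomial.eval x γ)⁻¹ * h.map (MvPolynomial.eval x), ?_⟩
      have h2 : C (MvPolynomial.eval x γ)⁻¹ * C (MvPolynomial.eval x γ) = (1 : (ZMod p)[X]) := by
        rw [← C_mul, inv_mul_cancel₀ hx1, C_1]
      rw [hlW] at h1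
      rw [← h2, h1]
      ring
    have hcopg : IsCoprime (lnx v x Ψ) (lnx v x (rp p g)) := hcop.of_mul_right_left
    have hsep : (lnx v x Ψ).Separable := by
      have h2 := hcop.of_mul_right_right
      obtain ⟨a, ha⟩ : ∃ a, a = lnx v x Ψ := ⟨_, rfl⟩
      obtain ⟨u, hu⟩ : ∃ u, u = lnx v x (rp p U) := ⟨_, rfl⟩
      rw [← ha, ← hu] at h2
      rw [← ha]
      obtain ⟨y, z, hyz⟩ := h2
      refine ⟨y + z * derivative u, -(z * u), ?_⟩
      rw [← hyz]
      ring
    have hdeg : (lnx v x Ψ).natDegree = d := by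
      rw [lnx_def]
      apply le_antisymm
      · exact natDegree_map_le.trans hΨd.le
      · apply le_natDegree_of_ne_zero
        rw [coeff_map, ← hfΨ, coeff_map]
        rw [hΛ, leadingCoeff, ← hd] at hx2
        exact hx2
    have hdg : (lnx v x (rp p g)).natDegree ≤ b := by
      have hlng : ln v (rp p g) = (ln v g).map (MvPolynomial.map (Int.castRingHom (ZMod p))) := by
        rw [← ln_map]
        rfl
      rw [lnx_def, hlng, hbd]
      exact natDegree_map_le.trans natDegree_map_le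
    have hNP : NP 2 (lnx v x Ψ * lnx v x (rp p g) ^ 1) :=
      NP_mul 2 _ _ hsep.squarefree (by omega) hcopg 1
    have hfx : lnx v x (rp p g * Ψ) = lnx v x Ψ * lnx v x (rp p g) ^ 1 := by
      rw [map_mul, pow_one, mul_comm]
    rw [hfx]
    have hf0' : lnx v x Ψ * lnx v x (rp p g) ^ 1 ≠ 0 := by
      intro h0
      refine hNP 2 dvd_rfl (by omega) 0 0 ?_
      rw [h0, C_0, zero_mul]
    have hfd : (lnx v x Ψ * lnx v x (rp p g) ^ 1).natDegree ≤ d + b := by
      rw [pow_one]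
      exact natDegree_mul_le.trans (Nat.add_le_add hdeg.le hdg)
    have h2p : 2 ∣ Fintype.card (ZMod p) - 1 := by
      rw [ZMod.card]
      have h3 : p % 2 = 1 := by
        rcases hpp.eq_two_or_odd with h4 | h4
        · omega
        · exact h4
      omega
    have h3 := hK (ZMod p) h2p χ hχ1 hχ2 _ hfd hf0' hNP
    rw [ZMod.card] at h3
    exact h3

end Pool.Agent.X145.S3
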