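import Pool.Agent.X145.S3.Bin
import Pool.Agent.X145.S3.Change

/-!
Polynomials of degree at most two.
-/

set_option autoImplicit false
set_option linter.unusedSectionVars false

namespace Pool.Agent.X145.S3

open Finset Polynomial
open Pool.Agent.Y837.SV (rp rp_eval rp_int rp_degree)

section lncoeff

variable {n : ℕ} {A : Type} [CommRing A]

theorem ln_monomial (v : Fin n) (m : Fin n →₀ ℕ) (c : A) :
    ln v (MvPolynomial.monomial m c) = C (MvPolynomial.monomial (m.erase v) c) * X ^ (m v) := by
  have h1 : MvPolynomial.monomial m c = MvPolynomial.monomial (m.erase v) c * MvPolynomial.X v ^ (m v) := by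
    rw [MvPolynomial.X_pow_eq_monomial, MvPolynomial.monomial_mul, mul_one, Finsupp.erase_add_single]
  rw [h1, map_mul, map_pow, ln_X_self]
  congr 1
  rw [MvPolynomial.monomial_eq, map_mul, ln_C, Finsupp.prod, map_prod, map_mul]
  congr 1
  rw [map_prod]
  refine Finset.prod_congr rfl fun i hi => ?_
  rw [Finsupp.support_erase, mem_erase] at hi
  rw [map_pow, map_pow, ln_X_ne v i hi.1]

theorem ln_coeff (v : Fin n) (F : MvPolynomial (Fin n) A) (k : ℕ) :
    (ln v F).coeff k = ∑ m ∈ F.support.filter (fun m => m v = k),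
      MvPolynomial.monomial (m.erase v) (F.coeff m) := by
  conv_lhs => rw [← MvPolynomial.support_sum_monomial_coeff F]
  rw [map_sum, finsetSum_coeff, Finset.sum_filter]
  refine Finset.sum_congr rfl fun m _ => ?_
  rw [ln_monomial, coeff_C_mul, coeff_X_pow]
  by_cases h : m v = k
  · rw [if_pos h, if_pos h.symm, mul_one]
  · rw [if_neg h, if_neg (Ne.symm h), mul_zero]

theorem ln_coeff_free (v : Fin n) (F : MvPolynomial (Fin n) A) (k : ℕ) :
    v ∉ ((ln v F).coeff k).vars := by
  classical
  rw [ln_coeff]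
  intro hv
  have h1 := MvPolynomial.vars_sum_subset _ _ hv
  rw [mem_biUnion] at h1
  obtain ⟨m, _, hm⟩ := h1
  by_cases h0 : F.coeff m = 0
  · rw [h0, MvPolynomial.monomial_zero, MvPolynomial.vars_0] at hm
    exact absurd hm (notMem_empty _)
  · rw [MvPolynomial.vars_monomial h0, Finsupp.support_erase, mem_erase] at hm
    exact hm.1 rfl

theorem ln_coeff_degree (v : Fin n) (F : MvPolynomial (Fin n) A) (k : ℕ) :
    ((ln v F).coeff k).totalDegree ≤ F.totalDegree - k := by
  classical
  rw [ln_coeff]
  refine MvPolynomial.totalDegree_finsetSum_le fun m hm => ?_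
  rw [mem_filter] at hm
  refine (MvPolynomial.totalDegree_monomial_le _ _).trans ?_
  have h1 : m.sum (fun _ e => e) ≤ F.totalDegree := MvPolynomial.le_totalDegree hm.1
  have h2 : (m.erase v).sum (fun _ e => e) + m v = m.sum (fun _ e => e) := by
    conv_rhs => rw [← Finsupp.erase_add_single v m]
    rw [Finsupp.sum_add_index' (fun _ => rfl) (fun _ _ _ => rfl), Finsupp.sum_single_index rfl]
  have h3 : (m.erase v).sum (fun _ => id) = (m.erase v).sum (fun _ e => e) := rfl
  omega

theorem ln_natDegree (v : Fin n) (F : MvPolynomial (Fin n) A) :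
    (ln v F).natDegree ≤ F.totalDegree := by
  rw [natDegree_le_iff_coeff_eq_zero]
  intro k hk
  rw [ln_coeff]
  refine Finset.sum_eq_zero fun m hm => ?_
  exfalso
  rw [mem_filter] at hm
  have h1 : m.sum (fun _ e => e) ≤ F.totalDegree := MvPolynomial.le_totalDegree hm.1
  have h2 : m v ≤ m.sum (fun _ e => e) := by
    by_cases hv : v ∈ m.support
    · exact Finset.single_le_sum (f := fun i => m i) (fun _ _ => Nat.zero_le _) hv
    · rw [Finsupp.notMem_support_iff.mp hv]
      exact Nat.zero_le _
  omega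

end lncoeff

/-- **Polynomials of degree at most two are admissible, unless they are squares up to constants.** -/
theorem good_quad {n : ℕ} (F : MvPolynomial (Fin n) ℤ) (hdeg : F.totalDegree ≤ 2)
    (hnc : ∀ c, F ≠ MvPolynomial.C c)
    (hsq : ∀ K K' : ℤ, ∀ l : MvPolynomial (Fin n) ℤ, K ≠ 0 →
      MvPolynomial.C K * F + MvPolynomial.C K' ≠ l ^ 2) : Good F := by
  classical
  have hdec : ∀ v, F = (ln v F).coeff 0 + (ln v F).coeff 1 * MvPolynomial.X v +
      (ln v F).coeff 2 * MvPolynomial.X v ^ 2 := by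
    intro v
    have h1 := ln_one v F
    rw [eval_eq_sum_range' (n := 3) (by have := ln_natDegree v F; omega)] at h1
    simp only [Finset.sum_range_succ, Finset.sum_range_zero, zero_add, pow_zero, mul_one, pow_one] at h1
    exact h1.symm
  have hC : ∀ v, (ln v F).coeff 2 = MvPolynomial.C (((ln v F).coeff 2).coeff 0) := by
    intro v
    have h1 := ln_coeff_degree v F 2
    exact MvPolynomial.totalDegree_eq_zero_iff_eq_C.1 (by omega)
  by_cases hcase : ∃ v, (ln v F).coeff 2 ≠ 0
  · obtain ⟨v, hv⟩ := hcase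
    obtain ⟨α, hα⟩ : ∃ α, α = ((ln v F).coeff 2).coeff 0 := ⟨_, rfl⟩
    obtain ⟨H, hH⟩ : ∃ H, H = (ln v F).coeff 0 := ⟨_, rfl⟩
    obtain ⟨L, hL⟩ : ∃ L, L = (ln v F).coeff 1 := ⟨_, rfl⟩
    have hF := hdec v
    have hHv : v ∉ H.vars := by rw [hH]; exact ln_coeff_free v F 0
    have hLv : v ∉ L.vars := by rw [hL]; exact ln_coeff_free v F 1
    have hα0 : α ≠ 0 := by
      intro h0
      apply hv
      rw [hC v, ← hα, h0, map_zero]
    rw [hC v, ← hα, ← hH, ← hL] at hF
    obtain ⟨G, hG⟩ : ∃ G, G = MvPolynomial.C (4 * α) * H - L ^ 2 := ⟨_, rfl⟩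
    have hGv : v ∉ G.vars := by
      rw [hG]
      intro h1
      have h2 := MvPolynomial.vars_sub_subset (p := MvPolynomial.C (4 * α) * H) (q := L ^ 2) h1
      rw [mem_union] at h2
      rcases h2 with h2 | h2
      · have h3 := MvPolynomial.vars_mul _ _ h2
        rw [MvPolynomial.vars_C, empty_union] at h3
        exact hHv h3
      · exact hLv (MvPolynomial.vars_pow _ _ h2)
    have key : MvPolynomial.C (4 * α) * F = (MvPolynomial.C (2 * α) * MvPolynomial.X v + L) ^ 2 + G := by
      rw [hF, hG]
      simp only [map_mul, map_ofNat]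
      ring
    have hGc : ∀ c, G ≠ MvPolynomial.C c := by
      intro c hc
      refine hsq (4 * α) (-c) (MvPolynomial.C (2 * α) * MvPolynomial.X v + L)
        (mul_ne_zero (by norm_num) hα0) ?_
      rw [key, hc, map_neg]
      ring
    have hgood := good_bin v 2 (by norm_num) 1 G (by rw [MvPolynomial.vars_one]; exact notMem_empty _) hGv
      one_ne_zero (Or.inr hGc)
    have hfix : ∀ (f : Fin n → MvPolynomial (Fin n) ℤ), (∀ i, i ≠ v → f i = MvPolynomial.X i) →
        ∀ Q : MvPolynomial (Fin n) ℤ, v ∉ Q.vars → MvPolynomial.aeval f Q = Q := by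
      intro f hf Q hQ
      have h1 : MvPolynomial.aeval f Q = MvPolynomial.aeval MvPolynomial.X Q := by
        rw [MvPolynomial.aeval_eq_eval₂Hom, MvPolynomial.aeval_eq_eval₂Hom]
        refine MvPolynomial.eval₂Hom_congr' rfl (fun i hi _ => ?_) rfl
        exact hf i (by rintro rfl; exact hQ hi)
      rw [h1, MvPolynomial.aeval_X_left_apply]
    obtain ⟨φ, hφ⟩ : ∃ φ : Fin n → MvPolynomial (Fin n) ℤ, φ = Function.update MvPolynomial.X v
      (MvPolynomial.C (2 * α) * MvPolynomial.X v + L) := ⟨_, rfl⟩
    have hφv : φ v = MvPolynomial.C (2 * α) * MvPolynomial.X v + L := by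
      rw [hφ, Function.update_self]
    have hφi : ∀ i, i ≠ v → φ i = MvPolynomial.X i := by
      intro i hi
      rw [hφ, Function.update_of_ne hi]
    refine good_change' F _ φ (Function.update (fun i => MvPolynomial.C (2 * α) * MvPolynomial.X i) v
      (MvPolynomial.X v - L)) (2 * α) (mul_ne_zero (by norm_num) hα0) ?_ (4 * α) 0
      (mul_ne_zero (by norm_num) hα0) hgood ?_
    · intro i
      by_cases hi : i = v
      · subst hi
        rw [Function.update_self, map_sub, MvPolynomial.aeval_X, hφv, hfix φ hφi L hLv]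
        ring
      · rw [Function.update_of_ne hi, map_mul, MvPolynomial.aeval_X, hφi i hi]
        congr 1
        exact MvPolynomial.aeval_C _ _
    · rw [map_zero, add_zero, key, one_mul, map_add (MvPolynomial.aeval φ),
        map_pow (MvPolynomial.aeval φ), MvPolynomial.aeval_X, hφv, hfix φ hφi G hGv]
  · push Not at hcase
    obtain ⟨v, hv⟩ : ∃ v, v ∈ F.vars := by
      by_contra hcon
      push Not at hcon
      have hvars : F.vars = ∅ := Finset.eq_empty_iff_forall_notMem.mpr hcon
      rw [MvPolynomial.vars_eq_empty_iff_eq_C] at hvars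
      exact hnc _ hvars
    have hF := hdec v
    rw [hcase v, zero_mul, add_zero] at hF
    have hB0 : (ln v F).coeff 1 ≠ 0 := by
      intro h0
      rw [h0, zero_mul, add_zero] at hF
      rw [hF] at hv
      exact ln_coeff_free v F 0 hv
    have h1 := good_bin v 1 le_rfl ((ln v F).coeff 1) ((ln v F).coeff 0) (ln_coeff_free v F 1)
      (ln_coeff_free v F 0) hB0 (Or.inl rfl)
    rw [pow_one, add_comm, ← hF] at h1
    exact h1

end Pool.Agent.X145.S3
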