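import Pool.Agent.X145.S3.Two
import Pool.Agent.X145.S3.PencilSum
import Pool.Agent.X145.S3.Change

/-!
Polynomials which are not squares up to constants: nonsquares modulo `p` and character sums.
-/

set_option autoImplicit false
set_option linter.unusedSectionVars false

namespace Pool.Agent.X145.S3

open Finset Polynomial
open Pool.Agent.Y837.SV (rp rp_eval rp_int rp_degree)

/-- squarefree part -/
theorem sq_decomp {R : Type} [CommRing R] [IsDomain R] [UniqueFactorizationMonoid R] (a : R) :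
    a ≠ 0 → ∃ s m : R, Squarefree s ∧ m ≠ 0 ∧ a = s * m ^ 2 := by
  induction a using WfDvdMonoid.induction_on_irreducible with
  | zero => intro h; exact absurd rfl h
  | unit u hu => intro _; exact ⟨u, 1, hu.squarefree, one_ne_zero, by ring⟩
  | mul a i ha0 hi ih =>
    intro _
    obtain ⟨s, m, hs, hm, h⟩ := ih ha0
    by_cases hd : i ∣ s
    · obtain ⟨s', hs'⟩ := hd
      refine ⟨s', i * m, ?_, mul_ne_zero hi.ne_zero hm, ?_⟩
      · rw [hs'] at hs
        exact hs.of_mul_right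
      · rw [h, hs']; ring
    · refine ⟨i * s, m, ?_, hm, by rw [h]; ring⟩
      rw [squarefree_mul_iff]
      exact ⟨(hi.isRelPrime_iff_not_dvd).mpr hd, hi.squarefree, hs⟩

/-- squarefree part over the integers -/
theorem int_decomp {n : ℕ} (F : MvPolynomial (Fin n) ℤ) (hF : F ≠ 0) :
    ∃ (κ : ℤ) (s m : MvPolynomial (Fin n) ℤ), κ ≠ 0 ∧
      Squarefree (MvPolynomial.map (algebraMap ℤ ℚ) s) ∧ s ≠ 0 ∧ m ≠ 0 ∧
      MvPolynomial.C κ * F = s * m ^ 2 := by
  have hinj : Function.Injective (MvPolynomial.map (σ := Fin n) (algebraMap ℤ ℚ)) :=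
    MvPolynomial.map_injective _ (Int.cast_injective)
  have h0 : MvPolynomial.map (algebraMap ℤ ℚ) F ≠ 0 := by
    intro h
    exact hF (hinj (by rw [h, map_zero]))
  obtain ⟨s, m, hs, hm, h⟩ := sq_decomp _ h0
  obtain ⟨N, hN, s₁, hs₁⟩ := clear_den s
  obtain ⟨N', hN', m₁, hm₁⟩ := clear_den m
  have hNu : IsUnit (MvPolynomial.C ((N : ℤ) : ℚ) : MvPolynomial (Fin n) ℚ) :=
    (isUnit_iff_ne_zero.mpr (by exact_mod_cast hN)).map MvPolynomial.C
  have hN'0 : (MvPolynomial.C ((N' : ℤ) : ℚ) : MvPolynomial (Fin n) ℚ) ≠ 0 := by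
    rw [Ne, MvPolynomial.C_eq_zero]
    exact_mod_cast hN'
  refine ⟨N * N' ^ 2, s₁, m₁, mul_ne_zero hN (pow_ne_zero 2 hN'), ?_, ?_, ?_, ?_⟩
  · rw [show (algebraMap ℤ ℚ) = Int.castRingHom ℚ from rfl, hs₁]
    intro x hx
    exact hs x ((hNu.dvd_mul_left).mp hx)
  · rintro rfl
    rw [map_zero] at hs₁
    exact (mul_ne_zero hNu.ne_zero hs.ne_zero) hs₁.symm
  · rintro rfl
    rw [map_zero] at hm₁
    exact (mul_ne_zero hN'0 hm) hm₁.symm
  · apply hinj
    calc MvPolynomial.map (algebraMap ℤ ℚ) (MvPolynomial.C (N * N' ^ 2) * F)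
        = MvPolynomial.C ((algebraMap ℤ ℚ) (N * N' ^ 2)) * MvPolynomial.map (algebraMap ℤ ℚ) F := by
          rw [map_mul (MvPolynomial.map (algebraMap ℤ ℚ)), MvPolynomial.map_C]
      _ = MvPolynomial.C ((N : ℤ) : ℚ) * s * (MvPolynomial.C ((N' : ℤ) : ℚ) * m) ^ 2 := by
          rw [h]
          simp only [map_mul, map_pow, eq_intCast]
          ring
      _ = _ := by
          rw [map_mul, map_pow]
          rw [show (algebraMap ℤ ℚ) = Int.castRingHom ℚ from rfl, hs₁, hm₁]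

theorem sq_data {n : ℕ} (F : MvPolynomial (Fin n) ℤ) (hF : F ≠ 0)
    (hns : ∀ (K : ℤ) (m : MvPolynomial (Fin n) ℤ), K ≠ 0 → MvPolynomial.C K * F ≠ m ^ 2) :
    ∃ K : ℝ, 0 ≤ K ∧ ∃ B₀ : ℕ, ∀ p : ℕ, ∀ _ : Fact p.Prime, B₀ < p →
      (∀ (c : ZMod p) (l : MvPolynomial (Fin n) (ZMod p)), c ≠ 0 → MvPolynomial.C c * rp p F ≠ l ^ 2) ∧
      ∀ χ : MulChar (ZMod p) ℂ, χ ≠ 1 → χ ^ 2 = 1 →
        ‖∑ x : Fin n → ZMod p, χ (MvPolynomial.eval x (rp p F))‖ * Real.sqrt p ≤ K * (p : ℝ) ^ n := by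
  classical
  obtain ⟨κ, s, m, hκ, hs, hs0, hm0, h⟩ := int_decomp F hF
  have hsc : ∀ c, s ≠ MvPolynomial.C c := by
    rintro c rfl
    have hc : c ≠ 0 := by
      rintro rfl
      exact hs0 (map_zero _)
    refine hns (κ * c) (MvPolynomial.C c * m) (mul_ne_zero hκ hc) ?_
    rw [map_mul, mul_right_comm, h]
    ring
  obtain ⟨C₁, hC₁, B₁, hsum⟩ := Pool.Agent.Y837.SW.char_gen s hs hsc 2
  obtain ⟨B₂, hsimple⟩ := exists_simple s hs hsc
  obtain ⟨B₃, hB₃⟩ := Pool.Agent.Y837.SW.rp_ne_zero m hm0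
  refine ⟨C₁ + m.totalDegree, by positivity, B₁ + B₂ + B₃ + κ.natAbs + 2, ?_⟩
  intro p hp hBp
  have hpp := hp.out
  have hp0 : (0 : ℝ) < p := by exact_mod_cast hpp.pos
  have hκp : ((κ : ℤ) : ZMod p) ≠ 0 := by
    intro h0
    rw [ZMod.intCast_zmod_eq_zero_iff_dvd] at h0
    have := Nat.le_of_dvd (Int.natAbs_pos.2 hκ) (Int.natCast_dvd.1 h0)
    omega
  have hmp : rp p m ≠ 0 := hB₃ p (by omega)
  have hrel : MvPolynomial.C ((κ : ℤ) : ZMod p) * rp p F = rp p s * rp p m ^ 2 := by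
    have h1 := congrArg (MvPolynomial.map (Int.castRingHom (ZMod p))) h
    rw [map_mul, map_mul, map_pow, MvPolynomial.map_C] at h1
    exact h1
  obtain ⟨q, hq, hq1, hq2⟩ := hsimple p hp (by omega)
  constructor
  · intro c l hc hl
    obtain ⟨e, he⟩ : ∃ e : ZMod p, e * κ = c := ⟨c * (κ : ZMod p)⁻¹, by
      rw [mul_assoc, inv_mul_cancel₀ hκp, mul_one]⟩
    have he0 : e ≠ 0 := by
      rintro rfl
      rw [zero_mul] at he
      exact hc he.symm
    have h1 : l ^ 2 = MvPolynomial.C e * rp p s * rp p m ^ 2 := by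
      rw [← hl, ← he, map_mul, mul_assoc, hrel]
      ring
    have h2 : rp p m ^ 2 ∣ l ^ 2 := by
      rw [h1]
      exact Dvd.intro_left _ rfl
    obtain ⟨l', hl'⟩ := (IsIntegrallyClosed.pow_dvd_pow_iff (two_ne_zero)).mp h2
    have h3 : l' ^ 2 = MvPolynomial.C e * rp p s := by
      have h4 : rp p m ^ 2 * l' ^ 2 = rp p m ^ 2 * (MvPolynomial.C e * rp p s) := by
        rw [← mul_pow, ← hl', h1]
        ring
      exact mul_left_cancel₀ (pow_ne_zero 2 hmp) h4
    have heu : IsUnit (MvPolynomial.C e : MvPolynomial (Fin n) (ZMod p)) :=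
      (isUnit_iff_ne_zero.mpr he0).map MvPolynomial.C
    have h5 : q ∣ l' := by
      apply hq.dvd_of_dvd_pow (n := 2)
      rw [h3]
      exact Dvd.dvd.mul_left hq1 _
    apply hq2
    have h6 : q ^ 2 ∣ MvPolynomial.C e * rp p s := by
      rw [← h3]
      exact pow_dvd_pow_of_dvd h5 2
    exact (heu.dvd_mul_left).mp h6
  · intro χ hχ1 hχ2
    have hp2 : 2 < p := by omega
    have h2p : 2 ∣ p - 1 := by
      have h3 : p % 2 = 1 := by
        rcases hpp.eq_two_or_odd with h4 | h4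
        · omega
        · exact h4
      omega
    have h1 := hsum p (by omega) 2 le_rfl le_rfl h2p χ hχ1 hχ2
    have hs1 : Real.sqrt p ≤ p := by
      have h4 : 1 ≤ Real.sqrt p := by
        rw [Real.one_le_sqrt]
        exact_mod_cast hpp.one_lt.le
      have hsq : Real.sqrt p * Real.sqrt p = p := Real.mul_self_sqrt hp0.le
      nlinarith
    have hχκ : ‖χ ((κ : ℤ) : ZMod p)‖ = 1 := by
      have h4 : χ ((κ : ℤ) : ZMod p) ^ 2 = 1 := by
        rw [← MulChar.pow_apply' χ two_ne_zero, hχ2]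
        exact MulChar.one_apply (isUnit_iff_ne_zero.2 hκp)
      have h5 := congrArg norm h4
      rw [norm_pow, norm_one] at h5
      exact (pow_eq_one_iff_of_nonneg (norm_nonneg _) two_ne_zero).mp h5
    have hpt : ∀ x : Fin n → ZMod p, χ ((κ : ℤ) : ZMod p) * χ (MvPolynomial.eval x (rp p F)) =
        χ (MvPolynomial.aeval x s) - (if MvPolynomial.eval x (rp p m) = 0 then
          χ (MvPolynomial.aeval x s) else 0) := by
      intro x
      have h4 := congrArg (MvPolynomial.eval x) hrel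
      rw [map_mul, map_mul, map_pow, MvPolynomial.eval_C, rp_eval s] at h4
      rw [← map_mul, h4, map_mul, map_pow]
      split_ifs with h5
      · rw [h5, MulChar.map_nonunit χ not_isUnit_zero]
        ring
      · rw [← MulChar.pow_apply' χ two_ne_zero, hχ2, MulChar.one_apply (isUnit_iff_ne_zero.2 h5)]
        ring
    have hsum2 : χ ((κ : ℤ) : ZMod p) * ∑ x : Fin n → ZMod p, χ (MvPolynomial.eval x (rp p F)) =
        (∑ x : Fin n → ZMod p, χ (MvPolynomial.aeval x s)) -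
          ∑ x : Fin n → ZMod p, (if MvPolynomial.eval x (rp p m) = 0 then
          χ (MvPolynomial.aeval x s) else 0) := by
      rw [Finset.mul_sum, ← Finset.sum_sub_distrib]
      exact Finset.sum_congr rfl fun x _ => hpt x
    have hn : ‖∑ x : Fin n → ZMod p, χ (MvPolynomial.eval x (rp p F))‖ ≤
        ‖∑ x : Fin n → ZMod p, χ (MvPolynomial.aeval x s)‖ +
          ((univ.filter (fun x : Fin n → ZMod p => MvPolynomial.eval x (rp p m) = 0)).card : ℝ) := by
      have h4 := congrArg norm hsum2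
      rw [norm_mul, hχκ, one_mul] at h4
      rw [h4]
      refine (norm_sub_le _ _).trans (add_le_add le_rfl ?_)
      rw [← Finset.sum_filter]
      refine (norm_sum_le _ _).trans ?_
      have h5 : ∀ x ∈ univ.filter (fun x : Fin n → ZMod p => MvPolynomial.eval x (rp p m) = 0),
          ‖χ (MvPolynomial.aeval x s)‖ ≤ 1 := fun x _ =>
        Pool.Agent.H435R3.Weil.WELE.mc_norm_le_one χ _
      refine (Finset.sum_le_sum h5).trans ?_
      rw [Finset.sum_const, nsmul_eq_mul, mul_one]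
    have hz := zeros_le (rp p m) hmp m.totalDegree (rp_degree m)
    calc ‖∑ x : Fin n → ZMod p, χ (MvPolynomial.eval x (rp p F))‖ * Real.sqrt p
        ≤ (‖∑ x : Fin n → ZMod p, χ (MvPolynomial.aeval x s)‖ +
          ((univ.filter (fun x : Fin n → ZMod p => MvPolynomial.eval x (rp p m) = 0)).card : ℝ)) *
          Real.sqrt p := mul_le_mul_of_nonneg_right hn (Real.sqrt_nonneg _)
      _ = ‖∑ x : Fin n → ZMod p, χ (MvPolynomial.aeval x s)‖ * Real.sqrt p +
          ((univ.filter (fun x : Fin n → ZMod p => MvPolynomial.eval x (rp p m) = 0)).card : ℝ) *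
          Real.sqrt p := by ring
      _ ≤ C₁ * (p : ℝ) ^ n + (p : ℝ) * ((univ.filter (fun x : Fin n → ZMod p =>
          MvPolynomial.eval x (rp p m) = 0)).card : ℝ) := by
          refine add_le_add h1 ?_
          rw [mul_comm (p : ℝ)]
          exact mul_le_mul_of_nonneg_left hs1 (Nat.cast_nonneg _)
      _ ≤ C₁ * (p : ℝ) ^ n + m.totalDegree * (p : ℝ) ^ n := add_le_add le_rfl hz
      _ = _ := by ring

end Pool.Agent.X145.S3
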