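import Pool.Agent.X145.S3.Fam
import Pool.Agent.X145.S3.Irr
import Pool.Agent.X145.S3.Count

/-!
Sums of three polynomials in disjoint sets of variables are admissible.
-/

set_option autoImplicit false

namespace Pool.Agent.X145.S3

open Finset
open Pool.Agent.Y837.SV (rp rp_eval rp_int rp_degree)

section

variable {n p : ℕ} [hp : Fact p.Prime]

theorem irrp {D : ℕ} (hD : 3 * D < p) (b : Fin n → Fin 3)
    (g : Fin 3 → MvPolynomial (Fin n) (ZMod p)) (hv : ∀ i, ∀ v ∈ (g i).vars, b v = i)
    (hdeg : ∀ i, (g i).totalDegree ≤ D) (hnc : ∀ i c, g i ≠ MvPolynomial.C c) :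
    Irreducible (g 0 + g 1 + g 2) := by
  classical
  have hne : ∀ i, g i ≠ 0 := fun i h => hnc i 0 (by rw [h, map_zero])
  have hL : ∀ i, (Phi (fun _ => 1) (g i)).leadingCoeff =
      MvPolynomial.homogeneousComponent (Phi (fun _ => 1) (g i)).natDegree (g i) := by
    intro i
    rw [Polynomial.leadingCoeff, Phi_hom]
  have hL0 : ∀ i, (Phi (fun _ => 1) (g i)).leadingCoeff ≠ 0 := fun i =>
    Polynomial.leadingCoeff_ne_zero.mpr (Phi_inj _ _ (hne i))
  have hLd : ∀ i, ((Phi (fun _ => 1) (g i)).leadingCoeff).totalDegree ≤ D := by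
    intro i
    rw [hL]
    refine (MvPolynomial.IsHomogeneous.totalDegree_le
      (MvPolynomial.homogeneousComponent_isHomogeneous _ _)).trans ?_
    exact (Phi_nat (g i)).trans (hdeg i)
  obtain ⟨P, hP⟩ : ∃ P : MvPolynomial (Fin n) (ZMod p), P =
      ∏ i : Fin 3, (Phi (fun _ => 1) (g i)).leadingCoeff := ⟨_, rfl⟩
  have hP0 : P ≠ 0 := by
    rw [hP]
    exact Finset.prod_ne_zero_iff.mpr fun i _ => hL0 i
  have hPd : P.totalDegree ≤ 3 * D := by
    rw [hP]
    refine (MvPolynomial.totalDegree_finsetProd _ _).trans ?_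
    refine (Finset.sum_le_sum fun i _ => hLd i).trans ?_
    simp
  obtain ⟨w, hw⟩ : ∃ w : Fin n → ZMod p, MvPolynomial.eval w P ≠ 0 := by
    by_contra hcon
    push Not at hcon
    have h1 := Pool.Agent.X145.ML.sz P hP0
    rw [Finset.filter_true_of_mem (fun x _ => hcon x), card_univ] at h1
    have h2 : 0 < Fintype.card (Fin n → ZMod p) := Fintype.card_pos
    have h3 := Nat.le_of_mul_le_mul_right h1 h2
    omega
  refine irr3 b g hv hnc w ?_ ?_
  · intro i h
    apply hw
    rw [hP, map_prod]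
    exact Finset.prod_eq_zero (mem_univ i) h
  · intro i h
    have h1 : (Phi (fun _ => 1) (g i)).natDegree ≤ D := (Phi_nat (g i)).trans (hdeg i)
    have h2 : (Phi (fun _ => 1) (g i)).natDegree ≠ 0 := by
      intro h0
      exact hnc i _ (Phi_const (fun _ => 1) (fun _ => le_rfl) (g i) h0)
    rw [ZMod.natCast_eq_zero_iff] at h
    have h3 := Nat.le_of_dvd (Nat.pos_of_ne_zero h2) h
    omega

end

theorem good_three {n : ℕ} (b : Fin n → Fin 3) (g : Fin 3 → MvPolynomial (Fin n) ℤ)
    (hv : ∀ i, ∀ v ∈ (g i).vars, b v = i) (hnc : ∀ i c, g i ≠ MvPolynomial.C c) :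
    Good (g 0 + g 1 + g 2) := by
  classical
  have h0 : ∀ i, ∃ w : Fin n → ℤ, ∀ p : ℕ,
      (MvPolynomial.eval w (g i) - MvPolynomial.eval 0 (g i)).natAbs < p →
        ¬ (p : ℤ) ∣ MvPolynomial.eval w (g i) - MvPolynomial.eval 0 (g i) := fun i => by
    obtain ⟨w, -, hw⟩ := Pool.Agent.Y837.SV.nonconst_B (g i) (hnc i)
    exact ⟨w, hw⟩
  choose w hw using h0
  obtain ⟨D, hD⟩ : ∃ D : ℕ, D = (g 0).totalDegree + (g 1).totalDegree + (g 2).totalDegree + 1 :=
    ⟨_, rfl⟩
  have hDi : ∀ i, (g i).totalDegree ≤ D := by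
    intro i
    fin_cases i <;> simp [hD] <;> omega
  refine ⟨1, 2 * (D : ℝ) * (D + 2), (1 / 2 : ℝ) ^ D, 3 * D +
    ∑ i, (MvPolynomial.eval (w i) (g i) - MvPolynomial.eval 0 (g i)).natAbs, one_ne_zero,
    by positivity, by positivity, ?_⟩
  intro p hp hBp r _
  have hncp : ∀ i c, rp p (g i) ≠ MvPolynomial.C c := by
    intro i c
    refine Pool.Agent.Y837.SV.rp_nonconst (g i) (w i) 0 (hw i p ?_) c
    have := Finset.single_le_sum (f := fun i =>
      (MvPolynomial.eval (w i) (g i) - MvPolynomial.eval 0 (g i)).natAbs)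
      (fun _ _ => Nat.zero_le _) (mem_univ i)
    omega
  have hvp : ∀ i, ∀ v ∈ (rp p (g i)).vars, b v = i := by
    intro i v hvv
    refine hv i v ?_
    exact MvPolynomial.vars_map _ (Int.castRingHom (ZMod p)) hvv
  have hdp : ∀ i, (rp p (g i)).totalDegree ≤ D := fun i => (rp_degree _).trans (hDi i)
  have hsum : rp p (g 0 + g 1 + g 2) = rp p (g 0) + rp p (g 1) + rp p (g 2) := by
    unfold rp
    rw [map_add, map_add]
  constructor
  · obtain ⟨g', hg'⟩ : ∃ g' : Fin 3 → MvPolynomial (Fin n) (ZMod p), g' =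
      Function.update (fun i => rp p (g i)) 0 (rp p (g 0) - MvPolynomial.C r) := ⟨_, rfl⟩
    have e0 : g' 0 = rp p (g 0) - MvPolynomial.C r := by rw [hg', Function.update_self]
    have e1 : ∀ i, i ≠ 0 → g' i = rp p (g i) := by
      intro i hi
      rw [hg', Function.update_of_ne hi]
    have h1 := irrp (p := p) (D := D) (by omega) b g' ?_ ?_ ?_
    · rw [e0, e1 1 (by decide), e1 2 (by decide)] at h1
      rw [hsum]
      have e : rp p (g 0) + rp p (g 1) + rp p (g 2) - MvPolynomial.C r =
        rp p (g 0) - MvPolynomial.C r + rp p (g 1) + rp p (g 2) := by ring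
      rw [e]
      exact h1
    · intro i v hvv
      by_cases hi : i = 0
      · rw [hi, e0] at hvv
        have h2 := MvPolynomial.vars_sub_subset (p := rp p (g 0)) (q := MvPolynomial.C r) hvv
        rw [MvPolynomial.vars_C, Finset.union_empty] at h2
        rw [hi]
        exact hvp 0 v h2
      · rw [e1 i hi] at hvv
        exact hvp i v hvv
    · intro i
      by_cases hi : i = 0
      · rw [hi, e0]
        refine (MvPolynomial.totalDegree_sub _ _).trans ?_
        rw [MvPolynomial.totalDegree_C]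
        exact max_le (hdp 0) (Nat.zero_le _)
      · rw [e1 i hi]
        exact hdp i
    · intro i c hc
      by_cases hi : i = 0
      · rw [hi, e0] at hc
        refine hncp 0 (c + r) ?_
        rw [map_add, ← hc]
        ring
      · rw [e1 i hi] at hc
        exact hncp i c hc
  · have h1 := split_U (p := p) (D := D) (by omega) (by omega) b (fun i => rp p (g i)) hvp hdp hncp r
    rw [hsum]
    convert h1

end Pool.Agent.X145.S3
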