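import Pool.Agent.X145.S3.Bin
import Pool.Agent.X145.S3.Wt

/-!
Polynomials `P + Q` with `P` of weight `D ≠ 0` and `Q` of weight `0` for some integer weights.
-/

set_option autoImplicit false
set_option linter.unusedSectionVars false

namespace Pool.Agent.X145.S3

open Finset Polynomial
open Pool.Agent.Y837.SV (rp rp_eval rp_int rp_degree)

section laur3

variable {n : ℕ} {k : Type} [Field k]

/-- irreducibility can be tested after the weighted homogenisation -/
theorem laur_irr3 (w : Fin n → ℤ) (F : MvPolynomial (Fin n) k) (π : (MvPolynomial (Fin n) k)[X])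
    (hF : Psi w F = toLaurent π) (hirr : Irreducible π) (hnu : ¬ IsUnit F) :
    Irreducible F := by
  refine ⟨hnu, fun {S U} hSU => ?_⟩
  obtain ⟨m₁, s, hs⟩ := LaurentPolynomial.exists_T_pow (Psi w S)
  obtain ⟨m₂, u, hu⟩ := LaurentPolynomial.exists_T_pow (Psi w U)
  have key : s * u = π * X ^ (m₁ + m₂) := by
    apply Polynomial.toLaurent_injective
    rw [map_mul, map_mul, hs, hu, toLaurent_X_pow, ← hF, hSU, map_mul]
    push_cast
    rw [LaurentPolynomial.T_add]
    ring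
  have hS1 : s.eval 1 = S := by
    rw [← eps_toLaurent, hs, map_mul, eps_T, mul_one, eps_Psi]
  have hU1 : u.eval 1 = U := by
    rw [← eps_toLaurent, hu, map_mul, eps_T, mul_one, eps_Psi]
  have h1 : π ∣ s * u := by
    rw [key]
    exact Dvd.intro _ rfl
  rcases hirr.prime.dvd_or_dvd h1 with ⟨s', hs'⟩ | ⟨u', hu'⟩
  · right
    rw [hs'] at key
    have h3 : s' * u = X ^ (m₁ + m₂) := by
      apply mul_left_cancel₀ hirr.ne_zero
      rw [← key]
      ring
    have h4 := congrArg (eval 1) h3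
    rw [eval_mul, eval_pow, eval_X, one_pow, hU1, mul_comm] at h4
    exact IsUnit.of_mul_eq_one _ h4
  · left
    rw [hu'] at key
    have h3 : s * u' = X ^ (m₁ + m₂) := by
      apply mul_left_cancel₀ hirr.ne_zero
      rw [← key]
      ring
    have h4 := congrArg (eval 1) h3
    rw [eval_mul, eval_pow, eval_X, one_pow, hS1] at h4
    exact IsUnit.of_mul_eq_one _ h4

/-- a polynomial of weight `≠ 0` plus a polynomial of weight `0` is not a constant -/
theorem not_unit_add (w : Fin n → ℤ) (D : ℤ) (hD : D ≠ 0) (P H : MvPolynomial (Fin n) k)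
    (hP : ∀ e ∈ P.support, ∑ i, w i * (e i : ℤ) = D) (hH : ∀ e ∈ H.support, ∑ i, w i * (e i : ℤ) = 0)
    (hP0 : P ≠ 0) : ¬ IsUnit (P + H) := by
  intro hu
  have h3 := (MvPolynomial.isUnit_iff_totalDegree_of_isReduced.1 hu).2
  rw [MvPolynomial.totalDegree_eq_zero_iff_eq_C] at h3
  obtain ⟨e, he⟩ := MvPolynomial.exists_coeff_ne_zero hP0
  have he' : e ∈ P.support := MvPolynomial.mem_support_iff.mpr he
  have h4 : e ∉ H.support := by
    intro h
    exact hD ((hP e he').symm.trans (hH e h))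
  rw [MvPolynomial.notMem_support_iff] at h4
  have h5 := congrArg (MvPolynomial.coeff e) h3
  rw [MvPolynomial.coeff_add, h4, add_zero, MvPolynomial.coeff_C] at h5
  split_ifs at h5 with h6
  · subst h6
    have h7 := hP 0 he'
    simp at h7
    exact hD h7.symm
  · exact he h5

theorem two_irr (w : Fin n → ℤ) (d : ℕ) (hd : 1 ≤ d) (P H : MvPolynomial (Fin n) k)
    (hP : ∀ e ∈ P.support, ∑ i, w i * (e i : ℤ) = d) (hH : ∀ e ∈ H.support, ∑ i, w i * (e i : ℤ) = 0)
    (hP0 : P ≠ 0) (hrel : IsRelPrime P H)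
    (h : d = 1 ∨ ∃ q : MvPolynomial (Fin n) k, Prime q ∧ q ∣ H ∧ ¬ q ^ 2 ∣ H) :
    Irreducible (P + H) := by
  have hnu : ¬ IsUnit (P + H) := not_unit_add w d (by omega) P H hP hH hP0
  refine laur_irr3 w (P + H) (C P * X ^ d + C H) ?_ ?_ hnu
  · rw [map_add, Psi_hom w d P hP, Psi_hom w 0 H hH, LaurentPolynomial.T_zero, mul_one, map_add,
      map_mul, toLaurent_X_pow, toLaurent_C, toLaurent_C]
  · rcases h with rfl | ⟨q, hq, hq1, hq2⟩
    · rw [pow_one]
      exact irreducible_C_mul_X_add_C hP0 hrel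
    · exact eisenB _ _ q hq hq1 hq2 hrel d hd

end laur3

section count

variable {n p : ℕ} [hp : Fact p.Prime]

/-- scaling with weights is a bijection -/
def scaleEquiv (w : Fin n → ℤ) (l : ZMod p) (hl : l ≠ 0) : (Fin n → ZMod p) ≃ (Fin n → ZMod p) where
  toFun x := fun i => x i * l ^ (w i)
  invFun x := fun i => x i * l⁻¹ ^ (w i)
  left_inv := by
    intro x
    funext i
    show x i * l ^ w i * l⁻¹ ^ w i = x i
    rw [inv_zpow, mul_assoc, mul_inv_cancel₀ (zpow_ne_zero _ hl), mul_one]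
  right_inv := by
    intro x
    funext i
    show x i * l⁻¹ ^ w i * l ^ w i = x i
    rw [inv_zpow, mul_assoc, inv_mul_cancel₀ (zpow_ne_zero _ hl), mul_one]

theorem scale_sum (w : Fin n → ℤ) (f : (Fin n → ZMod p) → ZMod p)
    (g : (Fin n → ZMod p) → ZMod p → ZMod p)
    (h : ∀ x, ∀ l : ZMod p, l ≠ 0 → f (fun i => x i * l ^ (w i)) = g x l) (r : ZMod p) :
    (∑ x : Fin n → ZMod p, ∑ s : ZMod p, (if g x s = r then (1 : ℂ) else 0)) =
      ((p : ℂ) - 1) * (∑ x : Fin n → ZMod p, (if f x = r then (1 : ℂ) else 0)) +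
        ∑ x : Fin n → ZMod p, (if g x 0 = r then (1 : ℂ) else 0) := by
  classical
  rw [Finset.sum_comm, ← Finset.sum_erase_add _ _ (mem_univ (0 : ZMod p))]
  congr 1
  have h1 : ∀ s ∈ (univ : Finset (ZMod p)).erase 0, (∑ x : Fin n → ZMod p,
      (if g x s = r then (1 : ℂ) else 0)) = ∑ x : Fin n → ZMod p, (if f x = r then (1 : ℂ) else 0) := by
    intro s hs
    have hs0 := ne_of_mem_erase hs
    rw [← Equiv.sum_comp (scaleEquiv w s hs0) (fun x => if f x = r then (1 : ℂ) else 0)]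
    refine Finset.sum_congr rfl fun x _ => ?_
    rw [← h x s hs0]
    rfl
  rw [Finset.sum_congr rfl h1, Finset.sum_const, card_erase_of_mem (mem_univ _), card_univ,
    ZMod.card, nsmul_eq_mul, Nat.cast_sub hp.out.one_lt.le, Nat.cast_one]

/-- the number of the solutions of `P + Q = r` -/
theorem two_count {a : ℕ} (ha : 1 ≤ a) (w : Fin n → ℤ) (F P Q : MvPolynomial (Fin n) (ZMod p))
    (hsc : ∀ x, ∀ l : ZMod p, l ≠ 0 → MvPolynomial.eval (fun i => x i * l ^ (w i)) F =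
      MvPolynomial.eval x P * l ^ a + MvPolynomial.eval x Q)
    (r : ZMod p) (K₀ K₁ K₂ K₃ K₄ : ℝ) (hK₂ : 0 ≤ K₂)
    (h0 : (p : ℝ) * ((univ.filter (fun x : Fin n → ZMod p => MvPolynomial.eval x P = 0)).card : ℝ) ≤
      K₀ * (p : ℝ) ^ n)
    (h1 : (p : ℝ) ^ 2 * ((univ.filter (fun x : Fin n → ZMod p => MvPolynomial.eval x P = 0 ∧
      MvPolynomial.eval x Q = r)).card : ℝ) ≤ K₁ * (p : ℝ) ^ n)
    (h3 : (p : ℝ) * ((univ.filter (fun x : Fin n → ZMod p => MvPolynomial.eval x F = r)).card : ℝ) ≤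
      K₃ * (p : ℝ) ^ n)
    (h4 : (p : ℝ) * ((univ.filter (fun x : Fin n → ZMod p => MvPolynomial.eval x Q = r)).card : ℝ) ≤
      K₄ * (p : ℝ) ^ n)
    (h2 : ∀ χ : DirichletCharacter ℂ p, χ ≠ 1 → χ ^ a = 1 →
      ‖∑ x : Fin n → ZMod p, (if MvPolynomial.eval x P = 0 then 0 else
        χ ((r - MvPolynomial.eval x Q) / MvPolynomial.eval x P))‖ * Real.sqrt p ≤ K₂ * (p : ℝ) ^ n) :
    |(p : ℝ) * ((univ.filter (fun x : Fin n → ZMod p =>
      MvPolynomial.eval x F = r)).card : ℝ) - (p : ℝ) ^ n| *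
      Real.sqrt p ≤ (K₀ + K₁ + K₃ + K₄ + a * K₂) * (p : ℝ) ^ n := by
  classical
  have hpp := hp.out
  have hp0 : (0 : ℝ) < p := by exact_mod_cast hpp.pos
  have hp1 : (1 : ℝ) ≤ p := by exact_mod_cast hpp.one_lt.le
  have hsq : Real.sqrt p * Real.sqrt p = p := Real.mul_self_sqrt hp0.le
  have hs0 : 0 ≤ Real.sqrt p := Real.sqrt_nonneg _
  have hs1 : Real.sqrt p ≤ p := by
    have : 1 ≤ Real.sqrt p := by rw [Real.one_le_sqrt]; exact hp1
    nlinarith
  obtain ⟨N, hN⟩ : ∃ N, N = (univ.filter (fun x : Fin n → ZMod p =>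
      MvPolynomial.eval x F = r)).card := ⟨_, rfl⟩
  obtain ⟨M, hM⟩ : ∃ M, M = (univ.filter (fun x : Fin n → ZMod p =>
      MvPolynomial.eval x Q = r)).card := ⟨_, rfl⟩
  obtain ⟨Z, hZ⟩ : ∃ Z, Z = (univ.filter (fun x : Fin n → ZMod p =>
      MvPolynomial.eval x P = 0)).card := ⟨_, rfl⟩
  obtain ⟨Y, hY⟩ : ∃ Y, Y = (univ.filter (fun x : Fin n → ZMod p => MvPolynomial.eval x P = 0 ∧
      MvPolynomial.eval x Q = r)).card := ⟨_, rfl⟩
  obtain ⟨S, hS⟩ : ∃ S : DirichletCharacter ℂ p → ℂ, ∀ χ, S χ = ∑ x : Fin n → ZMod p,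
      (if MvPolynomial.eval x P = 0 then 0 else
        χ ((r - MvPolynomial.eval x Q) / MvPolynomial.eval x P)) := ⟨_, fun _ => rfl⟩
  obtain ⟨Ξ, hΞ⟩ : ∃ Ξ : Finset (DirichletCharacter ℂ p), Ξ =
      (univ.filter (fun χ : DirichletCharacter ℂ p => χ ^ a = 1)).erase 1 := ⟨_, rfl⟩
  rw [← hN] at h3 ⊢
  rw [← hZ] at h0
  rw [← hY] at h1
  rw [← hM] at h4
  have hcard : (Fintype.card (Fin n → ZMod p) : ℂ) = (p : ℂ) ^ n := by
    rw [Fintype.card_fun, ZMod.card, Fintype.card_fin]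
    push_cast
    rfl
  -- the identity
  have hmain : (p : ℂ) * N = N - M + (p : ℂ) * Y + ((p : ℂ) ^ n - Z) + ∑ χ ∈ Ξ, S χ := by
    have e0 := scale_sum w (fun x => MvPolynomial.eval x F)
      (fun x s => MvPolynomial.eval x P * s ^ a + MvPolynomial.eval x Q) hsc r
    have e1 : (∑ x : Fin n → ZMod p, (if MvPolynomial.eval x F = r then (1 : ℂ) else 0)) = N := by
      rw [Finset.sum_boole, hN]
    have e2 : (∑ x : Fin n → ZMod p, (if MvPolynomial.eval x P * 0 ^ a + MvPolynomial.eval x Q = r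
        then (1 : ℂ) else 0)) = M := by
      rw [hM, ← Finset.sum_boole]
      refine Finset.sum_congr rfl fun x _ => ?_
      rw [zero_pow (by omega), mul_zero, zero_add]
    rw [e1, e2] at e0
    simp_rw [line_count a ha] at e0
    rw [Finset.sum_add_distrib, Finset.sum_add_distrib, ← hΞ, Finset.sum_comm (s := univ) (t := Ξ)] at e0
    have e4 : ∑ x : Fin n → ZMod p, (if MvPolynomial.eval x P = 0 ∧ MvPolynomial.eval x Q = r
        then (p : ℂ) else 0) = (p : ℂ) * Y := by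
      rw [← Finset.sum_filter, Finset.sum_const, nsmul_eq_mul, ← hY, mul_comm]
    have e5 : ∑ x : Fin n → ZMod p, (if MvPolynomial.eval x P = 0 then (0 : ℂ) else 1) =
        (p : ℂ) ^ n - Z := by
      have e6 : ∀ x : Fin n → ZMod p, (if MvPolynomial.eval x P = 0 then (0 : ℂ) else 1) =
          1 - (if MvPolynomial.eval x P = 0 then (1 : ℂ) else 0) := by
        intro x
        split_ifs <;> simp
      simp_rw [e6]
      rw [Finset.sum_sub_distrib, Finset.sum_const, card_univ, nsmul_eq_mul, mul_one, hcard,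
        Finset.sum_boole, ← hZ]
    rw [e4, e5] at e0
    simp_rw [hS]
    linear_combination -e0
  -- the estimate
  have hSb : ∀ χ ∈ Ξ, ‖S χ‖ * Real.sqrt p ≤ K₂ * (p : ℝ) ^ n := by
    intro χ hχ
    rw [hΞ, mem_erase, mem_filter] at hχ
    rw [hS]
    exact h2 χ hχ.1 hχ.2.2
  have hΞc : (Ξ.card : ℝ) ≤ a := by
    have e1 : Ξ.card ≤ a := by
      rw [hΞ]
      exact (card_erase_le).trans (Pool.Agent.Y837.SW.char_card a (by omega))
    exact_mod_cast e1
  have hnorm : |(p : ℝ) * N - (p : ℝ) ^ n| ≤ N + M + (p : ℝ) * Y + Z + ∑ χ ∈ Ξ, ‖S χ‖ := by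
    have e1 : ‖(((p : ℝ) * N - (p : ℝ) ^ n : ℝ) : ℂ)‖ ≤ N + M + (p : ℝ) * Y + Z + ∑ χ ∈ Ξ, ‖S χ‖ := by
      have e2 : (((p : ℝ) * N - (p : ℝ) ^ n : ℝ) : ℂ) = N - M + (p : ℂ) * Y - Z + ∑ χ ∈ Ξ, S χ := by
        push_cast
        rw [hmain]
        ring
      rw [e2]
      refine (norm_add_le _ _).trans (add_le_add ?_ (norm_sum_le _ _))
      refine (norm_sub_le _ _).trans (add_le_add ?_ ?_)
      · refine (norm_add_le _ _).trans (add_le_add ?_ ?_)
        · refine (norm_sub_le _ _).trans (add_le_add ?_ ?_)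
          · rw [Complex.norm_natCast]
          · rw [Complex.norm_natCast]
        · rw [norm_mul, Complex.norm_natCast, Complex.norm_natCast]
      · rw [Complex.norm_natCast]
    rw [Complex.norm_real, Real.norm_eq_abs] at e1
    exact e1
  have hY0 : (0 : ℝ) ≤ Y := Nat.cast_nonneg _
  have hZ0 : (0 : ℝ) ≤ Z := Nat.cast_nonneg _
  have hN0 : (0 : ℝ) ≤ N := Nat.cast_nonneg _
  have hM0 : (0 : ℝ) ≤ M := Nat.cast_nonneg _
  have f1 : (p : ℝ) * Y * Real.sqrt p ≤ K₁ * (p : ℝ) ^ n := by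
    refine le_trans ?_ h1
    calc (p : ℝ) * Y * Real.sqrt p ≤ (p : ℝ) * Y * p :=
          mul_le_mul_of_nonneg_left hs1 (by positivity)
      _ = (p : ℝ) ^ 2 * Y := by ring
  have f0 : ∀ W K : ℝ, 0 ≤ W → (p : ℝ) * W ≤ K * (p : ℝ) ^ n → W * Real.sqrt p ≤ K * (p : ℝ) ^ n := by
    intro W K hW hK
    refine le_trans ?_ hK
    calc W * Real.sqrt p ≤ W * p := mul_le_mul_of_nonneg_left hs1 hW
      _ = (p : ℝ) * W := by ring
  have f2 := f0 Z K₀ hZ0 h0
  have f4 := f0 N K₃ hN0 h3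
  have f5 := f0 M K₄ hM0 h4
  have f3 : (∑ χ ∈ Ξ, ‖S χ‖) * Real.sqrt p ≤ a * K₂ * (p : ℝ) ^ n := by
    rw [Finset.sum_mul]
    refine (Finset.sum_le_sum hSb).trans ?_
    rw [Finset.sum_const, nsmul_eq_mul]
    have e : 0 ≤ K₂ * (p : ℝ) ^ n := by positivity
    calc (Ξ.card : ℝ) * (K₂ * (p : ℝ) ^ n) ≤ a * (K₂ * (p : ℝ) ^ n) :=
          mul_le_mul_of_nonneg_right hΞc e
      _ = _ := by ring
  calc |(p : ℝ) * N - (p : ℝ) ^ n| * Real.sqrt p
      ≤ (N + M + (p : ℝ) * Y + Z + ∑ χ ∈ Ξ, ‖S χ‖) * Real.sqrt p :=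
        mul_le_mul_of_nonneg_right hnorm hs0
    _ = N * Real.sqrt p + M * Real.sqrt p + (p : ℝ) * Y * Real.sqrt p + Z * Real.sqrt p +
        (∑ χ ∈ Ξ, ‖S χ‖) * Real.sqrt p := by ring
    _ ≤ K₃ * (p : ℝ) ^ n + K₄ * (p : ℝ) ^ n + K₁ * (p : ℝ) ^ n + K₀ * (p : ℝ) ^ n +
        a * K₂ * (p : ℝ) ^ n := by linarith
    _ = _ := by ring

end count

theorem wgt_rp {n : ℕ} {w : Fin n → ℤ} {D : ℤ} {F : MvPolynomial (Fin n) ℤ} (h : Wgt w D F) (p : ℕ)
    [Fact p.Prime] : ∀ e ∈ (rp p F).support, ∑ i, w i * (e i : ℤ) = D :=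
  fun e he => h e (MvPolynomial.support_map_subset _ _ he)

/-- the number of the zeros -/
theorem zeros_le {n p : ℕ} [hp : Fact p.Prime] (F : MvPolynomial (Fin n) (ZMod p)) (hF : F ≠ 0)
    (d : ℕ) (hd : F.totalDegree ≤ d) :
    (p : ℝ) * ((univ.filter (fun x : Fin n → ZMod p => MvPolynomial.eval x F = 0)).card : ℝ) ≤
      d * (p : ℝ) ^ n := by
  classical
  have hcard : (Fintype.card (Fin n → ZMod p) : ℝ) = (p : ℝ) ^ n := by
    rw [Fintype.card_fun, ZMod.card, Fintype.card_fin]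
    push_cast
    rfl
  have h1 := Pool.Agent.X145.ML.sz F hF
  have h2 : p * (univ.filter (fun x : Fin n → ZMod p => MvPolynomial.eval x F = 0)).card ≤
      d * Fintype.card (Fin n → ZMod p) :=
    h1.trans (Nat.mul_le_mul_right _ hd)
  have h3 : (p : ℝ) * ((univ.filter (fun x : Fin n → ZMod p =>
      MvPolynomial.eval x F = 0)).card : ℝ) ≤
      d * (Fintype.card (Fin n → ZMod p) : ℝ) := by exact_mod_cast h2
  rw [hcard] at h3
  exact h3

/-- the number of the solutions of `F = r` -/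
theorem fibre_le {n p : ℕ} [hp : Fact p.Prime] (F : MvPolynomial (Fin n) (ZMod p)) (r : ZMod p)
    (hF : F - MvPolynomial.C r ≠ 0) (d : ℕ) (hd : F.totalDegree ≤ d) :
    (p : ℝ) * ((univ.filter (fun x : Fin n → ZMod p => MvPolynomial.eval x F = r)).card : ℝ) ≤
      d * (p : ℝ) ^ n := by
  classical
  have h1 := zeros_le (F - MvPolynomial.C r) hF d (by
    refine (MvPolynomial.totalDegree_sub _ _).trans ?_
    rw [MvPolynomial.totalDegree_C]
    exact max_le hd (Nat.zero_le _))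
  have h2 : (univ.filter (fun x : Fin n → ZMod p => MvPolynomial.eval x (F - MvPolynomial.C r) = 0)) =
      univ.filter (fun x : Fin n → ZMod p => MvPolynomial.eval x F = r) := by
    ext x
    rw [mem_filter, mem_filter, map_sub, MvPolynomial.eval_C, sub_eq_zero]
  rw [h2] at h1
  exact h1

/-- **`P + Q` with `P` of weight `a ≥ 1` and `Q` of weight `0` is admissible.** -/
theorem good_two {n : ℕ} (w : Fin n → ℤ) (a : ℕ) (ha : 1 ≤ a) (P Q : MvPolynomial (Fin n) ℤ)
    (hP : Wgt w a P) (hQ : Wgt w 0 Q) (hP0 : P ≠ 0) (hQc : a = 1 ∨ ∀ c, Q ≠ MvPolynomial.C c) :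
    Good (P + Q) := by
  classical
  obtain ⟨v⟩ : Nonempty (Fin n) := by
    obtain ⟨e, he⟩ := MvPolynomial.exists_coeff_ne_zero hP0
    have h1 := hP e (MvPolynomial.mem_support_iff.mpr he)
    by_contra hcon
    rw [not_nonempty_iff] at hcon
    rw [univ_eq_empty, sum_empty] at h1
    omega
  obtain ⟨E, hE0, K, hK, B₀, h⟩ := bin_data v a P Q hP0 hQc
  obtain ⟨B₁, hB₁⟩ := Pool.Agent.Y837.SW.rp_ne_zero P hP0
  obtain ⟨Cz, hCz⟩ := cz n ((P + Q).totalDegree + P.totalDegree)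
  refine ⟨E, P.totalDegree + Cz + (P + Q).totalDegree + Q.totalDegree + a * K, 1 / 2, B₀ + B₁, hE0,
    by positivity, by norm_num, ?_⟩
  intro p hp hBp r hr
  have hpp := hp.out
  have hp0 : (0 : ℝ) < p := by exact_mod_cast hpp.pos
  obtain ⟨hrel, hq, hchi⟩ := h p hp (by omega) r hr
  have hPp0 : rp p P ≠ 0 := hB₁ p (by omega)
  have hwP : ∀ e ∈ (rp p P).support, ∑ i, w i * (e i : ℤ) = (a : ℤ) := wgt_rp hP p
  have hwQ : ∀ e ∈ (rp p Q - MvPolynomial.C r).support, ∑ i, w i * (e i : ℤ) = 0 := by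
    intro e he
    have h1 := MvPolynomial.support_sub _ _ _ he
    rw [mem_union] at h1
    rcases h1 with h1 | h1
    · exact wgt_rp hQ p e h1
    · rw [MvPolynomial.mem_support_iff, MvPolynomial.coeff_C] at h1
      have h2 : 0 = e := by
        by_contra h2
        rw [if_neg h2] at h1
        exact h1 rfl
      rw [← h2]
      simp
  have hF : rp p (P + Q) = rp p P + rp p Q := by
    unfold Pool.Agent.Y837.SV.rp
    rw [map_add]
  have hFr : rp p (P + Q) - MvPolynomial.C r = rp p P + (rp p Q - MvPolynomial.C r) := by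
    rw [hF]
    ring
  have hirr : Irreducible (rp p (P + Q) - MvPolynomial.C r) := by
    rw [hFr]
    exact two_irr w a ha _ _ hwP hwQ hPp0 hrel hq
  refine ⟨hirr, ?_⟩
  have hPnu : ¬ IsUnit (rp p P) := by
    have h1 := not_unit_add w a (by omega) (rp p P) 0 hwP (by simp) hPp0
    rwa [add_zero] at h1
  have hQr0 : rp p Q - MvPolynomial.C r ≠ 0 := by
    intro h0
    rw [h0] at hrel
    exact hPnu (hrel dvd_rfl (dvd_zero _))
  have h0 := zeros_le (rp p P) hPp0 P.totalDegree (rp_degree P)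
  have h1 : (p : ℝ) ^ 2 * ((univ.filter (fun x : Fin n → ZMod p =>
      MvPolynomial.eval x (rp p P) = 0 ∧ MvPolynomial.eval x (rp p Q) = r)).card : ℝ) ≤
      Cz * (p : ℝ) ^ n := by
    have hndvd : ¬ (rp p (P + Q) - MvPolynomial.C r) ∣ rp p P := by
      intro hd
      have h2 : (rp p (P + Q) - MvPolynomial.C r) ∣ rp p Q - MvPolynomial.C r := by
        have h3 := dvd_sub (dvd_refl (rp p (P + Q) - MvPolynomial.C r)) hd
        have h4 : rp p (P + Q) - MvPolynomial.C r - rp p P = rp p Q - MvPolynomial.C r := by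
          rw [hF]
          ring
        rwa [h4] at h3
      exact hirr.not_isUnit (hrel hd h2)
    have h2 := hCz p hp _ _ hirr hndvd (by
      refine (MvPolynomial.totalDegree_sub _ _).trans ?_
      rw [MvPolynomial.totalDegree_C]
      exact max_le ((rp_degree _).trans (Nat.le_add_right _ _)) (Nat.zero_le _))
      ((rp_degree P).trans (Nat.le_add_left _ _))
    have h3 : (univ.filter (fun x : Fin n → ZMod p =>
        MvPolynomial.eval x (rp p P) = 0 ∧ MvPolynomial.eval x (rp p Q) = r)).card ≤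
        (univ.filter (fun z : Fin n → ZMod p => MvPolynomial.eval z
          (rp p (P + Q) - MvPolynomial.C r) = 0 ∧
          MvPolynomial.eval z (rp p P) = 0)).card := by
      refine card_le_card fun x hx => ?_
      rw [mem_filter] at hx ⊢
      refine ⟨mem_univ _, ?_, hx.2.1⟩
      rw [hFr, map_add, map_sub, MvPolynomial.eval_C, hx.2.1, hx.2.2, sub_self, add_zero]
    obtain ⟨Y, hY⟩ : ∃ Y, Y = (univ.filter (fun x : Fin n → ZMod p =>
        MvPolynomial.eval x (rp p P) = 0 ∧ MvPolynomial.eval x (rp p Q) = r)).card := ⟨_, rfl⟩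
    have h4 : p * (p * Y) ≤ Cz * p ^ n := by
      refine le_trans ?_ h2
      rw [hY]
      exact Nat.mul_le_mul_left _ (Nat.mul_le_mul_left _ (by convert h3))
    have h5 : (p : ℝ) * ((p : ℝ) * Y) ≤ Cz * (p : ℝ) ^ n := by exact_mod_cast h4
    rw [← hY, sq, mul_assoc]
    exact h5
  have h2 : ∀ χ : DirichletCharacter ℂ p, χ ≠ 1 → χ ^ a = 1 →
      ‖∑ x : Fin n → ZMod p, (if MvPolynomial.eval x (rp p P) = 0 then 0 else
        χ ((r - MvPolynomial.eval x (rp p Q)) / MvPolynomial.eval x (rp p P)))‖ * Real.sqrt p ≤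
        K * (p : ℝ) ^ n := by
    intro χ hχ1 hχ
    have h3 := hchi χ hχ1 hχ _ rfl (by omega)
    have h5 : χ ^ (p - 1) = 1 := by
      have := χ.pow_card_eq_one
      rwa [ZMod.card_units] at this
    have h6 : χ ^ (Nat.gcd a (p - 1)) = 1 := pow_gcd_eq_one.2 ⟨hχ, h5⟩
    have ht0 : 0 < Nat.gcd a (p - 1) := Nat.gcd_pos_of_pos_left _ (by omega)
    have ht2 : 2 ≤ Nat.gcd a (p - 1) := by
      by_contra h7
      have h8 : Nat.gcd a (p - 1) = 1 := by omega
      rw [h8, pow_one] at h6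
      exact hχ1 h6
    have h7 : ∑ x : Fin n → ZMod p, (if MvPolynomial.eval x (rp p P) = 0 then 0 else
        χ ((r - MvPolynomial.eval x (rp p Q)) / MvPolynomial.eval x (rp p P))) =
        ∑ x : Fin n → ZMod p, χ ((r - MvPolynomial.eval x (rp p Q)) *
          MvPolynomial.eval x (rp p P) ^ (Nat.gcd a (p - 1) - 1)) := by
      refine Finset.sum_congr rfl fun x _ => ?_
      exact char_div _ ht2 χ h6 _ _
    rw [h7]
    exact h3
  have hsc : ∀ x : Fin n → ZMod p, ∀ l : ZMod p, l ≠ 0 →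
      MvPolynomial.eval (fun i => x i * l ^ (w i)) (rp p (P + Q)) =
        MvPolynomial.eval x (rp p P) * l ^ a + MvPolynomial.eval x (rp p Q) := by
    intro x l hl
    rw [hF, map_add, rp_eval, rp_eval, rp_eval, rp_eval,
      Pool.Agent.Y837.SV.scale_aeval P w a hP x l hl, Pool.Agent.Y837.SV.scale_aeval Q w 0 hQ x l hl,
      zpow_zero, one_mul, zpow_natCast, mul_comm]
  have h3 := two_count ha w (rp p (P + Q)) (rp p P) (rp p Q) hsc r P.totalDegree Cz K
    (P + Q).totalDegree Q.totalDegree hK h0 (by convert h1)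
    (fibre_le _ r hirr.ne_zero _ (rp_degree _)) (fibre_le _ r hQr0 _ (rp_degree _))
    (by intro χ hχ1 hχ; convert h2 χ hχ1 hχ)
  have h4 := sqrt_conv hpp h3
  convert h4

end Pool.Agent.X145.S3
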